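import Pool.Agent.CHU.Core1

/-!
# CHU/Core2: the parameters and the contradiction, in abstract form
-/

namespace Pool.Agent.CHU
open Pool.Agent.ZCM MvPolynomial Filter

/-- the criterion for the numbers `v` -/
def CritH {r : ℕ} (v : Fin (r + 1) → ℂ) (Ca : ℝ) : Prop :=
  ∀ A B : ℕ, 1 ≤ A → 1 ≤ B → ∀ n0 : ℕ, ∃ n ≥ n0, ∀ P : MvPolynomial (Fin (r + 1)) ℤ,
    P.totalDegree ≤ A * n →
    nm (P.map (Int.castRingHom ℂ)) ≤ Real.exp (B * n * Real.log n) →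
    aeval v P = 0 ∨ Real.exp (-(Ca * A * B * (n : ℝ) ^ 2 * Real.log n)) < ‖aeval v P‖

theorem npow_eq (n B : ℕ) (hn : 1 ≤ n) : ((n : ℝ)) ^ (B * n) = Real.exp (B * n * Real.log n) := by
  have h0 : (0 : ℝ) < n := by exact_mod_cast hn
  rw [show (B : ℝ) * n * Real.log n = ((B * n : ℕ) : ℝ) * Real.log n by push_cast; ring,
    Real.exp_nat_mul, Real.exp_log h0]

/-- size of the polynomials `G` -/
theorem G_size {r : ℕ} (G : ℕ → ℕ → ℕ → ℕ → MvPolynomial (Fin (r + 1)) ℤ)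
    (hGn : ∀ m k i j : ℕ, nm ((G m k i j).map (Int.castRingHom ℂ)) ≤
      (5 * ((i : ℝ) + j + k + 1)) ^ k * (max 1 (m : ℝ)) ^ (i + j + k))
    (D T n w : ℕ) (hDT : 5 * (2 * D + T) ≤ n ^ 2) (hD : D ≤ n ^ 2)
    (hw : 2 * (T + (2 * D + T)) ≤ w * n) (hn : 1 ≤ n) :
    ∀ m ≤ D, ∀ k < T, ∀ i < D, ∀ j < D,
      nm ((G m k i j).map (Int.castRingHom ℂ)) ≤ (n : ℝ) ^ (w * n) := by
  intro m hm k hk i hi j hj
  have hn1 : (1 : ℝ) ≤ n := by exact_mod_cast hn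
  have hn2 : (1 : ℝ) ≤ (n : ℝ) ^ 2 := one_le_pow₀ hn1
  have h1 : (5 * ((i : ℝ) + j + k + 1)) ≤ (n : ℝ) ^ 2 := by
    have h : 5 * (i + j + k + 1) ≤ n ^ 2 := by
      have : i + j + k + 1 ≤ 2 * D + T := by omega
      exact (Nat.mul_le_mul_left 5 this).trans hDT
    exact_mod_cast h
  have h2 : max 1 (m : ℝ) ≤ (n : ℝ) ^ 2 := by
    refine max_le hn2 ?_
    exact_mod_cast hm.trans hD
  have h3 : (5 * ((i : ℝ) + j + k + 1)) ^ k ≤ ((n : ℝ) ^ 2) ^ T :=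
    (pow_le_pow_left₀ (by positivity) h1 k).trans (pow_le_pow_right₀ hn2 hk.le)
  have h4 : (max 1 (m : ℝ)) ^ (i + j + k) ≤ ((n : ℝ) ^ 2) ^ (2 * D + T) :=
    (pow_le_pow_left₀ (by positivity) h2 _).trans (pow_le_pow_right₀ hn2 (by omega))
  calc nm ((G m k i j).map (Int.castRingHom ℂ))
      ≤ (5 * ((i : ℝ) + j + k + 1)) ^ k * (max 1 (m : ℝ)) ^ (i + j + k) := hGn m k i j
    _ ≤ ((n : ℝ) ^ 2) ^ T * ((n : ℝ) ^ 2) ^ (2 * D + T) :=
        mul_le_mul h3 h4 (by positivity) (by positivity)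
    _ = (n : ℝ) ^ (2 * (T + (2 * D + T))) := by
        rw [← pow_add, ← pow_mul]
    _ ≤ (n : ℝ) ^ (w * n) := pow_le_pow_right₀ hn1 hw

/-- the conditions on `n` -/
theorem large_n (V : ℝ) (Cn : ℝ) (e0 d0 w0 : ℕ) : ∃ n0 : ℕ, ∀ n ≥ n0, 5 * e0 ≤ n ∧ 4 ≤ n ∧
    V ^ (2 * e0) ≤ n ∧ 3 * d0 ≤ n ∧ w0 ≤ n ∧ Cn * Real.log n ≤ n := by
  obtain ⟨n1, hn1⟩ := exists_nat_ge (V ^ (2 * e0))
  have h1 : ∀ᶠ n : ℕ in atTop, Cn * Real.log n ≤ n := by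
    have h2 := Real.isLittleO_log_id_atTop.bound (show (0 : ℝ) < 1 / (|Cn| + 1) by positivity)
    have h3 := tendsto_natCast_atTop_atTop (R := ℝ) |>.eventually h2
    filter_upwards [h3, eventually_ge_atTop 1] with n hn hn1
    have h4 : 0 ≤ Real.log n := Real.log_natCast_nonneg n
    have h5 : (0 : ℝ) ≤ n := by positivity
    simp only [id_eq, Real.norm_eq_abs, abs_of_nonneg h4, abs_of_nonneg h5] at hn
    calc Cn * Real.log n ≤ (|Cn| + 1) * Real.log n := by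
          refine mul_le_mul_of_nonneg_right ?_ h4
          linarith [le_abs_self Cn]
      _ ≤ (|Cn| + 1) * (1 / (|Cn| + 1) * n) := by
          refine mul_le_mul_of_nonneg_left hn (by positivity)
      _ = n := by field_simp
  obtain ⟨n2, hn2⟩ := eventually_atTop.1 h1
  refine ⟨max (max (5 * e0) 4) (max (max n1 (3 * d0)) (max w0 n2)), fun n hn => ?_⟩
  simp only [ge_iff_le, max_le_iff] at hn
  obtain ⟨⟨ha, hb⟩, ⟨hc, hd⟩, he, hf⟩ := hn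
  refine ⟨ha, hb, ?_, hd, he, hn2 n hf⟩
  exact hn1.trans (by exact_mod_cast hc)

end Pool.Agent.CHU
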