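import Mathlib.RingTheory.AlgebraicIndependent.TranscendenceBasis
import Mathlib.RingTheory.AlgebraicIndependent.Transcendental
import Mathlib.Analysis.Complex.Basic

/-! # Pairs of algebraically dependent numbers: the closed sets of rank one

`FF z` is the set of the complex numbers algebraic over `ℚ(z)`. -/

set_option autoImplicit false

namespace Pool.Agent.CHU
open Algebra AlgebraicIndependent

/-- the numbers algebraic over `ℚ(z)` -/
def FF (z : ℂ) : Set ℂ := {x | IsAlgebraic (adjoin ℚ ({z} : Set ℂ)) x}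

theorem FF_eq (z : ℂ) : FF z = (matroid ℚ ℂ).closure {z} := by
  rw [matroid_closure_eq]; rfl

theorem mem_FF_self (z : ℂ) : z ∈ FF z := by
  rw [FF_eq]; exact Matroid.mem_closure_of_mem' _ (Set.mem_singleton z) (Set.mem_univ z)

theorem FF_add {z x y : ℂ} (hx : x ∈ FF z) (hy : y ∈ FF z) : x + y ∈ FF z :=
  IsAlgebraic.add hx hy

theorem FF_neg {z x : ℂ} (hx : x ∈ FF z) : -x ∈ FF z := IsAlgebraic.neg hx

theorem FF_sub {z x y : ℂ} (hx : x ∈ FF z) (hy : y ∈ FF z) : x - y ∈ FF z :=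
  IsAlgebraic.sub hx hy

theorem FF_mul {z x y : ℂ} (hx : x ∈ FF z) (hy : y ∈ FF z) : x * y ∈ FF z :=
  IsAlgebraic.mul hx hy

theorem FF_inv {z x : ℂ} (hx : x ∈ FF z) : x⁻¹ ∈ FF z := IsAlgebraic.inv hx

theorem FF_of_alg {z x : ℂ} (hx : IsAlgebraic ℚ x) : x ∈ FF z := hx.extendScalars
  (FaithfulSMul.algebraMap_injective ℚ (adjoin ℚ ({z} : Set ℂ)))

theorem FF_trans {x y z : ℂ} (hx : x ∈ FF y) (hy : y ∈ FF z) : x ∈ FF z := by
  rw [FF_eq] at *
  exact Matroid.closure_subset_closure_of_subset_closure (Set.singleton_subset_iff.2 hy) hx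

theorem mem_closure_empty {x : ℂ} : x ∈ (matroid ℚ ℂ).closure ∅ ↔ IsAlgebraic ℚ x := by
  rw [matroid_closure_eq]
  constructor
  · intro h
    have h1 : IsAlgebraic (adjoin ℚ (∅ : Set ℂ)) x := h
    rw [adjoin_empty] at h1
    exact Subalgebra.isAlgebraic_of_isAlgebraic_bot h1
  · intro h
    have h2 : IsAlgebraic (adjoin ℚ (∅ : Set ℂ)) x := h.extendScalars
      (FaithfulSMul.algebraMap_injective ℚ (adjoin ℚ (∅ : Set ℂ)))
    exact h2

/-- exchange -/
theorem FF_symm {x y : ℂ} (hx : Transcendental ℚ x) (h : x ∈ FF y) : y ∈ FF x := by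
  rw [FF_eq] at *
  have h1 : x ∈ (matroid ℚ ℂ).closure (insert y ∅) \ (matroid ℚ ℂ).closure ∅ := by
    refine ⟨by simpa using h, ?_⟩
    rw [mem_closure_empty]; exact hx
  have h2 := (Matroid.closure_exchange h1).1
  simpa using h2

theorem algInd_iff (x y : ℂ) : AlgebraicIndependent ℚ ![x, y] ↔ Transcendental ℚ y ∧ x ∉ FF y := by
  rw [iff_transcendental_adjoin_image (0 : Fin 2)]
  have h1 : (![x, y] '' {(0 : Fin 2)}ᶜ) = {y} := by
    ext v
    constructor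
    · rintro ⟨i, hi, rfl⟩
      fin_cases i
      · simp at hi
      · simp
    · rintro rfl
      exact ⟨1, by simp, rfl⟩
  rw [h1]
  have h2 : AlgebraicIndependent ℚ (fun j : {j : Fin 2 // j ≠ 0} => ![x, y] j) ↔ Transcendental ℚ y := by
    have : Subsingleton {j : Fin 2 // j ≠ 0} := ⟨by
      rintro ⟨i, hi⟩ ⟨j, hj⟩
      ext
      simp only
      omega⟩
    rw [algebraicIndependent_singleton_iff (⟨1, by simp⟩ : {j : Fin 2 // j ≠ 0})]
    rfl
  rw [h2]
  rfl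

/-- dependent transcendental numbers: symmetric form -/
theorem dep_iff {x y : ℂ} (hy : Transcendental ℚ y) : ¬ AlgebraicIndependent ℚ ![x, y] ↔ x ∈ FF y := by
  rw [algInd_iff]
  constructor
  · intro h
    by_contra h2
    exact h ⟨hy, h2⟩
  · rintro h ⟨_, h2⟩
    exact h2 h

/-- two translates, both dependent on `y`, have their difference in `FF y` -/
theorem diff_mem {x x' y : ℂ} (hy : Transcendental ℚ y) (h : ¬ AlgebraicIndependent ℚ ![x, y])
    (h' : ¬ AlgebraicIndependent ℚ ![x', y]) : x - x' ∈ FF y :=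
  FF_sub ((dep_iff hy).1 h) ((dep_iff hy).1 h')

/-- STRUCTURE of the dependent pairs in a grid -/
theorem pairs_structure {P W : ℂ} (hPW : AlgebraicIndependent ℚ ![P, W]) (J L : Set ℂ)
    (hJt : ∀ x ∈ J, Transcendental ℚ x) (hLt : ∀ y ∈ L, Transcendental ℚ y)
    (hJ : ∀ x ∈ J, ∀ x' ∈ J, x ≠ x' → ∃ c : ℂ, IsAlgebraic ℚ c ∧ c * (x - x') = P)
    (hJ' : ∀ x ∈ J, ∀ x' ∈ J, x - x' ∈ FF P)
    (hL : ∀ y ∈ L, ∀ y' ∈ L, y ≠ y' → ∃ c : ℂ, IsAlgebraic ℚ c ∧ c * (y - y') = W)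
    (hL' : ∀ y ∈ L, ∀ y' ∈ L, y - y' ∈ FF W)
    (D : Set (ℂ × ℂ)) (hD : D = {p | p.1 ∈ J ∧ p.2 ∈ L ∧ ¬ AlgebraicIndependent ℚ ![p.1, p.2]}) :
    (∃ a, ∀ p ∈ D, p.1 = a) ∨ (∃ b, ∀ p ∈ D, p.2 = b) ∨
      ((∀ p ∈ D, ∀ q ∈ D, p.1 = q.1 → p.2 = q.2) ∧ (∀ p ∈ D, ∀ q ∈ D, p.2 = q.2 → p.1 = q.1)) := by
  subst hD
  have hW : Transcendental ℚ W := ((algInd_iff P W).1 hPW).1
  have hPF : P ∉ FF W := ((algInd_iff P W).1 hPW).2
  have hP : Transcendental ℚ P := fun h => hPF (FF_of_alg h)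
  have hWF : W ∉ FF P := fun h => hPF (FF_symm hW h)
  -- key facts
  have row : ∀ x ∈ J, ∀ y ∈ L, ∀ y' ∈ L, y ≠ y' → ¬ AlgebraicIndependent ℚ ![x, y] →
      ¬ AlgebraicIndependent ℚ ![x, y'] → x ∈ FF W := by
    intro x hx y hy y' hy' hne h h'
    have h1 : y ∈ FF x := FF_symm (hJt x hx) ((dep_iff (hLt y hy)).1 h)
    have h2 : y' ∈ FF x := FF_symm (hJt x hx) ((dep_iff (hLt y' hy')).1 h')
    obtain ⟨c, hc, hcW⟩ := hL y hy y' hy' hne
    have h3 : W ∈ FF x := by rw [← hcW]; exact FF_mul (FF_of_alg hc) (FF_sub h1 h2)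
    exact FF_symm hW h3
  have col : ∀ y ∈ L, ∀ x ∈ J, ∀ x' ∈ J, x ≠ x' → ¬ AlgebraicIndependent ℚ ![x, y] →
      ¬ AlgebraicIndependent ℚ ![x', y] → y ∈ FF P := by
    intro y hy x hx x' hx' hne h h'
    obtain ⟨c, hc, hcP⟩ := hJ x hx x' hx' hne
    have h3 : P ∈ FF y := by
      rw [← hcP]; exact FF_mul (FF_of_alg hc) (diff_mem (hLt y hy) h h')
    exact FF_symm hP h3
  by_cases hA : ∃ a ∈ J, a ∈ FF W
  · obtain ⟨a, ha, haW⟩ := hA
    have hWa : W ∈ FF a := FF_symm (hJt a ha) haW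
    -- only one such
    have huniq : ∀ x ∈ J, x ∈ FF W → x = a := by
      intro x hx hxW
      by_contra hne
      obtain ⟨c, hc, hcP⟩ := hJ x hx a ha hne
      exact hPF (by rw [← hcP]; exact FF_mul (FF_of_alg hc) (FF_sub hxW haW))
    by_cases hu : ∃ y ∈ L, y ∈ FF W
    · obtain ⟨y0, hy0, hy0W⟩ := hu
      left
      refine ⟨a, ?_⟩
      rintro ⟨x, y⟩ ⟨hx, hy, hd⟩
      simp only at hx hy hd ⊢
      refine huniq x hx ?_
      have h1 : y ∈ FF W := by
        have := FF_add (hL' y hy y0 hy0) hy0W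
        simpa using this
      exact FF_trans ((dep_iff (hLt y hy)).1 hd) h1
    · -- row `a` is empty, all other rows have at most one partner
      push Not at hu
      have hrowa : ∀ y ∈ L, AlgebraicIndependent ℚ ![a, y] := by
        intro y hy
        by_contra h
        have h1 : y ∈ FF a := FF_symm (hJt a ha) ((dep_iff (hLt y hy)).1 h)
        exact hu y hy (FF_trans h1 haW)
      right; right
      have hrow1 : ∀ p ∈ {p : ℂ × ℂ | p.1 ∈ J ∧ p.2 ∈ L ∧ ¬ AlgebraicIndependent ℚ ![p.1, p.2]},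
          ∀ q ∈ {p : ℂ × ℂ | p.1 ∈ J ∧ p.2 ∈ L ∧ ¬ AlgebraicIndependent ℚ ![p.1, p.2]},
          p.1 = q.1 → p.2 = q.2 := by
        rintro ⟨x, y⟩ ⟨hx, hy, hd⟩ ⟨x', y'⟩ ⟨hx', hy', hd'⟩ h
        simp only at hx hy hd hx' hy' hd' h ⊢
        subst h
        by_contra hne
        have h1 := row x hx y hy y' hy' hne hd hd'
        have h2 := huniq x hx h1
        subst h2
        exact hd (hrowa y hy)
      refine ⟨hrow1, ?_⟩
      rintro ⟨x, y⟩ ⟨hx, hy, hd⟩ ⟨x', y'⟩ ⟨hx', hy', hd'⟩ h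
      simp only at hx hy hd hx' hy' hd' h ⊢
      subst h
      by_contra hne
      have h1 := col y hy x hx x' hx' hne hd hd'
      -- then `x ∈ FF P`, so `a ∈ FF P`
      have h2 : x ∈ FF P := FF_trans ((dep_iff (hLt y hy)).1 hd) h1
      have h3 : a ∈ FF P := by
        have := FF_add (hJ' a ha x hx) h2
        simpa using this
      exact hWF (FF_trans hWa h3)
  · push Not at hA
    have hrow1 : ∀ p ∈ {p : ℂ × ℂ | p.1 ∈ J ∧ p.2 ∈ L ∧ ¬ AlgebraicIndependent ℚ ![p.1, p.2]},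
        ∀ q ∈ {p : ℂ × ℂ | p.1 ∈ J ∧ p.2 ∈ L ∧ ¬ AlgebraicIndependent ℚ ![p.1, p.2]},
        p.1 = q.1 → p.2 = q.2 := by
      rintro ⟨x, y⟩ ⟨hx, hy, hd⟩ ⟨x', y'⟩ ⟨hx', hy', hd'⟩ h
      simp only at hx hy hd hx' hy' hd' h ⊢
      subst h
      by_contra hne
      exact hA x hx (row x hx y hy y' hy' hne hd hd')
    by_cases hB : ∃ b ∈ L, b ∈ FF P
    · obtain ⟨b, hb, hbP⟩ := hB
      have huniq : ∀ y ∈ L, y ∈ FF P → y = b := by
        intro y hy hyP
        by_contra hne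
        obtain ⟨c, hc, hcW⟩ := hL y hy b hb hne
        exact hWF (by rw [← hcW]; exact FF_mul (FF_of_alg hc) (FF_sub hyP hbP))
      by_cases hu : ∃ x ∈ J, x ∈ FF P
      · obtain ⟨x0, hx0, hx0P⟩ := hu
        right; left
        refine ⟨b, ?_⟩
        rintro ⟨x, y⟩ ⟨hx, hy, hd⟩
        simp only at hx hy hd ⊢
        refine huniq y hy ?_
        have h1 : x ∈ FF P := by
          have := FF_add (hJ' x hx x0 hx0) hx0P
          simpa using this
        exact FF_trans (FF_symm (hJt x hx) ((dep_iff (hLt y hy)).1 hd)) h1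
      · push Not at hu
        right; right
        refine ⟨hrow1, ?_⟩
        rintro ⟨x, y⟩ ⟨hx, hy, hd⟩ ⟨x', y'⟩ ⟨hx', hy', hd'⟩ h
        simp only at hx hy hd hx' hy' hd' h ⊢
        subst h
        by_contra hne
        have h1 := col y hy x hx x' hx' hne hd hd'
        exact hu x hx (FF_trans ((dep_iff (hLt y hy)).1 hd) h1)
    · push Not at hB
      right; right
      refine ⟨hrow1, ?_⟩
      rintro ⟨x, y⟩ ⟨hx, hy, hd⟩ ⟨x', y'⟩ ⟨hx', hy', hd'⟩ h
      simp only at hx hy hd hx' hy' hd' h ⊢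
      subst h
      by_contra hne
      exact hB y hy (col y hy x hx x' hx' hne hd hd')

end Pool.Agent.CHU
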