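import Pool.Agent.CHU.Defs
import Pool.Agent.ZCM.Quasi
import Pool.Agent.ZFin.Growth
import Pool.Agent.ZFin.SchwarzC

/-!
# CHU, row B (helper49): the analytic part of the proof of Chudnovsky's theorem

`F = sum_(i,j < N) p i j wp^i f^j`, `f(z) = zeta(z) - kap z` (period `w1`), points `u_m = w1/2 + m w2`. If `F` vanishes to the
order `T` at `u_0, ..., u_(M-1)` and to the order `k < T` at `u_M`, then `|F^(k)(u_M)| <= T^T H exp(-M^2 T)`.
-/

namespace Pool.Agent.CHU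

open Filter Topology PowerSeries Pool.Agent.ZCM Pool.Agent.ZFin

open scoped Nat

namespace Ana

variable (L : PeriodPair) (a b κ : ℂ)

/-- the entire function `S^(3N) F` -/
noncomputable def GG (N : ℕ) (p : ℕ → ℕ → ℂ) (z : ℂ) : ℂ :=
  ∑ i ∈ Finset.range N, ∑ j ∈ Finset.range N, p i j * ev (QQ a b) z ^ i *
    (ev (RR a b) z - κ * z * ev (SS a b) z) ^ j * ev (SS a b) z ^ (3 * N - 2 * i - j)

lemma GG_diff (N : ℕ) (p : ℕ → ℕ → ℂ) : Differentiable ℂ (GG a b κ N p) := by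
  have hS := differentiable_ev (Link_Ent_SS a b)
  have hQ := differentiable_ev (Link_Ent_QQ a b)
  have hR := differentiable_ev (Link_Ent_RR a b)
  unfold GG
  fun_prop

lemma GG_eq (h2 : L.g₂ = -4 * a) (h3 : L.g₃ = -4 * b) (N : ℕ) (p : ℕ → ℕ → ℂ) {z : ℂ} (hz : z ∉ L.lattice) :
    GG a b κ N p z = ev (SS a b) z ^ (3 * N) * Faux L κ N p z := by
  have hQ := link_Q L a b h2 h3 hz
  have hR := link_R L a b h2 h3 hz
  unfold GG Faux fz
  rw [Finset.mul_sum]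
  refine Finset.sum_congr rfl fun i hi => ?_
  rw [Finset.mul_sum]
  refine Finset.sum_congr rfl fun j hj => ?_
  have hi' := Finset.mem_range.1 hi
  have hj' := Finset.mem_range.1 hj
  have e : ev (SS a b) z ^ (3 * N) = (ev (SS a b) z ^ 2) ^ i * ev (SS a b) z ^ j * ev (SS a b) z ^ (3 * N - 2 * i - j) := by
    rw [← pow_mul, ← pow_add, ← pow_add]
    congr 1
    omega
  have e2 : ev (RR a b) z - κ * z * ev (SS a b) z = ev (SS a b) z * (zetaL L z - κ * z) := by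
    rw [← hR]
    ring
  rw [e2, ← hQ, e, mul_pow, mul_pow]
  ring

/-- growth of the three functions -/
lemma grow3 : ∃ A : ℝ, 0 ≤ A ∧ ∀ z : ℂ, ‖ev (SS a b) z‖ ≤ Real.exp (A * (1 + ‖z‖ ^ 2)) ∧
    ‖ev (QQ a b) z‖ ≤ Real.exp (A * (1 + ‖z‖ ^ 2)) ∧
    ‖ev (RR a b) z - κ * z * ev (SS a b) z‖ ≤ Real.exp (A * (1 + ‖z‖ ^ 2)) := by
  obtain ⟨C, hC, h⟩ := grow a b
  have hS := fun z => Growth_ev (Link_Ent_SS a b) (fun r => (h r).1) z
  have hQ := fun z => Growth_ev (Link_Ent_QQ a b) (fun r => (h r).2.1) z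
  have hR := fun z => Growth_ev (Link_Ent_RR a b) (fun r => (h r).2.2.2) z
  refine ⟨C + ‖κ‖, by positivity, fun z => ?_⟩
  have hle : Real.exp (C * (1 + ‖z‖ ^ 2)) ≤ Real.exp ((C + ‖κ‖) * (1 + ‖z‖ ^ 2)) :=
    Real.exp_le_exp.2 (mul_le_mul_of_nonneg_right (by linarith [norm_nonneg κ]) (by positivity))
  refine ⟨(hS z).trans hle, (hQ z).trans hle, ?_⟩
  calc ‖ev (RR a b) z - κ * z * ev (SS a b) z‖ ≤ ‖ev (RR a b) z‖ + ‖κ * z * ev (SS a b) z‖ := norm_sub_le _ _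
    _ = ‖ev (RR a b) z‖ + ‖κ‖ * ‖z‖ * ‖ev (SS a b) z‖ := by rw [norm_mul, norm_mul]
    _ ≤ Real.exp (C * (1 + ‖z‖ ^ 2)) + ‖κ‖ * ‖z‖ * Real.exp (C * (1 + ‖z‖ ^ 2)) :=
        add_le_add (hR z) (mul_le_mul_of_nonneg_left (hS z) (by positivity))
    _ = Real.exp (C * (1 + ‖z‖ ^ 2)) * (‖κ‖ * ‖z‖ + 1) := by ring
    _ ≤ Real.exp (C * (1 + ‖z‖ ^ 2)) * Real.exp (‖κ‖ * ‖z‖) :=
        mul_le_mul_of_nonneg_left (Real.add_one_le_exp _) (Real.exp_nonneg _)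
    _ ≤ Real.exp (C * (1 + ‖z‖ ^ 2)) * Real.exp (‖κ‖ * (1 + ‖z‖ ^ 2)) := by
        refine mul_le_mul_of_nonneg_left (Real.exp_le_exp.2 (mul_le_mul_of_nonneg_left ?_ (norm_nonneg κ))) (Real.exp_nonneg _)
        nlinarith [sq_nonneg (‖z‖ - 1), norm_nonneg z]
    _ = Real.exp ((C + ‖κ‖) * (1 + ‖z‖ ^ 2)) := by rw [← Real.exp_add]; ring_nf

/-- growth of `G` -/
lemma GG_grow : ∃ A : ℝ, 0 ≤ A ∧ ∀ (N : ℕ) (H : ℝ) (p : ℕ → ℕ → ℂ), 0 ≤ H → (∀ i < N, ∀ j < N, ‖p i j‖ ≤ H) → ∀ z : ℂ,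
    ‖GG a b κ N p z‖ ≤ N ^ 2 * H * Real.exp (3 * N * (A * (1 + ‖z‖ ^ 2))) := by
  obtain ⟨A, hA, h⟩ := grow3 a b κ
  refine ⟨A, hA, fun N H p hH hp z => ?_⟩
  obtain ⟨hS, hQ, hR⟩ := h z
  obtain ⟨E, hE⟩ : ∃ E, E = Real.exp (A * (1 + ‖z‖ ^ 2)) := ⟨_, rfl⟩
  rw [← hE] at hS hQ hR
  have hE1 : 1 ≤ E := by
    rw [hE]
    exact Real.one_le_exp (by positivity)
  have hterm : ∀ i ∈ Finset.range N, ∀ j ∈ Finset.range N, ‖p i j * ev (QQ a b) z ^ i *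
      (ev (RR a b) z - κ * z * ev (SS a b) z) ^ j * ev (SS a b) z ^ (3 * N - 2 * i - j)‖ ≤ H * E ^ (3 * N) := by
    intro i hi j hj
    have hi' := Finset.mem_range.1 hi
    have hj' := Finset.mem_range.1 hj
    rw [norm_mul, norm_mul, norm_mul, norm_pow, norm_pow, norm_pow]
    calc ‖p i j‖ * ‖ev (QQ a b) z‖ ^ i * ‖ev (RR a b) z - κ * z * ev (SS a b) z‖ ^ j * ‖ev (SS a b) z‖ ^ (3 * N - 2 * i - j)
        ≤ H * E ^ i * E ^ j * E ^ (3 * N - 2 * i - j) := by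
          have := hp i hi' j hj'
          gcongr
      _ = H * E ^ (i + j + (3 * N - 2 * i - j)) := by rw [pow_add, pow_add]; ring
      _ ≤ H * E ^ (3 * N) := mul_le_mul_of_nonneg_left (pow_le_pow_right₀ hE1 (by omega)) hH
  calc ‖GG a b κ N p z‖ ≤ ∑ i ∈ Finset.range N, ‖∑ j ∈ Finset.range N, p i j * ev (QQ a b) z ^ i *
      (ev (RR a b) z - κ * z * ev (SS a b) z) ^ j * ev (SS a b) z ^ (3 * N - 2 * i - j)‖ := norm_sum_le _ _
    _ ≤ ∑ i ∈ Finset.range N, ∑ j ∈ Finset.range N, ‖p i j * ev (QQ a b) z ^ i *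
      (ev (RR a b) z - κ * z * ev (SS a b) z) ^ j * ev (SS a b) z ^ (3 * N - 2 * i - j)‖ :=
        Finset.sum_le_sum fun i _ => norm_sum_le _ _
    _ ≤ ∑ _i ∈ Finset.range N, ∑ _j ∈ Finset.range N, H * E ^ (3 * N) :=
        Finset.sum_le_sum fun i hi => Finset.sum_le_sum fun j hj => hterm i hi j hj
    _ = N ^ 2 * H * Real.exp (3 * N * (A * (1 + ‖z‖ ^ 2))) := by
        rw [Finset.sum_const, Finset.sum_const, Finset.card_range, nsmul_eq_mul, nsmul_eq_mul, hE, ← Real.exp_nat_mul]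
        push_cast
        ring

/-- analyticity of `F` off the lattice -/
lemma FF_an (N : ℕ) (p : ℕ → ℕ → ℂ) {z : ℂ} (hz : z ∉ L.lattice) : AnalyticAt ℂ (Faux L κ N p) z := by
  have h1 : AnalyticAt ℂ L.weierstrassP z := Link_analyticOnNhd_P L z hz
  have h2 : AnalyticAt ℂ (zetaL L) z := Link_analyticOnNhd_zeta L z hz
  unfold Faux fz
  refine Finset.analyticAt_fun_sum _ fun i _ => Finset.analyticAt_fun_sum _ fun j _ => ?_
  fun_prop

/-- Taylor coefficients of a product -/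
lemma T_low {z0 : ℂ} {f g : ℂ → ℂ} (hf : AnalyticAt ℂ f z0) (hg : AnalyticAt ℂ g z0) {k : ℕ}
    (h : ∀ i < k, iteratedDeriv i g z0 = 0) : iteratedDeriv k (fun z => f z * g z) z0 = f z0 * iteratedDeriv k g z0 := by
  have hk : (k ! : ℂ) ≠ 0 := by exact_mod_cast Nat.factorial_ne_zero k
  have h1 := Link_coeff_T z0 (fun z => f z * g z) k
  rw [Link_T_mul hf hg, coeff_mul, Finset.Nat.sum_antidiagonal_eq_sum_range_succ_mk] at h1
  have h2 : ∑ i ∈ Finset.range (k.succ), coeff i (Link_T z0 f) * coeff (k - i) (Link_T z0 g) =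
      coeff 0 (Link_T z0 f) * coeff k (Link_T z0 g) := by
    rw [Finset.sum_eq_single 0]
    · rw [Nat.sub_zero]
    · intro i hi hi0
      have hi' := Finset.mem_range.1 hi
      rw [Link_coeff_T z0 g, h (k - i) (by omega)]
      simp
    · intro h0
      exact absurd (Finset.mem_range.2 (Nat.succ_pos k)) h0
  rw [h2, Link_coeff_T, Link_coeff_T] at h1
  simp only [Nat.factorial_zero, Nat.cast_one, iteratedDeriv_zero] at h1
  field_simp at h1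
  rw [← h1]

/-- derivatives of `G` off the lattice -/
lemma GG_iter (h2 : L.g₂ = -4 * a) (h3 : L.g₃ = -4 * b) (N : ℕ) (p : ℕ → ℕ → ℂ) {z0 : ℂ} (hz : z0 ∉ L.lattice) {k : ℕ}
    (h : ∀ i < k, iteratedDeriv i (Faux L κ N p) z0 = 0) :
    iteratedDeriv k (GG a b κ N p) z0 = ev (SS a b) z0 ^ (3 * N) * iteratedDeriv k (Faux L κ N p) z0 := by
  have he : GG a b κ N p =ᶠ[𝓝 z0] fun z => ev (SS a b) z ^ (3 * N) * Faux L κ N p z := by
    filter_upwards [(isOpen_compl L).mem_nhds hz] with z hz'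
    exact GG_eq L a b κ h2 h3 N p hz'
  rw [he.iteratedDeriv_eq k]
  exact T_low ((Link_analyticAt_ev (Link_Ent_SS a b) z0).fun_pow _) (FF_an L κ N p hz) h

lemma FF_per (hκ : ∀ z ∉ L.lattice, zetaL L (z + L.ω₁) = zetaL L z + κ * L.ω₁) (N : ℕ) (p : ℕ → ℕ → ℂ) (j : ℕ) :
    ∀ z ∉ L.lattice, Faux L κ N p (z + j * L.ω₁) = Faux L κ N p z := by
  induction j with
  | zero => intro z _; simp
  | succ j ih =>
    intro z hz
    have hadd : z + L.ω₁ ∉ L.lattice := fun h => hz (by simpa using L.lattice.sub_mem h L.ω₁_mem_lattice)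
    have e1 : z + ((j + 1 : ℕ) : ℂ) * L.ω₁ = z + L.ω₁ + j * L.ω₁ := by push_cast; ring
    rw [e1, ih _ hadd]
    unfold Faux fz
    have hP : L.weierstrassP (z + L.ω₁) = L.weierstrassP z := L.weierstrassP_add_coe z ⟨L.ω₁, L.ω₁_mem_lattice⟩
    have hZ : zetaL L (z + L.ω₁) - κ * (z + L.ω₁) = zetaL L z - κ * z := by
      rw [hκ z hz]
      ring
    rw [hP, hZ]

lemma FF_per_iter (hκ : ∀ z ∉ L.lattice, zetaL L (z + L.ω₁) = zetaL L z + κ * L.ω₁) (N : ℕ) (p : ℕ → ℕ → ℂ) (j k : ℕ)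
    {z : ℂ} (hz : z ∉ L.lattice) :
    iteratedDeriv k (Faux L κ N p) (z + j * L.ω₁) = iteratedDeriv k (Faux L κ N p) z := by
  have he : (fun w => Faux L κ N p (w + j * L.ω₁)) =ᶠ[𝓝 z] Faux L κ N p := by
    filter_upwards [(isOpen_compl L).mem_nhds hz] with w hw
    exact FF_per L κ hκ N p j w hw
  have h1 := he.iteratedDeriv_eq k
  rw [iteratedDeriv_comp_add_const] at h1
  exact h1

lemma uj_notMem (m j : ℕ) : um L m + j * L.ω₁ ∉ L.lattice := by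
  intro h
  apply L.ω₁_div_two_notMem_lattice
  have h1 : (m : ℂ) * L.ω₂ ∈ L.lattice := by
    rw [PeriodPair.mem_lattice]
    exact ⟨0, m, by push_cast; ring⟩
  have h2 : (j : ℂ) * L.ω₁ ∈ L.lattice := by
    rw [PeriodPair.mem_lattice]
    exact ⟨j, 0, by push_cast; ring⟩
  have h3 := L.lattice.sub_mem (L.lattice.sub_mem h h2) h1
  have e : um L m + j * L.ω₁ - j * L.ω₁ - m * L.ω₂ = L.ω₁ / 2 := by
    unfold um
    ring
  rwa [e] at h3

lemma uj_notMem' (m : ℕ) : um L m ∉ L.lattice := by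
  have := uj_notMem L m 0
  simpa using this

lemma uj_inj {m j m' j' : ℕ} (h : um L m + j * L.ω₁ = um L m' + j' * L.ω₁) : m = m' ∧ j = j' := by
  have h1 : ((j : ℝ) - j') • L.ω₁ + ((m : ℝ) - m') • L.ω₂ = 0 := by
    rw [Complex.real_smul, Complex.real_smul]
    push_cast
    unfold um at h
    linear_combination h
  have h2 := (LinearIndependent.pair_iff.1 L.indep) _ _ h1
  constructor
  · have := h2.2
    exact_mod_cast (sub_eq_zero.1 this)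
  · have := h2.1
    exact_mod_cast (sub_eq_zero.1 this)

/-- lower bound of `sigma` -/
lemma S_low (h2 : L.g₂ = -4 * a) (h3 : L.g₃ = -4 * b) : ∃ K : ℝ, 0 ≤ K ∧ ∀ m : ℕ,
    Real.exp (-(K * (m + 1) ^ 2)) ≤ ‖ev (SS a b) (um L m)‖ := by
  obtain ⟨η, hη⟩ := zetaL_add L
  obtain ⟨l2, hl2⟩ : ∃ l : L.lattice, (l : ℂ) = L.ω₂ := ⟨⟨L.ω₂, L.ω₂_mem_lattice⟩, rfl⟩
  obtain ⟨hR0, hS⟩ := S_add L a b h2 h3 l2 (η l2) fun z hz => hη z hz l2
  have hexp : ∀ x : ℝ, 0 < x → Real.exp (-|Real.log x|) ≤ x := fun x hx => by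
    calc Real.exp (-|Real.log x|) ≤ Real.exp (Real.log x) := Real.exp_le_exp.2 (neg_abs_le _)
      _ = x := Real.exp_log hx
  obtain ⟨K, hK⟩ : ∃ K : ℝ, K = |Real.log ‖ev (SS a b) (L.ω₁ / 2)‖| + |Real.log ‖ev (RR a b) l2‖| +
      ‖η l2‖ * (‖L.ω₁‖ + ‖L.ω₂‖) := ⟨_, rfl⟩
  have k1 : 0 ≤ |Real.log ‖ev (SS a b) (L.ω₁ / 2)‖| := abs_nonneg _
  have k2 : 0 ≤ |Real.log ‖ev (RR a b) l2‖| := abs_nonneg _
  have k3 : 0 ≤ ‖η l2‖ * (‖L.ω₁‖ + ‖L.ω₂‖) := by positivity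
  refine ⟨K, by rw [hK]; positivity, fun m => ?_⟩
  induction m with
  | zero =>
    have h0 : ev (SS a b) (L.ω₁ / 2) ≠ 0 := fun h => L.ω₁_div_two_notMem_lattice ((S_eq_zero_iff L a b h2 h3 _).1 h)
    have e0 : um L 0 = L.ω₁ / 2 := by
      unfold um
      simp
    rw [e0]
    refine le_trans (Real.exp_le_exp.2 ?_) (hexp _ (norm_pos_iff.2 h0))
    push_cast
    rw [hK]
    nlinarith
  | succ m ih =>
    have e1 : um L (m + 1) = um L m + l2 := by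
      unfold um
      rw [hl2]
      push_cast
      ring
    have hm : (0 : ℝ) ≤ m := m.cast_nonneg
    have hn : ‖um L m‖ ≤ (‖L.ω₁‖ + ‖L.ω₂‖) * (1 + m) := by
      unfold um
      refine (norm_add_le _ _).trans ?_
      rw [norm_div, norm_mul, Complex.norm_natCast]
      have e2 : ‖(2 : ℂ)‖ = 2 := by norm_num
      rw [e2]
      nlinarith [norm_nonneg L.ω₁, norm_nonneg L.ω₂, mul_nonneg hm (norm_nonneg L.ω₁)]
    rw [e1, hS, norm_mul, norm_mul, Complex.norm_exp]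
    have h4 : -(‖η l2‖ * (‖L.ω₁‖ + ‖L.ω₂‖) * (1 + m)) ≤ (η l2 * um L m).re := by
      have h5 : |(η l2 * um L m).re| ≤ ‖η l2 * um L m‖ := Complex.abs_re_le_norm _
      rw [norm_mul] at h5
      have h6 := mul_le_mul_of_nonneg_left hn (norm_nonneg (η l2))
      have h7 := neg_abs_le (η l2 * um L m).re
      nlinarith
    calc Real.exp (-(K * (((m + 1 : ℕ) : ℝ) + 1) ^ 2))
        ≤ Real.exp (-|Real.log ‖ev (RR a b) l2‖| + -(‖η l2‖ * (‖L.ω₁‖ + ‖L.ω₂‖) * (1 + m)) + -(K * (m + 1) ^ 2)) := by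
          refine Real.exp_le_exp.2 ?_
          push_cast
          rw [hK]
          nlinarith [mul_nonneg k1 hm, mul_nonneg k2 hm, mul_nonneg k3 hm]
      _ = Real.exp (-|Real.log ‖ev (RR a b) l2‖|) * Real.exp (-(‖η l2‖ * (‖L.ω₁‖ + ‖L.ω₂‖) * (1 + m))) *
          Real.exp (-(K * (m + 1) ^ 2)) := by rw [Real.exp_add, Real.exp_add]
      _ ≤ ‖ev (RR a b) l2‖ * Real.exp (η l2 * um L m).re * ‖ev (SS a b) (um L m)‖ := by
          refine mul_le_mul (mul_le_mul (hexp _ (norm_pos_iff.2 hR0)) (Real.exp_le_exp.2 h4) (Real.exp_nonneg _)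
            (norm_nonneg _)) ih (Real.exp_nonneg _) (by positivity)

end Ana

open Ana

/-- **row B** -/
theorem anaB (L : PeriodPair) (κ : ℂ) (hκ : ∀ z ∉ L.lattice, zetaL L (z + L.ω₁) = zetaL L z + κ * L.ω₁) :
    ∃ C2 : ℕ, ∀ (N T M : ℕ) (H : ℝ) (p : ℕ → ℕ → ℂ), C2 * N ≤ T → 1 ≤ T → 1 ≤ M → 0 ≤ H →
      (∀ i < N, ∀ j < N, ‖p i j‖ ≤ H) → (∀ m < M, ∀ k < T, iteratedDeriv k (Faux L κ N p) (um L m) = 0) →
      ∀ k < T, (∀ k' < k, iteratedDeriv k' (Faux L κ N p) (um L M) = 0) →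
        ‖iteratedDeriv k (Faux L κ N p) (um L M)‖ ≤ T ^ T * H * Real.exp (-(M ^ 2 * T)) := by
  obtain ⟨a, ha⟩ : ∃ a, a = -L.g₂ / 4 := ⟨_, rfl⟩
  obtain ⟨b, hb⟩ : ∃ b, b = -L.g₃ / 4 := ⟨_, rfl⟩
  have h2 : L.g₂ = -4 * a := by rw [ha]; ring
  have h3 : L.g₃ = -4 * b := by rw [hb]; ring
  obtain ⟨A, hA, hG⟩ := GG_grow a b κ
  obtain ⟨K, hK, hS⟩ := S_low L a b h2 h3
  obtain ⟨c, hc⟩ : ∃ c : ℝ, c = 3 * ‖L.ω₁‖ + ‖L.ω₂‖ := ⟨_, rfl⟩
  have hc0 : 0 ≤ c := by rw [hc]; positivity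
  obtain ⟨C, hC⟩ : ∃ C : ℝ, C = 2 + 3 * (A * (1 + 49 * (c + 1) ^ 2)) + 12 * K := ⟨_, rfl⟩
  refine ⟨⌈C⌉₊, fun N T M H p hT hT1 hM hH hp hz k hk hlow => ?_⟩
  have hCT : C * N ≤ T := by
    calc C * N ≤ ⌈C⌉₊ * N := mul_le_mul_of_nonneg_right (Nat.le_ceil C) (by positivity)
      _ ≤ T := by exact_mod_cast hT
  have hM1 : (1 : ℝ) ≤ M := by exact_mod_cast hM
  have hT1' : (1 : ℝ) ≤ T := by exact_mod_cast hT1
  have hN0 : (0 : ℝ) ≤ N := by positivity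
  -- the points
  obtain ⟨e⟩ : Nonempty (Fin (M * (2 * M)) ≃ Fin M × Fin (2 * M)) := ⟨finProdFinEquiv.symm⟩
  obtain ⟨β, hβ⟩ : ∃ β : Fin (M * (2 * M)) → ℂ, β = fun i => um L (e i).1 + ((e i).2 : ℕ) * L.ω₁ := ⟨_, rfl⟩
  have hinj : Function.Injective β := by
    intro i i' h
    rw [hβ] at h
    obtain ⟨h4, h5⟩ := uj_inj L h
    exact e.injective (Prod.ext (Fin.ext h4) (Fin.ext h5))
  have hzero : ∀ i, ∀ t < T, iteratedDeriv t (GG a b κ N p) (β i) = 0 := by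
    intro i t ht
    rw [hβ]
    have h6 : ∀ s < T, iteratedDeriv s (Faux L κ N p) (um L (e i).1 + ((e i).2 : ℕ) * L.ω₁) = 0 := fun s hs => by
      rw [FF_per_iter L κ hκ N p _ s (uj_notMem' L _)]
      exact hz _ (e i).1.2 s hs
    rw [GG_iter L a b κ h2 h3 N p (uj_notMem L _ _) (fun s hs => h6 s (by omega)), h6 t ht, mul_zero]
  have hpt : ‖um L M‖ ≤ c * M := by
    unfold um
    refine (norm_add_le _ _).trans ?_
    rw [norm_div, norm_mul, Complex.norm_natCast, hc]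
    have e2 : ‖(2 : ℂ)‖ = 2 := by norm_num
    rw [e2]
    nlinarith [norm_nonneg L.ω₁, norm_nonneg L.ω₂, mul_nonneg (sub_nonneg.2 hM1) (norm_nonneg L.ω₁)]
  have hB : ∀ i, ‖β i‖ ≤ c * M := by
    intro i
    rw [hβ]
    unfold um
    have h7 : (((e i).1 : ℕ) : ℝ) ≤ M := by exact_mod_cast (e i).1.2.le
    have h8 : (((e i).2 : ℕ) : ℝ) ≤ 2 * M := by exact_mod_cast (e i).2.2.le
    refine (norm_add_le _ _).trans ((add_le_add (norm_add_le _ _) le_rfl).trans ?_)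
    rw [norm_div, norm_mul, norm_mul, Complex.norm_natCast, Complex.norm_natCast, hc]
    have e2 : ‖(2 : ℂ)‖ = 2 := by norm_num
    rw [e2]
    nlinarith [norm_nonneg L.ω₁, norm_nonneg L.ω₂, mul_nonneg (sub_nonneg.2 hM1) (norm_nonneg L.ω₁),
      mul_le_mul_of_nonneg_right h7 (norm_nonneg L.ω₂), mul_le_mul_of_nonneg_right h8 (norm_nonneg L.ω₁)]
  obtain ⟨ρ, hρ⟩ : ∃ ρ : ℝ, ρ = (c + 1) * M := ⟨_, rfl⟩
  have hρ0 : 0 < ρ := by rw [hρ]; positivity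
  have hcρ : c * M + 1 ≤ ρ := by rw [hρ]; nlinarith
  obtain ⟨S, hSd⟩ : ∃ S : ℝ, S = N ^ 2 * H * Real.exp (3 * N * (A * (1 + (7 * ρ) ^ 2))) := ⟨_, rfl⟩
  have hS0 : 0 ≤ S := by rw [hSd]; positivity
  have hSb : ∀ z : ℂ, ‖z‖ = 7 * ρ → ‖GG a b κ N p z‖ ≤ S := by
    intro z hz
    have h9 := hG N H p hH hp z
    rw [hz] at h9
    rw [hSd]
    exact h9
  have hcM : 0 ≤ c * M := by positivity
  have hcirc : ∀ z ∈ Metric.sphere (um L M) 1, ‖GG a b κ N p z‖ ≤ S * (1 / 3) ^ (M * (2 * M) * T) := by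
    intro z hz1
    have h10 : ‖z‖ ≤ ρ := by
      have h11 : ‖z - um L M‖ = 1 := by simpa [dist_eq_norm] using hz1
      calc ‖z‖ = ‖um L M + (z - um L M)‖ := by ring_nf
        _ ≤ ‖um L M‖ + ‖z - um L M‖ := norm_add_le _ _
        _ ≤ ρ := by rw [h11]; linarith
    have h12 := schwarz_many (M * (2 * M)) T β hinj (GG a b κ N p) (GG_diff a b κ N p) hzero (c * M) (7 * ρ) S hB hcM
      (by linarith) hSb z (by linarith)
    refine h12.trans (mul_le_mul_of_nonneg_left (pow_le_pow_left₀ ?_ ?_ _) hS0)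
    · exact div_nonneg (by positivity) (by linarith)
    · rw [div_le_div_iff₀ (by linarith) (by norm_num)]
      linarith
  have hcau := Complex.norm_iteratedDeriv_le_of_forall_mem_sphere_norm_le (c := um L M) (R := 1)
    (f := GG a b κ N p) k one_pos (GG_diff a b κ N p).diffContOnCl hcirc
  rw [one_pow, div_one, GG_iter L a b κ h2 h3 N p (uj_notMem' L M) hlow, norm_mul, norm_pow] at hcau
  -- the lower bound
  have hlo : Real.exp (-(12 * K * N * M ^ 2)) ≤ ‖ev (SS a b) (um L M)‖ ^ (3 * N) := by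
    refine le_trans ?_ (pow_le_pow_left₀ (Real.exp_nonneg _) (hS M) _)
    rw [← Real.exp_nat_mul]
    refine Real.exp_le_exp.2 ?_
    push_cast
    have h13 : ((M : ℝ) + 1) ^ 2 ≤ 4 * M ^ 2 := by nlinarith
    have h14 := mul_le_mul_of_nonneg_left h13 (mul_nonneg hN0 hK)
    nlinarith
  have hfac : (k.factorial : ℝ) ≤ (T : ℝ) ^ T := by
    have h15 : k.factorial ≤ T ^ T :=
      (Nat.factorial_le_pow k).trans ((Nat.pow_le_pow_left hk.le k).trans (Nat.pow_le_pow_right hT1 hk.le))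
    exact_mod_cast h15
  have hN2 : (N : ℝ) ^ 2 ≤ Real.exp (2 * N) := by
    have h16 : (N : ℝ) ≤ Real.exp N := by linarith [Real.add_one_le_exp (N : ℝ)]
    calc (N : ℝ) ^ 2 ≤ Real.exp N ^ 2 := pow_le_pow_left₀ hN0 h16 2
      _ = Real.exp (2 * N) := by rw [← Real.exp_nat_mul]; norm_num
  have h3e : (1 / 3 : ℝ) ^ (M * (2 * M) * T) ≤ Real.exp (-(2 * M ^ 2 * T)) := by
    have h17 : (1 / 3 : ℝ) ≤ Real.exp (-1) := by
      rw [Real.exp_neg, one_div]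
      have := Real.exp_one_lt_d9
      exact inv_anti₀ (Real.exp_pos 1) (by linarith)
    refine (pow_le_pow_left₀ (by norm_num) h17 _).trans (le_of_eq ?_)
    rw [← Real.exp_nat_mul]
    congr 1
    push_cast
    ring
  have hX : 0 ≤ ‖iteratedDeriv k (Faux L κ N p) (um L M)‖ := norm_nonneg _
  have hmain : Real.exp (-(12 * K * N * M ^ 2)) * ‖iteratedDeriv k (Faux L κ N p) (um L M)‖ ≤
      T ^ T * (Real.exp (2 * N) * H * Real.exp (3 * N * (A * (1 + (7 * ρ) ^ 2))) * Real.exp (-(2 * M ^ 2 * T))) := by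
    refine (mul_le_mul_of_nonneg_right hlo hX).trans (hcau.trans ?_)
    refine mul_le_mul hfac (mul_le_mul ?_ h3e (by positivity) (by positivity)) (by positivity) (by positivity)
    rw [hSd]
    gcongr
  have hE : T ^ T * (Real.exp (2 * N) * H * Real.exp (3 * N * (A * (1 + (7 * ρ) ^ 2))) * Real.exp (-(2 * M ^ 2 * T))) ≤
      Real.exp (-(12 * K * N * M ^ 2)) * (T ^ T * H * Real.exp (-(M ^ 2 * T))) := by
    have e3 : (T : ℝ) ^ T * (Real.exp (2 * N) * H * Real.exp (3 * N * (A * (1 + (7 * ρ) ^ 2))) * Real.exp (-(2 * M ^ 2 * T)))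
        = T ^ T * H * Real.exp (2 * N + 3 * N * (A * (1 + (7 * ρ) ^ 2)) + -(2 * M ^ 2 * T)) := by
      rw [Real.exp_add, Real.exp_add]
      ring
    have e4 : Real.exp (-(12 * K * N * M ^ 2)) * (T ^ T * H * Real.exp (-(M ^ 2 * T))) =
        T ^ T * H * Real.exp (-(12 * K * N * M ^ 2) + -(M ^ 2 * T)) := by
      rw [Real.exp_add]
      ring
    rw [e3, e4]
    refine mul_le_mul_of_nonneg_left (Real.exp_le_exp.2 ?_) (by positivity)
    have hMM : (1 : ℝ) ≤ (M : ℝ) ^ 2 := one_le_pow₀ hM1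
    have hρ2 : 1 + (7 * ρ) ^ 2 ≤ (1 + 49 * (c + 1) ^ 2) * M ^ 2 := by
      rw [hρ]
      nlinarith
    have h18 : 3 * N * (A * (1 + (7 * ρ) ^ 2)) ≤ 3 * N * (A * ((1 + 49 * (c + 1) ^ 2) * M ^ 2)) := by gcongr
    have h19 : 2 * (N : ℝ) ≤ 2 * N * M ^ 2 := by nlinarith
    have h20 : C * N * M ^ 2 ≤ T * M ^ 2 := mul_le_mul_of_nonneg_right hCT (by positivity)
    rw [hC] at h20
    nlinarith
  exact le_of_mul_le_mul_left (hmain.trans hE) (Real.exp_pos _)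

end Pool.Agent.CHU
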