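import Pool.Agent.CHU.Legendre
import Pool.Agent.ZFR.Asm
import Pool.Agent.ZFR.ZAdd2
import Pool.Agent.ZCM.Isog

/-! # Complex multiplication and quasi-periods: `η₁/ω₁ = A + B·2πi/ω₁²` with algebraic `A, B` -/

set_option autoImplicit false

namespace Pool.Agent.CHU
open Filter Topology Pool.Agent.ZCM

/-! ### `℘` is algebraic at torsion points -/

theorem CM_alg_of_derivation (x : ℂ) (h : ∀ D : Derivation ℚ ℂ ℂ, D x = 0) : IsAlgebraic ℚ x := by
  by_contra hx
  obtain ⟨D, hD⟩ := ZFR.exists_derivation_one (k := ℚ) (F := ℂ) hx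
  exact hD (h D)

theorem CM_der_alg (D : Derivation ℚ ℂ ℂ) {x : ℂ} (hx : IsAlgebraic ℚ x) : D x = 0 := by
  have hxi : IsIntegral ℚ x := hx.isIntegral
  have h1 : (minpoly ℚ x) ≠ 0 := minpoly.ne_zero hxi
  have h2 : Polynomial.aeval x (minpoly ℚ x) = 0 := minpoly.aeval ℚ x
  have h3 : D (Polynomial.aeval x (minpoly ℚ x)) = 0 := by rw [h2, map_zero]
  rw [Derivation.map_aeval] at h3
  rw [smul_eq_mul] at h3
  rcases mul_eq_zero.1 h3 with h4 | h4
  · exfalso
    have hsep := (minpoly.irreducible hxi).separable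
    have h5 := hsep.aeval_derivative_ne_zero h2
    exact h5 h4
  · exact h4

theorem P_torsion_alg (L : PeriodPair) (a b : ℂ) (ha : IsAlgebraic ℚ a) (hb : IsAlgebraic ℚ b)
    (h2 : L.g₂ = -4 * a) (h3 : L.g₃ = -4 * b) (z : ℂ) (hz : z ∉ L.lattice) (n : ℕ) (hn : 0 < n)
    (hnz : (n : ℂ) * z ∈ L.lattice) : IsAlgebraic ℚ (L.weierstrassP z) := by
  by_cases hz2 : 2 * z ∈ L.lattice
  · exact ZFR.P_half_alg L a b ha hb h2 h3 z hz hz2
  refine CM_alg_of_derivation _ fun D => ?_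
  obtain ⟨A, B, hAB⟩ := ZFR.exists_AB L a b h2 h3 D (CM_der_alg D ha) (CM_der_alg D hb)
    (fun z w => ZFR.zeta_add L a b h2 h3 z w) (fun z w => ZFR.derivP_add L a b h2 h3 z w)
  -- `A` vanishes on the lattice
  have hA0 : ∀ l : L.lattice, A l = 0 := by
    intro l
    have h4 : 2 * (z + l) ∉ L.lattice := by
      intro h
      apply hz2
      have h5 : 2 * z = 2 * (z + l) - ((2 : ℤ) • (l : ℂ)) := by
        rw [zsmul_eq_mul]; push_cast; ring
      rw [h5]
      exact sub_mem h (L.lattice.smul_mem _ l.2)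
    have h5 := (hAB (z + l) h4).1
    have h6 := (hAB z hz2).1
    rw [L.weierstrassP_add_coe, L.derivWeierstrassP_add_coe, h6, map_add] at h5
    have h7 := ZFR.derivP_ne_zero L a b h2 h3 hz2
    have h8 : A l * L.derivWeierstrassP z = 0 := by linear_combination (-1 : ℂ) * h5
    exact (mul_eq_zero.1 h8).resolve_right h7
  have h4 : A ((n : ℂ) * z) = 0 := hA0 ⟨_, hnz⟩
  have h5 : A ((n : ℂ) * z) = (n : ℂ) * A z := by
    rw [← nsmul_eq_mul, map_nsmul, nsmul_eq_mul]
  rw [h5] at h4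
  have h6 : A z = 0 := (mul_eq_zero.1 h4).resolve_left (by exact_mod_cast hn.ne')
  rw [(hAB z hz2).1, h6, zero_mul]

/-! ### The sublattice `al·Λ` -/

section sub
variable (L : PeriodPair) (al : ℂ) (hal : ∀ l ∈ L.lattice, al * l ∈ L.lattice)

/-- multiplication by `al` on the lattice -/
noncomputable def mulL : L.lattice →ₗ[ℤ] L.lattice where
  toFun l := ⟨al * l, hal _ l.2⟩
  map_add' x y := by ext; simp [mul_add]
  map_smul' n x := by ext; simp; ring

theorem mulL_coe (l : L.lattice) : (mulL L al hal l : ℂ) = al * l := rfl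

theorem mulL_inj (h0 : al ≠ 0) : Function.Injective (mulL L al hal) := by
  intro x y h
  have h1 : (mulL L al hal x : ℂ) = mulL L al hal y := by rw [h]
  rw [mulL_coe, mulL_coe] at h1
  exact Subtype.ext (mul_left_cancel₀ h0 h1)

theorem mulL_finite (h0 : al ≠ 0) : Finite (L.lattice ⧸ LinearMap.range (mulL L al hal)) := by
  have e : (ℤ × ℤ) ≃ₗ[ℤ] L.lattice := L.latticeEquivProd.symm
  have : Module.Free ℤ L.lattice := Module.Free.of_equiv e
  have : Module.Finite ℤ L.lattice := Module.Finite.equiv e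
  apply Submodule.finiteQuotientOfFreeOfRankEq
  exact LinearMap.finrank_range_of_inj (mulL_inj L al hal h0)

/-- cosets -/
theorem coset_bij (h0 : al ≠ 0) : Function.Bijective
    (fun q : (L.lattice ⧸ LinearMap.range (mulL L al hal)) × L.lattice =>
      (Quotient.out q.1 : L.lattice) + mulL L al hal q.2) := by
  have hmk : ∀ c : L.lattice ⧸ LinearMap.range (mulL L al hal),
      (Submodule.Quotient.mk (Quotient.out c : L.lattice)) = c := fun c => Quotient.out_eq' c
  constructor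
  · rintro ⟨c, m⟩ ⟨c', m'⟩ h
    simp only at h
    have h1 : c = c' := by
      have h2 := congrArg (Submodule.Quotient.mk (p := LinearMap.range (mulL L al hal))) h
      rw [Submodule.Quotient.mk_add, Submodule.Quotient.mk_add, hmk, hmk,
        (Submodule.Quotient.mk_eq_zero _).2 (LinearMap.mem_range_self _ m),
        (Submodule.Quotient.mk_eq_zero _).2 (LinearMap.mem_range_self _ m'), add_zero, add_zero] at h2
      exact h2
    subst h1
    have h3 : mulL L al hal m = mulL L al hal m' := add_left_cancel h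
    rw [mulL_inj L al hal h0 h3]
  · intro l
    have h1 : (Submodule.Quotient.mk (p := LinearMap.range (mulL L al hal)) l) =
        Submodule.Quotient.mk (Quotient.out
          (Submodule.Quotient.mk (p := LinearMap.range (mulL L al hal)) l) : L.lattice) :=
      (hmk _).symm
    rw [Submodule.Quotient.eq] at h1
    obtain ⟨m, hm⟩ := h1
    exact ⟨(_, m), by simp only [hm]; abel⟩

end sub

/-! ### the sum over one coset -/

theorem zt_scale (al : ℂ) (h0 : al ≠ 0) (w z : ℂ) : al * zt (al * w) (al * z) = zt w z := by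
  unfold zt
  rw [← mul_sub]
  simp only [div_eq_mul_inv, one_mul, mul_pow, mul_inv]
  have h := mul_inv_cancel₀ h0
  linear_combination ((z - w)⁻¹ + w⁻¹ + z * (w ^ 2)⁻¹ * (al * al⁻¹ + 1)) * h

theorem zt_split (ρ m z : ℂ) : zt (ρ + m) z =
    zt m (z - ρ) + zt (-m) ρ + z * (1 / (ρ - -m) ^ 2 - 1 / (-m) ^ 2) := by
  unfold zt
  have e1 : z - (ρ + m) = z - ρ - m := by ring
  have e2 : ρ - -m = ρ + m := by ring
  have e3 : (-m) ^ 2 = m ^ 2 := by ring
  rw [e1, e2, e3]
  simp only [div_eq_mul_inv, one_mul, inv_neg]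
  ring

theorem CM_shift (L : PeriodPair) (a b : ℂ) (ha : IsAlgebraic ℚ a) (hb : IsAlgebraic ℚ b)
    (h2 : L.g₂ = -4 * a) (h3 : L.g₃ = -4 * b) (η : L.lattice →+ ℂ)
    (hη : ∀ z ∉ L.lattice, ∀ l : L.lattice, zetaL L (z + l) = zetaL L z + η l)
    (al : ℂ) (h0 : al ≠ 0) (hal : ∀ l ∈ L.lattice, al * l ∈ L.lattice) (r : L.lattice) :
    ∃ k : ℂ, IsAlgebraic ℚ k ∧ ∃ V : ℂ → ℂ, ∀ z, al * z ∉ L.lattice →
      HasSum (fun m : L.lattice => al * zt (r + al * m) (al * z)) (V z) ∧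
      ∀ l : L.lattice, V (z + l) = V z + η l + l * k := by
  have hz' : ∀ z, al * z ∉ L.lattice → z ∉ L.lattice := fun z h h' => h (hal z h')
  by_cases hr : ∃ m0 : L.lattice, al * m0 = r
  · obtain ⟨m0, hm0⟩ := hr
    refine ⟨0, isAlgebraic_zero, zetaL L, fun z hz => ⟨?_, fun l => ?_⟩⟩
    · have h4 := (Equiv.addLeft m0).hasSum_iff.2 (hasSum_zt L z)
      refine h4.congr_fun fun m => ?_
      have e1 : (r : ℂ) + al * m = al * ((m0 : ℂ) + m) := by rw [← hm0]; ring
      rw [e1, zt_scale al h0]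
      rfl
    · rw [hη z (hz' z hz) l]
      ring
  · obtain ⟨ρ, hρ⟩ : ∃ ρ : ℂ, ρ = r / al := ⟨_, rfl⟩
    have hρ1 : al * ρ = r := by rw [hρ]; field_simp
    have hρL : ρ ∉ L.lattice := fun h => hr ⟨⟨ρ, h⟩, hρ1⟩
    obtain ⟨N, hN, hNz⟩ := Isog_norm L al h0 hal
    have hk : IsAlgebraic ℚ (L.weierstrassP ρ) :=
      P_torsion_alg L a b ha hb h2 h3 ρ hρL N hN (hNz ρ (by rw [hρ1]; exact r.2))
    refine ⟨_, hk, fun z => zetaL L (z - ρ) + zetaL L ρ + z * L.weierstrassP ρ,
      fun z hz => ⟨?_, fun l => ?_⟩⟩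
    · have h4 := hasSum_zt L (z - ρ)
      have h5 := (Equiv.neg L.lattice).hasSum_iff.2 (hasSum_zt L ρ)
      have h6 := ((Equiv.neg L.lattice).hasSum_iff.2 (L.hasSum_weierstrassP ρ)).mul_left z
      refine ((h4.add h5).add h6).congr_fun fun m => ?_
      have e1 : (r : ℂ) + al * m = al * (ρ + m) := by rw [← hρ1]; ring
      rw [e1, zt_scale al h0, zt_split]
      simp only [Function.comp_apply, Equiv.neg_apply, NegMemClass.coe_neg]
    · have h4 : z - ρ ∉ L.lattice := by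
        intro h
        apply hz
        have h5 : al * z = al * (z - ρ) + r := by rw [← hρ1]; ring
        rw [h5]
        exact add_mem (hal _ h) r.2
      have e1 : z + l - ρ = z - ρ + l := by ring
      simp only [e1]
      rw [hη _ h4 l]
      ring

/-- `al η(al l) = N η(l) + κ l` with a natural number `N` and an algebraic `κ` -/
theorem CM_eta (L : PeriodPair) (a b : ℂ) (ha : IsAlgebraic ℚ a) (hb : IsAlgebraic ℚ b)
    (h2 : L.g₂ = -4 * a) (h3 : L.g₃ = -4 * b) (η : L.lattice →+ ℂ)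
    (hη : ∀ z ∉ L.lattice, ∀ l : L.lattice, zetaL L (z + l) = zetaL L z + η l)
    (al : ℂ) (h0 : al ≠ 0) (hal : ∀ l ∈ L.lattice, al * l ∈ L.lattice) :
    ∃ (N : ℕ) (k : ℂ), IsAlgebraic ℚ k ∧ ∀ l : L.lattice,
      al * η (mulL L al hal l) = N * η l + l * k := by
  have := mulL_finite L al hal h0
  let _ := Fintype.ofFinite (L.lattice ⧸ LinearMap.range (mulL L al hal))
  choose k hk V hV using fun c : L.lattice ⧸ LinearMap.range (mulL L al hal) =>
    CM_shift L a b ha hb h2 h3 η hη al h0 hal (Quotient.out c)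
  have hsum : ∀ z, al * z ∉ L.lattice → al * zetaL L (al * z) = ∑ c, V c z := by
    intro z hz
    have h4 := (Equiv.ofBijective _ (coset_bij L al hal h0)).hasSum_iff.2
      ((hasSum_zt L (al * z)).mul_left al)
    have h5 := h4.prod_fiberwise (g := fun c => V c z) (fun c => ((hV c z hz).1).congr_fun fun m => by
      simp [mulL_coe])
    exact (h5.unique (hasSum_fintype _))
  refine ⟨Fintype.card (L.lattice ⧸ LinearMap.range (mulL L al hal)), ∑ c, k c, ?_, fun l => ?_⟩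
  · exact (IsIntegral.sum _ fun c _ => (hk c).isIntegral).isAlgebraic
  · -- a point outside
    obtain ⟨z, hz⟩ : ∃ z, al * z ∉ L.lattice :=
      ⟨L.ω₁ / 2 / al, by
        have e : al * (L.ω₁ / 2 / al) = L.ω₁ / 2 := by field_simp
        rw [e]; exact L.ω₁_div_two_notMem_lattice⟩
    have hz2 : al * (z + l) ∉ L.lattice := by
      intro h
      apply hz
      have e : al * z = al * (z + l) - mulL L al hal l := by rw [mulL_coe]; ring
      rw [e]
      exact sub_mem h (mulL L al hal l).2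
    have h4 := hsum z hz
    have h5 := hsum (z + l) hz2
    have h6 := hη (al * z) hz (mulL L al hal l)
    have e1 : al * (z + l) = al * z + mulL L al hal l := by rw [mulL_coe]; ring
    rw [e1, h6, mul_add, h4] at h5
    have h7 : ∑ c, V c (z + l) = ∑ c, V c z + Fintype.card
        (L.lattice ⧸ LinearMap.range (mulL L al hal)) * η l + l * ∑ c, k c := by
      rw [Finset.sum_congr rfl fun c _ => (hV c z hz).2 l, Finset.sum_add_distrib,
        Finset.sum_add_distrib, Finset.sum_const, Finset.card_univ, nsmul_eq_mul, Finset.mul_sum]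
    rw [h7] at h5
    linear_combination h5

theorem CM_alg_int (n : ℤ) : IsAlgebraic ℚ (n : ℂ) := by
  have h := isAlgebraic_algebraMap (R := ℚ) (A := ℂ) (n : ℚ)
  simpa using h

/-- **Complex multiplication**: `η₁/ω₁ = A + B · 2πi/ω₁²` with `A, B` algebraic, `B ≠ 0` -/
theorem cm_kappa (L : PeriodPair) (hg2 : IsAlgebraic ℚ L.g₂) (hg3 : IsAlgebraic ℚ L.g₃)
    (η : L.lattice →+ ℂ)
    (hη : ∀ z ∉ L.lattice, ∀ l : L.lattice, zetaL L (z + l) = zetaL L z + η l)
    (al : ℂ) (him : al.im ≠ 0) (hal : ∀ l ∈ L.lattice, al * l ∈ L.lattice) :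
    IsAlgebraic ℚ al ∧ IsAlgebraic ℚ (L.ω₂ / L.ω₁) ∧
    ∃ A B : ℂ, IsAlgebraic ℚ A ∧ IsAlgebraic ℚ B ∧ B ≠ 0 ∧
      η ⟨L.ω₁, L.ω₁_mem_lattice⟩ / L.ω₁ = A + B * (2 * Real.pi * Complex.I) / L.ω₁ ^ 2 := by
  have h0 : al ≠ 0 := by rintro rfl; simp at him
  have h1 : L.ω₁ ≠ 0 := by
    have hind := LinearIndependent.pair_iff.mp L.indep
    intro h
    have := hind 1 0 (by simp [h])
    exact one_ne_zero this.1
  obtain ⟨p, q, h4⟩ := PeriodPair.mem_lattice.mp (hal _ L.ω₁_mem_lattice)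
  obtain ⟨p', q', h5⟩ := PeriodPair.mem_lattice.mp (hal _ L.ω₂_mem_lattice)
  -- `q ≠ 0`
  have hq : (q : ℂ) ≠ 0 := by
    intro hq
    rw [hq, zero_mul, add_zero] at h4
    have h6 : al = (p : ℂ) := (mul_right_cancel₀ h1 h4).symm
    rw [h6] at him
    simp at him
  have hτ : L.ω₂ / L.ω₁ = (al - p) / q := by
    field_simp
    linear_combination h4
  have hal_alg : IsAlgebraic ℚ al := by
    have key : al ^ 2 - ((p + q' : ℤ) : ℂ) * al + ((p * q' - q * p' : ℤ) : ℂ) = 0 := by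
      have : (al ^ 2 - ((p + q' : ℤ) : ℂ) * al + ((p * q' - q * p' : ℤ) : ℂ)) * L.ω₁ = 0 := by
        push_cast
        linear_combination (-(al - q')) * h4 - (q : ℂ) * h5
      exact (mul_eq_zero.mp this).resolve_right h1
    obtain ⟨c, hc⟩ : ∃ c : ℚ, c = ((p + q' : ℤ) : ℚ) := ⟨_, rfl⟩
    obtain ⟨d, hd⟩ : ∃ d : ℚ, d = ((p * q' - q * p' : ℤ) : ℚ) := ⟨_, rfl⟩
    refine ⟨Polynomial.X ^ 2 - Polynomial.C c * Polynomial.X + Polynomial.C d, ?_, ?_⟩
    · intro h
      have h6 : (Polynomial.X ^ 2 - Polynomial.C c * Polynomial.X +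
        Polynomial.C d : Polynomial ℚ).natDegree = 2 := by compute_degree!
      rw [h] at h6
      simp at h6
    · rw [← key, hc, hd]
      simp
  have hτ_alg : IsAlgebraic ℚ (L.ω₂ / L.ω₁) := by
    rw [hτ, div_eq_mul_inv]
    exact (hal_alg.sub (CM_alg_int p)).mul (CM_alg_int q).inv
  refine ⟨hal_alg, hτ_alg, ?_⟩
  have h4i : IsAlgebraic ℚ ((4 : ℂ)⁻¹) := by
    have := (CM_alg_int 4).inv
    simpa using this
  obtain ⟨N, k, hk, hN⟩ := CM_eta L (-L.g₂ / 4) (-L.g₃ / 4)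
    (by rw [div_eq_mul_inv]; exact hg2.neg.mul h4i)
    (by rw [div_eq_mul_inv]; exact hg3.neg.mul h4i) (by ring) (by ring)
    η hη al h0 hal
  obtain ⟨s, hs, hleg⟩ := legendre L η hη
  obtain ⟨l1, hl1⟩ : ∃ l : L.lattice, l = ⟨L.ω₁, L.ω₁_mem_lattice⟩ := ⟨_, rfl⟩
  obtain ⟨l2, hl2⟩ : ∃ l : L.lattice, l = ⟨L.ω₂, L.ω₂_mem_lattice⟩ := ⟨_, rfl⟩
  have hv1 : (l1 : ℂ) = L.ω₁ := by rw [hl1]
  have hv2 : (l2 : ℂ) = L.ω₂ := by rw [hl2]
  rw [← hl1, ← hl2] at hleg
  rw [← hl1]
  have hm : mulL L al hal l1 = p • l1 + q • l2 := by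
    apply Subtype.ext
    rw [mulL_coe, hv1, Submodule.coe_add, Submodule.coe_smul, Submodule.coe_smul, hv1, hv2,
      zsmul_eq_mul, zsmul_eq_mul, h4]
  have h6 := hN l1
  rw [hm, map_add, map_zsmul, map_zsmul, zsmul_eq_mul, zsmul_eq_mul, hv1] at h6
  have hne : al ^ 2 - N ≠ 0 := by
    intro h
    have h7 : al ^ 2 = (N : ℂ) := sub_eq_zero.1 h
    have h8 := congrArg Complex.im h7
    have h9 := congrArg Complex.re h7
    rw [pow_two] at h8 h9
    simp only [Complex.mul_im, Complex.mul_re, Complex.natCast_im, Complex.natCast_re] at h8 h9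
    have h10 : al.re = 0 := by
      have h11 : al.re * al.im = 0 := by linarith
      exact (mul_eq_zero.1 h11).resolve_right him
    rw [h10] at h9
    have h12 : (0 : ℝ) < al.im * al.im := mul_self_pos.2 him
    have h13 : (0 : ℝ) ≤ (N : ℝ) := Nat.cast_nonneg N
    linarith
  have hs_alg : IsAlgebraic ℚ s := by
    rcases hs with rfl | rfl
    · simpa using CM_alg_int 1
    · simpa using CM_alg_int (-1)
  have hs0 : s ≠ 0 := by
    rcases hs with rfl | rfl <;> norm_num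
  have hinv : IsAlgebraic ℚ (al ^ 2 - N)⁻¹ := by
    have h7 : IsAlgebraic ℚ ((N : ℤ) : ℂ) := CM_alg_int N
    rw [Int.cast_natCast] at h7
    exact ((hal_alg.pow 2).sub h7).inv
  refine ⟨k * (al ^ 2 - N)⁻¹, al * q * s * (al ^ 2 - N)⁻¹, hk.mul hinv,
    ((hal_alg.mul (CM_alg_int q)).mul hs_alg).mul hinv, ?_, ?_⟩
  · exact mul_ne_zero (mul_ne_zero (mul_ne_zero h0 hq) hs0) (inv_ne_zero hne)
  · field_simp
    linear_combination L.ω₁ * h6 + (al * q) * hleg - al * η l1 * h4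

end Pool.Agent.CHU
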