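import Pool.Agent.CHU.Tr

/-! # `℘(αz)` is algebraic when `℘(z)` is, for an endomorphism `α` -/

set_option autoImplicit false

namespace Pool.Agent.CHU
open Pool.Agent.ZCM

theorem P_shift (L : PeriodPair) (h2 : IsAlgebraic ℚ L.g₂) (h3 : IsAlgebraic ℚ L.g₃)
    (al : ℂ) (h0 : al ≠ 0) (hal : ∀ l ∈ L.lattice, al * l ∈ L.lattice) (z : ℂ)
    (hz : al * z ∉ L.lattice) (hP : IsAlgebraic ℚ (L.weierstrassP z)) (r : L.lattice) :
    ∃ V : ℂ, IsAlgebraic ℚ V ∧ HasSum (fun m : L.lattice =>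
      al ^ 2 * (1 / (al * z - (r + al * m)) ^ 2 - 1 / (r + al * m) ^ 2)) V := by
  have hsc : ∀ x y : ℂ, al ^ 2 * (1 / (al * x - al * y) ^ 2 - 1 / (al * y) ^ 2) =
      1 / (x - y) ^ 2 - 1 / y ^ 2 := by
    intro x y
    rw [← mul_sub]
    simp only [div_eq_mul_inv, one_mul, mul_pow, mul_inv]
    have h := mul_inv_cancel₀ (pow_ne_zero 2 h0)
    linear_combination (((x - y) ^ 2)⁻¹ - (y ^ 2)⁻¹) * h
  by_cases hr : ∃ m0 : L.lattice, al * m0 = r
  · obtain ⟨m0, hm0⟩ := hr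
    refine ⟨L.weierstrassP z, hP, ?_⟩
    have h4 := (Equiv.addLeft m0).hasSum_iff.2 (L.hasSum_weierstrassP z)
    refine h4.congr_fun fun m => ?_
    have e1 : (r : ℂ) + al * m = al * ((m0 : ℂ) + m) := by rw [← hm0]; ring
    rw [e1, hsc]
    simp only [Function.comp_apply, Equiv.coe_addLeft, Submodule.coe_add]
  · obtain ⟨ρ, hρ⟩ : ∃ ρ : ℂ, ρ = r / al := ⟨_, rfl⟩
    have hρ1 : al * ρ = r := by rw [hρ]; field_simp
    have hρL : ρ ∉ L.lattice := fun h => hr ⟨⟨ρ, h⟩, hρ1⟩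
    obtain ⟨N, hN, hNz⟩ := Isog_norm L al h0 hal
    have hNρ := hNz ρ (by rw [hρ1]; exact r.2)
    have hzρ : z - ρ ∉ L.lattice := by
      intro h
      apply hz
      have h5 : al * z = al * (z - ρ) + r := by rw [← hρ1]; ring
      rw [h5]
      exact add_mem (hal _ h) r.2
    have hρ' : -ρ ∉ L.lattice := fun h => hρL (by simpa using L.lattice.neg_mem h)
    have hPρ : IsAlgebraic ℚ (L.weierstrassP (-ρ)) := by
      -- torsion point: a translate of a half period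
      refine P_translate_alg L h2 h3 (L.ω₁ / 2) _ hρ' ?_ (2 * N) (by omega) ?_
      · refine P_torsion_alg L (((-1 / 4 : ℚ) : ℂ) * L.g₂) (((-1 / 4 : ℚ) : ℂ) * L.g₃)
          (ZFR.SchSc_rat _ h2) (ZFR.SchSc_rat _ h3) (by push_cast; ring) (by push_cast; ring) _
          L.ω₁_div_two_notMem_lattice 2 (by norm_num) ?_
        have e : ((2 : ℕ) : ℂ) * (L.ω₁ / 2) = L.ω₁ := by push_cast; ring
        rw [e]
        exact L.ω₁_mem_lattice
      · have e : ((2 * N : ℕ) : ℂ) * (-ρ - L.ω₁ / 2) =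
            (-2 : ℤ) • ((N : ℂ) * ρ) - (N : ℤ) • L.ω₁ := by
          rw [zsmul_eq_mul, zsmul_eq_mul]; push_cast; ring
        rw [e]
        exact sub_mem (L.lattice.smul_mem _ hNρ) (L.lattice.smul_mem _ L.ω₁_mem_lattice)
    have hPz : IsAlgebraic ℚ (L.weierstrassP (z - ρ)) := by
      refine P_translate_alg L h2 h3 z _ hzρ hP N hN ?_
      have e : (N : ℂ) * (z - ρ - z) = (-1 : ℤ) • ((N : ℂ) * ρ) := by
        rw [zsmul_eq_mul]; push_cast; ring
      rw [e]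
      exact L.lattice.smul_mem _ hNρ
    refine ⟨L.weierstrassP (z - ρ) - L.weierstrassP (-ρ), hPz.sub hPρ, ?_⟩
    have h4 := (L.hasSum_weierstrassP (z - ρ)).sub (L.hasSum_weierstrassP (-ρ))
    refine h4.congr_fun fun m => ?_
    have e1 : (r : ℂ) + al * m = al * (ρ + m) := by rw [← hρ1]; ring
    rw [e1, hsc]
    have e2 : z - (ρ + m) = z - ρ - m := by ring
    have e3 : ρ + m = -(-ρ - m) := by ring
    rw [e2, e3, neg_sq]
    ring

theorem P_CM_alg (L : PeriodPair) (h2 : IsAlgebraic ℚ L.g₂) (h3 : IsAlgebraic ℚ L.g₃)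
    (al : ℂ) (h0 : al ≠ 0) (haa : IsAlgebraic ℚ al) (hal : ∀ l ∈ L.lattice, al * l ∈ L.lattice)
    (z : ℂ) (hz : al * z ∉ L.lattice) (hP : IsAlgebraic ℚ (L.weierstrassP z)) :
    IsAlgebraic ℚ (L.weierstrassP (al * z)) := by
  have := mulL_finite L al hal h0
  let _ := Fintype.ofFinite (L.lattice ⧸ LinearMap.range (mulL L al hal))
  choose V hV1 hV2 using fun c : L.lattice ⧸ LinearMap.range (mulL L al hal) =>
    P_shift L h2 h3 al h0 hal z hz hP (Quotient.out c)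
  have h4 := (Equiv.ofBijective _ (coset_bij L al hal h0)).hasSum_iff.2
    ((L.hasSum_weierstrassP (al * z)).mul_left (al ^ 2))
  have h5 := h4.prod_fiberwise (g := fun c => V c) (fun c => (hV2 c).congr_fun fun m => by
    simp [mulL_coe])
  have h6 := h5.unique (hasSum_fintype _)
  have h7 : IsAlgebraic ℚ (∑ c, V c) :=
    (IsIntegral.sum _ fun c _ => (hV1 c).isIntegral).isAlgebraic
  rw [← h6] at h7
  have h8 : L.weierstrassP (al * z) = (al ^ 2)⁻¹ * (al ^ 2 * L.weierstrassP (al * z)) := by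
    field_simp
  rw [h8]
  exact (haa.pow 2).inv.mul h7

end Pool.Agent.CHU
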