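import Pool.Agent.CHU.Red

/-! # `℘` is algebraic at all points of the division group of the points with `℘` algebraic -/

set_option autoImplicit false

namespace Pool.Agent.CHU
open Pool.Agent.ZCM

theorem P_comb_alg (L : PeriodPair) (h2 : IsAlgebraic ℚ L.g₂) (h3 : IsAlgebraic ℚ L.g₃)
    (u v w : ℂ) (hw : w ∉ L.lattice) (hu : IsAlgebraic ℚ (L.weierstrassP u))
    (hv : IsAlgebraic ℚ (L.weierstrassP v)) (n : ℕ) (hn : 0 < n) (i j : ℤ)
    (h : (n : ℂ) * w - (i * u + j * v) ∈ L.lattice) : IsAlgebraic ℚ (L.weierstrassP w) := by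
  obtain ⟨a, ha⟩ : ∃ a, a = ((-1 / 4 : ℚ) : ℂ) * L.g₂ := ⟨_, rfl⟩
  obtain ⟨b, hb⟩ : ∃ b, b = ((-1 / 4 : ℚ) : ℂ) * L.g₃ := ⟨_, rfl⟩
  have ha' : IsAlgebraic ℚ a := by rw [ha]; exact ZFR.SchSc_rat _ h2
  have hb' : IsAlgebraic ℚ b := by rw [hb]; exact ZFR.SchSc_rat _ h3
  have e2 : L.g₂ = -4 * a := by rw [ha]; push_cast; ring
  have e3 : L.g₃ = -4 * b := by rw [hb]; push_cast; ring
  by_cases hw2 : 2 * w ∈ L.lattice
  · exact ZFR.P_half_alg L a b ha' hb' e2 e3 w hw hw2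
  refine CM_alg_of_derivation _ fun D => ?_
  obtain ⟨A, B, hAB⟩ := ZFR.exists_AB L a b e2 e3 D (CM_der_alg D ha') (CM_der_alg D hb')
    (fun z w => ZFR.zeta_add L a b e2 e3 z w) (fun z w => ZFR.derivP_add L a b e2 e3 z w)
  have hA0 : ∀ l : L.lattice, A l = 0 := by
    intro l
    have h4 : 2 * (w + l) ∉ L.lattice := by
      intro h
      apply hw2
      have h5 : 2 * w = 2 * (w + l) - ((2 : ℤ) • (l : ℂ)) := by
        rw [zsmul_eq_mul]; push_cast; ring
      rw [h5]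
      exact sub_mem h (L.lattice.smul_mem _ l.2)
    have h5 := (hAB (w + l) h4).1
    have h6 := (hAB w hw2).1
    rw [L.weierstrassP_add_coe, L.derivWeierstrassP_add_coe, h6, map_add] at h5
    have h7 := ZFR.derivP_ne_zero L a b e2 e3 hw2
    have h8 : A l * L.derivWeierstrassP w = 0 := by linear_combination (-1 : ℂ) * h5
    exact (mul_eq_zero.1 h8).resolve_right h7
  have hAz : ∀ (m : ℤ) (x : ℂ), A ((m : ℂ) * x) = m * A x := by
    intro m x
    rw [← zsmul_eq_mul, map_zsmul, zsmul_eq_mul]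
  have hAu : ∀ x : ℂ, IsAlgebraic ℚ (L.weierstrassP x) → A x = 0 := by
    intro x hx
    by_cases hx2 : 2 * x ∈ L.lattice
    · have h6 : A (2 * x) = 0 := hA0 ⟨_, hx2⟩
      have h7 := hAz 2 x
      push_cast at h7
      rw [h6] at h7
      exact (mul_eq_zero.1 h7.symm).resolve_left two_ne_zero
    · have h6 := (hAB x hx2).1
      rw [CM_der_alg D hx] at h6
      exact (mul_eq_zero.1 h6.symm).resolve_right (ZFR.derivP_ne_zero L a b e2 e3 hx2)
  have h4 : A ((n : ℂ) * w - (i * u + j * v)) = 0 := hA0 ⟨_, h⟩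
  have h5 : A ((n : ℂ) * w) = (n : ℂ) * A w := by
    have := hAz (n : ℤ) w
    push_cast at this
    exact this
  rw [map_sub, map_add, hAz, hAz, h5, hAu u hu, hAu v hv] at h4
  have h6 : (n : ℂ) * A w = 0 := by linear_combination h4
  have h7 : A w = 0 := (mul_eq_zero.1 h6).resolve_left (by exact_mod_cast hn.ne')
  rw [(hAB w hw2).1, h7, zero_mul]

end Pool.Agent.CHU
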