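import Mathlib
import Pool.Agent.CHU.Pairs

/-! # Explicit pairs: complex conjugation

If `2πi` and `ω` are algebraically independent and `conj ω` is algebraic over `ℚ(ω)` (for instance `ω`
a period of a lattice with complex multiplication which is stable under conjugation), then the
closures of `ℚ(π)` and of `ℚ(ω)` are stable under conjugation. -/

set_option autoImplicit false

namespace Pool.Agent.CHU
open Algebra AlgebraicIndependent ComplexConjugate

/-- complex conjugation as an automorphism over `ℚ` -/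
noncomputable def conjQ : ℂ ≃ₐ[ℚ] ℂ := Complex.conjAe.restrictScalars ℚ

theorem conjQ_apply (x : ℂ) : conjQ x = conj x := rfl

theorem conj_algInd {x y : ℂ} : AlgebraicIndependent ℚ ![conj x, conj y] ↔ AlgebraicIndependent ℚ ![x, y] := by
  have h : (![conj x, conj y] : Fin 2 → ℂ) = (conjQ : ℂ →ₐ[ℚ] ℂ) ∘ ![x, y] := by
    funext i
    fin_cases i <;> rfl
  rw [h]
  exact AlgHom.algebraicIndependent_iff (conjQ : ℂ →ₐ[ℚ] ℂ) conjQ.injective

theorem conj_transcendental {x : ℂ} : Transcendental ℚ (conj x) ↔ Transcendental ℚ x := by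
  have : IsAlgebraic ℚ (conjQ x) ↔ IsAlgebraic ℚ x := isAlgebraic_algHom_iff (conjQ : ℂ →ₐ[ℚ] ℂ) conjQ.injective
  exact not_congr this

theorem conj_FF {x z : ℂ} (hz : Transcendental ℚ z) (hx : x ∈ FF z) : conj x ∈ FF (conj z) := by
  rw [← dep_iff (conj_transcendental.2 hz), conj_algInd, dep_iff hz]
  exact hx

theorem FF_of_mul {z x b : ℂ} (hb : IsAlgebraic ℚ b) (hb0 : b ≠ 0) (h : b * x ∈ FF z) : x ∈ FF z := by
  have h1 : b⁻¹ ∈ FF z := FF_of_alg hb.inv
  have h2 := FF_mul h1 h
  rwa [inv_mul_cancel_left₀ hb0] at h2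

theorem transc_of_algInd {x y : ℂ} (h : AlgebraicIndependent ℚ ![x, y]) : Transcendental ℚ x ∧ Transcendental ℚ y := by
  have h1 := (algInd_iff x y).1 h
  refine ⟨fun hx => h1.2 (FF_of_alg hx), h1.1⟩

/-- (a): numbers whose imaginary part is a nonzero rational multiple of `2π`, and periods -/
theorem conj_log {w t p b : ℂ} {q : ℚ} (hI : AlgebraicIndependent ℚ ![2 * Real.pi * Complex.I, w])
    (hw : IsAlgebraic ℚ (conj w / w)) (hq : q ≠ 0) (ht : t - conj t = q * (2 * Real.pi * Complex.I))
    (hb : IsAlgebraic ℚ b) (hb0 : b ≠ 0) (hp : p = b * w) : AlgebraicIndependent ℚ ![t, p] := by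
  obtain ⟨h2, hwt⟩ := transc_of_algInd hI
  have hw0 : w ≠ 0 := fun h => hwt (h ▸ isAlgebraic_zero)
  have hpt : Transcendental ℚ p := by
    intro h
    apply hwt
    have h3 := hb.inv.mul h
    rwa [hp, inv_mul_cancel_left₀ hb0] at h3
  by_contra hcon
  rw [dep_iff hpt] at hcon
  have hpw : p ∈ FF w := by
    rw [hp]
    exact FF_mul (FF_of_alg hb) (mem_FF_self w)
  have htw : t ∈ FF w := FF_trans hcon hpw
  have hcw : conj w ∈ FF w := by
    have h3 : conj w = (conj w / w) * w := by field_simp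
    rw [h3]
    exact FF_mul (FF_of_alg hw) (mem_FF_self w)
  have htc : conj t ∈ FF w := FF_trans (conj_FF hwt htw) hcw
  have h4 : (q : ℂ) * (2 * Real.pi * Complex.I) ∈ FF w := by
    rw [← ht]
    exact FF_sub htw htc
  have h5 := FF_of_mul (isAlgebraic_algebraMap (A := ℂ) q) (by simpa using hq) h4
  exact ((algInd_iff _ _).1 hI).2 h5

/-- (b): numbers differing from their conjugates by a period -/
theorem conj_ell {w p b : ℂ} (hI : AlgebraicIndependent ℚ ![2 * Real.pi * Complex.I, w])
    (hb : IsAlgebraic ℚ b) (hb0 : b ≠ 0) (hp : p - conj p = b * w) :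
    AlgebraicIndependent ℚ ![2 * Real.pi * Complex.I, p] := by
  obtain ⟨h2, hwt⟩ := transc_of_algInd hI
  set P : ℂ := 2 * Real.pi * Complex.I with hP
  have hPc : conj P = -P := by
    rw [hP, map_mul, map_mul, Complex.conj_I, Complex.conj_ofReal, map_ofNat]
    ring
  by_contra hcon
  have hPp : p ∈ FF P := by
    by_cases hpt : Transcendental ℚ p
    · rw [dep_iff hpt] at hcon
      exact FF_symm h2 hcon
    · rw [Transcendental, not_not] at hpt
      exact FF_of_alg hpt
  have hcp : conj p ∈ FF P := by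
    have h3 := conj_FF h2 hPp
    refine FF_trans h3 ?_
    rw [hPc]
    exact FF_neg (mem_FF_self P)
  have h4 : b * w ∈ FF P := by
    rw [← hp]
    exact FF_sub hPp hcp
  have h5 := FF_of_mul hb hb0 h4
  exact ((algInd_iff _ _).1 hI).2 (FF_symm hwt h5)

end Pool.Agent.CHU
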