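import Pool.Agent.CHU.Cor
import Pool.Agent.ZCM.Bridge
import Pool.Agent.ZCM.Fin

/-! # The CM case in the words of the frozen statement -/

set_option autoImplicit false

namespace Pool.Agent.CHU
open Pool.Agent.ZCM

/-- the statement of the main theorem, as a proposition -/
def ChudKR : Prop := ∀ (L : PeriodPair), IsAlgebraic ℚ L.g₂ → IsAlgebraic ℚ L.g₃ →
  ∀ (η : L.lattice →+ ℂ),
    (∀ z ∉ L.lattice, ∀ l : L.lattice, zetaL L (z + l) = zetaL L z + η l) →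
    AlgebraicIndependent ℚ ![η ⟨L.ω₁, L.ω₁_mem_lattice⟩ / L.ω₁,
      η ⟨L.ω₂, L.ω₂_mem_lattice⟩ - η ⟨L.ω₁, L.ω₁_mem_lattice⟩ / L.ω₁ * L.ω₂]

theorem words (hK : ChudKR) (ω₁ ω₂ : ℂ) (him : (ω₂ / ω₁).im ≠ 0)
    (hg2 : IsAlgebraic ℚ (60 * ∑' q : ℤ × ℤ,
      if q = 0 then (0 : ℂ) else 1 / ((q.1 : ℂ) * ω₁ + (q.2 : ℂ) * ω₂) ^ 4))
    (hg3 : IsAlgebraic ℚ (140 * ∑' q : ℤ × ℤ,
      if q = 0 then (0 : ℂ) else 1 / ((q.1 : ℂ) * ω₁ + (q.2 : ℂ) * ω₂) ^ 6))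
    (hCM : ∃ c : ℂ, (∀ q : ℚ, c ≠ q) ∧ ∃ a b a' b' : ℚ,
      c * ω₁ = (a : ℂ) * ω₁ + (b : ℂ) * ω₂ ∧ c * ω₂ = (a' : ℂ) * ω₁ + (b' : ℂ) * ω₂) :
    AlgebraicIndependent ℚ ![2 * (Real.pi : ℂ) * Complex.I, ω₁] ∧
      AlgebraicIndependent ℚ ![(Real.pi : ℂ), ω₁] ∧ IsAlgebraic ℚ (ω₂ / ω₁) := by
  obtain ⟨c, hc, a, b, a', b', h1, h2⟩ := hCM
  have hω₁ : ω₁ ≠ 0 := by rintro rfl; simp at him
  have him' : c.im ≠ 0 := by
    intro h0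
    have e : c = a + b * (ω₂ / ω₁) := by
      field_simp
      linear_combination h1
    have hb : b = 0 := by
      have h3 : c.im = b * (ω₂ / ω₁).im := by
        rw [e]; simp
      rw [h0] at h3
      have := (mul_eq_zero.1 h3.symm).resolve_right him
      exact_mod_cast this
    exact hc a (by rw [e, hb]; simp)
  obtain ⟨N, s, n, hN, hq, hΔ, hmat⟩ := cm_data ω₁ ω₂ c him him' ⟨a, b, h1⟩ ⟨a', b', h2⟩
  obtain ⟨L, hL1, hL2⟩ := exists_periodPair ω₁ ω₂ him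
  subst hL1 hL2
  rw [← g₂_eq_tsum] at hg2
  rw [← g₃_eq_tsum] at hg3
  obtain ⟨η, hη⟩ := zetaL_add L
  have hal : ∀ l ∈ L.lattice, ((N : ℂ) * c) * l ∈ L.lattice := by
    intro l hl
    obtain ⟨u, v, e⟩ := PeriodPair.mem_lattice.1 hl
    obtain ⟨u', v', e'⟩ := hmat u v
    refine PeriodPair.mem_lattice.2 ⟨u', v', ?_⟩
    rw [← e', ← e]
  have himN : ((N : ℂ) * c).im ≠ 0 := by
    have hN' : (N : ℝ) ≠ 0 := by exact_mod_cast hN.ne'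
    simpa using ⟨hN.ne', him'⟩
  obtain ⟨h5, h6⟩ := cm_independent L hg2 hg3 η hη (hK L hg2 hg3 η hη) _ himN hal
  exact ⟨h5, h6, (cm_kappa L hg2 hg3 η hη _ himN hal).2.1⟩

end Pool.Agent.CHU
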