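import Pool.Agent.CHU.CM
import Pool.Agent.CHU.Words

/-! # Complex multiplication: `conj ω₁ / ω₁` is algebraic

If `d Λ ⊆ M` for two lattices with algebraic invariants, `d ≠ 0`, then `d` is algebraic: the series of
`℘'_M` is a sum over the cosets of `d Λ` of values of `d⁻³ ℘'_Λ`, evaluated at a torsion point. -/

set_option autoImplicit false

namespace Pool.Agent.CHU
open Filter Topology Pool.Agent.ZCM ComplexConjugate

section sub
variable (L M : PeriodPair) (d : ℂ) (hd : ∀ l ∈ L.lattice, d * l ∈ M.lattice)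

/-- multiplication by `d` from one lattice to another -/
noncomputable def mulLM : L.lattice →ₗ[ℤ] M.lattice where
  toFun l := ⟨d * l, hd _ l.2⟩
  map_add' x y := by ext; simp [mul_add]
  map_smul' n x := by ext; simp; ring

theorem mulLM_coe (l : L.lattice) : (mulLM L M d hd l : ℂ) = d * l := rfl

theorem mulLM_inj (h0 : d ≠ 0) : Function.Injective (mulLM L M d hd) := by
  intro x y h
  have h1 : (mulLM L M d hd x : ℂ) = mulLM L M d hd y := by rw [h]
  rw [mulLM_coe, mulLM_coe] at h1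
  exact Subtype.ext (mul_left_cancel₀ h0 h1)

theorem mulLM_finite (h0 : d ≠ 0) : Finite (M.lattice ⧸ LinearMap.range (mulLM L M d hd)) := by
  have e : (ℤ × ℤ) ≃ₗ[ℤ] L.lattice := L.latticeEquivProd.symm
  have e' : (ℤ × ℤ) ≃ₗ[ℤ] M.lattice := M.latticeEquivProd.symm
  have : Module.Free ℤ M.lattice := Module.Free.of_equiv e'
  have : Module.Finite ℤ M.lattice := Module.Finite.equiv e'
  have : Module.Free ℤ L.lattice := Module.Free.of_equiv e
  have : Module.Finite ℤ L.lattice := Module.Finite.equiv e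
  apply Submodule.finiteQuotientOfFreeOfRankEq
  rw [LinearMap.finrank_range_of_inj (mulLM_inj L M d hd h0), ← e.finrank_eq, ← e'.finrank_eq]

/-- cosets -/
theorem cosetLM_bij (h0 : d ≠ 0) : Function.Bijective
    (fun q : (M.lattice ⧸ LinearMap.range (mulLM L M d hd)) × L.lattice =>
      (Quotient.out q.1 : M.lattice) + mulLM L M d hd q.2) := by
  have hmk : ∀ c : M.lattice ⧸ LinearMap.range (mulLM L M d hd),
      (Submodule.Quotient.mk (Quotient.out c : M.lattice)) = c := fun c => Quotient.out_eq' c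
  constructor
  · rintro ⟨c, m⟩ ⟨c', m'⟩ h
    simp only at h
    have h1 : c = c' := by
      have h2 := congrArg (Submodule.Quotient.mk (p := LinearMap.range (mulLM L M d hd))) h
      rw [Submodule.Quotient.mk_add, Submodule.Quotient.mk_add, hmk, hmk,
        (Submodule.Quotient.mk_eq_zero _).2 (LinearMap.mem_range_self _ m),
        (Submodule.Quotient.mk_eq_zero _).2 (LinearMap.mem_range_self _ m'), add_zero, add_zero] at h2
      exact h2
    subst h1
    have h3 : mulLM L M d hd m = mulLM L M d hd m' := add_left_cancel h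
    rw [mulLM_inj L M d hd h0 h3]
  · intro l
    have h1 : (Submodule.Quotient.mk (p := LinearMap.range (mulLM L M d hd)) l) =
        Submodule.Quotient.mk (Quotient.out
          (Submodule.Quotient.mk (p := LinearMap.range (mulLM L M d hd)) l) : M.lattice) :=
      (hmk _).symm
    rw [Submodule.Quotient.eq] at h1
    obtain ⟨m, hm⟩ := h1
    exact ⟨(_, m), by simp only [hm]; abel⟩

/-- `℘'` at torsion points -/
theorem dP_torsion_alg (L : PeriodPair) (h2 : IsAlgebraic ℚ L.g₂) (h3 : IsAlgebraic ℚ L.g₃)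
    (z : ℂ) (hz : z ∉ L.lattice) (n : ℕ) (hn : 0 < n) (hnz : (n : ℂ) * z ∈ L.lattice) :
    IsAlgebraic ℚ (L.derivWeierstrassP z) := by
  have h4i : IsAlgebraic ℚ ((4 : ℂ)⁻¹) := by
    have := (CM_alg_int 4).inv
    simpa using this
  have h1 : IsAlgebraic ℚ (L.weierstrassP z) :=
    P_torsion_alg L (-L.g₂ / 4) (-L.g₃ / 4)
      (by rw [div_eq_mul_inv]; exact h2.neg.mul h4i)
      (by rw [div_eq_mul_inv]; exact h3.neg.mul h4i) (by ring) (by ring) z hz n hn hnz
  have h4 := L.derivWeierstrassP_sq z hz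
  have h5 : IsAlgebraic ℚ (L.derivWeierstrassP z ^ 2) := by
    rw [h4]
    have h44 : IsAlgebraic ℚ (4 : ℂ) := by simpa using CM_alg_int 4
    exact ((h44.mul (h1.pow 3)).sub (h2.mul h1)).sub h3
  exact (IsIntegral.of_pow (by norm_num : 0 < 2) h5.isIntegral).isAlgebraic

include hd in
theorem scale_alg (h0 : d ≠ 0) (h2 : IsAlgebraic ℚ L.g₂) (h3 : IsAlgebraic ℚ L.g₃)
    (h2' : IsAlgebraic ℚ M.g₂) (h3' : IsAlgebraic ℚ M.g₃) (K : ℕ) (hK : 0 < K)
    (hKm : ∀ m ∈ M.lattice, ∃ l ∈ L.lattice, (K : ℂ) * m = d * l) : IsAlgebraic ℚ d := by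
  have := mulLM_finite L M d hd h0
  let _ := Fintype.ofFinite (M.lattice ⧸ LinearMap.range (mulLM L M d hd))
  -- a torsion point
  obtain ⟨w, hw⟩ : ∃ w, w = M.ω₁ / 3 := ⟨_, rfl⟩
  have h3w : (3 : ℂ) * w = M.ω₁ := by rw [hw]; ring
  have hw1 : 2 * w ∉ M.lattice := by
    intro h
    have h5 : w ∈ M.lattice := by
      have e : w = M.ω₁ - 2 * w := by rw [← h3w]; ring
      rw [e]
      exact sub_mem M.ω₁_mem_lattice h
    have h6 := M.ω₁_div_two_notMem_lattice
    obtain ⟨a, b, hab⟩ := PeriodPair.mem_lattice.mp h5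
    have hind := LinearIndependent.pair_iff.mp M.indep
    have h7 := hind (3 * a - 1) (3 * b) (by
      simp only [Complex.real_smul]
      push_cast
      linear_combination (3 : ℂ) * hab + h3w)
    have h8 : (3 : ℝ) * a = 1 := by linarith [h7.1]
    have h9 : (3 : ℤ) * a = 1 := by exact_mod_cast h8
    omega
  have hw0 : w ∉ M.lattice := fun h => hw1 (by
    have e : 2 * w = (2 : ℤ) • w := by rw [zsmul_eq_mul]; push_cast; ring
    rw [e]; exact M.lattice.smul_mem _ h)
  have hPM : IsAlgebraic ℚ (M.derivWeierstrassP w) :=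
    dP_torsion_alg M h2' h3' w hw0 3 (by norm_num) (by push_cast; rw [h3w]; exact M.ω₁_mem_lattice)
  have hPM0 : M.derivWeierstrassP w ≠ 0 :=
    ZFR.derivP_ne_zero M (-M.g₂ / 4) (-M.g₃ / 4) (by ring) (by ring) hw1
  -- the cosets
  have hsum : d ^ 3 * M.derivWeierstrassP w =
      ∑ c : M.lattice ⧸ LinearMap.range (mulLM L M d hd),
        L.derivWeierstrassP ((w - (Quotient.out c : M.lattice)) / d) := by
    have h4 := (Equiv.ofBijective _ (cosetLM_bij L M d hd h0)).hasSum_iff.2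
      ((M.hasSum_derivWeierstrassP w).mul_left (d ^ 3))
    have h5 := h4.prod_fiberwise
      (g := fun c => L.derivWeierstrassP ((w - (Quotient.out c : M.lattice)) / d)) (fun c => by
        refine (L.hasSum_derivWeierstrassP _).congr_fun fun m => ?_
        simp only [Function.comp_apply, Equiv.ofBijective_apply, Submodule.coe_add, mulLM_coe]
        have e1 : (w - ((Quotient.out c : M.lattice) : ℂ)) / d - m =
          (w - ((Quotient.out c : M.lattice) + d * m)) / d := by field_simp; ring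
        rw [e1, div_pow]
        field_simp)
    exact (h5.unique (hasSum_fintype _))
  have hK0 : (K : ℂ) ≠ 0 := by exact_mod_cast hK.ne'
  have halg : ∀ c : M.lattice ⧸ LinearMap.range (mulLM L M d hd), IsAlgebraic ℚ
      (L.derivWeierstrassP ((w - (Quotient.out c : M.lattice)) / d)) := by
    intro c
    obtain ⟨r, hr⟩ : ∃ r : M.lattice, r = Quotient.out c := ⟨_, rfl⟩
    rw [← hr]
    refine dP_torsion_alg L h2 h3 _ ?_ (K * 3) (by positivity) ?_
    · intro h
      have h5 := hd _ h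
      have e : d * ((w - (r : ℂ)) / d) = w - r := by field_simp
      rw [e] at h5
      exact hw0 (by simpa using add_mem h5 r.2)
    · have h6 : 3 * w - (3 : ℤ) • (r : ℂ) ∈ M.lattice := by
        rw [h3w]
        exact sub_mem M.ω₁_mem_lattice (M.lattice.smul_mem _ r.2)
      obtain ⟨l, hl, hl'⟩ := hKm _ h6
      have e : ((K * 3 : ℕ) : ℂ) * ((w - (r : ℂ)) / d) = l := by
        rw [zsmul_eq_mul] at hl'
        push_cast at hl' ⊢
        field_simp
        linear_combination hl'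
      rw [e]
      exact hl
  have h7 : IsAlgebraic ℚ (d ^ 3 * M.derivWeierstrassP w) := by
    rw [hsum]
    exact (IsIntegral.sum _ fun c _ => (halg c).isIntegral).isAlgebraic
  have h8 : IsAlgebraic ℚ (d ^ 3) := by
    have h9 := h7.mul hPM.inv
    rwa [mul_assoc, mul_inv_cancel₀ hPM0, mul_one] at h9
  exact (IsIntegral.of_pow (by norm_num : 0 < 3) h8.isIntegral).isAlgebraic

end sub

theorem conj_ratio_alg (ω₁ ω₂ : ℂ) (him : (ω₂ / ω₁).im ≠ 0)
    (hg2 : IsAlgebraic ℚ (60 * ∑' q : ℤ × ℤ,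
      if q = 0 then (0 : ℂ) else 1 / ((q.1 : ℂ) * ω₁ + (q.2 : ℂ) * ω₂) ^ 4))
    (hg3 : IsAlgebraic ℚ (140 * ∑' q : ℤ × ℤ,
      if q = 0 then (0 : ℂ) else 1 / ((q.1 : ℂ) * ω₁ + (q.2 : ℂ) * ω₂) ^ 6))
    (hCM : ∃ c : ℂ, (∀ q : ℚ, c ≠ q) ∧ ∃ a b a' b' : ℚ,
      c * ω₁ = (a : ℂ) * ω₁ + (b : ℂ) * ω₂ ∧ c * ω₂ = (a' : ℂ) * ω₁ + (b' : ℂ) * ω₂) :
    IsAlgebraic ℚ (conj ω₁ / ω₁) := by
  have hω₁ : ω₁ ≠ 0 := by rintro rfl; simp at him
  have hcω : conj ω₁ ≠ 0 := by simpa using hω₁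
  have him' : (conj ω₂ / conj ω₁).im ≠ 0 := by
    rw [← map_div₀, Complex.conj_im]
    exact neg_ne_zero.2 him
  obtain ⟨L, hL1, hL2⟩ := exists_periodPair ω₁ ω₂ him
  obtain ⟨M, hM1, hM2⟩ := exists_periodPair (conj ω₁) (conj ω₂) him'
  have hL2g : IsAlgebraic ℚ L.g₂ := by rw [g₂_eq_tsum, hL1, hL2]; exact hg2
  have hL3g : IsAlgebraic ℚ L.g₃ := by rw [g₃_eq_tsum, hL1, hL2]; exact hg3
  have hcalg : ∀ x : ℂ, IsAlgebraic ℚ x → IsAlgebraic ℚ (conj x) := fun x hx =>
    (isAlgebraic_algHom_iff ((Complex.conjAe.restrictScalars ℚ : ℂ ≃ₐ[ℚ] ℂ) : ℂ →ₐ[ℚ] ℂ)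
      (Complex.conjAe.restrictScalars ℚ).injective).2 hx
  have hM2g : IsAlgebraic ℚ M.g₂ := by
    rw [g₂_eq_tsum, hM1, hM2]
    have h := hcalg _ hg2
    rw [map_mul, Complex.conj_tsum, map_ofNat] at h
    have e : ∀ q : ℤ × ℤ, conj (if q = 0 then (0 : ℂ) else
        1 / ((q.1 : ℂ) * ω₁ + (q.2 : ℂ) * ω₂) ^ 4) =
        if q = 0 then (0 : ℂ) else 1 / ((q.1 : ℂ) * conj ω₁ + (q.2 : ℂ) * conj ω₂) ^ 4 := by
      intro q
      split_ifs <;> simp
    simp only [e] at h
    simpa using h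
  have hM3g : IsAlgebraic ℚ M.g₃ := by
    rw [g₃_eq_tsum, hM1, hM2]
    have h := hcalg _ hg3
    rw [map_mul, Complex.conj_tsum, map_ofNat] at h
    have e : ∀ q : ℤ × ℤ, conj (if q = 0 then (0 : ℂ) else
        1 / ((q.1 : ℂ) * ω₁ + (q.2 : ℂ) * ω₂) ^ 6) =
        if q = 0 then (0 : ℂ) else 1 / ((q.1 : ℂ) * conj ω₁ + (q.2 : ℂ) * conj ω₂) ^ 6 := by
      intro q
      split_ifs <;> simp
    simp only [e] at h
    simpa using h
  -- the trace of `τ` is rational
  obtain ⟨τ, hτ⟩ : ∃ τ, τ = ω₂ / ω₁ := ⟨_, rfl⟩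
  have hw2 : ω₂ = τ * ω₁ := by rw [hτ]; field_simp
  obtain ⟨s, hs⟩ : ∃ s : ℚ, τ + conj τ = s := by
    obtain ⟨c, hc, a, b, a', b', h1, h2⟩ := hCM
    have e1 : c = a + b * τ := by
      have : (c - (a + b * τ)) * ω₁ = 0 := by rw [hw2] at h1; linear_combination h1
      exact sub_eq_zero.1 ((mul_eq_zero.1 this).resolve_right hω₁)
    have hb : b ≠ 0 := by
      rintro rfl
      exact hc a (by rw [e1]; simp)
    have e2 : c * τ = a' + b' * τ := by
      have : (c * τ - (a' + b' * τ)) * ω₁ = 0 := by rw [hw2] at h2; linear_combination h2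
      exact sub_eq_zero.1 ((mul_eq_zero.1 this).resolve_right hω₁)
    have e3 : (b : ℂ) * τ ^ 2 + (a - b') * τ - a' = 0 := by rw [e1] at e2; linear_combination e2
    have e4 : (b : ℂ) * conj τ ^ 2 + (a - b') * conj τ - a' = 0 := by
      have := congrArg conj e3
      simpa using this
    have hne : τ - conj τ ≠ 0 := by
      intro h
      have h5 := congrArg Complex.im h
      simp only [Complex.sub_im, Complex.conj_im, Complex.zero_im] at h5
      rw [hτ] at h5
      exact him (by linarith)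
    have e5 : (τ - conj τ) * (b * (τ + conj τ) + (a - b')) = 0 := by
      linear_combination e3 - e4
    have e6 := (mul_eq_zero.1 e5).resolve_left hne
    refine ⟨(b' - a) / b, ?_⟩
    have hb' : (b : ℂ) ≠ 0 := by exact_mod_cast hb
    push_cast
    field_simp
    linear_combination e6
  have hct : conj τ = s - τ := by rw [← hs]; ring
  have hcw2 : conj ω₂ = (s - τ) * conj ω₁ := by rw [hw2, map_mul, hct]
  have hden : (s.den : ℂ) * s = s.num := by exact_mod_cast Rat.den_mul_eq_num s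
  have hd0 : (s.den : ℂ) ≠ 0 := by exact_mod_cast s.den_ne_zero
  obtain ⟨d, hd⟩ : ∃ d, d = (s.den : ℂ) * (conj ω₁ / ω₁) := ⟨_, rfl⟩
  have hdω : d * ω₁ = (s.den : ℂ) * conj ω₁ := by rw [hd]; field_simp
  have hdω2 : d * ω₂ = (s.num : ℂ) * conj ω₁ - (s.den : ℂ) * conj ω₂ := by
    rw [hcw2, ← hden, hw2]
    linear_combination τ * hdω
  have hdd : IsAlgebraic ℚ d := by
    refine scale_alg L M d ?_ ?_ hL2g hL3g hM2g hM3g (s.den ^ 2) (by positivity) ?_
    · intro l hl
      obtain ⟨i, j, hij⟩ := PeriodPair.mem_lattice.mp hl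
      refine PeriodPair.mem_lattice.mpr ⟨i * s.den + j * s.num, -(j * s.den), ?_⟩
      rw [← hij, hL1, hL2, hM1, hM2]
      push_cast
      linear_combination (-(i : ℂ)) * hdω - (j : ℂ) * hdω2
    · rw [hd]
      exact mul_ne_zero hd0 (div_ne_zero hcω hω₁)
    · intro m hm
      obtain ⟨i, j, hij⟩ := PeriodPair.mem_lattice.mp hm
      refine ⟨((i * s.den + j * s.num : ℤ) : ℂ) * L.ω₁ + ((-(j * s.den) : ℤ) : ℂ) * L.ω₂,
        PeriodPair.mem_lattice.mpr ⟨_, _, rfl⟩, ?_⟩
      rw [← hij, hL1, hL2, hM1, hM2]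
      push_cast
      linear_combination (-((i : ℂ) * s.den + j * s.num)) * hdω + ((j : ℂ) * s.den) * hdω2
  have e : conj ω₁ / ω₁ = (s.den : ℂ)⁻¹ * d := by rw [hd]; field_simp
  rw [e]
  exact (isAlgebraic_natCast s.den).inv.mul hdd

end Pool.Agent.CHU
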