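import Pool.Agent.CHU.CM
import Pool.Agent.CHU.Pairs

/-! # CM lattices: from `η₁/ω₁, 2πi/ω₁` to `2πi, ω₁` -/

set_option autoImplicit false

namespace Pool.Agent.CHU
open Pool.Agent.ZCM

/-- two numbers algebraic over `ℚ(z)` are dependent -/
theorem dep_of_FF {x y z : ℂ} (hx : x ∈ FF z) (hy : y ∈ FF z) :
    ¬ AlgebraicIndependent ℚ ![x, y] := by
  rw [algInd_iff]
  rintro ⟨h1, h2⟩
  exact h2 (FF_trans hx (FF_symm h1 hy))

/-- `κ = A + B P / w²`, `ρ = c P / w` independent ⇒ `P, w` independent -/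
theorem transfer {P w A B c : ℂ} (hA : IsAlgebraic ℚ A) (hB : IsAlgebraic ℚ B)
    (hc : IsAlgebraic ℚ c) (h : AlgebraicIndependent ℚ ![A + B * P / w ^ 2, c * P / w]) :
    AlgebraicIndependent ℚ ![P, w] := by
  by_contra hn
  rw [algInd_iff, not_and_or, not_not] at hn
  have key : ∀ z : ℂ, P ∈ FF z → w ∈ FF z → False := by
    intro z hP hw
    refine dep_of_FF (z := z) ?_ ?_ h
    · rw [div_eq_mul_inv]
      exact FF_add (FF_of_alg hA) (FF_mul (FF_mul (FF_of_alg hB) hP)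
        (FF_inv (by rw [pow_two]; exact FF_mul hw hw)))
    · rw [div_eq_mul_inv]
      exact FF_mul (FF_mul (FF_of_alg hc) hP) (FF_inv hw)
  rcases hn with hw | hP
  · have hw' : IsAlgebraic ℚ w := by
      by_contra h'
      exact hw h'
    exact key P (mem_FF_self P) (FF_of_alg hw')
  · exact key w hP (mem_FF_self w)

theorem smul_left {c P w : ℂ} (hc : IsAlgebraic ℚ c)
    (h : AlgebraicIndependent ℚ ![c * P, w]) : AlgebraicIndependent ℚ ![P, w] := by
  rw [algInd_iff] at h ⊢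
  refine ⟨h.1, fun hP => h.2 ?_⟩
  exact FF_mul (FF_of_alg hc) hP

/-- **Chudnovsky for CM lattices**, from the independence of `η₁/ω₁` and `η₂ - (η₁/ω₁) ω₂` -/
theorem cm_independent (L : PeriodPair) (hg2 : IsAlgebraic ℚ L.g₂) (hg3 : IsAlgebraic ℚ L.g₃)
    (η : L.lattice →+ ℂ)
    (hη : ∀ z ∉ L.lattice, ∀ l : L.lattice, zetaL L (z + l) = zetaL L z + η l)
    (hI : AlgebraicIndependent ℚ ![η ⟨L.ω₁, L.ω₁_mem_lattice⟩ / L.ω₁,
      η ⟨L.ω₂, L.ω₂_mem_lattice⟩ - η ⟨L.ω₁, L.ω₁_mem_lattice⟩ / L.ω₁ * L.ω₂])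
    (al : ℂ) (him : al.im ≠ 0) (hal : ∀ l ∈ L.lattice, al * l ∈ L.lattice) :
    AlgebraicIndependent ℚ ![2 * (Real.pi : ℂ) * Complex.I, L.ω₁] ∧
      AlgebraicIndependent ℚ ![(Real.pi : ℂ), L.ω₁] := by
  obtain ⟨-, -, A, B, hA, hB, -, hk⟩ := cm_kappa L hg2 hg3 η hη al him hal
  obtain ⟨s, hs, hleg⟩ := legendre L η hη
  have h1 : L.ω₁ ≠ 0 := by
    have hind := LinearIndependent.pair_iff.mp L.indep
    intro h
    have := hind 1 0 (by simp [h])
    exact one_ne_zero this.1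
  have hρ : η ⟨L.ω₂, L.ω₂_mem_lattice⟩ - η ⟨L.ω₁, L.ω₁_mem_lattice⟩ / L.ω₁ * L.ω₂ =
      (-s) * (2 * Real.pi * Complex.I) / L.ω₁ := by
    field_simp
    linear_combination (-1 : ℂ) * hleg
  rw [hρ, hk] at hI
  have hs_alg : IsAlgebraic ℚ (-s) := by
    rcases hs with rfl | rfl
    · simpa using CM_alg_int (-1)
    · simpa using CM_alg_int 1
  have h2 := transfer hA hB hs_alg hI
  refine ⟨h2, ?_⟩
  have hI4 : IsAlgebraic ℚ (2 * Complex.I) := by
    have h3 : IsAlgebraic ℚ Complex.I := by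
      refine ⟨Polynomial.X ^ 2 + 1, ?_, by simp⟩
      intro h
      have h6 : (Polynomial.X ^ 2 + 1 : Polynomial ℚ).natDegree = 2 := by compute_degree!
      rw [h] at h6
      simp at h6
    have h4 := CM_alg_int 2
    push_cast at h4
    exact h4.mul h3
  refine smul_left (c := 2 * Complex.I) hI4 ?_
  have e : 2 * Complex.I * (Real.pi : ℂ) = 2 * (Real.pi : ℂ) * Complex.I := by ring
  rw [e]
  exact h2

end Pool.Agent.CHU
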