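/-
Copyright (c) 2026. Released under Apache 2.0 license as described in the file LICENSE.
-/
import Mathlib

/-!
# Pigeonhole principle for complex linear forms (row S of the Chudnovsky project)

If `l ^ (2 F) < X ^ U`, then `F` complex linear forms in `U` unknowns with coefficients of modulus
at most `W` take simultaneously small values at a nonzero integer point of size less than `X`.
-/

open Finset

namespace CHU

/-- The index (in `0, …, l - 1`) of the subinterval of `[-R, R]` that contains `x`. -/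
noncomputable def box (R : ℝ) (l : ℕ) (x : ℝ) : ℕ :=
  min (l - 1) ⌊(x + R) * l / (2 * R)⌋₊

lemma box_lt (R : ℝ) {l : ℕ} (hl : 1 ≤ l) (x : ℝ) : box R l x < l := by
  unfold box
  have : min (l - 1) ⌊(x + R) * l / (2 * R)⌋₊ ≤ l - 1 := min_le_left _ _
  omega

lemma box_eq {R : ℝ} (hR : 0 < R) {l : ℕ} (hl : 1 ≤ l) {x y : ℝ} (hx : |x| ≤ R) (hy : |y| ≤ R)
    (h : box R l x = box R l y) : |x - y| ≤ 2 * R / l := by
  have hl0 : (0 : ℝ) < l := by exact_mod_cast hl
  -- a point and its interval
  have key : ∀ z : ℝ, |z| ≤ R →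
      (box R l z : ℝ) ≤ (z + R) * l / (2 * R) ∧ (z + R) * l / (2 * R) ≤ box R l z + 1 := by
    intro z hz
    have hz1 : 0 ≤ z + R := by linarith [(abs_le.1 hz).1]
    have hz2 : z + R ≤ 2 * R := by linarith [(abs_le.1 hz).2]
    have h0 : 0 ≤ (z + R) * l / (2 * R) := by positivity
    have h1 : (z + R) * l / (2 * R) ≤ l := by
      rw [div_le_iff₀ (by positivity)]
      nlinarith
    unfold box
    constructor
    · refine le_trans ?_ (Nat.floor_le h0)
      exact_mod_cast min_le_right _ _
    · rcases le_total (l - 1) ⌊(z + R) * l / (2 * R)⌋₊ with hh | hh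
      · rw [min_eq_left hh]
        have : ((l - 1 : ℕ) : ℝ) = l - 1 := by
          rw [Nat.cast_sub hl]; simp
        rw [this]; linarith
      · rw [min_eq_right hh]
        exact (Nat.lt_floor_add_one _).le
  obtain ⟨hx1, hx2⟩ := key x hx
  obtain ⟨hy1, hy2⟩ := key y hy
  rw [h] at hx1 hx2
  have h3 : |(x + R) * l / (2 * R) - (y + R) * l / (2 * R)| ≤ 1 := by
    rw [abs_le]; constructor <;> linarith
  have h4 : (x + R) * l / (2 * R) - (y + R) * l / (2 * R) = (x - y) * (l / (2 * R)) := by
    field_simp; ring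
  rw [h4, abs_mul, abs_of_pos (show (0 : ℝ) < l / (2 * R) by positivity)] at h3
  rw [le_div_iff₀ hl0]
  have : |x - y| * (l / (2 * R)) * (2 * R) = |x - y| * l := by
    field_simp
  nlinarith [abs_nonneg (x - y)]

/-- **Pigeonhole principle for complex linear forms.** -/
theorem pigeon {F U X l : ℕ} (A : Fin F → Fin U → ℂ) {W : ℝ} (hW : ∀ i j, ‖A i j‖ ≤ W)
    (hX : l ^ (2 * F) < X ^ U) (hl : 1 ≤ l) :
    ∃ p : Fin U → ℤ, p ≠ 0 ∧ (∀ j, |p j| < X) ∧
      ∀ i, ‖∑ j, A i j * (p j : ℂ)‖ ≤ 3 * U * W * X / l := by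
  classical
  set R : ℝ := U * W * X with hR
  -- the value of the forms at a point of the cube
  let v : (Fin U → Fin X) → Fin F → ℂ := fun q i => ∑ j, A i j * ((q j : ℕ) : ℂ)
  let φ : (Fin U → Fin X) → Fin F → Fin l × Fin l := fun q i =>
    (⟨box R l (v q i).re, box_lt R hl _⟩, ⟨box R l (v q i).im, box_lt R hl _⟩)
  have hcard : Fintype.card (Fin F → Fin l × Fin l) < Fintype.card (Fin U → Fin X) := by
    simp only [Fintype.card_pi, Fintype.card_prod, Fintype.card_fin, Finset.prod_const,
      Finset.card_univ]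
    calc (l * l) ^ F = l ^ (2 * F) := by rw [pow_mul, pow_two]
      _ < X ^ U := hX
  obtain ⟨q, q', hne, hφ⟩ := Fintype.exists_ne_map_eq_of_card_lt φ hcard
  refine ⟨fun j => ((q j : ℕ) : ℤ) - ((q' j : ℕ) : ℤ), ?_, ?_, ?_⟩
  · intro h
    apply hne
    funext j
    have := congrFun h j
    simp only [Pi.zero_apply, sub_eq_zero, Nat.cast_inj] at this
    exact Fin.ext this
  · intro j
    have h1 := (q j).isLt
    have h2 := (q' j).isLt
    show |((q j : ℕ) : ℤ) - ((q' j : ℕ) : ℤ)| < X
    rw [abs_lt]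
    constructor <;> omega
  · intro i
    have hl0 : (0 : ℝ) < l := by exact_mod_cast hl
    have hsum : ∑ j, A i j * (((((q j : ℕ) : ℤ) - ((q' j : ℕ) : ℤ) : ℤ)) : ℂ)
        = v q i - v q' i := by
      simp only [v, ← Finset.sum_sub_distrib]
      refine Finset.sum_congr rfl fun j _ => ?_
      push_cast
      ring
    rw [hsum]
    -- the size of the values
    have hv : ∀ r : Fin U → Fin X, ‖v r i‖ ≤ R := by
      intro r
      calc ‖v r i‖ ≤ ∑ j, ‖A i j * ((r j : ℕ) : ℂ)‖ := norm_sum_le _ _
        _ ≤ ∑ _j : Fin U, W * X := by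
            refine Finset.sum_le_sum fun j _ => ?_
            rw [norm_mul, Complex.norm_natCast]
            have h1 : ((r j : ℕ) : ℝ) ≤ X := by exact_mod_cast (r j).isLt.le
            have h2 := hW i j
            have h3 : 0 ≤ W := le_trans (norm_nonneg _) h2
            gcongr
        _ = R := by
            rw [Finset.sum_const, Finset.card_univ, Fintype.card_fin, nsmul_eq_mul, hR]; ring
    have hR0 : 0 ≤ R := le_trans (norm_nonneg _) (hv q)
    rcases hR0.eq_or_lt with h0 | hRpos
    · have h1 : v q i = 0 := norm_le_zero_iff.1 (by simpa [← h0] using hv q)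
      have h2 : v q' i = 0 := norm_le_zero_iff.1 (by simpa [← h0] using hv q')
      rw [h1, h2, sub_zero, norm_zero]
      have : 3 * (U : ℝ) * W * X = 3 * R := by rw [hR]; ring
      rw [this, ← h0]; simp
    · have e := congrFun hφ i
      simp only [φ, Prod.mk.injEq, Fin.mk.injEq] at e
      have hre : |(v q i).re - (v q' i).re| ≤ 2 * R / l :=
        box_eq hRpos hl ((Complex.abs_re_le_norm _).trans (hv q))
          ((Complex.abs_re_le_norm _).trans (hv q')) e.1
      have him : |(v q i).im - (v q' i).im| ≤ 2 * R / l :=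
        box_eq hRpos hl ((Complex.abs_im_le_norm _).trans (hv q))
          ((Complex.abs_im_le_norm _).trans (hv q')) e.2
      have hd : 0 ≤ 2 * R / l := by positivity
      have hn : ‖v q i - v q' i‖ ≤ 3 * R / l := by
        have h1 : ‖v q i - v q' i‖ ^ 2 ≤ (3 * R / l) ^ 2 := by
          rw [← Complex.normSq_eq_norm_sq, Complex.normSq_apply, Complex.sub_re, Complex.sub_im]
          have a1 : ((v q i).re - (v q' i).re) * ((v q i).re - (v q' i).re) ≤ (2 * R / l) ^ 2 := by
            rw [← pow_two]; exact sq_le_sq' (by linarith [(abs_le.1 hre).1]) (abs_le.1 hre).2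
          have a2 : ((v q i).im - (v q' i).im) * ((v q i).im - (v q' i).im) ≤ (2 * R / l) ^ 2 := by
            rw [← pow_two]; exact sq_le_sq' (by linarith [(abs_le.1 him).1]) (abs_le.1 him).2
          have a3 : (3 * R / l) ^ 2 = 9 * (R / l) ^ 2 := by ring
          have a4 : (2 * R / l) ^ 2 = 4 * (R / l) ^ 2 := by ring
          nlinarith [sq_nonneg (R / l)]
        exact abs_le_of_sq_le_sq' h1 (by positivity) |>.2
      calc ‖v q i - v q' i‖ ≤ 3 * R / l := hn
        _ = 3 * U * W * X / l := by rw [hR]; ring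

end CHU
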