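import Pool.Agent.CHU.Defs
import Pool.Agent.CHU.Pigeon
import Pool.Agent.ZCM.Size

/-!
# CHU/Core1: the auxiliary polynomial
-/

namespace Pool.Agent.CHU
open Pool.Agent.ZCM MvPolynomial

/-- pigeonhole for arbitrary finite index types -/
theorem pigeonF {I J : Type*} [Fintype I] [Fintype J] {X l : ℕ} (A : J → I → ℂ) {W : ℝ}
    (hW : ∀ i j, ‖A i j‖ ≤ W) (hX : l ^ (2 * Fintype.card J) < X ^ Fintype.card I) (hl : 1 ≤ l) :
    ∃ p : I → ℤ, p ≠ 0 ∧ (∀ j, |p j| < X) ∧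
      ∀ i, ‖∑ j, A i j * (p j : ℂ)‖ ≤ 3 * Fintype.card I * W * X / l := by
  obtain ⟨p, hp0, hpX, hp⟩ := _root_.CHU.pigeon
    (fun (i : Fin (Fintype.card J)) (j : Fin (Fintype.card I)) =>
      A ((Fintype.equivFin J).symm i) ((Fintype.equivFin I).symm j)) (fun i j => hW _ _) hX hl
  refine ⟨fun j => p (Fintype.equivFin I j), ?_, fun j => hpX _, fun i => ?_⟩
  · intro h
    apply hp0
    funext j
    have h1 := congrFun h ((Fintype.equivFin I).symm j)
    simpa using h1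
  · have h1 := hp (Fintype.equivFin J i)
    simp only [Equiv.symm_apply_apply] at h1
    have h2 : ∑ j, A i j * (p (Fintype.equivFin I j) : ℂ)
        = ∑ j, A i ((Fintype.equivFin I).symm j) * (p j : ℂ) := by
      rw [← Equiv.sum_comp (Fintype.equivFin I)
        (fun j => A i ((Fintype.equivFin I).symm j) * (p j : ℂ))]
      simp
    rw [h2]
    exact h1

/-- extension by zero -/
def ext3 {D E : ℕ} (q : Fin D × Fin D × Fin E → ℤ) (i j l : ℕ) : ℤ :=
  if h : i < D ∧ j < D ∧ l < E then q (⟨i, h.1⟩, ⟨j, h.2.1⟩, ⟨l, h.2.2⟩) else 0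

theorem ext3_apply {D E : ℕ} (q : Fin D × Fin D × Fin E → ℤ) (x : Fin D × Fin D × Fin E) :
    ext3 q x.1 x.2.1 x.2.2 = q x := by
  unfold ext3
  rw [dif_pos ⟨x.1.2, x.2.1.2, x.2.2.2⟩]

theorem ext3_abs {D E : ℕ} (q : Fin D × Fin D × Fin E → ℤ) {X : ℕ} (hX : ∀ x, |q x| < X)
    (i j l : ℕ) : |ext3 q i j l| ≤ X := by
  unfold ext3
  split_ifs with h
  · exact (hX _).le
  · simp

theorem sum3 {M : Type*} [AddCommMonoid M] (D E : ℕ) (f : ℕ → ℕ → ℕ → M) :
    ∑ x : Fin D × Fin D × Fin E, f x.1 x.2.1 x.2.2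
      = ∑ i ∈ Finset.range D, ∑ j ∈ Finset.range D, ∑ l ∈ Finset.range E, f i j l := by
  rw [Fintype.sum_prod_type, Finset.sum_range]
  refine Finset.sum_congr rfl fun i _ => ?_
  rw [Fintype.sum_prod_type, Finset.sum_range]
  refine Finset.sum_congr rfl fun j _ => ?_
  rw [Finset.sum_range]

/-- the polynomial of a value -/
noncomputable def Pv {r : ℕ} (D E : ℕ) (p : ℕ → ℕ → ℕ → ℤ)
    (g : ℕ → ℕ → MvPolynomial (Fin (r + 1)) ℤ) : MvPolynomial (Fin (r + 1)) ℤ :=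
  ∑ i ∈ Finset.range D, ∑ j ∈ Finset.range D, ∑ l ∈ Finset.range E,
    C (p i j l) * X 0 ^ l * g i j

/-- the coefficients of the auxiliary function -/
noncomputable def pt (D E : ℕ) (θ : ℂ) (p : ℕ → ℕ → ℕ → ℤ) (i j : ℕ) : ℂ :=
  if i < D ∧ j < D then ∑ l ∈ Finset.range E, (p i j l : ℂ) * θ ^ l else 0

/-- the value -/
noncomputable def Val {r : ℕ} (v : Fin (r + 1) → ℂ)
    (G : ℕ → ℕ → ℕ → ℕ → MvPolynomial (Fin (r + 1)) ℤ) (N : ℕ) (p : ℕ → ℕ → ℂ) (m k : ℕ) : ℂ :=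
  ∑ i ∈ Finset.range N, ∑ j ∈ Finset.range N, p i j * aeval v (G m k i j)

theorem aeval_Pv {r : ℕ} (v : Fin (r + 1) → ℂ)
    (G : ℕ → ℕ → ℕ → ℕ → MvPolynomial (Fin (r + 1)) ℤ) (D E : ℕ) (p : ℕ → ℕ → ℕ → ℤ) (m k : ℕ) :
    aeval v (Pv D E p (G m k)) = Val v G D (pt D E (v 0) p) m k := by
  unfold Pv Val
  rw [map_sum]
  refine Finset.sum_congr rfl fun i hi => ?_
  rw [map_sum]
  refine Finset.sum_congr rfl fun j hj => ?_
  rw [map_sum, pt, if_pos ⟨Finset.mem_range.1 hi, Finset.mem_range.1 hj⟩, Finset.sum_mul]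
  refine Finset.sum_congr rfl fun l _ => ?_
  rw [map_mul, map_mul, map_pow, aeval_X, aeval_C]
  simp

theorem Pv_totalDegree {r : ℕ} (g : ℕ → ℕ → MvPolynomial (Fin (r + 1)) ℤ) (D E A : ℕ)
    (p : ℕ → ℕ → ℕ → ℤ) (hg : ∀ i < D, ∀ j < D, (g i j).totalDegree + E ≤ A) :
    (Pv D E p g).totalDegree ≤ A := by
  unfold Pv
  refine totalDegree_finsetSum_le fun i hi => ?_
  refine totalDegree_finsetSum_le fun j hj => ?_
  refine totalDegree_finsetSum_le fun l hl => ?_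
  have h1 := hg i (Finset.mem_range.1 hi) j (Finset.mem_range.1 hj)
  have h2 := Finset.mem_range.1 hl
  refine (totalDegree_mul _ _).trans ?_
  have h3 : (C (p i j l) * X 0 ^ l : MvPolynomial (Fin (r + 1)) ℤ).totalDegree ≤ l := by
    refine (totalDegree_mul _ _).trans ?_
    rw [totalDegree_C, zero_add]
    refine (totalDegree_pow _ _).trans ?_
    rw [totalDegree_X, mul_one]
  omega

theorem Pv_nm {r : ℕ} (g : ℕ → ℕ → MvPolynomial (Fin (r + 1)) ℤ) (D E : ℕ) (X0 b : ℝ)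
    (hX0 : 0 ≤ X0) (p : ℕ → ℕ → ℕ → ℤ) (hp : ∀ i j l, ((|p i j l| : ℤ) : ℝ) ≤ X0)
    (hg : ∀ i < D, ∀ j < D, nm ((g i j).map (Int.castRingHom ℂ)) ≤ b) :
    nm ((Pv D E p g).map (Int.castRingHom ℂ)) ≤ D * D * E * X0 * b := by
  unfold Pv
  rw [map_sum]
  have hterm : ∀ i ∈ Finset.range D, ∀ j ∈ Finset.range D, ∀ l ∈ Finset.range E,
      nm (MvPolynomial.map (Int.castRingHom ℂ) (C (p i j l) * X 0 ^ l * g i j)) ≤ X0 * b := by
    intro i hi j hj l _
    rw [map_mul, map_mul, map_pow, map_C, map_X]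
    refine (nm_mul_le _ _).trans ?_
    have h1 : nm (C ((Int.castRingHom ℂ) (p i j l)) * X 0 ^ l : MvPolynomial (Fin (r + 1)) ℂ)
        ≤ X0 := by
      refine (nm_mul_le _ _).trans ?_
      rw [nm_C]
      have h2 : nm (X 0 ^ l : MvPolynomial (Fin (r + 1)) ℂ) ≤ 1 := by
        refine (nm_pow_le _ _).trans ?_
        rw [nm_X, one_pow]
      have h3 : ‖(Int.castRingHom ℂ) (p i j l)‖ ≤ X0 := by
        rw [eq_intCast, Complex.norm_intCast, ← Int.cast_abs]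
        exact hp i j l
      calc ‖(Int.castRingHom ℂ) (p i j l)‖ * nm (X 0 ^ l : MvPolynomial (Fin (r + 1)) ℂ)
          ≤ X0 * 1 := mul_le_mul h3 h2 (nm_nonneg _) hX0
        _ = X0 := mul_one _
    exact mul_le_mul h1 (hg i (Finset.mem_range.1 hi) j (Finset.mem_range.1 hj)) (nm_nonneg _) hX0
  calc nm (∑ x ∈ Finset.range D, MvPolynomial.map (Int.castRingHom ℂ)
        (∑ j ∈ Finset.range D, ∑ l ∈ Finset.range E, C (p x j l) * X 0 ^ l * g x j))
      ≤ ∑ x ∈ Finset.range D, ∑ j ∈ Finset.range D, ∑ l ∈ Finset.range E, X0 * b := by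
        refine (nm_sum_le _ _).trans (Finset.sum_le_sum fun i hi => ?_)
        rw [map_sum]
        refine (nm_sum_le _ _).trans (Finset.sum_le_sum fun j hj => ?_)
        rw [map_sum]
        exact (nm_sum_le _ _).trans (Finset.sum_le_sum fun l hl => hterm i hi j hj l hl)
    _ = D * D * E * X0 * b := by
        simp only [Finset.sum_const, Finset.card_range, nsmul_eq_mul]
        ring

theorem coeff_le_nm {r : ℕ} (P : MvPolynomial (Fin (r + 1)) ℤ) (m : Fin (r + 1) →₀ ℕ) :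
    ((|P.coeff m| : ℤ) : ℝ) ≤ nm (P.map (Int.castRingHom ℂ)) := by
  have h := norm_coeff_le_nm (P.map (Int.castRingHom ℂ)) m
  rw [coeff_map, eq_intCast, Complex.norm_intCast] at h
  rw [Int.cast_abs]
  exact h

theorem norm_aeval_le {r : ℕ} (v : Fin (r + 1) → ℂ) (V : ℝ) (hV : 1 ≤ V) (hv : ∀ i, ‖v i‖ ≤ V)
    (P : MvPolynomial (Fin (r + 1)) ℤ) (b : ℝ) (d : ℕ) (hP : P.totalDegree ≤ d)
    (hb : nm (P.map (Int.castRingHom ℂ)) ≤ b) : ‖aeval v P‖ ≤ b * V ^ d := by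
  have h1 : aeval v P = eval v (P.map (Int.castRingHom ℂ)) := by
    rw [eval_map, aeval_def]
    rfl
  rw [h1]
  refine (norm_eval_le _ v V hV hv).trans ?_
  have h2 : (P.map (Int.castRingHom ℂ)).totalDegree ≤ d := by
    refine le_trans ?_ hP
    rw [totalDegree, totalDegree]
    exact Finset.sup_mono (support_map_subset _ _)
  exact mul_le_mul hb (pow_le_pow_right₀ hV h2) (by positivity) ((nm_nonneg _).trans hb)

/-- `p̃ ≠ 0` -/
theorem pt_ne {D E : ℕ} (θ : ℂ) (hθ : Transcendental ℚ θ) (p : ℕ → ℕ → ℕ → ℤ)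
    (h : ∀ i < D, ∀ j < D, pt D E θ p i j = 0) : ∀ i < D, ∀ j < D, ∀ l < E, p i j l = 0 := by
  intro i hi j hj l hl
  have h1 := h i hi j hj
  rw [pt, if_pos ⟨hi, hj⟩] at h1
  by_contra hne
  apply hθ
  refine ⟨∑ l ∈ Finset.range E, Polynomial.C ((p i j l : ℤ) : ℚ) * Polynomial.X ^ l, ?_, ?_⟩
  · intro h0
    have h2 := congrArg (fun q => Polynomial.coeff q l) h0
    simp only [Polynomial.finsetSum_coeff, Polynomial.coeff_C_mul, Polynomial.coeff_X_pow,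
      Polynomial.coeff_zero, mul_ite, mul_one, mul_zero] at h2
    rw [Finset.sum_ite_eq (Finset.range E) l fun l => ((p i j l : ℤ) : ℚ),
      if_pos (Finset.mem_range.2 hl)] at h2
    exact hne (by exact_mod_cast h2)
  · rw [map_sum, ← h1]
    refine Finset.sum_congr rfl fun l _ => ?_
    rw [map_mul, map_pow, Polynomial.aeval_X, Polynomial.aeval_C]
    simp

end Pool.Agent.CHU
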