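import Pool.Agent.CHU.Core2

/-!
# CHU/Core3: the contradiction, in abstract form
-/

namespace Pool.Agent.CHU
open Pool.Agent.ZCM MvPolynomial Filter

theorem Val_eq_sum {r : ℕ} (v : Fin (r + 1) → ℂ)
    (G : ℕ → ℕ → ℕ → ℕ → MvPolynomial (Fin (r + 1)) ℤ) (D E : ℕ)
    (q : Fin D × Fin D × Fin E → ℤ) (m k : ℕ) :
    ∑ x : Fin D × Fin D × Fin E, (aeval v (G m k x.1 x.2.1) * v 0 ^ (x.2.2 : ℕ)) * (q x : ℂ)
      = Val v G D (pt D E (v 0) (ext3 q)) m k := by
  have h1 := sum3 D E (fun i j l => (aeval v (G m k i j) * v 0 ^ l) * ((ext3 q i j l : ℤ) : ℂ))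
  simp only [ext3_apply] at h1
  rw [h1, Val]
  refine Finset.sum_congr rfl fun i hi => Finset.sum_congr rfl fun j hj => ?_
  rw [pt, if_pos ⟨Finset.mem_range.1 hi, Finset.mem_range.1 hj⟩, Finset.sum_mul]
  exact Finset.sum_congr rfl fun l _ => by ring

/-- real number inequality for the first step -/
theorem real_A (Ca d' e K w1 n x : ℝ) (hx : 0 ≤ x) (hd' : 8 * Ca ≤ d') (he : 1 ≤ e) (hK : 1 ≤ K)
    (hd1 : 1 ≤ d') (hn0 : 0 ≤ n) (hn : 2 * (w1 + 2 + K) ≤ n) :
    ((w1 + 2 + K) * n) * x - (d' * e * K * n ^ 2) * x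
      ≤ -(Ca * (2 * e) * (2 * K) * n ^ 2 * x) := by
  have h1 : 0 ≤ e * K * n ^ 2 := by positivity
  have h2 : 8 * Ca * (e * K * n ^ 2) ≤ d' * (e * K * n ^ 2) := mul_le_mul_of_nonneg_right hd' h1
  have h3 : 1 ≤ d' * e * K := by
    have : 1 ≤ d' * e := one_le_mul_of_one_le_of_one_le hd1 he
    exact one_le_mul_of_one_le_of_one_le this hK
  have h4 : n ^ 2 ≤ d' * e * K * n ^ 2 := le_mul_of_one_le_left (by positivity) h3
  have h5 : 2 * (w1 + 2 + K) * n ≤ n * n := mul_le_mul_of_nonneg_right hn hn0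
  have h6 : (w1 + 2 + K) * n - d' * e * K * n ^ 2 ≤ -(Ca * (2 * e) * (2 * K) * n ^ 2) := by
    nlinarith
  calc ((w1 + 2 + K) * n) * x - (d' * e * K * n ^ 2) * x
      = ((w1 + 2 + K) * n - d' * e * K * n ^ 2) * x := by ring
    _ ≤ -(Ca * (2 * e) * (2 * K) * n ^ 2) * x := mul_le_mul_of_nonneg_right h6 hx
    _ = _ := by ring

/-- real number inequality for the second step -/
theorem real_C (Ca e K c2d n x M T : ℝ) (hK : 0 ≤ K) (hc : 0 ≤ c2d) (hx : 0 ≤ x) (hn : 1 ≤ n)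
    (hlog : (2 * c2d + K + 2 + 4 * Ca * e * K) * x ≤ n) (hM : n ≤ M) (hT : n ≤ T) :
    (2 * c2d + K + 2) * n * x - M ^ 2 * T ≤ -(Ca * (2 * e) * (2 * K) * n ^ 2 * x) := by
  have h1 : n ^ 2 * n ≤ M ^ 2 * T := by
    have hn0 : 0 ≤ n := by linarith
    exact mul_le_mul (pow_le_pow_left₀ hn0 hM 2) hT hn0 (by positivity)
  have h2 : n ^ 2 * ((2 * c2d + K + 2 + 4 * Ca * e * K) * x) ≤ n ^ 2 * n :=
    mul_le_mul_of_nonneg_left hlog (by positivity)
  have h3 : (2 * c2d + K + 2) * n * x ≤ (2 * c2d + K + 2) * n ^ 2 * x := by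
    refine mul_le_mul_of_nonneg_right ?_ hx
    refine mul_le_mul_of_nonneg_left ?_ (by positivity)
    nlinarith
  nlinarith

theorem core {r : ℕ} (v : Fin (r + 1) → ℂ) (hθ : Transcendental ℚ (v 0))
    (G : ℕ → ℕ → ℕ → ℕ → MvPolynomial (Fin (r + 1)) ℤ)
    (hGd : ∀ m k i j : ℕ, (G m k i j).totalDegree ≤ i + j + k)
    (hGn : ∀ m k i j : ℕ, nm ((G m k i j).map (Int.castRingHom ℂ)) ≤
      (5 * ((i : ℝ) + j + k + 1)) ^ k * (max 1 (m : ℝ)) ^ (i + j + k))
    (Ca : ℝ) (hCa : 0 < Ca) (hcrit : CritH v Ca) (C2 : ℕ)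
    (hana : ∀ (N T M : ℕ) (H : ℝ) (p : ℕ → ℕ → ℂ), C2 * N ≤ T → 1 ≤ T → 1 ≤ M → 0 ≤ H →
      (∀ i < N, ∀ j < N, ‖p i j‖ ≤ H) → (∀ m < M, ∀ k < T, Val v G N p m k = 0) →
      ∀ k < T, (∀ k' < k, Val v G N p M k' = 0) →
        ‖Val v G N p M k‖ ≤ T ^ T * H * Real.exp (-(M ^ 2 * T)))
    (r0 : ℕ) (hzero : ∀ (N T : ℕ) (p : ℕ → ℕ → ℂ), r0 * N ≤ T →
      (∀ m < N, ∀ k < T, Val v G N p m k = 0) → ∀ i < N, ∀ j < N, p i j = 0) : False := by
  -- constants
  obtain ⟨V, hV1, hV⟩ : ∃ V : ℝ, 1 ≤ V ∧ ∀ i, ‖v i‖ ≤ V := by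
    refine ⟨1 + ∑ i, ‖v i‖, le_add_of_nonneg_right (Finset.sum_nonneg fun _ _ => norm_nonneg _),
      fun i => ?_⟩
    have := Finset.single_le_sum (f := fun i => ‖v i‖) (fun _ _ => norm_nonneg _)
      (Finset.mem_univ i)
    linarith
  obtain ⟨c2, hcC, hcr, hc1⟩ : ∃ c2 : ℕ, C2 ≤ c2 ∧ r0 ≤ c2 ∧ 1 ≤ c2 :=
    ⟨max (max C2 r0) 1, (le_max_left _ _).trans (le_max_left _ _),
      (le_max_right _ _).trans (le_max_left _ _), le_max_right _ _⟩
  obtain ⟨d', hd'⟩ := exists_nat_ge (8 * Ca)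
  have hd'1 : 1 ≤ d' := by
    have : (0 : ℝ) < d' := by linarith
    exact_mod_cast this
  obtain ⟨d, hd⟩ : ∃ d : ℕ, d = 4 * c2 * d' := ⟨_, rfl⟩
  have hdp : 1 ≤ d := by
    rw [hd]
    exact Nat.mul_pos (Nat.mul_pos (by norm_num) hc1) hd'1
  obtain ⟨e, he⟩ : ∃ e : ℕ, e = (2 + c2) * d := ⟨_, rfl⟩
  have hep : 1 ≤ e := by
    rw [he]
    exact Nat.mul_pos (by omega) hdp
  obtain ⟨w1, hw1⟩ : ∃ w1 : ℕ, w1 = 4 * (1 + c2) * d := ⟨_, rfl⟩
  obtain ⟨K, hK⟩ : ∃ K : ℕ, K = w1 + 1 := ⟨_, rfl⟩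
  have hKp : 1 ≤ K := by omega
  obtain ⟨n0, hn0⟩ := large_n V (2 * ((c2 * d : ℕ) : ℝ) + K + 2 + 4 * Ca * e * K) e (d * d * e)
    (2 * (w1 + 2 + K))
  obtain ⟨n, hn, hc⟩ := hcrit (2 * e) (2 * K) (by omega) (by omega) n0
  obtain ⟨h5e, h4, hVe, h3d, hw0, hlog⟩ := hn0 n hn
  have hn1 : 1 ≤ n := by omega
  have hnR : (1 : ℝ) ≤ n := by exact_mod_cast hn1
  have hnR0 : (0 : ℝ) < n := by linarith
  have hlog0 : 0 ≤ Real.log n := Real.log_natCast_nonneg n
  obtain ⟨D, hD⟩ : ∃ D : ℕ, D = d * n := ⟨_, rfl⟩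
  obtain ⟨T, hT⟩ : ∃ T : ℕ, T = c2 * D := ⟨_, rfl⟩
  obtain ⟨E, hE⟩ : ∃ E : ℕ, E = e * n := ⟨_, rfl⟩
  have hnD : n ≤ D := by
    rw [hD]
    exact Nat.le_mul_of_pos_left n hdp
  have hDT' : D ≤ T := by
    rw [hT]
    exact Nat.le_mul_of_pos_left D hc1
  have hdeg : 2 * D + T = E := by
    rw [hT, hE, he, hD]
    ring
  have hEn : 5 * E ≤ n ^ 2 := by
    rw [hE, pow_two, ← mul_assoc]
    exact Nat.mul_le_mul_right n h5e
  have hw : 2 * (T + (2 * D + T)) ≤ w1 * n := by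
    rw [hT, hw1, hD]
    apply le_of_eq
    ring
  have hsize := G_size G hGn D T n w1 (by rw [hdeg]; exact hEn) (by omega) hw hn1
  have hU : 3 * (D * D * E) ≤ n ^ n := by
    calc 3 * (D * D * E) = (3 * (d * d * e)) * n ^ 3 := by rw [hD, hE]; ring
      _ ≤ n * n ^ 3 := Nat.mul_le_mul_right _ h3d
      _ = n ^ 4 := by ring
      _ ≤ n ^ n := Nat.pow_le_pow_right hn1 h4
  have hVn : V ^ (2 * E) ≤ (n : ℝ) ^ n := by
    calc V ^ (2 * E) = (V ^ (2 * e)) ^ n := by rw [← pow_mul, hE]; ring_nf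
      _ ≤ (n : ℝ) ^ n := pow_le_pow_left₀ (by positivity) hVe n
  -- the pigeonhole principle
  have hcardI : Fintype.card (Fin D × Fin D × Fin E) = D * D * E := by
    simp only [Fintype.card_prod, Fintype.card_fin]
    ring
  have hcardJ : Fintype.card (Fin n × Fin T) = n * T := by
    simp only [Fintype.card_prod, Fintype.card_fin]
  obtain ⟨X, hX⟩ : ∃ X : ℕ, X = n ^ (K * n) := ⟨_, rfl⟩
  obtain ⟨l, hl⟩ : ∃ l : ℕ, l = n ^ (d' * e * K * n ^ 2) := ⟨_, rfl⟩
  have hX1 : 1 ≤ X := by rw [hX]; exact Nat.one_le_pow _ _ hn1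
  have hl1 : 1 ≤ l := by rw [hl]; exact Nat.one_le_pow _ _ hn1
  have hXl : l ^ (2 * Fintype.card (Fin n × Fin T)) < X ^ Fintype.card (Fin D × Fin D × Fin E) := by
    rw [hcardI, hcardJ, hX, hl, ← pow_mul, ← pow_mul]
    refine Nat.pow_lt_pow_right (by omega) ?_
    have e1 : d' * e * K * n ^ 2 * (2 * (n * T)) = 2 * (c2 * d' * e * K * d * n ^ 4) := by
      rw [hT, hD]; ring
    have e2 : K * n * (D * D * E) = 4 * (c2 * d' * e * K * d * n ^ 4) := by
      rw [hD, hE]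
      conv_lhs => rw [show K * n * (d * n * (d * n) * (e * n)) = d * (K * e * d * n ^ 4) by ring]
      conv_lhs => rw [show d * (K * e * d * n ^ 4) = (4 * c2 * d') * (K * e * d * n ^ 4) by rw [← hd]]
      ring
    rw [e1, e2]
    have : 0 < c2 * d' * e * K * d * n ^ 4 := by positivity
    omega
  have hA : ∀ (y : Fin n × Fin T) (x : Fin D × Fin D × Fin E),
      ‖aeval v (G y.1 y.2 x.1 x.2.1) * v 0 ^ (x.2.2 : ℕ)‖ ≤ (n : ℝ) ^ ((w1 + 1) * n) := by
    intro y x
    have h1 : ‖aeval v (G y.1 y.2 x.1 x.2.1)‖ ≤ (n : ℝ) ^ (w1 * n) * V ^ (2 * D + T) := by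
      refine norm_aeval_le v V hV1 hV _ _ _ ?_ ?_
      · refine (hGd _ _ _ _).trans ?_
        have h2 := x.1.2
        have h3 := x.2.1.2
        have h4 := y.2.2
        omega
      · exact hsize _ (y.1.2.le.trans hnD) _ y.2.2 _ x.1.2 _ x.2.1.2
    have h2 : ‖v 0 ^ (x.2.2 : ℕ)‖ ≤ V ^ E := by
      rw [norm_pow]
      exact (pow_le_pow_left₀ (norm_nonneg _) (hV 0) _).trans
        (pow_le_pow_right₀ hV1 x.2.2.2.le)
    rw [norm_mul]
    calc ‖aeval v (G y.1 y.2 x.1 x.2.1)‖ * ‖v 0 ^ (x.2.2 : ℕ)‖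
        ≤ ((n : ℝ) ^ (w1 * n) * V ^ (2 * D + T)) * V ^ E :=
          mul_le_mul h1 h2 (norm_nonneg _) (by positivity)
      _ = (n : ℝ) ^ (w1 * n) * V ^ (2 * E) := by
          rw [hdeg]; ring
      _ ≤ (n : ℝ) ^ (w1 * n) * (n : ℝ) ^ n := mul_le_mul_of_nonneg_left hVn (by positivity)
      _ = (n : ℝ) ^ ((w1 + 1) * n) := by rw [← pow_add]; ring_nf
  obtain ⟨q, hq0, hqX, hq⟩ := pigeonF
    (fun (y : Fin n × Fin T) (x : Fin D × Fin D × Fin E) =>
      aeval v (G y.1 y.2 x.1 x.2.1) * v 0 ^ (x.2.2 : ℕ)) hA hXl hl1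
  obtain ⟨p, hp⟩ : ∃ p, p = ext3 q := ⟨_, rfl⟩
  have hpX : ∀ i j l, ((|p i j l| : ℤ) : ℝ) ≤ (n : ℝ) ^ (K * n) := by
    intro i j l
    have h1 := ext3_abs q hqX i j l
    rw [hp]
    have h2 : ((|ext3 q i j l| : ℤ) : ℝ) ≤ ((X : ℤ) : ℝ) := by exact_mod_cast h1
    refine h2.trans ?_
    rw [hX]
    push_cast
    exact le_rfl
  -- the criterion for the values
  have hdic : ∀ m ≤ D, ∀ k < T, Val v G D (pt D E (v 0) p) m k = 0 ∨
      Real.exp (-(Ca * (2 * e) * (2 * K) * (n : ℝ) ^ 2 * Real.log n))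
        < ‖Val v G D (pt D E (v 0) p) m k‖ := by
    intro m hm k hk
    have h1 := hc (Pv D E p (G m k)) ?_ ?_
    · rw [aeval_Pv] at h1
      push_cast at h1
      exact h1
    · refine Pv_totalDegree _ _ _ _ _ fun i hi j hj => ?_
      have h2 := hGd m k i j
      have h3 : 2 * e * n = 2 * E := by rw [hE]; ring
      rw [h3]
      omega
    · refine (Pv_nm (G m k) D E ((n : ℝ) ^ (K * n)) ((n : ℝ) ^ (w1 * n)) (by positivity) p hpX
        (fun i hi j hj => hsize m hm k hk i hi j hj)).trans ?_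
      have h2 : (D : ℝ) * D * E ≤ (n : ℝ) ^ n := by
        have : D * D * E ≤ n ^ n := by omega
        exact_mod_cast this
      have h3 : Real.exp (((2 * K : ℕ) : ℝ) * n * Real.log n) = (n : ℝ) ^ (2 * K * n) :=
        (npow_eq n (2 * K) hn1).symm
      rw [h3]
      calc (D : ℝ) * D * E * (n : ℝ) ^ (K * n) * (n : ℝ) ^ (w1 * n)
          ≤ (n : ℝ) ^ n * (n : ℝ) ^ (K * n) * (n : ℝ) ^ (w1 * n) := by gcongr
        _ = (n : ℝ) ^ (2 * K * n) := by
            rw [← pow_add, ← pow_add]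
            congr 1
            rw [hK]; ring
  -- first step
  have hstep1 : ∀ m < n, ∀ k < T, Val v G D (pt D E (v 0) p) m k = 0 := by
    intro m hm k hk
    rcases hdic m (by omega) k hk with h1 | h1
    · exact h1
    exfalso
    have h2 := hq (⟨m, hm⟩, ⟨k, hk⟩)
    simp only at h2
    rw [Val_eq_sum, ← hp, hcardI] at h2
    have h3 : 3 * ((D * D * E : ℕ) : ℝ) * (n : ℝ) ^ ((w1 + 1) * n) * X / l
        ≤ Real.exp (-(Ca * (2 * e) * (2 * K) * (n : ℝ) ^ 2 * Real.log n)) := by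
      have h4 : 3 * ((D * D * E : ℕ) : ℝ) ≤ (n : ℝ) ^ n := by exact_mod_cast hU
      have h5 : (l : ℝ) = Real.exp ((d' * e * K * (n : ℝ) ^ 2) * Real.log n) := by
        rw [hl]
        push_cast
        rw [show ((d' : ℝ) * e * K * (n : ℝ) ^ 2) * Real.log n
          = ((d' * e * K * n ^ 2 : ℕ) : ℝ) * Real.log n by push_cast; ring,
          Real.exp_nat_mul, Real.exp_log hnR0]
      have h6 : 3 * ((D * D * E : ℕ) : ℝ) * (n : ℝ) ^ ((w1 + 1) * n) * X
          ≤ Real.exp (((w1 + 2 + K) * n) * Real.log n) := by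
        have h7 : Real.exp ((((w1 : ℝ) + 2 + K) * n) * Real.log n)
            = (n : ℝ) ^ ((w1 + 2 + K) * n) := by
          rw [npow_eq n (w1 + 2 + K) hn1]
          push_cast
          rfl
        rw [h7, hX]
        push_cast
        calc 3 * ((D : ℝ) * D * E) * (n : ℝ) ^ ((w1 + 1) * n) * (n : ℝ) ^ (K * n)
            ≤ (n : ℝ) ^ n * (n : ℝ) ^ ((w1 + 1) * n) * (n : ℝ) ^ (K * n) := by
              push_cast at h4
              gcongr
          _ = (n : ℝ) ^ ((w1 + 2 + K) * n) := by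
              rw [← pow_add, ← pow_add]
              congr 1
              ring
      rw [h5, div_le_iff₀ (Real.exp_pos _), ← Real.exp_add]
      refine h6.trans (Real.exp_le_exp.2 ?_)
      have h8 := real_A Ca d' e K w1 n (Real.log n) hlog0 hd' (by exact_mod_cast hep)
        (by exact_mod_cast hKp) (by exact_mod_cast hd'1) (by positivity) (by exact_mod_cast hw0)
      linarith
    linarith
  -- second step
  have hstep2 : ∀ M, n ≤ M → M ≤ D → ∀ m < M, ∀ k < T, Val v G D (pt D E (v 0) p) m k = 0 := by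
    intro M hM
    induction M, hM using Nat.le_induction with
    | base => intro _; exact hstep1
    | succ M hM ih =>
      intro hMD m hm k hk
      have ih' := ih (by omega)
      rcases Nat.lt_succ_iff_lt_or_eq.1 hm with h1 | h1
      · exact ih' m h1 k hk
      · subst h1
        induction k using Nat.strong_induction_on with
        | _ k ihk =>
          rcases hdic m (by omega) k hk with h1 | h1
          · exact h1
          exfalso
          have hH : ∀ i < D, ∀ j < D, ‖pt D E (v 0) p i j‖ ≤ (n : ℝ) ^ ((K + 2) * n) := by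
            intro i hi j hj
            rw [pt, if_pos ⟨hi, hj⟩]
            calc ‖∑ l ∈ Finset.range E, (p i j l : ℂ) * v 0 ^ l‖
                ≤ ∑ l ∈ Finset.range E, ‖(p i j l : ℂ) * v 0 ^ l‖ := norm_sum_le _ _
              _ ≤ ∑ l ∈ Finset.range E, (n : ℝ) ^ (K * n) * V ^ E := by
                  refine Finset.sum_le_sum fun l hl => ?_
                  rw [norm_mul, norm_pow, Complex.norm_intCast]
                  have h2 := hpX i j l
                  rw [Int.cast_abs] at h2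
                  refine mul_le_mul h2 ?_ (by positivity) (by positivity)
                  exact (pow_le_pow_left₀ (norm_nonneg _) (hV 0) _).trans
                    (pow_le_pow_right₀ hV1 (Finset.mem_range.1 hl).le)
              _ = E * ((n : ℝ) ^ (K * n) * V ^ E) := by
                  rw [Finset.sum_const, Finset.card_range, nsmul_eq_mul]
              _ ≤ (n : ℝ) ^ n * ((n : ℝ) ^ (K * n) * (n : ℝ) ^ n) := by
                  have h3 : (E : ℝ) ≤ (n : ℝ) ^ n := by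
                    have h4 : E ≤ n ^ n := by
                      have h5 : n ^ 2 ≤ n ^ n := Nat.pow_le_pow_right hn1 (by omega)
                      omega
                    exact_mod_cast h4
                  have h6 : V ^ E ≤ (n : ℝ) ^ n :=
                    (pow_le_pow_right₀ hV1 (by omega)).trans hVn
                  gcongr
              _ = (n : ℝ) ^ ((K + 2) * n) := by
                  rw [← pow_add, ← pow_add]
                  congr 1
                  ring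
          have h2 := hana D T m ((n : ℝ) ^ ((K + 2) * n)) (pt D E (v 0) p)
            (by rw [hT]; exact Nat.mul_le_mul_right _ hcC) (by omega) (by omega) (by positivity) hH
            ih' k hk (fun k' hk' => ihk k' hk' (by omega))
          have h3 : (T : ℝ) ^ T * (n : ℝ) ^ ((K + 2) * n) * Real.exp (-((m : ℝ) ^ 2 * T))
              ≤ Real.exp (-(Ca * (2 * e) * (2 * K) * (n : ℝ) ^ 2 * Real.log n)) := by
            have h4 : (T : ℝ) ^ T ≤ (n : ℝ) ^ ((2 * (c2 * d)) * n) := by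
              have h5 : (T : ℝ) ≤ (n : ℝ) ^ 2 := by
                have : T ≤ n ^ 2 := by omega
                exact_mod_cast this
              calc (T : ℝ) ^ T ≤ ((n : ℝ) ^ 2) ^ T := pow_le_pow_left₀ (by positivity) h5 T
                _ = (n : ℝ) ^ ((2 * (c2 * d)) * n) := by
                    rw [← pow_mul, hT, hD]
                    congr 1
                    ring
            have h6 : (T : ℝ) ^ T * (n : ℝ) ^ ((K + 2) * n)
                ≤ Real.exp ((2 * ((c2 * d : ℕ) : ℝ) + K + 2) * n * Real.log n) := by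
              have h7 : Real.exp ((2 * ((c2 * d : ℕ) : ℝ) + K + 2) * n * Real.log n)
                  = (n : ℝ) ^ ((2 * (c2 * d) + K + 2) * n) := by
                rw [npow_eq n (2 * (c2 * d) + K + 2) hn1]
                push_cast
                rfl
              rw [h7]
              calc (T : ℝ) ^ T * (n : ℝ) ^ ((K + 2) * n)
                  ≤ (n : ℝ) ^ ((2 * (c2 * d)) * n) * (n : ℝ) ^ ((K + 2) * n) := by gcongr
                _ = (n : ℝ) ^ ((2 * (c2 * d) + K + 2) * n) := by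
                    rw [← pow_add]
                    congr 1
                    ring
            calc (T : ℝ) ^ T * (n : ℝ) ^ ((K + 2) * n) * Real.exp (-((m : ℝ) ^ 2 * T))
                ≤ Real.exp ((2 * ((c2 * d : ℕ) : ℝ) + K + 2) * n * Real.log n)
                    * Real.exp (-((m : ℝ) ^ 2 * T)) :=
                  mul_le_mul_of_nonneg_right h6 (Real.exp_pos _).le
              _ = Real.exp ((2 * ((c2 * d : ℕ) : ℝ) + K + 2) * n * Real.log n
                    - (m : ℝ) ^ 2 * T) := by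
                  rw [← Real.exp_add]
                  rfl
              _ ≤ _ := by
                  refine Real.exp_le_exp.2 ?_
                  exact real_C Ca e K ((c2 * d : ℕ) : ℝ) n (Real.log n) m T (by positivity)
                    (by positivity) hlog0 hnR hlog (by exact_mod_cast hM)
                    (by exact_mod_cast hnD.trans hDT')
          linarith
  -- the zero estimate
  have h0 := hzero D T (pt D E (v 0) p) (by rw [hT]; exact Nat.mul_le_mul_right _ hcr)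
    (fun m hm k hk => hstep2 D hnD le_rfl m hm k hk)
  have h1 := pt_ne (v 0) hθ p h0
  apply hq0
  funext x
  have h2 := h1 x.1 x.1.2 x.2.1 x.2.1.2 x.2.2 x.2.2.2
  rw [hp, ext3_apply] at h2
  exact h2

end Pool.Agent.CHU
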