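import Mathlib
import Pool.Agent.ZCM.Defs

/-!
# CHU: common definitions for Chudnovsky's theorem
(`η/ω` and `π/ω` are algebraically independent for a lattice with algebraic invariants)

Conventions of `ZCM`: `g₂ = -4a`, `g₃ = -4b`, `x = ℘`, `y = ℘'/2`, `y² = x³ + a x + b`.
-/

namespace Pool.Agent.CHU
open Pool.Agent.ZCM

noncomputable section

/-- `f(z) = ζ(z) - κ z` -/
def fz (L : PeriodPair) (κ : ℂ) (z : ℂ) : ℂ := zetaL L z - κ * z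

/-- the auxiliary function `F(z) = ∑_{i,j<N} p i j ℘(z)^i f(z)^j` -/
def Faux (L : PeriodPair) (κ : ℂ) (N : ℕ) (p : ℕ → ℕ → ℂ) (z : ℂ) : ℂ :=
  ∑ i ∈ Finset.range N, ∑ j ∈ Finset.range N, p i j * L.weierstrassP z ^ i * fz L κ z ^ j

/-- the points `u_m = ω₁/2 + m ω₂` -/
def um (L : PeriodPair) (m : ℕ) : ℂ := L.ω₁ / 2 + m * L.ω₂

/-- the derivation of `ℤ[x,y,f,κ,a]` : `x ↦ 2y`, `y ↦ 3x²+a`, `f ↦ -x-κ`, `κ ↦ 0`, `a ↦ 0`. -/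
def D5 : Derivation ℤ (MvPolynomial (Fin 5) ℤ) (MvPolynomial (Fin 5) ℤ) :=
  MvPolynomial.mkDerivation ℤ
    ![2 * MvPolynomial.X 1, 3 * MvPolynomial.X 0 ^ 2 + MvPolynomial.X 4,
      -MvPolynomial.X 0 - MvPolynomial.X 3, 0, 0]

/-- `D^k (x^i f^j)` -/
def dk (k i j : ℕ) : MvPolynomial (Fin 5) ℤ :=
  (⇑D5)^[k] (MvPolynomial.X 0 ^ i * MvPolynomial.X 2 ^ j)

/-- `(x, y, f, κ, a)` at `z` -/
def v5 (L : PeriodPair) (κ a : ℂ) (z : ℂ) : Fin 5 → ℂ :=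
  ![L.weierstrassP z, L.derivWeierstrassP z / 2, fz L κ z, κ, a]

/-- `D^k (x^i f^j)` at the point `u_m`, as a polynomial in `e₁, ρ, κ, a` -/
def dkm (m k i j : ℕ) : MvPolynomial (Fin 4) ℤ :=
  MvPolynomial.aeval ![MvPolynomial.X 0, 0, (m : MvPolynomial (Fin 4) ℤ) * MvPolynomial.X 1,
    MvPolynomial.X 2, MvPolynomial.X 3] (dk k i j)

end

end Pool.Agent.CHU
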