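import Pool.Agent.CHU.Per
import Pool.Agent.ZCM.Size
import Pool.Agent.ZCM.Chain

/-! # D: the differential polynomials `D^k (x^i f^j)`: link with the derivatives, degree, length -/

set_option autoImplicit false

namespace Pool.Agent.CHU
open Pool.Agent.ZCM MvPolynomial
open Filter Topology

/-! ### substitution -/

theorem nm_subst {σ τ : Type*} (s : σ → MvPolynomial τ ℂ) (B : ℝ) (hB1 : 1 ≤ B)
    (hB : ∀ i, nm (s i) ≤ B) (p : MvPolynomial σ ℂ) :
    nm (aeval s p) ≤ nm p * B ^ p.totalDegree := by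
  classical
  have h1 : aeval s p = ∑ m ∈ p.support, C (p.coeff m) * ∏ i ∈ m.support, s i ^ m i := by
    rw [aeval_def, eval₂_eq]
    rfl
  rw [h1]
  refine (nm_sum_le _ _).trans ?_
  unfold nm
  rw [Finset.sum_mul]
  refine Finset.sum_le_sum fun m hm => ?_
  have h2 : nm (C (p.coeff m) * ∏ i ∈ m.support, s i ^ m i) ≤
      ‖p.coeff m‖ * B ^ p.totalDegree := by
    refine (nm_mul_le _ _).trans ?_
    rw [nm_C]
    refine mul_le_mul_of_nonneg_left ?_ (norm_nonneg _)
    have h3 : ∀ S : Finset σ, nm (∏ i ∈ S, s i ^ m i) ≤ B ^ (∑ i ∈ S, m i) := by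
      intro S
      induction S using Finset.induction_on with
      | empty => simpa using nm_one_le (σ := τ)
      | insert a S ha ih =>
        rw [Finset.prod_insert ha, Finset.sum_insert ha, pow_add]
        refine (nm_mul_le _ _).trans ?_
        refine mul_le_mul ?_ ih (nm_nonneg _) (by positivity)
        exact (nm_pow_le _ _).trans (pow_le_pow_left₀ (nm_nonneg _) (hB a) _)
    refine (h3 _).trans (pow_le_pow_right₀ hB1 ?_)
    exact le_totalDegree hm
  exact h2

theorem map_subst {σ τ R S : Type*} [CommRing R] [CommRing S] (φ : R →+* S)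
    (s : σ → MvPolynomial τ R) (p : MvPolynomial σ R) :
    MvPolynomial.map φ (aeval s p) = aeval (fun i => MvPolynomial.map φ (s i))
      (MvPolynomial.map φ p) := by
  induction p using MvPolynomial.induction_on with
  | C c => simp [algHom_C, algebraMap_eq]
  | add p q hp hq => rw [map_add, map_add, hp, hq, map_add, map_add]
  | mul_X p i hp => rw [map_mul, map_mul, hp, map_mul, map_mul, aeval_X, map_X, aeval_X]

theorem totalDegree_subst {σ τ R : Type*} [CommRing R] (s : σ → MvPolynomial τ R)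
    (hs : ∀ i, (s i).totalDegree ≤ 1) (p : MvPolynomial σ R) :
    (aeval s p).totalDegree ≤ p.totalDegree := by
  classical
  have h1 : aeval s p = ∑ m ∈ p.support, C (p.coeff m) * ∏ i ∈ m.support, s i ^ m i := by
    rw [aeval_def, eval₂_eq]
    rfl
  rw [h1]
  refine totalDegree_finsetSum_le fun m hm => ?_
  refine (totalDegree_mul _ _).trans ?_
  rw [totalDegree_C, zero_add]
  have h3 : ∀ S : Finset σ, (∏ i ∈ S, s i ^ m i).totalDegree ≤ ∑ i ∈ S, m i := by
    intro S
    induction S using Finset.induction_on with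
    | empty => simp
    | insert a S ha ih =>
      rw [Finset.prod_insert ha, Finset.sum_insert ha]
      refine (totalDegree_mul _ _).trans (add_le_add ?_ ih)
      refine (totalDegree_pow _ _).trans ?_
      calc m a * (s a).totalDegree ≤ m a * 1 := Nat.mul_le_mul_left _ (hs a)
        _ = m a := mul_one _
  exact (h3 _).trans (le_totalDegree hm)

theorem totalDegree_map_le' {σ R S : Type*} [CommRing R] [CommRing S] (φ : R →+* S)
    (p : MvPolynomial σ R) : (MvPolynomial.map φ p).totalDegree ≤ p.totalDegree := by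
  classical
  exact Finset.sup_mono (support_map_subset φ p)

/-! ### the complex derivation -/

/-- `D5` over `ℂ` -/
noncomputable def g5 : Fin 5 → MvPolynomial (Fin 5) ℂ :=
  ![2 * X 1, 3 * X 0 ^ 2 + X 4, -X 0 - X 3, 0, 0]

theorem map_D5 (p : MvPolynomial (Fin 5) ℤ) :
    MvPolynomial.map (Int.castRingHom ℂ) (D5 p) =
      mkDerivation ℂ g5 (MvPolynomial.map (Int.castRingHom ℂ) p) := by
  refine Size_map_deriv (Int.castRingHom ℂ) _ _ (fun i => ?_) p
  fin_cases i <;> simp [g5]

theorem aeval_eq (v : Fin 5 → ℂ) (p : MvPolynomial (Fin 5) ℤ) :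
    aeval v p = eval v (MvPolynomial.map (Int.castRingHom ℂ) p) := by
  rw [aeval_def, eval₂_eq_eval_map]
  rfl

section link
variable (L : PeriodPair) (κ a b : ℂ) (h2 : L.g₂ = -4 * a) (h3 : L.g₃ = -4 * b)

include h2 h3 in
theorem hasDerivAt_v5 (p : MvPolynomial (Fin 5) ℤ) {z : ℂ} (hz : z ∉ L.lattice) :
    HasDerivAt (fun z => aeval (v5 L κ a z) p) (aeval (v5 L κ a z) (D5 p)) z := by
  simp only [aeval_eq, map_D5]
  refine Chain_poly (v5 L κ a) g5 (fun i => ?_) _
  fin_cases i
  · simpa [v5, g5] using hasDerivAt_P L hz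
  · simpa [v5, g5] using hasDerivAt_P' L a b h2 h3 hz
  · have h := (hasDerivAt_zetaL L hz).fun_sub ((hasDerivAt_id' z).const_mul κ)
    simpa [v5, g5, fz] using h
  · simpa [v5, g5] using hasDerivAt_const z κ
  · simpa [v5, g5] using hasDerivAt_const z a

include h2 h3 in
theorem iteratedDeriv_v5 (p : MvPolynomial (Fin 5) ℤ) (n : ℕ) {z : ℂ} (hz : z ∉ L.lattice) :
    iteratedDeriv n (fun z => aeval (v5 L κ a z) p) z = aeval (v5 L κ a z) ((⇑D5)^[n] p) := by
  induction n generalizing z with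
  | zero => simp
  | succ n ih =>
    rw [iteratedDeriv_succ, Function.iterate_succ_apply']
    have h4 : iteratedDeriv n (fun z => aeval (v5 L κ a z) p) =ᶠ[𝓝 z]
        fun z => aeval (v5 L κ a z) ((⇑D5)^[n] p) := by
      filter_upwards [(isOpen_compl L).mem_nhds hz] with w hw
      exact ih hw
    rw [h4.deriv_eq]
    exact (hasDerivAt_v5 L κ a b h2 h3 _ hz).deriv

include h2 h3 in
/-- **link** -/
theorem link_dk (k i j : ℕ) {z : ℂ} (hz : z ∉ L.lattice) :
    iteratedDeriv k (fun z => L.weierstrassP z ^ i * fz L κ z ^ j) z =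
      aeval (v5 L κ a z) (dk k i j) := by
  have h := iteratedDeriv_v5 L κ a b h2 h3 (X 0 ^ i * X 2 ^ j) k hz
  rw [dk, ← h]
  congr 1
  funext w
  simp [v5]

end link

/-! ### degree and length -/

theorem D5_totalDegree_le (p : MvPolynomial (Fin 5) ℤ) :
    (D5 p).totalDegree ≤ p.totalDegree + 1 := by
  refine Size_totalDegree_deriv _ (fun i => ?_) p
  fin_cases i
  · change (2 * X 1 : MvPolynomial (Fin 5) ℤ).totalDegree ≤ 2
    refine (totalDegree_mul _ _).trans ?_
    have e2 : (2 : MvPolynomial (Fin 5) ℤ) = C 2 := (map_ofNat C 2).symm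
    rw [e2, totalDegree_C, totalDegree_X]
    norm_num
  · change (3 * X 0 ^ 2 + X 4 : MvPolynomial (Fin 5) ℤ).totalDegree ≤ 2
    refine (totalDegree_add _ _).trans (max_le ?_ ?_)
    · refine (totalDegree_mul _ _).trans ?_
      have e2 : (3 : MvPolynomial (Fin 5) ℤ) = C 3 := (map_ofNat C 3).symm
      rw [e2, totalDegree_C, totalDegree_X_pow]
    · rw [totalDegree_X]; norm_num
  · change (-X 0 - X 3 : MvPolynomial (Fin 5) ℤ).totalDegree ≤ 2
    refine (totalDegree_sub _ _).trans (max_le ?_ ?_)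
    · rw [totalDegree_neg, totalDegree_X]; norm_num
    · rw [totalDegree_X]; norm_num
  · change (0 : MvPolynomial (Fin 5) ℤ).totalDegree ≤ 2
    simp
  · change (0 : MvPolynomial (Fin 5) ℤ).totalDegree ≤ 2
    simp

theorem dk_succ (k i j : ℕ) : dk (k + 1) i j = D5 (dk k i j) := by
  unfold dk
  rw [Function.iterate_succ_apply']

theorem dk_totalDegree_le (k i j : ℕ) : (dk k i j).totalDegree ≤ i + j + k := by
  induction k with
  | zero =>
    unfold dk
    refine (totalDegree_mul _ _).trans ?_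
    simp [totalDegree_X_pow]
  | succ k ih =>
    rw [dk_succ]
    have := D5_totalDegree_le (dk k i j)
    omega

theorem g5_nm (i : Fin 5) : nm (g5 i) ≤ 4 := by
  have e2 : (2 : MvPolynomial (Fin 5) ℂ) = C 2 := (map_ofNat C 2).symm
  have e3 : (3 : MvPolynomial (Fin 5) ℂ) = C 3 := (map_ofNat C 3).symm
  have hX : ∀ i : Fin 5, nm (X i : MvPolynomial (Fin 5) ℂ) = 1 := fun i => nm_X i
  fin_cases i
  · change nm (2 * X 1 : MvPolynomial (Fin 5) ℂ) ≤ 4
    refine (nm_mul_le _ _).trans ?_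
    rw [e2, nm_C, hX]
    norm_num
  · change nm (3 * X 0 ^ 2 + X 4 : MvPolynomial (Fin 5) ℂ) ≤ 4
    refine (nm_add_le _ _).trans ?_
    have h1 : nm (3 * X 0 ^ 2 : MvPolynomial (Fin 5) ℂ) ≤ 3 := by
      refine (nm_mul_le _ _).trans ?_
      rw [e3, nm_C]
      have h2 := nm_pow_le (p := (X 0 : MvPolynomial (Fin 5) ℂ)) 2
      rw [hX, one_pow] at h2
      have h4 : ‖(3 : ℂ)‖ = 3 := by norm_num
      rw [h4]
      linarith
    rw [hX]
    linarith
  · change nm (-X 0 - X 3 : MvPolynomial (Fin 5) ℂ) ≤ 4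
    refine (nm_sub_le _ _).trans ?_
    rw [nm_neg, hX, hX]
    norm_num
  · change nm (0 : MvPolynomial (Fin 5) ℂ) ≤ 4
    rw [Size_nm_zero]; norm_num
  · change nm (0 : MvPolynomial (Fin 5) ℂ) ≤ 4
    rw [Size_nm_zero]; norm_num

theorem dk_nm_le (k i j : ℕ) :
    nm ((dk k i j).map (Int.castRingHom ℂ)) ≤ (5 * (i + j + k + 1) : ℝ) ^ k := by
  induction k with
  | zero =>
    unfold dk
    rw [Function.iterate_zero, id_eq, map_mul, map_pow, map_pow, map_X, map_X, pow_zero]
    refine (nm_mul_le _ _).trans ?_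
    have h1 := nm_pow_le (p := (X 0 : MvPolynomial (Fin 5) ℂ)) i
    have h2 := nm_pow_le (p := (X 2 : MvPolynomial (Fin 5) ℂ)) j
    rw [nm_X, one_pow] at h1 h2
    calc _ ≤ (1 : ℝ) * 1 := mul_le_mul h1 h2 (nm_nonneg _) (by norm_num)
      _ = 1 := one_mul _
  | succ k ih =>
    rw [dk_succ, map_D5]
    refine (Size_nm_deriv g5 4 g5_nm (by norm_num) _).trans ?_
    have h1 : ((MvPolynomial.map (Int.castRingHom ℂ) (dk k i j)).totalDegree : ℝ) ≤ i + j + k := by
      have h4 : (MvPolynomial.map (Int.castRingHom ℂ) (dk k i j)).totalDegree ≤ i + j + k :=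
        (totalDegree_map_le' _ _).trans (dk_totalDegree_le k i j)
      exact_mod_cast h4
    have hi : (0 : ℝ) ≤ i := Nat.cast_nonneg i
    have hj : (0 : ℝ) ≤ j := Nat.cast_nonneg j
    have hk : (0 : ℝ) ≤ k := Nat.cast_nonneg k
    rw [pow_succ]
    push_cast
    have h5 : (5 * ((i : ℝ) + j + k + 1)) ^ k ≤ (5 * (i + j + (k + 1) + 1)) ^ k :=
      pow_le_pow_left₀ (by positivity) (by linarith) k
    rw [mul_comm]
    refine mul_le_mul (ih.trans h5) ?_ (by positivity) (by positivity)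
    nlinarith

theorem dkm_totalDegree_le (m k i j : ℕ) : (dkm m k i j).totalDegree ≤ i + j + k := by
  refine (totalDegree_subst _ (fun i => ?_) _).trans (dk_totalDegree_le k i j)
  fin_cases i
  · change (X 0 : MvPolynomial (Fin 4) ℤ).totalDegree ≤ 1
    rw [totalDegree_X]
  · change (0 : MvPolynomial (Fin 4) ℤ).totalDegree ≤ 1
    simp
  · change ((m : MvPolynomial (Fin 4) ℤ) * X 1).totalDegree ≤ 1
    refine (totalDegree_mul _ _).trans ?_
    have e2 : (m : MvPolynomial (Fin 4) ℤ) = C (m : ℤ) := by simp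
    rw [e2, totalDegree_C, totalDegree_X]
  · change (X 2 : MvPolynomial (Fin 4) ℤ).totalDegree ≤ 1
    rw [totalDegree_X]
  · change (X 3 : MvPolynomial (Fin 4) ℤ).totalDegree ≤ 1
    rw [totalDegree_X]

theorem dkm_nm_le (m k i j : ℕ) :
    nm ((dkm m k i j).map (Int.castRingHom ℂ)) ≤
      (5 * (i + j + k + 1) : ℝ) ^ k * (max 1 m : ℝ) ^ (i + j + k) := by
  have hB1 : (1 : ℝ) ≤ max 1 (m : ℝ) := le_max_left _ _
  unfold dkm
  rw [map_subst]
  refine (nm_subst _ (max 1 (m : ℝ)) hB1 (fun i => ?_) _).trans ?_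
  · fin_cases i
    · change nm (MvPolynomial.map (Int.castRingHom ℂ) (X 0 : MvPolynomial (Fin 4) ℤ)) ≤ _
      rw [map_X, nm_X]; exact hB1
    · change nm (MvPolynomial.map (Int.castRingHom ℂ) (0 : MvPolynomial (Fin 4) ℤ)) ≤ _
      rw [map_zero, Size_nm_zero]; linarith
    · change nm (MvPolynomial.map (Int.castRingHom ℂ) ((m : MvPolynomial (Fin 4) ℤ) * X 1)) ≤ _
      rw [map_mul, map_X, map_natCast]
      refine (nm_mul_le _ _).trans ?_
      have e2 : (m : MvPolynomial (Fin 4) ℂ) = C (m : ℂ) := by simp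
      rw [e2, nm_C, nm_X, mul_one, Complex.norm_natCast]
      exact le_max_right _ _
    · change nm (MvPolynomial.map (Int.castRingHom ℂ) (X 2 : MvPolynomial (Fin 4) ℤ)) ≤ _
      rw [map_X, nm_X]; exact hB1
    · change nm (MvPolynomial.map (Int.castRingHom ℂ) (X 3 : MvPolynomial (Fin 4) ℤ)) ≤ _
      rw [map_X, nm_X]; exact hB1
  · refine mul_le_mul (dk_nm_le k i j) ?_ (by positivity) (by positivity)
    refine pow_le_pow_right₀ hB1 ?_
    exact (totalDegree_map_le' _ _).trans (dk_totalDegree_le k i j)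

/-! ### values at the points `u_m` -/

theorem aeval_dkm (t : Fin 4 → ℂ) (m k i j : ℕ) :
    aeval t (dkm m k i j) = aeval ![t 0, 0, m * t 1, t 2, t 3] (dk k i j) := by
  unfold dkm
  rw [comp_aeval_apply]
  congr 2
  funext l
  fin_cases l <;> simp

section values
variable (L : PeriodPair) (κ ρ a b : ℂ) (h2 : L.g₂ = -4 * a) (h3 : L.g₃ = -4 * b)
  (hf2 : ∀ z ∉ L.lattice, fz L κ (z + L.ω₂) = fz L κ z + ρ) (h0 : fz L κ (L.ω₁ / 2) = 0)

include h2 h3 hf2 h0

theorem link_dkm (m k i j : ℕ) :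
    iteratedDeriv k (fun z => L.weierstrassP z ^ i * fz L κ z ^ j) (um L m) =
      aeval ![L.weierstrassP (L.ω₁ / 2), ρ, κ, a] (dkm m k i j) := by
  rw [link_dk L κ a b h2 h3 k i j (um_notMem L m), aeval_dkm]
  congr 1
  apply congrArg
  unfold v5
  rw [P_um, P'_um, fz_um L κ ρ hf2 h0]
  simp

theorem Faux_iter (N : ℕ) (p : ℕ → ℕ → ℂ) (m k : ℕ) :
    iteratedDeriv k (Faux L κ N p) (um L m) =
      ∑ i ∈ Finset.range N, ∑ j ∈ Finset.range N,
        p i j * aeval ![L.weierstrassP (L.ω₁ / 2), ρ, κ, a] (dkm m k i j) := by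
  have hz := um_notMem L m
  have hfz : AnalyticAt ℂ (fz L κ) (um L m) := by
    have h1 : AnalyticAt ℂ (zetaL L) (um L m) :=
      ((DifferentiableOn.analyticOnNhd (fun z hz => (hasDerivAt_zetaL L hz).differentiableAt.differentiableWithinAt)
        (isOpen_compl L)) _ hz)
    unfold fz
    fun_prop
  have hP : AnalyticAt ℂ L.weierstrassP (um L m) := L.analyticOnNhd_weierstrassP _ hz
  have hterm : ∀ i j : ℕ, AnalyticAt ℂ (fun z => L.weierstrassP z ^ i * fz L κ z ^ j) (um L m) :=
    fun i j => (hP.fun_pow i).fun_mul (hfz.fun_pow j)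
  have hF : Faux L κ N p = fun z => ∑ i ∈ Finset.range N, ∑ j ∈ Finset.range N,
      p i j * (L.weierstrassP z ^ i * fz L κ z ^ j) := by
    funext z
    unfold Faux
    refine Finset.sum_congr rfl fun i _ => Finset.sum_congr rfl fun j _ => by ring
  rw [hF, iteratedDeriv_fun_sum]
  · refine Finset.sum_congr rfl fun i _ => ?_
    rw [iteratedDeriv_fun_sum]
    · refine Finset.sum_congr rfl fun j _ => ?_
      rw [iteratedDeriv_const_mul_field, link_dkm L κ ρ a b h2 h3 hf2 h0]
    · intro j _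
      exact (analyticAt_const.fun_mul (hterm i j)).contDiffAt
  · intro i _
    have : AnalyticAt ℂ (fun z => ∑ j ∈ Finset.range N,
        p i j * (L.weierstrassP z ^ i * fz L κ z ^ j)) (um L m) :=
      Finset.analyticAt_fun_sum _ fun j _ => analyticAt_const.fun_mul (hterm i j)
    exact this.contDiffAt

end values

end Pool.Agent.CHU
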