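import Pool.Agent.CHU.Pairs
import Pool.Agent.GenTuple.Der

/-! # The dependent pairs `(t + j P, u + m W + n w₂)`: finite, or one row, or one column -/

set_option autoImplicit false

namespace Pool.Agent.CHU
open Algebra AlgebraicIndependent Polynomial

/-- a derivation that kills `y` kills all numbers algebraic over `ℚ(y)` -/
theorem der_FF (D : Derivation ℚ ℂ ℂ) {x y : ℂ} (hy : D y = 0) (hx : x ∈ FF y) : D x = 0 := by
  classical
  have hA : ∀ a ∈ adjoin ℚ ({y} : Set ℂ), D a = 0 := by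
    intro a ha
    induction ha using adjoin_induction with
    | mem z hz => rw [Set.mem_singleton_iff.1 hz, hy]
    | algebraMap r => exact D.map_algebraMap r
    | add a b _ _ ha hb => rw [map_add, ha, hb, add_zero]
    | mul a b _ _ ha hb => rw [D.leibniz, ha, hb]; simp
  have hch : ∀ p : (adjoin ℚ ({y} : Set ℂ))[X], D (aeval x p) = aeval x (derivative p) * D x := by
    intro p
    induction p using Polynomial.induction_on' with
    | add p q hp hq => rw [map_add, map_add, hp, hq, derivative_add, map_add, add_mul]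
    | monomial n a =>
      rw [aeval_monomial, derivative_monomial, aeval_monomial, D.leibniz, D.leibniz_pow]
      have h1 : D (algebraMap (adjoin ℚ ({y} : Set ℂ)) ℂ a) = 0 := hA _ a.2
      rw [h1, smul_zero, add_zero]
      simp only [smul_eq_mul, nsmul_eq_mul, map_mul, map_natCast]
      ring
  obtain ⟨p0, hp0, hp0x⟩ := hx
  have hex : ∃ n, ∃ p : (adjoin ℚ ({y} : Set ℂ))[X], p ≠ 0 ∧ aeval x p = 0 ∧ p.natDegree = n :=
    ⟨_, p0, hp0, hp0x, rfl⟩
  obtain ⟨p, hp, hpx, hpn⟩ := Nat.find_spec hex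
  have hmin : ∀ q : (adjoin ℚ ({y} : Set ℂ))[X], q ≠ 0 → aeval x q = 0 → p.natDegree ≤ q.natDegree := by
    intro q hq hqx
    rw [hpn]
    exact Nat.find_min' hex ⟨q, hq, hqx, rfl⟩
  have hdeg : p.natDegree ≠ 0 := by
    intro h0
    obtain ⟨c, hc⟩ := natDegree_eq_zero.1 h0
    rw [← hc, aeval_C] at hpx
    have : c = 0 := Subtype.val_injective hpx
    exact hp (by rw [← hc, this, C_0])
  have hd : derivative p ≠ 0 := by
    intro h
    exact hdeg (derivative_eq_zero.1 h)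
  have hdx : aeval x (derivative p) ≠ 0 := by
    intro h
    have h1 := hmin _ hd h
    have h2 := natDegree_derivative_lt hdeg
    omega
  have h := hch p
  rw [hpx, map_zero] at h
  rcases mul_eq_zero.1 h.symm with h | h
  · exact absurd h hdx
  · exact h

/-- the Jacobian of a dependent pair vanishes -/
theorem det_zero {x y : ℂ} (hxy : x ∈ FF y) (D1 D2 : Derivation ℚ ℂ ℂ) :
    D1 x * D2 y = D2 x * D1 y := by
  have h := der_FF ((D1 y) • D2 - (D2 y) • D1) (x := x) (y := y)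
    (by simp only [Derivation.sub_apply, Derivation.smul_apply, smul_eq_mul]; ring) hxy
  simp only [Derivation.sub_apply, Derivation.smul_apply, smul_eq_mul] at h
  linear_combination -h

/-- lattice points in a disc -/
theorem lat_finite (C τ : ℂ) (hτ : τ.im ≠ 0) (r : ℝ) :
    {q : ℤ × ℤ | ‖C + (q.1 + q.2 * τ)‖ ≤ r}.Finite := by
  obtain ⟨N, hN⟩ := exists_nat_gt ((r + ‖C‖) / |τ.im|)
  obtain ⟨M, hM⟩ := exists_nat_gt (r + ‖C‖ + N * ‖τ‖)
  refine Set.Finite.subset (Set.finite_Icc ((-(M : ℤ), -(N : ℤ)) : ℤ × ℤ) ((M : ℤ), (N : ℤ))) ?_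
  rintro ⟨m, n⟩ h
  simp only [Set.mem_ofPred_eq] at h
  have h1 : ‖(m : ℂ) + n * τ‖ ≤ r + ‖C‖ := by
    have := norm_sub_le (C + ((m : ℂ) + n * τ)) C
    rw [add_sub_cancel_left] at this
    linarith
  have h2 : |(n : ℝ)| * |τ.im| ≤ r + ‖C‖ := by
    have h3 := (Complex.abs_im_le_norm ((m : ℂ) + n * τ)).trans h1
    have h4 : ((m : ℂ) + n * τ).im = n * τ.im := by simp
    rw [h4, abs_mul] at h3
    exact h3
  have hpos : 0 < |τ.im| := abs_pos.2 hτ
  have h3 : |(n : ℝ)| < N := lt_of_le_of_lt ((le_div_iff₀ hpos).2 h2) hN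
  have h4 : |(m : ℝ)| < M := by
    have h5 : ‖(m : ℂ)‖ ≤ ‖(m : ℂ) + n * τ‖ + ‖(n : ℂ) * τ‖ := by
      have := norm_sub_le ((m : ℂ) + n * τ) ((n : ℂ) * τ)
      rwa [add_sub_cancel_right] at this
    have h6 : ‖(n : ℂ) * τ‖ ≤ N * ‖τ‖ := by
      rw [norm_mul, Complex.norm_intCast]
      exact mul_le_mul_of_nonneg_right h3.le (norm_nonneg _)
    rw [Complex.norm_intCast] at h5
    linarith
  have h5 : |n| < (N : ℤ) := by exact_mod_cast h3
  have h6 : |m| < (M : ℤ) := by exact_mod_cast h4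
  rw [abs_lt] at h5 h6
  refine Set.mem_Icc.2 ⟨Prod.mk_le_mk.2 ⟨h6.1.le, h5.1.le⟩, Prod.mk_le_mk.2 ⟨h6.2.le, h5.2.le⟩⟩

/-- integers in a disc -/
theorem int_finite (B : ℂ) (r : ℝ) : {j : ℤ | ‖B + j‖ ≤ r}.Finite := by
  obtain ⟨M, hM⟩ := exists_nat_gt (r + ‖B‖)
  refine Set.Finite.subset (Set.finite_Icc (-(M : ℤ)) (M : ℤ)) ?_
  intro j h
  simp only [Set.mem_ofPred_eq] at h
  have h1 : ‖(j : ℂ)‖ ≤ r + ‖B‖ := by
    have := norm_sub_le (B + (j : ℂ)) B
    rw [add_sub_cancel_left] at this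
    linarith
  rw [Complex.norm_intCast] at h1
  have h3 : |j| < (M : ℤ) := by
    have : |(j : ℝ)| < M := by linarith
    exact_mod_cast this
  rw [abs_lt] at h3
  exact Set.mem_Icc.2 ⟨h3.1.le, h3.2.le⟩

/-- the dependent pairs of transcendental numbers `(t + j P, u + m W + n w₂)` -/
def DP (P W w2 t u : ℂ) : Set (ℤ × (ℤ × ℤ)) :=
  {q | Transcendental ℚ (t + q.1 * P) ∧ Transcendental ℚ (u + (q.2.1 * W + q.2.2 * w2)) ∧
    ¬ AlgebraicIndependent ℚ ![t + q.1 * P, u + (q.2.1 * W + q.2.2 * w2)]}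

theorem exceptional {P W w2 : ℂ} (hPW : AlgebraicIndependent ℚ ![P, W])
    (hτ : IsAlgebraic ℚ (w2 / W)) (him : (w2 / W).im ≠ 0) (t u : ℂ) :
    (∃ j, ∀ q ∈ DP P W w2 t u, q.1 = j) ∨ (∃ l, ∀ q ∈ DP P W w2 t u, q.2 = l) ∨
      ((DP P W w2 t u).Finite ∧ Set.InjOn Prod.fst (DP P W w2 t u) ∧
        Set.InjOn Prod.snd (DP P W w2 t u)) := by
  classical
  have hW : Transcendental ℚ W := ((algInd_iff P W).1 hPW).1
  have hPF : P ∉ FF W := ((algInd_iff P W).1 hPW).2
  have hP : Transcendental ℚ P := fun h => hPF (FF_of_alg h)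
  have hW0 : W ≠ 0 := fun h => hW (by rw [h]; exact isAlgebraic_zero)
  have hP0 : P ≠ 0 := fun h => hP (by rw [h]; exact isAlgebraic_zero)
  set τ : ℂ := w2 / W with hτd
  have hw2 : w2 = W * τ := by rw [hτd]; field_simp
  have hlat : ∀ m n : ℤ, (m : ℂ) * W + n * w2 = (m + n * τ) * W := by
    intro m n; rw [hw2]; ring
  have halg : ∀ m n : ℤ, IsAlgebraic ℚ ((m : ℂ) + n * τ) := fun m n =>
    (isAlgebraic_intCast m).add ((isAlgebraic_intCast n).mul hτ)
  have hinjl : ∀ m n m' n' : ℤ, (m : ℂ) + n * τ = m' + n' * τ → m = m' ∧ n = n' := by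
    intro m n m' n' h
    have h1 := congrArg Complex.im h
    simp only [Complex.add_im, Complex.intCast_im, Complex.mul_im, Complex.intCast_re, zero_mul,
      add_zero, zero_add] at h1
    have h2 : (n : ℝ) = n' := mul_right_cancel₀ him h1
    have h3 : n = n' := by exact_mod_cast h2
    subst h3
    have h4 : (m : ℂ) = m' := by linear_combination h
    exact ⟨by exact_mod_cast h4, rfl⟩
  -- the structure
  have hst := pairs_structure hPW {x | ∃ j : ℤ, x = t + j * P ∧ Transcendental ℚ x}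
    {y | ∃ m n : ℤ, y = u + (m * W + n * w2) ∧ Transcendental ℚ y}
    (fun x hx => hx.choose_spec.2) (fun y hy => hy.choose_spec.choose_spec.2)
    (by
      rintro x ⟨j, rfl, _⟩ x' ⟨j', rfl, _⟩ hne
      have hjj : (j : ℂ) - j' ≠ 0 := by
        intro h
        apply hne
        have : (j : ℂ) = j' := by linear_combination h
        rw [this]
      refine ⟨((j : ℂ) - j')⁻¹, ((isAlgebraic_intCast j).sub (isAlgebraic_intCast j')).inv, ?_⟩
      field_simp
      ring)
    (by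
      rintro x ⟨j, rfl, _⟩ x' ⟨j', rfl, _⟩
      have : t + j * P - (t + j' * P) = ((j : ℂ) - j') * P := by ring
      rw [this]
      exact FF_mul (FF_of_alg ((isAlgebraic_intCast j).sub (isAlgebraic_intCast j'))) (mem_FF_self P))
    (by
      rintro y ⟨m, n, rfl, _⟩ y' ⟨m', n', rfl, _⟩ hne
      have hjj : ((m : ℂ) + n * τ) - (m' + n' * τ) ≠ 0 := by
        intro h
        apply hne
        have h2 : (m : ℂ) + n * τ = m' + n' * τ := by linear_combination h
        rw [hlat, hlat, h2]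
      refine ⟨(((m : ℂ) + n * τ) - (m' + n' * τ))⁻¹, ((halg m n).sub (halg m' n')).inv, ?_⟩
      have e : u + (↑m * W + ↑n * w2) - (u + (↑m' * W + ↑n' * w2)) =
          (((m : ℂ) + n * τ) - (m' + n' * τ)) * W := by rw [hlat, hlat]; ring
      rw [e, ← mul_assoc, inv_mul_cancel₀ hjj, one_mul])
    (by
      rintro y ⟨m, n, rfl, _⟩ y' ⟨m', n', rfl, _⟩
      have : u + (m * W + n * w2) - (u + (m' * W + n' * w2)) =
          (((m : ℂ) + n * τ) - (m' + n' * τ)) * W := by rw [hlat, hlat]; ring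
      rw [this]
      exact FF_mul (FF_of_alg ((halg m n).sub (halg m' n'))) (mem_FF_self W))
    _ rfl
  -- transfer
  have hmem : ∀ q ∈ DP P W w2 t u, ((t + q.1 * P, u + (q.2.1 * W + q.2.2 * w2)) : ℂ × ℂ) ∈
      {p : ℂ × ℂ | p.1 ∈ {x | ∃ j : ℤ, x = t + j * P ∧ Transcendental ℚ x} ∧
        p.2 ∈ {y | ∃ m n : ℤ, y = u + (m * W + n * w2) ∧ Transcendental ℚ y} ∧
        ¬ AlgebraicIndependent ℚ ![p.1, p.2]} := by
    rintro ⟨j, m, n⟩ ⟨h1, h2, h3⟩
    exact ⟨⟨j, rfl, h1⟩, ⟨m, n, rfl, h2⟩, h3⟩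
  have hj_inj : ∀ j j' : ℤ, t + j * P = t + j' * P → j = j' := by
    intro j j' h
    have : (j : ℂ) = j' := mul_right_cancel₀ hP0 (by linear_combination h)
    exact_mod_cast this
  have hl_inj : ∀ l l' : ℤ × ℤ, u + ((l.1 : ℂ) * W + l.2 * w2) = u + (l'.1 * W + l'.2 * w2) →
      l = l' := by
    rintro ⟨m, n⟩ ⟨m', n'⟩ h
    simp only at h
    rw [hlat, hlat] at h
    have h1 : (m : ℂ) + n * τ = m' + n' * τ := mul_right_cancel₀ hW0 (by linear_combination h)
    obtain ⟨h2, h3⟩ := hinjl _ _ _ _ h1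
    rw [h2, h3]
  rcases hst with ⟨a, ha⟩ | ⟨b, hb⟩ | ⟨h1, h2⟩
  · left
    by_cases hne : (DP P W w2 t u).Nonempty
    · obtain ⟨q0, hq0⟩ := hne
      refine ⟨q0.1, fun q hq => hj_inj _ _ ?_⟩
      have e1 := ha _ (hmem q hq)
      have e2 := ha _ (hmem q0 hq0)
      simp only at e1 e2
      rw [e1, e2]
    · exact ⟨0, fun q hq => absurd ⟨q, hq⟩ hne⟩
  · right; left
    by_cases hne : (DP P W w2 t u).Nonempty
    · obtain ⟨q0, hq0⟩ := hne
      refine ⟨q0.2, fun q hq => hl_inj _ _ ?_⟩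
      have e1 := hb _ (hmem q hq)
      have e2 := hb _ (hmem q0 hq0)
      simp only at e1 e2
      rw [e1, e2]
    · exact ⟨0, fun q hq => absurd ⟨q, hq⟩ hne⟩
  · right; right
    have inj1 : Set.InjOn Prod.fst (DP P W w2 t u) := by
      intro q hq q' hq' h
      refine Prod.ext h (hl_inj _ _ ?_)
      exact h1 _ (hmem q hq) _ (hmem q' hq') (by simp only; rw [h])
    have inj2 : Set.InjOn Prod.snd (DP P W w2 t u) := by
      intro q hq q' hq' h
      refine Prod.ext (hj_inj _ _ ?_) h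
      exact h2 _ (hmem q hq) _ (hmem q' hq') (by simp only; rw [h])
    refine ⟨?_, inj1, inj2⟩
    obtain ⟨D1, hD1⟩ := GenTuple.exists_der (k := ℚ) hPW ![(1 : ℂ), 0]
    obtain ⟨D2, hD2⟩ := GenTuple.exists_der (k := ℚ) hPW ![(0 : ℂ), 1]
    have d1P : D1 P = 1 := by simpa using hD1 0
    have d1W : D1 W = 0 := by simpa using hD1 1
    have d2P : D2 P = 0 := by simpa using hD2 0
    have d2W : D2 W = 1 := by simpa using hD2 1
    have dalg : ∀ D : Derivation ℚ ℂ ℂ, ∀ a : ℂ, IsAlgebraic ℚ a → D a = 0 := by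
      intro D a ha
      exact der_FF D (y := 0) (map_zero D) (FF_of_alg ha)
    -- the equation
    have heq : ∀ q ∈ DP P W w2 t u, (D1 t + q.1) * (D2 u + (q.2.1 + q.2.2 * τ)) = D2 t * D1 u := by
      rintro ⟨j, m, n⟩ ⟨_, h2, h3⟩
      simp only at h2 h3 ⊢
      have h4 := det_zero ((dep_iff h2).1 h3) D1 D2
      have ej : ∀ D : Derivation ℚ ℂ ℂ, D ((j : ℂ) * P) = j * D P := by
        intro D
        rw [D.leibniz, dalg D _ (isAlgebraic_intCast j)]; simp
      have el : ∀ D : Derivation ℚ ℂ ℂ, D (((m : ℂ) + n * τ) * W) = (m + n * τ) * D W := by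
        intro D
        rw [D.leibniz, dalg D _ (halg m n)]; simp
      rw [hlat] at h4
      simp only [map_add] at h4
      rw [ej, ej, el, el, d1P, d1W, d2P, d2W] at h4
      linear_combination h4
    by_cases hE : D2 t * D1 u = 0
    · -- at most two elements
      have hsub : DP P W w2 t u ⊆ {q | q ∈ DP P W w2 t u ∧ D1 t + q.1 = 0} ∪
          {q | q ∈ DP P W w2 t u ∧ D2 u + (q.2.1 + q.2.2 * τ) = 0} := by
        intro q hq
        have h := heq q hq
        rw [hE] at h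
        rcases mul_eq_zero.1 h with h | h
        · exact Or.inl ⟨hq, h⟩
        · exact Or.inr ⟨hq, h⟩
      refine Set.Finite.subset (Set.Finite.union ?_ ?_) hsub
      · refine Set.Subsingleton.finite ?_
        rintro q ⟨hq, h⟩ q' ⟨hq', h'⟩
        refine inj1 hq hq' ?_
        have : (q.1 : ℂ) = q'.1 := by linear_combination h - h'
        exact_mod_cast this
      · refine Set.Subsingleton.finite ?_
        rintro q ⟨hq, h⟩ q' ⟨hq', h'⟩
        refine inj2 hq hq' ?_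
        have h3 : (q.2.1 : ℂ) + q.2.2 * τ = q'.2.1 + q'.2.2 * τ := by linear_combination h - h'
        obtain ⟨h4, h5⟩ := hinjl _ _ _ _ h3
        exact Prod.ext h4 h5
    · have hsub : DP P W w2 t u ⊆ {q | q ∈ DP P W w2 t u ∧ q.1 ∈ {j : ℤ | ‖D1 t + j‖ ≤ 1}} ∪
          {q | q ∈ DP P W w2 t u ∧ q.2 ∈ {l : ℤ × ℤ | ‖D2 u + (l.1 + l.2 * τ)‖ ≤
            ‖D2 t * D1 u‖}} := by
        intro q hq
        by_cases h1 : ‖D1 t + q.1‖ ≤ 1
        · exact Or.inl ⟨hq, h1⟩
        · refine Or.inr ⟨hq, ?_⟩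
          simp only [Set.mem_ofPred_eq]
          rw [← heq q hq, norm_mul]
          push Not at h1
          exact le_mul_of_one_le_left (norm_nonneg _) h1.le
      refine Set.Finite.subset (Set.Finite.union ?_ ?_) hsub
      · refine Set.Finite.of_injOn (f := Prod.fst) (t := {j : ℤ | ‖D1 t + j‖ ≤ 1}) ?_ ?_
          (int_finite _ _)
        · rintro q ⟨_, h⟩; exact h
        · exact inj1.mono fun q hq => hq.1
      · refine Set.Finite.of_injOn (f := Prod.snd) (t := {l : ℤ × ℤ |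
          ‖D2 u + (l.1 + l.2 * τ)‖ ≤ ‖D2 t * D1 u‖}) ?_ ?_ (lat_finite _ _ him _)
        · rintro q ⟨_, h⟩; exact h
        · exact inj2.mono fun q hq => hq.1

end Pool.Agent.CHU
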