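import Pool.Agent.CHU.Three

/-! # The exceptional set for rational translates: the sharp form -/

set_option autoImplicit false

namespace Pool.Agent.CHU

/-- dependent pairs `(t + q P, u + (m W + n w₂))` with rational `q, m, n` -/
def DQ (P W w2 t u : ℂ) : Set (ℚ × (ℚ × ℚ)) :=
  {q | Transcendental ℚ (t + q.1 * P) ∧ Transcendental ℚ (u + (q.2.1 * W + q.2.2 * w2)) ∧
    ¬ AlgebraicIndependent ℚ ![t + q.1 * P, u + (q.2.1 * W + q.2.2 * w2)]}

theorem isAlg_rat (q : ℚ) : IsAlgebraic ℚ (q : ℂ) := by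
  have h := isAlgebraic_algebraMap (R := ℚ) (A := ℂ) q
  rwa [eq_ratCast] at h

/-- the inclusion of integral translates -/
def phiQ (q : ℤ × (ℤ × ℤ)) : ℚ × (ℚ × ℚ) := ((q.1 : ℚ), ((q.2.1 : ℚ), (q.2.2 : ℚ)))

theorem phiQ_inj : Function.Injective phiQ := by
  rintro ⟨a, b, c⟩ ⟨a', b', c'⟩ h
  simp only [phiQ, Prod.mk.injEq, Int.cast_inj] at h
  obtain ⟨h1, h2, h3⟩ := h
  rw [h1, h2, h3]

theorem phiQ_mem {P W w2 t u : ℂ} (q : ℤ × (ℤ × ℤ)) :
    phiQ q ∈ DQ P W w2 t u ↔ q ∈ DP P W w2 t u := by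
  simp only [DQ, DP, phiQ, Set.mem_ofPred_eq, Rat.cast_intCast]

theorem exceptional_sharp {P W w2 : ℂ} (hPW : AlgebraicIndependent ℚ ![P, W])
    (hτ : IsAlgebraic ℚ (w2 / W)) (him : (w2 / W).im ≠ 0) (t u : ℂ) :
    (DQ P W w2 t u).encard ≤ 2 ∨
    (∃ q₀ : ℚ, (∀ q ∈ DQ P W w2 t u, q.1 = q₀) ∧
      ¬ AlgebraicIndependent ℚ ![t + q₀ * P, W] ∧ ¬ AlgebraicIndependent ℚ ![u, W]) ∨
    (∃ l₀ : ℚ × ℚ, (∀ q ∈ DQ P W w2 t u, q.2 = l₀) ∧
      ¬ AlgebraicIndependent ℚ ![t, P] ∧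
      ¬ AlgebraicIndependent ℚ ![u + (l₀.1 * W + l₀.2 * w2), P]) ∨
    ((∃ a b c : ℂ, IsAlgebraic ℚ a ∧ IsAlgebraic ℚ b ∧ IsAlgebraic ℚ c ∧ c ≠ 0 ∧
        t = a + b * P + c * W) ∧
      (∃ a b c : ℂ, IsAlgebraic ℚ a ∧ IsAlgebraic ℚ b ∧ IsAlgebraic ℚ c ∧ c ≠ 0 ∧
        u = a + b * W + c * P) ∧
      Set.InjOn Prod.fst (DQ P W w2 t u) ∧ Set.InjOn Prod.snd (DQ P W w2 t u) ∧
      (DP P W w2 t u).Finite) := by
  classical
  have hW : Transcendental ℚ W := ((algInd_iff P W).1 hPW).1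
  have hPF : P ∉ FF W := ((algInd_iff P W).1 hPW).2
  have hP : Transcendental ℚ P := fun h => hPF (FF_of_alg h)
  have hW0 : W ≠ 0 := fun h => hW (by rw [h]; exact isAlgebraic_zero)
  have hP0 : P ≠ 0 := fun h => hP (by rw [h]; exact isAlgebraic_zero)
  set τ : ℂ := w2 / W with hτd
  have hw2 : w2 = W * τ := by rw [hτd]; field_simp
  have hlat : ∀ m n : ℚ, (m : ℂ) * W + n * w2 = (m + n * τ) * W := by
    intro m n; rw [hw2]; ring
  have halg : ∀ m n : ℚ, IsAlgebraic ℚ ((m : ℂ) + n * τ) := fun m n =>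
    (isAlg_rat m).add ((isAlg_rat n).mul hτ)
  have hinjl : ∀ m n m' n' : ℚ, (m : ℂ) + n * τ = m' + n' * τ → m = m' ∧ n = n' := by
    intro m n m' n' h
    have h1 := congrArg Complex.im h
    simp only [Complex.add_im, Complex.ratCast_im, Complex.mul_im, Complex.ratCast_re, zero_mul,
      add_zero, zero_add] at h1
    have h2 : (n : ℝ) = n' := mul_right_cancel₀ him h1
    have h3 : n = n' := by exact_mod_cast h2
    subst h3
    have h4 : (m : ℂ) = m' := by linear_combination h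
    exact ⟨by exact_mod_cast h4, rfl⟩
  -- the structure
  have hst := pairs_structure hPW {x | ∃ j : ℚ, x = t + j * P ∧ Transcendental ℚ x}
    {y | ∃ m n : ℚ, y = u + (m * W + n * w2) ∧ Transcendental ℚ y}
    (fun x hx => hx.choose_spec.2) (fun y hy => hy.choose_spec.choose_spec.2)
    (by
      rintro x ⟨j, rfl, _⟩ x' ⟨j', rfl, _⟩ hne
      have hjj : (j : ℂ) - j' ≠ 0 := by
        intro h
        apply hne
        have : (j : ℂ) = j' := by linear_combination h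
        rw [this]
      refine ⟨((j : ℂ) - j')⁻¹, ((isAlg_rat j).sub (isAlg_rat j')).inv, ?_⟩
      field_simp
      ring)
    (by
      rintro x ⟨j, rfl, _⟩ x' ⟨j', rfl, _⟩
      have : t + j * P - (t + j' * P) = ((j : ℂ) - j') * P := by ring
      rw [this]
      exact FF_mul (FF_of_alg ((isAlg_rat j).sub (isAlg_rat j'))) (mem_FF_self P))
    (by
      rintro y ⟨m, n, rfl, _⟩ y' ⟨m', n', rfl, _⟩ hne
      have hjj : ((m : ℂ) + n * τ) - (m' + n' * τ) ≠ 0 := by
        intro h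
        apply hne
        have h2 : (m : ℂ) + n * τ = m' + n' * τ := by linear_combination h
        rw [hlat, hlat, h2]
      refine ⟨(((m : ℂ) + n * τ) - (m' + n' * τ))⁻¹, ((halg m n).sub (halg m' n')).inv, ?_⟩
      have e : u + (↑m * W + ↑n * w2) - (u + (↑m' * W + ↑n' * w2)) =
          (((m : ℂ) + n * τ) - (m' + n' * τ)) * W := by rw [hlat, hlat]; ring
      rw [e, ← mul_assoc, inv_mul_cancel₀ hjj, one_mul])
    (by
      rintro y ⟨m, n, rfl, _⟩ y' ⟨m', n', rfl, _⟩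
      have : u + (m * W + n * w2) - (u + (m' * W + n' * w2)) =
          (((m : ℂ) + n * τ) - (m' + n' * τ)) * W := by rw [hlat, hlat]; ring
      rw [this]
      exact FF_mul (FF_of_alg ((halg m n).sub (halg m' n'))) (mem_FF_self W))
    _ rfl
  -- transfer
  have hmem : ∀ q ∈ DQ P W w2 t u, ((t + q.1 * P, u + (q.2.1 * W + q.2.2 * w2)) : ℂ × ℂ) ∈
      {p : ℂ × ℂ | p.1 ∈ {x | ∃ j : ℚ, x = t + j * P ∧ Transcendental ℚ x} ∧
        p.2 ∈ {y | ∃ m n : ℚ, y = u + (m * W + n * w2) ∧ Transcendental ℚ y} ∧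
        ¬ AlgebraicIndependent ℚ ![p.1, p.2]} := by
    rintro ⟨j, m, n⟩ ⟨h1, h2, h3⟩
    exact ⟨⟨j, rfl, h1⟩, ⟨m, n, rfl, h2⟩, h3⟩
  have hj_inj : ∀ j j' : ℚ, t + j * P = t + j' * P → j = j' := by
    intro j j' h
    have : (j : ℂ) = j' := mul_right_cancel₀ hP0 (by linear_combination h)
    exact_mod_cast this
  have hl_inj : ∀ l l' : ℚ × ℚ, u + ((l.1 : ℂ) * W + l.2 * w2) = u + (l'.1 * W + l'.2 * w2) →
      l = l' := by
    rintro ⟨m, n⟩ ⟨m', n'⟩ h
    simp only at h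
    rw [hlat, hlat] at h
    have h1 : (m : ℂ) + n * τ = m' + n' * τ := mul_right_cancel₀ hW0 (by linear_combination h)
    obtain ⟨h2, h3⟩ := hinjl _ _ _ _ h1
    rw [h2, h3]
  by_cases hle : (DQ P W w2 t u).encard ≤ 2
  · exact Or.inl hle
  right
  -- three distinct elements
  obtain ⟨x, y, z, hxy, hxz, hyz, hx, hy, hz⟩ : ∃ x y z : ℚ × (ℚ × ℚ), x ≠ y ∧ x ≠ z ∧ y ≠ z ∧
      x ∈ DQ P W w2 t u ∧ y ∈ DQ P W w2 t u ∧ z ∈ DQ P W w2 t u := by
    push Not at hle
    have h3 : (3 : ℕ∞) ≤ (DQ P W w2 t u).encard := by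
      have := Order.add_one_le_of_lt hle
      have e : (2 : ℕ∞) + 1 = 3 := by norm_num
      rwa [e] at this
    obtain ⟨S, hS, hS3⟩ := Set.exists_subset_encard_eq h3
    obtain ⟨x, y, z, h1, h2, h3, rfl⟩ := Set.encard_eq_three.1 hS3
    exact ⟨x, y, z, h1, h2, h3, hS (by simp), hS (by simp), hS (by simp)⟩
  -- consequences of two elements in a row or in a column
  have hrow : ∀ q ∈ DQ P W w2 t u, ∀ q' ∈ DQ P W w2 t u, q.1 = q'.1 → q.2 ≠ q'.2 →
      ¬ AlgebraicIndependent ℚ ![t + q.1 * P, W] ∧ ¬ AlgebraicIndependent ℚ ![u, W] := by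
    rintro ⟨j, m, n⟩ ⟨h1, h2, h3⟩ ⟨j', m', n'⟩ ⟨h1', h2', h3'⟩ hj hne
    simp only at h1 h2 h3 h1' h2' h3' hj hne ⊢
    subst hj
    have e1 : u + (m * W + n * w2) ∈ FF (t + j * P) := FF_symm h1 ((dep_iff h2).1 h3)
    have e2 : u + (m' * W + n' * w2) ∈ FF (t + j * P) := FF_symm h1 ((dep_iff h2').1 h3')
    have hjj : ((m : ℂ) + n * τ) - (m' + n' * τ) ≠ 0 := by
      intro h
      apply hne
      obtain ⟨h4, h5⟩ := hinjl m n m' n' (by linear_combination h)
      rw [h4, h5]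
    have e3 : W ∈ FF (t + j * P) := by
      have e4 : W = (((m : ℂ) + n * τ) - (m' + n' * τ))⁻¹ *
          ((u + (m * W + n * w2)) - (u + (m' * W + n' * w2))) := by
        have e0 : (u + (m * W + n * w2)) - (u + (m' * W + n' * w2)) =
            (((m : ℂ) + n * τ) - (m' + n' * τ)) * W := by rw [hlat, hlat]; ring
        rw [e0, ← mul_assoc, inv_mul_cancel₀ hjj, one_mul]
      rw [e4]
      exact FF_mul (FF_of_alg ((halg m n).sub (halg m' n')).inv) (FF_sub e1 e2)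
    have e5 : t + j * P ∈ FF W := FF_symm hW e3
    refine ⟨(dep_iff hW).2 e5, (dep_iff hW).2 ?_⟩
    have e6 : u = (u + (m * W + n * w2)) - (m + n * τ) * W := by rw [hlat]; ring
    rw [e6]
    exact FF_sub (FF_trans e1 e5) (FF_mul (FF_of_alg (halg m n)) (mem_FF_self W))
  have hcol : ∀ q ∈ DQ P W w2 t u, ∀ q' ∈ DQ P W w2 t u, q.1 ≠ q'.1 → q.2 = q'.2 →
      ¬ AlgebraicIndependent ℚ ![t, P] ∧
      ¬ AlgebraicIndependent ℚ ![u + (q.2.1 * W + q.2.2 * w2), P] := by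
    rintro ⟨j, m, n⟩ ⟨h1, h2, h3⟩ ⟨j', m', n'⟩ ⟨h1', h2', h3'⟩ hne hl
    simp only [Prod.mk.injEq] at h1 h2 h3 h1' h2' h3' hne hl ⊢
    obtain ⟨rfl, rfl⟩ := hl
    have e1 : t + j * P ∈ FF (u + (m * W + n * w2)) := (dep_iff h2).1 h3
    have e2 : t + j' * P ∈ FF (u + (m * W + n * w2)) := (dep_iff h2).1 h3'
    have hjj : (j : ℂ) - j' ≠ 0 := by
      intro h
      apply hne
      have : (j : ℂ) = j' := by linear_combination h
      exact_mod_cast this
    have e3 : P ∈ FF (u + (m * W + n * w2)) := by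
      have e4 : P = ((j : ℂ) - j')⁻¹ * ((t + j * P) - (t + j' * P)) := by
        field_simp
        ring
      rw [e4]
      exact FF_mul (FF_of_alg ((isAlg_rat j).sub (isAlg_rat j')).inv) (FF_sub e1 e2)
    have e5 : u + (m * W + n * w2) ∈ FF P := FF_symm hP e3
    refine ⟨(dep_iff hP).2 ?_, (dep_iff hP).2 e5⟩
    have e6 : t = (t + j * P) - j * P := by ring
    rw [e6]
    exact FF_sub (FF_trans e1 e5) (FF_mul (FF_of_alg (isAlg_rat j)) (mem_FF_self P))
  rcases hst with ⟨a, ha⟩ | ⟨b, hb⟩ | ⟨h1, h2⟩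
  · left
    have hall : ∀ q ∈ DQ P W w2 t u, q.1 = x.1 := by
      intro q hq
      refine hj_inj _ _ ?_
      have e1 := ha _ (hmem q hq)
      have e2 := ha _ (hmem x hx)
      simp only at e1 e2
      rw [e1, e2]
    have hne : x.2 ≠ y.2 := fun h => hxy (Prod.ext (hall y hy).symm h)
    obtain ⟨e1, e2⟩ := hrow x hx y hy (hall y hy).symm hne
    exact ⟨x.1, hall, e1, e2⟩
  · right; left
    have hall : ∀ q ∈ DQ P W w2 t u, q.2 = x.2 := by
      intro q hq
      refine hl_inj _ _ ?_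
      have e1 := hb _ (hmem q hq)
      have e2 := hb _ (hmem x hx)
      simp only at e1 e2
      rw [e1, e2]
    have hne : x.1 ≠ y.1 := fun h => hxy (Prod.ext h (hall y hy).symm)
    obtain ⟨e1, e2⟩ := hcol x hx y hy hne (hall y hy).symm
    exact ⟨x.2, hall, e1, e2⟩
  · right; right
    have inj1 : Set.InjOn Prod.fst (DQ P W w2 t u) := by
      intro q hq q' hq' h
      refine Prod.ext h (hl_inj _ _ ?_)
      exact h1 _ (hmem q hq) _ (hmem q' hq') (by simp only; rw [h])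
    have inj2 : Set.InjOn Prod.snd (DQ P W w2 t u) := by
      intro q hq q' hq' h
      refine Prod.ext (hj_inj _ _ ?_) h
      exact h2 _ (hmem q hq) _ (hmem q' hq') (by simp only; rw [h])
    have hne1 : ∀ q ∈ DQ P W w2 t u, ∀ q' ∈ DQ P W w2 t u, q ≠ q' → (q.1 : ℂ) ≠ q'.1 := by
      intro q hq q' hq' hne h
      exact hne (inj1 hq hq' (by exact_mod_cast h))
    have hne2 : ∀ q ∈ DQ P W w2 t u, ∀ q' ∈ DQ P W w2 t u, q ≠ q' →
        (q.2.1 : ℂ) + q.2.2 * τ ≠ q'.2.1 + q'.2.2 * τ := by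
      intro q hq q' hq' hne h
      obtain ⟨h4, h5⟩ := hinjl _ _ _ _ h
      exact hne (inj2 hq hq' (Prod.ext h4 h5))
    have hdep : ∀ q ∈ DQ P W w2 t u, t + (q.1 : ℂ) * P ∈ FF (u + ((q.2.1 : ℂ) + q.2.2 * τ) * W) := by
      rintro q ⟨h4, h5, h6⟩
      rw [← hlat]
      exact (dep_iff h5).1 h6
    obtain ⟨r1, r2⟩ := three_pairs hPW ![(x.1 : ℂ), y.1, z.1]
      ![(x.2.1 : ℂ) + x.2.2 * τ, y.2.1 + y.2.2 * τ, z.2.1 + z.2.2 * τ]
      (by
        intro i
        fin_cases i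
        · exact isAlg_rat _
        · exact isAlg_rat _
        · exact isAlg_rat _)
      (by
        intro i
        fin_cases i
        · exact halg _ _
        · exact halg _ _
        · exact halg _ _)
      (by
        intro i j hij
        fin_cases i <;> fin_cases j <;> simp at hij ⊢
        · exact hne1 x hx y hy hxy (by exact_mod_cast hij)
        · exact hne1 x hx z hz hxz (by exact_mod_cast hij)
        · exact hne1 y hy x hx hxy.symm (by exact_mod_cast hij)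
        · exact hne1 y hy z hz hyz (by exact_mod_cast hij)
        · exact hne1 z hz x hx hxz.symm (by exact_mod_cast hij)
        · exact hne1 z hz y hy hyz.symm (by exact_mod_cast hij))
      (by
        intro i j hij
        fin_cases i <;> fin_cases j <;> simp at hij ⊢
        · exact hne2 x hx y hy hxy hij
        · exact hne2 x hx z hz hxz hij
        · exact hne2 y hy x hx hxy.symm hij
        · exact hne2 y hy z hz hyz hij
        · exact hne2 z hz x hx hxz.symm hij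
        · exact hne2 z hz y hy hyz.symm hij)
      (by
        intro i
        fin_cases i
        · exact hdep x hx
        · exact hdep y hy
        · exact hdep z hz)
    refine ⟨r1, r2, inj1, inj2, ?_⟩
    have inj1' : Set.InjOn Prod.fst (DP P W w2 t u) := by
      intro q hq q' hq' h
      refine phiQ_inj (inj1 ((phiQ_mem q).2 hq) ((phiQ_mem q').2 hq') ?_)
      simp only [phiQ, h]
    have inj2' : Set.InjOn Prod.snd (DP P W w2 t u) := by
      intro q hq q' hq' h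
      refine phiQ_inj (inj2 ((phiQ_mem q).2 hq) ((phiQ_mem q').2 hq') ?_)
      simp only [phiQ, h]
    rcases exceptional hPW hτ him t u with ⟨j, hj⟩ | ⟨l, hl⟩ | ⟨hf, -, -⟩
    · refine Set.Subsingleton.finite ?_
      intro q hq q' hq'
      exact inj1' hq hq' ((hj q hq).trans (hj q' hq').symm)
    · refine Set.Subsingleton.finite ?_
      intro q hq q' hq'
      exact inj2' hq hq' ((hl q hq).trans (hl q' hq').symm)
    · exact hf

end Pool.Agent.CHU
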