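import Pool.Agent.CHU.SL1c

/-! # Schneider: `exp (α v)` and `℘ (v)` are not both algebraic for algebraic `α ≠ 0`

(`v` not a torsion point, `g₂, g₃` algebraic) -/

set_option autoImplicit false

namespace Pool.Agent.CHU.SLone
open Pool.Agent.ZCM Pool.Agent.ZFin
open NumberField

noncomputable section

theorem alg_rat_mul (q : ℚ) {x : ℂ} (hx : IsAlgebraic ℚ x) : IsAlgebraic ℚ ((q : ℂ) * x) := by
  have h := isAlgebraic_algebraMap (R := ℚ) (A := ℂ) q
  rw [eq_ratCast] at h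
  exact h.mul hx

/-- the points `2^n v` over one number field -/
theorem pointsE (L : PeriodPair) (a b : ℂ) (h2 : L.g₂ = -4 * a) (h3 : L.g₃ = -4 * b)
    (ha : IsAlgebraic ℚ a) (hb : IsAlgebraic ℚ b) (α v : ℂ) (hα : IsAlgebraic ℚ α)
    (hv : ∀ n : ℕ, 1 ≤ n → (n : ℂ) * v ∉ L.lattice) (hP : IsAlgebraic ℚ (L.weierstrassP v))
    (he : IsAlgebraic ℚ (Complex.exp (α * v))) :
    ∃ (K : Type) (_ : Field K) (_ : NumberField K) (ι : K →+* ℂ) (w : ℕ → Fin 5 → K),
      ∀ n, ι ∘ w n = vE L α a (2 ^ n * v) := by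
  have hv1 : v ∉ L.lattice := by simpa using hv 1 le_rfl
  have hpow : ∀ n : ℕ, (2 : ℂ) ^ n * v ∉ L.lattice := by
    intro n
    have := hv (2 ^ n) (Nat.one_le_two_pow)
    push_cast at this
    exact this
  have hy0 : (L.derivWeierstrassP v / 2) ^ 2 =
      L.weierstrassP v ^ 3 + a * L.weierstrassP v + b := by
    have h := L.derivWeierstrassP_sq v hv1
    rw [h2, h3] at h
    linear_combination h / 4
  have hyQ : IsAlgebraic ℚ (L.derivWeierstrassP v / 2) := by
    refine IsAlgebraic.of_pow (n := 2) (by norm_num) ?_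
    rw [hy0]
    exact ((hP.pow 3).add (ha.mul hP)).add hb
  obtain ⟨K, iF, iN, ι, hK⟩ := TA_numberField
    ({α, a, Complex.exp (α * v), L.weierstrassP v, L.derivWeierstrassP v / 2} : Set ℂ) (by
      intro x hx
      simp only [Set.mem_insert_iff, Set.mem_singleton_iff] at hx
      rcases hx with rfl | rfl | rfl | rfl | rfl
      · exact hα
      · exact ha
      · exact he
      · exact hP
      · exact hyQ)
  obtain ⟨α', hα'⟩ := hK α (by simp)
  obtain ⟨a', ha'⟩ := hK a (by simp)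
  obtain ⟨w0, hw0⟩ := hK (Complex.exp (α * v)) (by simp)
  obtain ⟨x0, hx0⟩ := hK (L.weierstrassP v) (by simp)
  obtain ⟨y0, hy0'⟩ := hK (L.derivWeierstrassP v / 2) (by simp)
  have hind : ∀ n : ℕ, ∃ w : Fin 5 → K, ι ∘ w = vE L α a (2 ^ n * v) := by
    intro n
    have h : ∀ n : ℕ, ∃ W X Y : K, ι W = Complex.exp (α * (2 ^ n * v)) ∧
        ι X = L.weierstrassP (2 ^ n * v) ∧ ι Y = L.derivWeierstrassP (2 ^ n * v) / 2 := by
      intro n
      induction n with
      | zero =>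
        refine ⟨w0, x0, y0, ?_, ?_, ?_⟩
        · rw [pow_zero, one_mul]; exact hw0
        · rw [pow_zero, one_mul]; exact hx0
        · rw [pow_zero, one_mul]; exact hy0'
      | succ n ih =>
        obtain ⟨W, X, Y, hW, hX, hY⟩ := ih
        have e : (2 : ℂ) ^ (n + 1) * v = 2 * (2 ^ n * v) := by ring
        have hn := hpow (n + 1)
        rw [e] at hn
        have h := dup_lat L a b h2 h3 (2 ^ n * v) (ι X) (ι Y) (hpow n) hn hX hY
        refine ⟨W ^ 2, ((3 * X ^ 2 + a') ^ 2 - 8 * X * Y ^ 2) / (4 * Y ^ 2),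
          -((3 * X ^ 2 + a') ^ 3 - 12 * X * Y ^ 2 * (3 * X ^ 2 + a') + 8 * Y ^ 4) /
            (8 * Y ^ 3), ?_, ?_, ?_⟩
        · rw [map_pow, hW, e, ← Complex.exp_nat_mul]
          congr 1
          push_cast
          ring
        · rw [e, h.1]
          simp only [map_div₀, map_sub, map_mul, map_pow, map_add, map_ofNat, ha']
        · rw [e, h.2]
          simp only [map_div₀, map_neg, map_sub, map_mul, map_pow, map_add, map_ofNat, ha']
    obtain ⟨W, X, Y, hW, hX, hY⟩ := h n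
    refine ⟨![W, X, Y, α', a'], ?_⟩
    funext i
    fin_cases i
    · exact hW
    · exact hX
    · exact hY
    · exact hα'
    · exact ha'
  choose w hw using hind
  exact ⟨K, iF, iN, ι, w, hw⟩

/-- Schwarz's lemma with radius `m^(1/3)` -/
theorem schwarzE (r : ℕ) (β : Fin r → ℂ) (hinj : Function.Injective β) (β0 : ℂ) (Cg c : ℝ)
    (hCg : 0 ≤ Cg) (hc : 0 ≤ c) : ∃ C : ℝ, 0 ≤ C ∧ ∃ m0 : ℕ, ∀ m ≥ m0, ∀ (G : ℂ → ℂ) (A B : ℕ)
      (H R : ℝ), 0 ≤ H → 0 ≤ R → R ^ 3 = m → (A : ℝ) ≤ c * R ^ 2 → (B : ℝ) ≤ R →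
      Differentiable ℂ G → (∀ z, ‖G z‖ ≤ H * Real.exp (Cg * (A * ‖z‖ + B * (1 + ‖z‖ ^ 2)))) →
      (∀ i, ∀ t < m, iteratedDeriv t G (β i) = 0) →
      ‖iteratedDeriv m G β0‖ ≤ H * Real.exp (-(r / 3 : ℝ) * m * Real.log m +
        m * Real.log (m + 1) + C * m) := by
  set B0 : ℝ := 1 + ∑ i, ‖β i‖ with hB0
  set ρ : ℝ := ‖β0‖ + 1 with hρ
  set K : ℝ := 2 * (ρ + B0) with hK
  have hsum : 0 ≤ ∑ i, ‖β i‖ := Finset.sum_nonneg (fun i _ => norm_nonneg _)
  have hB1 : 1 ≤ B0 := by linarith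
  have hβ : ∀ i, ‖β i‖ ≤ B0 := by
    intro i
    have := Finset.single_le_sum (f := fun i => ‖β i‖) (fun i _ => norm_nonneg _)
      (Finset.mem_univ i)
    linarith
  have hρ1 : 1 ≤ ρ := by
    have := norm_nonneg β0
    linarith
  have hK1 : 1 ≤ K := by linarith
  have hlK : 0 ≤ Real.log K := Real.log_nonneg hK1
  refine ⟨Cg * (c + 2) + r * Real.log K, by positivity, ⌈(2 * B0 + ρ) ^ 3⌉₊, ?_⟩
  intro m hm G A B H R hH hR0' hR3 hA hB hG hgr hz
  have hm1 : (2 * B0 + ρ) ^ 3 ≤ m := Nat.ceil_le.mp hm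
  have hpos : 0 ≤ 2 * B0 + ρ := by linarith
  have hR1 : 2 * B0 + ρ ≤ R := by
    rw [← hR3] at hm1
    exact le_of_pow_le_pow_left₀ (by norm_num) hR0' hm1
  have hR0 : 0 < R := by linarith
  have hR1' : 1 ≤ R := by linarith
  have hmpos : (0 : ℝ) < m := by rw [← hR3]; positivity
  have hlogR : Real.log R = Real.log m / 3 := by
    rw [← hR3, Real.log_pow]
    push_cast
    ring
  set S : ℝ := H * Real.exp (Cg * (c + 2) * m) with hS
  have hS0 : 0 ≤ S := by positivity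
  have hSb : ∀ z : ℂ, ‖z‖ = R → ‖G z‖ ≤ S := by
    intro z hzR
    refine (hgr z).trans ?_
    rw [hzR, hS]
    refine mul_le_mul_of_nonneg_left (Real.exp_le_exp.2 ?_) hH
    rw [mul_assoc]
    refine mul_le_mul_of_nonneg_left ?_ hCg
    rw [← hR3]
    have e1 : (A : ℝ) * R ≤ c * R ^ 2 * R := mul_le_mul_of_nonneg_right hA hR0.le
    have e2 : (B : ℝ) * (1 + R ^ 2) ≤ R * (1 + R ^ 2) :=
      mul_le_mul_of_nonneg_right hB (by positivity)
    have e3 : R ≤ R ^ 3 := by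
      calc R = R ^ 1 := (pow_one _).symm
        _ ≤ R ^ 3 := pow_le_pow_right₀ hR1' (by norm_num)
    nlinarith
  -- bound on the unit circle around `β0`
  have hcirc : ∀ z ∈ Metric.sphere β0 1, ‖G z‖ ≤ S * (K / R) ^ (r * m) := by
    intro z hz1
    have hz2 : ‖z‖ ≤ ρ := by
      have h1 : ‖z - β0‖ = 1 := by simpa [dist_eq_norm] using hz1
      have h2 : z = β0 + (z - β0) := by ring
      calc ‖z‖ = ‖β0 + (z - β0)‖ := by rw [← h2]
        _ ≤ ‖β0‖ + ‖z - β0‖ := norm_add_le _ _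
        _ = ρ := by rw [h1]
    have h1 := schwarz_many r m β hinj G hG hz B0 R S hβ (by linarith) (by linarith) hSb z
      (by linarith)
    refine h1.trans (mul_le_mul_of_nonneg_left ?_ hS0)
    have hRB : 0 < R - B0 := by linarith
    refine pow_le_pow_left₀ (div_nonneg (by positivity) hRB.le) ?_ _
    rw [div_le_div_iff₀ hRB hR0]
    have h3 : ‖z‖ + B0 ≤ ρ + B0 := by linarith
    have h4 : R ≤ 2 * (R - B0) := by linarith
    calc (‖z‖ + B0) * R ≤ (ρ + B0) * (2 * (R - B0)) :=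
          mul_le_mul h3 h4 hR0.le (by linarith)
      _ = K * (R - B0) := by rw [hK]; ring
  have hcau := Complex.norm_iteratedDeriv_le_of_forall_mem_sphere_norm_le (c := β0) (R := 1)
    (f := G) m one_pos hG.diffContOnCl hcirc
  rw [one_pow, div_one] at hcau
  refine hcau.trans ?_
  -- rewriting as exponentials
  have e1 : (m.factorial : ℝ) ≤ Real.exp (m * Real.log (m + 1)) := by
    have h1 : (m.factorial : ℝ) ≤ ((m : ℝ) + 1) ^ m := by
      have h2 : m.factorial ≤ (m + 1) ^ m :=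
        (Nat.factorial_le_pow m).trans (Nat.pow_le_pow_left (Nat.le_succ m) m)
      exact_mod_cast h2
    have h3 : ((m : ℝ) + 1) ^ m = Real.exp (m * Real.log (m + 1)) := by
      rw [mul_comm, Real.exp_mul, Real.exp_log (by positivity), Real.rpow_natCast]
    rw [← h3]; exact h1
  have e3 : (K / R) ^ (r * m) =
      Real.exp (r * m * Real.log K + -(r / 3 : ℝ) * m * Real.log m) := by
    have h1 : r * m * Real.log K + -(r / 3 : ℝ) * m * Real.log m =
        Real.log (K / R) * ((r * m : ℕ) : ℝ) := by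
      rw [Real.log_div (by linarith) hR0.ne', hlogR]; push_cast; ring
    rw [h1, Real.exp_mul, Real.exp_log (by positivity), Real.rpow_natCast]
  calc (m.factorial : ℝ) * (S * (K / R) ^ (r * m)) ≤
      Real.exp (m * Real.log (m + 1)) * (S * (K / R) ^ (r * m)) :=
        mul_le_mul_of_nonneg_right e1 (by positivity)
    _ = H * Real.exp (-(r / 3 : ℝ) * m * Real.log m
        + m * Real.log (m + 1) + (Cg * (c + 2) + r * Real.log K) * m) := by
        have e4 : -(r / 3 : ℝ) * m * Real.log m + m * Real.log (m + 1) +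
            (Cg * (c + 2) + r * Real.log K) * m = m * Real.log (m + 1) + (Cg * (c + 2) * m +
            (r * m * Real.log K + -(r / 3 : ℝ) * m * Real.log m)) := by ring
        rw [hS, e3, e4, Real.exp_add (m * Real.log (m + 1)), Real.exp_add (Cg * (c + 2) * m)]
        ring
    _ ≤ _ := le_rfl

/-- an entire function all of whose derivatives vanish at a point is zero -/
theorem zeroE (G : ℂ → ℂ) (hG : Differentiable ℂ G) (z0 : ℂ)
    (h : ∀ t, iteratedDeriv t G z0 = 0) (z : ℂ) : G z = 0 := by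
  have han : AnalyticOnNhd ℂ G Set.univ := fun w _ => hG.analyticAt w
  have hord : analyticOrderAt G z0 = ⊤ := by
    rw [ENat.eq_top_iff_forall_ge]
    intro m
    exact (natCast_le_analyticOrderAt_iff_iteratedDeriv_eq_zero (hG.analyticAt z0)).2
      fun t _ => h t
  have hev := analyticOrderAt_eq_top.1 hord
  exact han.eqOn_zero_of_preconnected_of_eventuallyEq_zero isPreconnected_univ
    (Set.mem_univ z0) hev (Set.mem_univ z)

/-- the final inequality -/
theorem numE (κ : ℕ) (hκ : 1 ≤ κ) (c C1 Cs Cc lM ls v T e A B : ℝ) (hC1 : 0 ≤ C1) (hCs : 0 ≤ Cs)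
    (hCc : 0 ≤ Cc) (hlM : 0 ≤ lM) (hc : 1 ≤ c) (hT : 1 ≤ T) (hTe : T ≤ e)
    (hA0 : 0 ≤ A) (hB0 : 0 ≤ B)
    (hAB : A + B + e + 1 ≤ c * e) (hBe : B ≤ e)
    (hC : ((κ : ℝ) + 1) * (2 + 2 * C1 + (Cs + lM + 2 * Real.log c) * c + 2 * |ls| + Cc + c) + 2
      < Real.log T)
    (hup : 2 * B * ls + Real.log v ≤ (T * Real.log T + C1 * T) + c * e +
      (-((6 * κ + 9 : ℝ) / 3) * e * Real.log e + e * Real.log (e + 1) + Cc * e))
    (hlow : ∀ Θ : ℝ, (A + B + e) * lM + ((T * Real.log T + C1 * T) +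
      (e * Real.log (A + B + e + 1) + Cs * (A + B + e + 1))) ≤ Θ →
      -((κ : ℝ) - 1) * Θ ≤ (A + B + e) * lM + Real.log v) : False := by
  have hκr : (1 : ℝ) ≤ κ := by exact_mod_cast hκ
  have he1 : 1 ≤ e := hT.trans hTe
  have he0 : 0 < e := by linarith
  have hlT : 0 ≤ Real.log T := Real.log_nonneg hT
  have hle : Real.log T ≤ Real.log e := Real.log_le_log (by linarith) hTe
  have hle0 : 0 ≤ Real.log e := by linarith
  have hlc : 0 ≤ Real.log c := Real.log_nonneg hc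
  have hTT : T * Real.log T ≤ e * Real.log e := mul_le_mul hTe hle hlT he0.le
  have hC1T : C1 * T ≤ C1 * e := mul_le_mul_of_nonneg_left hTe hC1
  have hlog1 : Real.log (A + B + e + 1) ≤ Real.log e + Real.log c := by
    rw [← Real.log_mul he0.ne' (by linarith), mul_comm e]
    exact Real.log_le_log (by linarith) hAB
  have hloge : Real.log (e + 1) ≤ Real.log e + 1 := by
    have h1 : Real.log (e + 1) ≤ Real.log (2 * e) := Real.log_le_log (by linarith) (by linarith)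
    rw [Real.log_mul (by norm_num) he0.ne'] at h1
    have h2 : Real.log 2 ≤ 1 := by
      have := Real.log_le_sub_one_of_pos (show (0:ℝ) < 2 by norm_num)
      linarith
    linarith
  -- the quantity Θ
  set P : ℝ := C1 + (Cs + lM) * c + Real.log c with hP
  have hP0 : 0 ≤ P := by positivity
  have hΘ : (A + B + e) * lM + ((T * Real.log T + C1 * T) +
      (e * Real.log (A + B + e + 1) + Cs * (A + B + e + 1))) ≤ 2 * (e * Real.log e) + P * e := by
    have h1 : (A + B + e) * lM ≤ c * e * lM := mul_le_mul_of_nonneg_right (by linarith) hlM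
    have h2 : e * Real.log (A + B + e + 1) ≤ e * (Real.log e + Real.log c) :=
      mul_le_mul_of_nonneg_left hlog1 he0.le
    have h3 : Cs * (A + B + e + 1) ≤ Cs * (c * e) := mul_le_mul_of_nonneg_left hAB hCs
    rw [hP]
    nlinarith
  have h4 := hlow _ hΘ
  have h5 : (A + B + e) * lM ≤ 2 * (e * Real.log e) + P * e := by
    have h1 : (A + B + e) * lM ≤ c * e * lM := mul_le_mul_of_nonneg_right (by linarith) hlM
    have h6 : 0 ≤ e * Real.log e := by positivity
    have h7 : c * e * lM ≤ P * e := by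
      rw [hP]
      have : 0 ≤ (C1 + Cs * c + Real.log c) * e := by positivity
      nlinarith
    linarith
  have h6 : -(κ : ℝ) * (2 * (e * Real.log e) + P * e) ≤ Real.log v := by nlinarith
  have h7 : -(2 * e * |ls|) ≤ 2 * B * ls := by
    have h8 : -|ls| ≤ ls := neg_abs_le ls
    have h9 : 0 ≤ |ls| := abs_nonneg ls
    have h10 : B * |ls| ≤ e * |ls| := mul_le_mul_of_nonneg_right hBe h9
    nlinarith [mul_le_mul_of_nonneg_left h8 hB0]
  have h8 : Real.log v ≤ 2 * (e * Real.log e) - ((2 * κ + 3 : ℝ)) * (e * Real.log e) +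
      (C1 + c + 1 + Cc + 2 * |ls|) * e := by
    have h9 : e * Real.log (e + 1) ≤ e * (Real.log e + 1) :=
      mul_le_mul_of_nonneg_left hloge he0.le
    have h10 : -((6 * κ + 9 : ℝ) / 3) * e * Real.log e = -((2 * κ + 3 : ℝ)) * (e * Real.log e) := by
      ring
    rw [h10] at hup
    nlinarith
  have h9 : e * Real.log e ≤ (κ * P + (C1 + c + 1 + Cc + 2 * |ls|)) * e := by nlinarith
  have h10 : Real.log e ≤ κ * P + (C1 + c + 1 + Cc + 2 * |ls|) := by
    rw [mul_comm] at h9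
    exact le_of_mul_le_mul_right h9 he0
  have h11 : κ * P + (C1 + c + 1 + Cc + 2 * |ls|) ≤
      ((κ : ℝ) + 1) * (2 + 2 * C1 + (Cs + lM + 2 * Real.log c) * c + 2 * |ls| + Cc + c) := by
    have k1 : 0 ≤ |ls| := abs_nonneg ls
    have k2 : Real.log c ≤ Real.log c * c := by nlinarith
    have k3 : P ≤ 2 + 2 * C1 + (Cs + lM + 2 * Real.log c) * c + 2 * |ls| + Cc + c := by
      rw [hP]
      nlinarith
    have k4 : C1 + c + 1 + Cc + 2 * |ls| ≤
        2 + 2 * C1 + (Cs + lM + 2 * Real.log c) * c + 2 * |ls| + Cc + c := by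
      have : 0 ≤ (Cs + lM + 2 * Real.log c) * c := by positivity
      linarith
    have k5 := mul_le_mul_of_nonneg_left k3 (show (0:ℝ) ≤ κ by linarith)
    linarith
  linarith

end

end Pool.Agent.CHU.SLone

namespace Pool.Agent.CHU
open Pool.Agent.ZCM Pool.Agent.ZFin SLone

/-- **Schneider.** -/
theorem sl1 (L : PeriodPair) (h2 : IsAlgebraic ℚ L.g₂) (h3 : IsAlgebraic ℚ L.g₃) (α v : ℂ)
    (hα : IsAlgebraic ℚ α) (hα0 : α ≠ 0) (hv : ∀ n : ℕ, 1 ≤ n → (n : ℂ) * v ∉ L.lattice)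
    (hP : IsAlgebraic ℚ (L.weierstrassP v)) (he : IsAlgebraic ℚ (Complex.exp (α * v))) : False := by
  obtain ⟨a, ha⟩ : ∃ a, a = ((-1 / 4 : ℚ) : ℂ) * L.g₂ := ⟨_, rfl⟩
  obtain ⟨b, hb⟩ : ∃ b, b = ((-1 / 4 : ℚ) : ℂ) * L.g₃ := ⟨_, rfl⟩
  have ha' : IsAlgebraic ℚ a := by rw [ha]; exact alg_rat_mul _ h2
  have hb' : IsAlgebraic ℚ b := by rw [hb]; exact alg_rat_mul _ h3
  have e2 : L.g₂ = -4 * a := by rw [ha]; push_cast; ring
  have e3 : L.g₃ = -4 * b := by rw [hb]; push_cast; ring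
  obtain ⟨K, iK, iN, ι, w, hw⟩ := pointsE L a b e2 e3 ha' hb' α v hα hv hP he
  obtain ⟨κ, hκ⟩ : ∃ κ : ℕ, κ = Module.finrank ℚ K := ⟨_, rfl⟩
  have hκ1 : 1 ≤ κ := by rw [hκ]; exact Module.finrank_pos
  obtain ⟨S, hS⟩ : ∃ S : ℕ, S = 6 * κ + 9 := ⟨_, rfl⟩
  have hS1 : 1 ≤ S := by omega
  -- the points
  have hzL : ∀ n : ℕ, (2 : ℂ) ^ n * v ∉ L.lattice := by
    intro n
    have := hv (2 ^ n) (Nat.one_le_two_pow)
    push_cast at this
    exact this
  have hv0 : v ≠ 0 := by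
    rintro rfl
    exact hv 1 le_rfl (by rw [mul_zero]; exact L.lattice.zero_mem)
  have hinj : Function.Injective (fun i : Fin S => (2 : ℂ) ^ (i : ℕ) * v) := fun i j h => by
    have h1 := mul_right_cancel₀ hv0 h
    have h2 : 2 ^ (i : ℕ) = 2 ^ (j : ℕ) := by exact_mod_cast h1
    exact Fin.ext (Nat.pow_right_injective le_rfl h2)
  obtain ⟨C1, hC1, hsieg⟩ := siegelE w κ S hκ hS1
  choose M hM hint using fun n => valE_int (w n)
  choose Cs hCs hsize using fun n => valE_size (w n)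
  obtain ⟨Cg, hCg, hgrow⟩ := GE_grow α a b
  obtain ⟨c, hc⟩ : ∃ c : ℝ, c = 2 * κ * S + 3 := ⟨_, rfl⟩
  have hκr : (1:ℝ) ≤ κ := by exact_mod_cast hκ1
  have hSr : (1:ℝ) ≤ S := by exact_mod_cast hS1
  have hc1 : 1 ≤ c := by rw [hc]; nlinarith
  choose Cc hCc m0 hcauchy using fun n : ℕ =>
    schwarzE S (fun i => (2 : ℂ) ^ (i : ℕ) * v) hinj ((2 : ℂ) ^ n * v) Cg c hCg (by linarith)
  have hlogM : ∀ n, 0 ≤ Real.log (M n) := fun n =>
    Real.log_nonneg (by exact_mod_cast hM n)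
  let Bn : ℕ → ℝ := fun n => ((κ : ℝ) + 1) * (2 + 2 * C1 + (Cs n + Real.log (M n) +
    2 * Real.log (c + 2)) * (c + 2) + 2 * |Real.log ‖ev (SS a b) ((2 : ℂ) ^ n * v)‖| + Cc n +
    (c + 2)) + 2
  have hlc : 0 ≤ Real.log (c + 2) := Real.log_nonneg (by linarith)
  have hBn : ∀ n, 0 ≤ Bn n := fun n => by
    have := hCs n; have := hCc n; have := hlogM n
    simp only [Bn]
    positivity
  obtain ⟨N, hN1, hNm, hNlog⟩ : ∃ N : ℕ, 1 ≤ N ∧ (∀ n < S, m0 n ≤ N) ∧
      ∀ n < S, Bn n < Real.log ((N ^ 3 : ℕ) : ℝ) := by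
    set Q : ℝ := ∑ n ∈ Finset.range S, Bn n with hQ
    refine ⟨1 + ∑ n ∈ Finset.range S, m0 n + ⌈Real.exp (Q + 1)⌉₊, by omega, ?_, ?_⟩
    · intro n hn
      have := Finset.single_le_sum (f := m0) (fun i _ => Nat.zero_le _) (Finset.mem_range.2 hn)
      omega
    · intro n hn
      have h4 : Bn n ≤ Q := Finset.single_le_sum (f := Bn) (fun i _ => hBn i) (Finset.mem_range.2 hn)
      have h5 : Real.exp (Q + 1) ≤
          ((1 + ∑ n ∈ Finset.range S, m0 n + ⌈Real.exp (Q + 1)⌉₊ : ℕ) : ℝ) := by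
        refine (Nat.le_ceil _).trans ?_
        exact_mod_cast (by omega : ⌈Real.exp (Q + 1)⌉₊ ≤
          1 + ∑ n ∈ Finset.range S, m0 n + ⌈Real.exp (Q + 1)⌉₊)
      set N : ℕ := 1 + ∑ n ∈ Finset.range S, m0 n + ⌈Real.exp (Q + 1)⌉₊ with hNd
      have hNpos : (0:ℝ) < N := lt_of_lt_of_le (Real.exp_pos _) h5
      have h6 : Q + 1 ≤ Real.log N := by
        rw [Real.le_log_iff_exp_le hNpos]
        exact h5
      have h7 : Real.log ((N ^ 3 : ℕ) : ℝ) = 3 * Real.log N := by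
        push_cast
        rw [Real.log_pow]
        norm_num
      have h8 : 0 ≤ Q := Finset.sum_nonneg fun i _ => hBn i
      rw [h7]
      linarith
  obtain ⟨p, hpH, hpne, hpz⟩ := hsieg N hN1
  obtain ⟨T, hT⟩ : ∃ T : ℕ, T = N ^ 3 := ⟨_, rfl⟩
  obtain ⟨A, hA⟩ : ∃ A : ℕ, A = 2 * κ * S * N ^ 2 := ⟨_, rfl⟩
  rw [← hT] at hpH hpz hNlog
  rw [← hA] at hpz hpne
  have hNr : (1:ℝ) ≤ N := by exact_mod_cast hN1
  have hTN : (T : ℝ) = (N : ℝ) ^ 3 := by rw [hT]; push_cast; ring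
  have hTr : (1:ℝ) ≤ T := by rw [hTN]; exact one_le_pow₀ hNr
  have hNT : N ≤ T := by
    rw [hT]
    calc N = N ^ 1 := (pow_one _).symm
      _ ≤ N ^ 3 := Nat.pow_le_pow_right hN1 (by norm_num)
  set H : ℝ := Real.exp (T * Real.log T + C1 * T) with hH
  have hH0 : 0 < H := Real.exp_pos _
  -- the values
  let val : ℕ → ℕ → K := fun n t => valE (w n) A N p t
  have hval : ∀ n t, ι (val n t) = iteratedDeriv t (FE L α a A N p) ((2 : ℂ) ^ n * v) := by
    intro n t
    rw [FE_iter L α a b e2 e3 A N p t (hzL n)]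
    change ι (valE (w n) A N p t) = _
    rw [valE_map, hw n]
  set G : ℂ → ℂ := GE α a b A N p with hG
  have hGd : Differentiable ℂ G := GE_diff α a b A N p
  have hS0 : ∀ w, w ∉ L.lattice → ev (SS a b) w ≠ 0 := fun w hw h0 =>
    hw ((S_eq_zero_iff L a b e2 e3 w).1 h0)
  -- zeros of `G`
  have hGz : ∀ n e, (∀ t < e, val n t = 0) → ∀ t < e, iteratedDeriv t G ((2 : ℂ) ^ n * v) = 0 := by
    intro n e h t ht
    rw [hG, GE_iter L α a b e2 e3 A N p (hzL n) (k := t) (fun i hi => by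
      rw [← hval n i, h i (by omega), map_zero]), ← hval n t, h t ht, map_zero, mul_zero]
  have hGe : ∀ n e, (∀ t < e, val n t = 0) → iteratedDeriv e G ((2 : ℂ) ^ n * v) =
      ev (SS a b) ((2 : ℂ) ^ n * v) ^ (2 * N) * ι (val n e) := by
    intro n e h
    rw [hG, GE_iter L α a b e2 e3 A N p (hzL n) (k := e) (fun i hi => by
      rw [← hval n i, h i hi, map_zero]), ← hval n e]
  -- there is a non-vanishing value
  have hex : ∃ e, ∃ n < S, val n e ≠ 0 := by
    by_contra hcon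
    push Not at hcon
    obtain ⟨u, hu, hune⟩ := FE_ne L α a hα0 A N p hpne
    have hall : ∀ t, iteratedDeriv t G ((2 : ℂ) ^ 0 * v) = 0 := by
      intro t
      exact hGz 0 (t + 1) (fun s _ => hcon s 0 (by omega)) t (Nat.lt_succ_self t)
    have h0 := zeroE G hGd _ hall u
    rw [hG, GE_eq L α a b e2 e3 A N p hu] at h0
    rcases mul_eq_zero.1 h0 with h4 | h4
    · exact hS0 u hu ((pow_eq_zero_iff (by omega)).1 h4)
    · exact hune h4
  classical
  obtain ⟨e, ⟨n0, hn0, hne⟩, hemin⟩ : ∃ e, (∃ n < S, val n e ≠ 0) ∧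
      ∀ t < e, ∀ n < S, val n t = 0 := by
    refine ⟨Nat.find hex, Nat.find_spec hex, fun t ht n hn => ?_⟩
    by_contra hcon
    exact Nat.find_min hex ht ⟨n, hn, hcon⟩
  have heT : T ≤ e := by
    by_contra hlt
    push Not at hlt
    exact hne (hpz n0 hn0 e hlt)
  have heTr : (T : ℝ) ≤ e := by exact_mod_cast heT
  -- upper bound
  set s : ℝ := ‖ev (SS a b) ((2 : ℂ) ^ n0 * v)‖ with hs
  have hs0 : 0 < s := norm_pos_iff.2 (hS0 _ (hzL n0))
  set vv : ℝ := ‖ι (val n0 e)‖ with hvv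
  have hv0' : 0 < vv := norm_pos_iff.2 ((map_ne_zero ι).2 hne)
  obtain ⟨R, hR0, hR3⟩ : ∃ R : ℝ, 0 ≤ R ∧ R ^ 3 = e := by
    refine ⟨(e : ℝ) ^ ((1:ℝ) / 3), by positivity, ?_⟩
    rw [← Real.rpow_natCast, ← Real.rpow_mul (Nat.cast_nonneg e)]
    norm_num
  have hNR : (N : ℝ) ≤ R := by
    refine le_of_pow_le_pow_left₀ (n := 3) (by norm_num) hR0 ?_
    rw [hR3, ← hTN]
    exact heTr
  have hAR : (A : ℝ) ≤ c * R ^ 2 := by
    rw [hA, hc]
    push_cast
    have h4 : (N : ℝ) ^ 2 ≤ R ^ 2 := pow_le_pow_left₀ (by linarith) hNR 2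
    have h5 : (2 * κ * S : ℝ) * (N : ℝ) ^ 2 ≤ 2 * κ * S * R ^ 2 :=
      mul_le_mul_of_nonneg_left h4 (by positivity)
    nlinarith [sq_nonneg R]
  have hR1 : 1 ≤ R := hNr.trans hNR
  have he1 : (1:ℝ) ≤ e := hTr.trans heTr
  have hR2e : R ^ 2 ≤ e := by
    rw [← hR3]
    exact pow_le_pow_right₀ hR1 (by norm_num)
  have hNe : (N : ℝ) ≤ e := by
    have : (N : ℝ) ≤ T := by exact_mod_cast hNT
    linarith
  have hAe : (A : ℝ) ≤ 2 * κ * S * e := by
    rw [hA]
    push_cast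
    have h4 : (N : ℝ) ^ 2 ≤ R ^ 2 := pow_le_pow_left₀ (by linarith) hNR 2
    exact mul_le_mul_of_nonneg_left (h4.trans hR2e) (by positivity)
  have hABe : (A : ℝ) + N + e + 1 ≤ (c + 2) * e := by
    rw [hc]
    nlinarith
  have hgr : ∀ z, ‖G z‖ ≤ (A * N * H) * Real.exp (Cg * (A * ‖z‖ + N * (1 + ‖z‖ ^ 2))) := fun z =>
    hgrow A N H p hH0.le hpH z
  have hA1 : 1 ≤ A := by
    obtain ⟨i, hi, -⟩ := hpne
    omega
  have hA1r : (1:ℝ) ≤ A := by exact_mod_cast hA1
  have hup := hcauchy n0 e ((hNm n0 hn0).trans (hNT.trans heT)) G A N (A * N * H) R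
    (by positivity) hR0 hR3 hAR hNR hGd hgr
    (fun i t ht => hGz i e (fun u hu => hemin u hu i i.2) t ht)
  rw [hGe n0 e (fun u hu => hemin u hu n0 hn0), norm_mul, norm_pow, ← hs, ← hvv] at hup
  have hup' := Real.log_le_log (by positivity) hup
  rw [Real.log_mul (by positivity) (by positivity), Real.log_pow,
    Real.log_mul (by positivity) (by positivity), Real.log_mul (by positivity) (by positivity),
    Real.log_exp, Real.log_exp, Real.log_mul (by positivity) (by positivity)] at hup'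
  have hlA : Real.log (A : ℝ) ≤ A := (Real.log_le_sub_one_of_pos (by linarith)).trans (by linarith)
  have hlN : Real.log (N : ℝ) ≤ N := (Real.log_le_sub_one_of_pos (by linarith)).trans (by linarith)
  -- Liouville
  have hMr : (0 : ℝ) < M n0 := by exact_mod_cast hM n0
  refine numE κ hκ1 (c + 2) C1 (Cs n0) (Cc n0) (Real.log (M n0)) (Real.log s) vv T e A N hC1
    (hCs n0) (hCc n0) (hlogM n0) (by linarith) hTr heTr (by positivity) (by positivity) hABe hNe
    ?_ ?_ ?_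
  · exact hNlog n0 hn0
  · rw [hS] at hup'
    push_cast at hup' ⊢
    have h5 : (A : ℝ) + N ≤ (c + 2) * e := by linarith
    linarith
  · intro Θ hΘ
    set Y : K := (M n0 : K) ^ (A + N + e) * val n0 e with hY
    have hYint : IsIntegral ℤ Y := hint n0 A N e p
    have hM0 : (M n0 : K) ≠ 0 := by exact_mod_cast (hM n0).ne'
    have hY0 : Y ≠ 0 := mul_ne_zero (pow_ne_zero _ hM0) hne
    have hYσ : ∀ σ : K →+* ℂ, ‖σ Y‖ ≤ Real.exp Θ := by
      intro σ
      have h4 := hsize n0 A N e H p hH0.le hpH σ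
      rw [hY, map_mul, map_pow, map_natCast, norm_mul, norm_pow, Complex.norm_natCast]
      calc (M n0 : ℝ) ^ (A + N + e) * ‖σ (val n0 e)‖
          ≤ (M n0 : ℝ) ^ (A + N + e) *
            (H * Real.exp (e * Real.log (A + N + e + 1) + Cs n0 * (A + N + e + 1))) := by
            gcongr
        _ = Real.exp (((A + N + e : ℕ) : ℝ) * Real.log (M n0) +
            ((T * Real.log T + C1 * T) +
              (e * Real.log (A + N + e + 1) + Cs n0 * (A + N + e + 1)))) := by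
            have e1 : ∀ A B D : ℝ, Real.exp (A + (B + D)) =
                Real.exp A * (Real.exp B * Real.exp D) := fun A B D => by
              rw [Real.exp_add, Real.exp_add]
            rw [e1, Real.exp_nat_mul, Real.exp_log hMr, ← hH]
        _ ≤ Real.exp Θ := Real.exp_le_exp.2 (by push_cast; exact hΘ)
    have h5 := liouville K Y hYint hY0 Θ hYσ ι
    rw [hY, map_mul, map_pow, map_natCast, norm_mul, norm_pow, Complex.norm_natCast, ← hvv,
      ← hκ] at h5
    have h6 := Real.log_le_log (Real.exp_pos _) h5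
    rw [Real.log_exp, Real.log_mul (by positivity) (by positivity), Real.log_pow] at h6
    push_cast at h6
    exact h6

end Pool.Agent.CHU
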