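import Pool.Agent.CHU.SL2Q
import Pool.Agent.CHU.SL1
import Pool.Agent.CHU.Pairs

/-!
# Two variable Schneider-Lang theorem for `x, ℘(z), exp (a z + x)` on a grid

If `exp (a U_i + b_i)` and `℘(U_i)` are algebraic (`i = 1, 2`), `a ≠ 0`, `b_1`, `b_2` are algebraic,
`U_1`, `U_2` are algebraically independent and no combination `n_1 U_1 + n_2 U_2` with natural
numbers, not both zero, is a period: contradiction.
-/

namespace Pool.Agent.CHU.SL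
open Pool.Agent.ZCM Pool.Agent.ZFin

theorem dir_bound (L : PeriodPair) (α g b : ℂ) (h2 : L.g₂ = -4 * g) (h3 : L.g₃ = -4 * b)
    (T D1 D2 : ℕ) (pc : ℕ → ℕ → ℕ → ℂ) (β u x0 z0 : ℂ) (N e : ℕ) (he1 : 1 ≤ e)
    (hgr : ∀ a < N, z0 + ((a + 1 : ℕ) : ℂ) * u ∉ L.lattice)
    (hzero : ∀ a < N, ∀ m n, m + n < e → MvPolynomial.eval
      (V L α g (x0 + ((a + 1 : ℕ) : ℂ) * β) (z0 + ((a + 1 : ℕ) : ℂ) * u))
      (Dmn ℂ m n (PL ℂ T D1 D2 pc)) = 0) (Λ : ℝ) (hΛ1 : 1 ≤ Λ)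
    (hΛ : ∀ a < N, 1 ≤ Λ * ‖ev (SS g b) (z0 + ((a + 1 : ℕ) : ℂ) * u)‖) (ρ Sp q : ℝ)
    (hρN : (N : ℝ) + 1 ≤ ρ) (hSp0 : 0 ≤ Sp)
    (hsup : ∀ k ≤ e, ∀ s : ℂ, ‖s‖ = ρ → ‖EL α g b T D1 D2 pc k (x0 + s * β) (z0 + s * u)‖ ≤ Sp)
    (hq : q = (2 * (N : ℝ) + 1) / (ρ - N)) (hq0 : 0 ≤ q) (hq1 : q ≤ 1)
    (k : ℕ) (hk : k ≤ e / 2) (a : ℕ) (ha : a < N) :
    ‖MvPolynomial.eval (V L α g (x0 + ((a + 1 : ℕ) : ℂ) * β) (z0 + ((a + 1 : ℕ) : ℂ) * u))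
      ((⇑(Dv β u))^[e - k] ((⇑(dx ℂ))^[k] (PL ℂ T D1 D2 pc)))‖ ≤
      Λ ^ (2 * D1) * (e.factorial * (Sp * q ^ (N * (e / 2)))) := by
  have hl := line_bound L α g b h2 h3 T D1 D2 pc β u x0 z0 N (e - k) k hgr
    (fun a ha t ht => low_zero _ _ e (fun m n hlt => hzero a ha m n hlt) β u t k (by omega))
    ρ Sp hρN hSp0 (fun s hs => hsup k (by omega) s hs) a ha
  rw [← hq] at hl
  obtain ⟨X, hX⟩ : ∃ X, X = ‖ev (SS g b) (z0 + ((a + 1 : ℕ) : ℂ) * u)‖ := ⟨_, rfl⟩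
  obtain ⟨Y, hY⟩ : ∃ Y, Y = ‖MvPolynomial.eval
      (V L α g (x0 + ((a + 1 : ℕ) : ℂ) * β) (z0 + ((a + 1 : ℕ) : ℂ) * u))
      ((⇑(Dv β u))^[e - k] ((⇑(dx ℂ))^[k] (PL ℂ T D1 D2 pc)))‖ := ⟨_, rfl⟩
  have hΛa := hΛ a ha
  rw [← hX, ← hY] at hl
  rw [← hX] at hΛa
  rw [← hY]
  have hX0 : 0 ≤ X := by rw [hX]; exact norm_nonneg _
  have hY0 : 0 ≤ Y := by rw [hY]; exact norm_nonneg _
  have h5 : (1 : ℝ) ≤ (Λ * X) ^ (2 * D1) := one_le_pow₀ hΛa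
  have h6 : ((e - k).factorial : ℝ) ≤ e.factorial := by
    exact_mod_cast Nat.factorial_le (Nat.sub_le _ _)
  have h7 : q ^ (N * (e - k)) ≤ q ^ (N * (e / 2)) :=
    pow_le_pow_of_le_one hq0 hq1 (Nat.mul_le_mul_left _ (by omega))
  calc Y ≤ (Λ * X) ^ (2 * D1) * Y := by nlinarith
    _ = Λ ^ (2 * D1) * (X ^ (2 * D1) * Y) := by rw [mul_pow]; ring
    _ ≤ Λ ^ (2 * D1) * ((e - k).factorial * (Sp * q ^ (N * (e - k)))) := by gcongr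
    _ ≤ Λ ^ (2 * D1) * (e.factorial * (Sp * q ^ (N * (e / 2)))) := by gcongr

set_option maxHeartbeats 1600000 in
theorem sl2_core (L : PeriodPair) (g b α b1 b2 U1 U2 : ℂ) (h2 : L.g₂ = -4 * g)
    (h3 : L.g₃ = -4 * b) (hdet : b1 * U2 - b2 * U1 ≠ 0)
    (hgr : ∀ n1 n2 : ℕ, (n1 ≠ 0 ∨ n2 ≠ 0) → (n1 : ℂ) * U1 + n2 * U2 ∉ L.lattice)
    (K : Type) [Field K] [NumberField K] (ι : K →+* ℂ) (w : ℕ → ℕ → Fin 6 → K)
    (hw : ∀ n1 n2 : ℕ, (n1 ≠ 0 ∨ n2 ≠ 0) → ∀ i,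
      ι (w n1 n2 i) = V L α g (n1 * b1 + n2 * b2) (n1 * U1 + n2 * U2) i) : False := by
  classical
  have hU1 : U1 ≠ 0 := by
    rintro rfl
    have := hgr 1 0 (by simp)
    apply this
    simp
  have hU2 : U2 ≠ 0 := by
    rintro rfl
    have := hgr 0 1 (by simp)
    apply this
    simp
  obtain ⟨κ, hκd⟩ : ∃ κ, κ = Module.finrank ℚ K := ⟨_, rfl⟩
  have hκ : 1 ≤ κ := by rw [hκd]; exact Module.finrank_pos
  obtain ⟨N, hN⟩ : ∃ N, N = 12 * κ + 24 := ⟨_, rfl⟩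
  obtain ⟨w', hw'⟩ : ∃ w' : ℕ → ℕ → Fin 6 → K, ∀ n1 n2, w' n1 n2 = w (n1 + 1) (n2 + 1) :=
    ⟨fun n1 n2 => w (n1 + 1) (n2 + 1), fun _ _ => rfl⟩
  -- the points
  obtain ⟨γx, hγx⟩ : ∃ γx : ℕ → ℕ → ℂ, ∀ n1 n2, γx n1 n2 =
      ((n1 + 1 : ℕ) : ℂ) * b1 + ((n2 + 1 : ℕ) : ℂ) * b2 := ⟨fun n1 n2 => _, fun _ _ => rfl⟩
  obtain ⟨γz, hγz⟩ : ∃ γz : ℕ → ℕ → ℂ, ∀ n1 n2, γz n1 n2 =
      ((n1 + 1 : ℕ) : ℂ) * U1 + ((n2 + 1 : ℕ) : ℂ) * U2 := ⟨fun n1 n2 => _, fun _ _ => rfl⟩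
  have hγL : ∀ n1 n2, γz n1 n2 ∉ L.lattice := fun n1 n2 => by
    rw [hγz]; exact hgr (n1 + 1) (n2 + 1) (Or.inl (by omega))
  have hι : ∀ n1 n2 i, ι (w' n1 n2 i) = V L α g (γx n1 n2) (γz n1 n2) i := by
    intro n1 n2 i
    rw [hw', hw (n1 + 1) (n2 + 1) (Or.inl (by omega)), hγx, hγz]
  obtain ⟨d, hd1, hd⟩ := exists_den K N w'
  obtain ⟨M, hM1, hM⟩ := exists_size K N w'
  obtain ⟨Λ, hΛ1, hΛ⟩ := exists_low N (fun n1 n2 => ev (SS g b) (γz n1 n2))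
    (fun n1 n2 _ _ h => hγL n1 n2 ((S_eq_zero_iff L g b h2 h3 _).1 h))
  obtain ⟨CG, hCG, hgrow⟩ := grow_EL α g b
  obtain ⟨C2, hC2⟩ : ∃ C2 : ℝ, C2 = 1 + ‖b1‖ + ‖b2‖ + ‖U1‖ + ‖U2‖ := ⟨_, rfl⟩
  have hC21 : 1 ≤ C2 := by
    rw [hC2]; linarith [norm_nonneg b1, norm_nonneg b2, norm_nonneg U1, norm_nonneg U2]
  obtain ⟨K0, hK0⟩ : ∃ K0 : ℝ, K0 = 1 + ‖U2 / (b1 * U2 - b2 * U1)‖ + ‖U1 / (b1 * U2 - b2 * U1)‖ +
      ‖b1 / (b1 * U2 - b2 * U1)‖ + ‖b2 / (b1 * U2 - b2 * U1)‖ + ‖(b1 * U2 - b2 * U1) / U1‖ +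
      ‖(b1 * U2 - b2 * U1) / U2‖ + ‖U2 / U1‖ + ‖U1 / U2‖ := ⟨_, rfl⟩
  have hK01 : 1 ≤ K0 := by
    rw [hK0]
    have nn := fun x : ℂ => norm_nonneg x
    linarith [nn (U2 / (b1 * U2 - b2 * U1)), nn (U1 / (b1 * U2 - b2 * U1)),
      nn (b1 / (b1 * U2 - b2 * U1)), nn (b2 / (b1 * U2 - b2 * U1)),
      nn ((b1 * U2 - b2 * U1) / U1), nn ((b1 * U2 - b2 * U1) / U2), nn (U2 / U1), nn (U1 / U2)]
  have hdM : 1 ≤ (d : ℝ) * M := by
    have : (1 : ℝ) ≤ d := by exact_mod_cast hd1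
    nlinarith
  have hd1' : (1 : ℝ) ≤ d := by exact_mod_cast hd1
  obtain ⟨cW, hcW⟩ : ∃ cW : ℝ, cW = Real.log 16 + 4 * Real.log (d * M) := ⟨_, rfl⟩
  have hcW0 : 0 ≤ cW := by
    have h16 : 0 ≤ Real.log 16 := Real.log_nonneg (by norm_num)
    have := Real.log_nonneg hdM
    rw [hcW]; positivity
  obtain ⟨A, hA⟩ : ∃ A, A = 4 * κ * N ^ 2 + 1 := ⟨_, rfl⟩
  have hA1 : 1 ≤ A := by omega
  obtain ⟨c1, hc1⟩ : ∃ c1 : ℝ, c1 = (2 * Real.log Λ + (cW + 5) + 3 + 1 + Real.log C2 +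
      CG * (C2 ^ 2 + C2)) + 2 * Real.log K0 + 4 * Real.log d := ⟨_, rfl⟩
  obtain ⟨c2, hc2⟩ : ∃ c2 : ℝ, c2 = 2 * cW + 8 := ⟨_, rfl⟩
  obtain ⟨c10, hc10⟩ : ∃ c10 : ℝ, c10 = Real.log A / 3 + Real.log (2 * (2 * N + 1)) := ⟨_, rfl⟩
  have hc10' : 0 ≤ c10 := by
    have t1 : 0 ≤ Real.log (A : ℝ) := Real.log_nonneg (by exact_mod_cast hA1)
    have t2 : 0 ≤ Real.log (2 * (2 * (N : ℝ) + 1)) := Real.log_nonneg (by
      have : (0 : ℝ) ≤ N := Nat.cast_nonneg _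
      linarith)
    rw [hc10]; positivity
  have hc1' : 0 ≤ c1 := by
    have t1 := Real.log_nonneg hΛ1
    have t2 := Real.log_nonneg hC21
    have t3 := Real.log_nonneg hK01
    have t4 := Real.log_nonneg hd1'
    have t5 : 0 ≤ C2 ^ 2 + C2 := by positivity
    rw [hc1]; positivity
  have hc2' : 0 ≤ c2 := by rw [hc2]; positivity
  -- the parameter
  obtain ⟨r, hr⟩ : ∃ r : ℕ, Real.exp (3 * c10 + 3 * (c1 + N + N * c10 + κ * c2)) + (3 * N + 3) < r :=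
    exists_nat_gt _
  have hpos : 0 ≤ 3 * c10 + 3 * (c1 + N + N * c10 + κ * c2) := by positivity
  have hrN : 3 * N + 3 ≤ r := by
    have h5 : (1 : ℝ) ≤ Real.exp (3 * c10 + 3 * (c1 + N + N * c10 + κ * c2)) :=
      Real.one_le_exp hpos
    have : ((3 * N + 3 : ℕ) : ℝ) < r := by push_cast; linarith
    have : 3 * N + 3 < r := by exact_mod_cast this
    omega
  have hr1 : 1 ≤ r := by omega
  obtain ⟨T, hT⟩ : ∃ T, T = A * r ^ 3 := ⟨_, rfl⟩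
  have hrT : r ≤ T := by
    rw [hT]
    calc r = r ^ 1 := (pow_one r).symm
      _ ≤ r ^ 3 := Nat.pow_le_pow_right hr1 (by norm_num)
      _ ≤ A * r ^ 3 := Nat.le_mul_of_pos_left _ hA1
  obtain ⟨D1, hD1⟩ : ∃ D1, D1 = A * r := ⟨_, rfl⟩
  obtain ⟨D2, hD2⟩ : ∃ D2, D2 = A * r ^ 2 := ⟨_, rfl⟩
  have hD1T : D1 ≤ T := by
    rw [hD1, hT]
    refine Nat.mul_le_mul_left _ ?_
    calc r = r ^ 1 := (pow_one r).symm
      _ ≤ r ^ 3 := Nat.pow_le_pow_right hr1 (by norm_num)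
  have hD2T : D2 ≤ T := by
    rw [hD2, hT]
    exact Nat.mul_le_mul_left _ (Nat.pow_le_pow_right hr1 (by norm_num))
  have hD1pos : 1 ≤ D1 := by rw [hD1]; exact Nat.one_le_iff_ne_zero.2 (by positivity)
  have hD2pos : 1 ≤ D2 := by rw [hD2]; exact Nat.one_le_iff_ne_zero.2 (by positivity)
  have hT1 : 1 ≤ T := by omega
  have hvolN : T * D1 * D2 = A * T ^ 2 := by rw [hD1, hD2, hT]; ring
  have hSieg : 4 * (Module.finrank ℚ K * (N * N * (T * T))) < T * D1 * D2 := by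
    rw [← hκd, hvolN, hA]
    have : 0 < T ^ 2 := by positivity
    nlinarith
  obtain ⟨W, hW⟩ : ∃ W : ℝ, W = (4 * ((T + D1 + D2 + T : ℕ) : ℝ)) ^ T *
      (d * M) ^ (T + D1 + D2 + T) := ⟨_, rfl⟩
  have hW1 : 1 ≤ W := by
    have h5 : (1 : ℝ) ≤ ((T + D1 + D2 + T : ℕ) : ℝ) := by
      exact_mod_cast (show 1 ≤ T + D1 + D2 + T by omega)
    have h6 : (1 : ℝ) ≤ (4 * ((T + D1 + D2 + T : ℕ) : ℝ)) ^ T := one_le_pow₀ (by linarith)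
    have h7 : (1 : ℝ) ≤ (d * M) ^ (T + D1 + D2 + T) := one_le_pow₀ hdM
    rw [hW]
    nlinarith
  obtain ⟨p, hpH, hp0, hpv⟩ := siegel_step K N w' d hd1 hd M hM1 hM T D1 D2 T W hW.ge hT1 hSieg
  obtain ⟨vol, hvol⟩ : ∃ vol : ℝ, vol = (T : ℝ) * D1 * D2 := ⟨_, rfl⟩
  have hvol1 : 1 ≤ vol := by
    rw [hvol]
    exact_mod_cast (Nat.one_le_iff_ne_zero.2 (by positivity) : 1 ≤ T * D1 * D2)
  obtain ⟨H, hH⟩ : ∃ H : ℝ, H = 3 * vol * W + 2 := ⟨_, rfl⟩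
  have hH0 : 0 ≤ H := by rw [hH]; positivity
  have hpH' : ∀ i j k, ‖((p i j k : ℤ) : ℂ)‖ ≤ H := by
    intro i j k
    rw [Complex.norm_intCast, hH, hvol]
    exact hpH i j k
  obtain ⟨pc, hpc⟩ : ∃ pc : ℕ → ℕ → ℕ → ℂ, pc = fun i j k => ((p i j k : ℤ) : ℂ) := ⟨_, rfl⟩
  obtain ⟨P, hP⟩ : ∃ P, P = PL ℤ T D1 D2 p := ⟨_, rfl⟩
  have hPmap : MvPolynomial.map (Int.castRingHom ℂ) P = PL ℂ T D1 D2 pc := by
    rw [hP, map_PL, hpc]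
    rfl
  rw [← hP] at hpv
  -- the algebraic numbers
  obtain ⟨φ, hφ⟩ : ∃ φ : ℕ → ℕ → ℕ → ℕ → K, ∀ n1 n2 m n, φ n1 n2 m n =
      MvPolynomial.aeval (w' n1 n2) (Dmn ℤ m n P) := ⟨fun n1 n2 m n => _, fun _ _ _ _ => rfl⟩
  have hιφ : ∀ n1 n2 m n, ι (φ n1 n2 m n) =
      MvPolynomial.eval (V L α g (γx n1 n2) (γz n1 n2)) (Dmn ℂ m n (PL ℂ T D1 D2 pc)) := by
    intro n1 n2 m n
    rw [hφ, map_aeval6 ι (w' n1 n2) _ (hι n1 n2), map_Dmn, hPmap]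
  -- the order
  have hN0 : 0 < N := by omega
  have hex : ∃ e, ∃ n1 < N, ∃ n2 < N, ∃ m n, m + n = e ∧ φ n1 n2 m n ≠ 0 := by
    obtain ⟨m, n, hmn⟩ := nonvanish L α g b h2 h3 T D1 D2 pc (by
      obtain ⟨i, hi, j, hj, k, hk, hne⟩ := hp0
      refine ⟨i, hi, j, hj, k, hk, ?_⟩
      rw [hpc]
      change ((p i j k : ℤ) : ℂ) ≠ 0
      exact_mod_cast hne) (γx 0 0) (γz 0 0) (hγL 0 0)
    refine ⟨m + n, 0, hN0, 0, hN0, m, n, rfl, fun h => hmn ?_⟩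
    rw [← hιφ, h, map_zero]
  obtain ⟨e, ⟨n1, hn1, n2, hn2, m, n, hmn, hne⟩, hmin⟩ :
      ∃ e, (∃ n1 < N, ∃ n2 < N, ∃ m n, m + n = e ∧ φ n1 n2 m n ≠ 0) ∧
        ∀ e' < e, ¬ ∃ n1 < N, ∃ n2 < N, ∃ m n, m + n = e' ∧ φ n1 n2 m n ≠ 0 :=
    ⟨Nat.find hex, Nat.find_spec hex, fun e' he' => Nat.find_min hex he'⟩
  have hzero : ∀ a1 < N, ∀ a2 < N, ∀ m n, m + n < e → MvPolynomial.eval
      (V L α g (γx a1 a2) (γz a1 a2)) (Dmn ℂ m n (PL ℂ T D1 D2 pc)) = 0 := by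
    intro a1 ha1 a2 ha2 m n hlt
    rw [← hιφ]
    by_contra hc
    refine hmin (m + n) hlt ⟨a1, ha1, a2, ha2, m, n, rfl, fun h => hc ?_⟩
    rw [h, map_zero]
  have hTe : T ≤ e := by
    by_contra hc
    push Not at hc
    apply hne
    rw [hφ]
    exact hpv n1 n2 hn1 hn2 m n (by omega)
  have he1 : 1 ≤ e := by omega
  -- the radius
  obtain ⟨ρ, hρr, hρe, hρe'⟩ := exists_rho A r e hA1 hr1 (hT ▸ hTe)
  have hρ1 : 1 ≤ ρ := by omega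
  have hρN : (N : ℝ) + 1 ≤ ρ := by exact_mod_cast (show N + 1 ≤ ρ by omega)
  have hρ0 : (0 : ℝ) < ρ := by linarith [(Nat.cast_nonneg N : (0 : ℝ) ≤ N)]
  have hρC : 1 ≤ C2 * ρ := by
    have : (1 : ℝ) ≤ ρ := by exact_mod_cast hρ1
    nlinarith
  have hD1ρ : (D1 : ℝ) * ρ ^ 2 ≤ e := by
    have : D1 * ρ ^ 2 ≤ e := by
      refine le_trans ?_ hρe
      rw [hD1]
      calc A * r * ρ ^ 2 ≤ A * ρ * ρ ^ 2 := by gcongr
        _ = A * ρ ^ 3 := by ring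
    exact_mod_cast this
  have hD2ρ : (D2 : ℝ) * ρ ≤ e := by
    have : D2 * ρ ≤ e := by
      refine le_trans ?_ hρe
      rw [hD2]
      calc A * r ^ 2 * ρ ≤ A * ρ ^ 2 * ρ := by gcongr
        _ = A * ρ ^ 3 := by ring
    exact_mod_cast this
  obtain ⟨q, hq⟩ : ∃ q : ℝ, q = (2 * (N : ℝ) + 1) / (ρ - N) := ⟨_, rfl⟩
  have hq0 : 0 ≤ q := by
    rw [hq]
    have : 0 < (ρ : ℝ) - N := by linarith
    positivity
  have hq1 : q ≤ 1 := by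
    rw [hq, div_le_one (by linarith)]
    have : (3 * (N : ℝ) + 3) ≤ ρ := by exact_mod_cast (show 3 * N + 3 ≤ ρ by omega)
    linarith
  -- the sup on the big circle
  obtain ⟨Sp, hSp⟩ : ∃ Sp : ℝ, Sp = H * vol * (((T : ℝ) + D2) ^ e * (C2 * ρ) ^ T *
      Real.exp (CG * (D1 * (C2 * ρ) ^ 2 + D2 * (C2 * ρ)))) := ⟨_, rfl⟩
  have hSp0 : 0 ≤ Sp := by rw [hSp]; positivity
  have hsup : ∀ k ≤ e, ∀ x z : ℂ, ‖x‖ ≤ C2 * ρ → ‖z‖ ≤ C2 * ρ →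
      ‖EL α g b T D1 D2 pc k x z‖ ≤ Sp := by
    intro k hk x z hx hz
    have h5 := hgrow T D1 D2 pc H hH0 (fun i _ j _ k _ => by rw [hpc]; exact hpH' i j k) k x z
      (C2 * ρ) hρC hx hz
    refine h5.trans ?_
    rw [hSp, hvol]
    have h6 : (1 : ℝ) ≤ (T : ℝ) + D2 := by exact_mod_cast (show 1 ≤ T + D2 by omega)
    have h7 : ((T : ℝ) + D2) ^ k ≤ ((T : ℝ) + D2) ^ e := pow_le_pow_right₀ h6 hk
    gcongr
  obtain ⟨ε, hε⟩ : ∃ ε : ℝ, ε = Λ ^ (2 * D1) * (e.factorial * (Sp * q ^ (N * (e / 2)))) :=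
    ⟨_, rfl⟩
  have hn1' : ‖((n1 + 1 : ℕ) : ℂ)‖ ≤ ρ := by
    rw [Complex.norm_natCast]
    exact_mod_cast (show n1 + 1 ≤ ρ by omega)
  have hn2' : ‖((n2 + 1 : ℕ) : ℂ)‖ ≤ ρ := by
    rw [Complex.norm_natCast]
    exact_mod_cast (show n2 + 1 ≤ ρ by omega)
  have hlin : ∀ (c s y1 y2 : ℂ), ‖c‖ ≤ ρ → ‖s‖ = ρ → ‖y1‖ + ‖y2‖ ≤ C2 →
      ‖c * y1 + s * y2‖ ≤ C2 * ρ := by
    intro c s y1 y2 hc hs hy
    calc ‖c * y1 + s * y2‖ ≤ ‖c‖ * ‖y1‖ + ‖s‖ * ‖y2‖ := by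
          refine (norm_add_le _ _).trans ?_
          rw [norm_mul, norm_mul]
      _ ≤ ρ * ‖y1‖ + ρ * ‖y2‖ := by rw [hs]; gcongr
      _ = (‖y1‖ + ‖y2‖) * ρ := by ring
      _ ≤ C2 * ρ := by gcongr
  have hCb : ‖b1‖ + ‖b2‖ ≤ C2 := by
    rw [hC2]; linarith [norm_nonneg b1, norm_nonneg b2, norm_nonneg U1, norm_nonneg U2]
  have hCU : ‖U1‖ + ‖U2‖ ≤ C2 := by
    rw [hC2]; linarith [norm_nonneg b1, norm_nonneg b2, norm_nonneg U1, norm_nonneg U2]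
  -- direction 1
  have dir1 : ∀ k ≤ e / 2, ‖MvPolynomial.eval (V L α g (γx n1 n2) (γz n1 n2))
      ((⇑(Dv b1 U1))^[e - k] ((⇑(dx ℂ))^[k] (PL ℂ T D1 D2 pc)))‖ ≤ ε := by
    intro k hk
    have ex : ∀ a, γx a n2 = (((n2 + 1 : ℕ) : ℂ) * b2) + ((a + 1 : ℕ) : ℂ) * b1 := by
      intro a; rw [hγx, add_comm]
    have ez : ∀ a, γz a n2 = (((n2 + 1 : ℕ) : ℂ) * U2) + ((a + 1 : ℕ) : ℂ) * U1 := by
      intro a; rw [hγz, add_comm]
    have hl := dir_bound L α g b h2 h3 T D1 D2 pc b1 U1 (((n2 + 1 : ℕ) : ℂ) * b2)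
      (((n2 + 1 : ℕ) : ℂ) * U2) N e he1 (fun a ha => by rw [← ez a]; exact hγL a n2)
      (fun a ha m n hlt => by rw [← ex a, ← ez a]; exact hzero a ha n2 hn2 m n hlt) Λ hΛ1
      (fun a ha => by rw [← ez a]; exact hΛ a n2 ha hn2) ρ Sp q hρN hSp0
      (fun k hk s hs => hsup k hk _ _ (hlin _ _ _ _ hn2' hs (by linarith))
        (hlin _ _ _ _ hn2' hs (by linarith))) hq hq0 hq1 k hk n1 hn1
    rw [← ex n1, ← ez n1, ← hε] at hl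
    exact hl
  have dir2 : ∀ k ≤ e / 2, ‖MvPolynomial.eval (V L α g (γx n1 n2) (γz n1 n2))
      ((⇑(Dv b2 U2))^[e - k] ((⇑(dx ℂ))^[k] (PL ℂ T D1 D2 pc)))‖ ≤ ε := by
    intro k hk
    have hl := dir_bound L α g b h2 h3 T D1 D2 pc b2 U2 (((n1 + 1 : ℕ) : ℂ) * b1)
      (((n1 + 1 : ℕ) : ℂ) * U1) N e he1 (fun a ha => by rw [← hγz n1 a]; exact hγL n1 a)
      (fun a ha m n hlt => by
        rw [← hγx n1 a, ← hγz n1 a]; exact hzero n1 hn1 a ha m n hlt) Λ hΛ1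
      (fun a ha => by rw [← hγz n1 a]; exact hΛ n1 a hn1 ha) ρ Sp q hρN hSp0
      (fun k hk s hs => hsup k hk _ _ (hlin _ _ _ _ hn1' hs (by linarith))
        (hlin _ _ _ _ hn1' hs (by linarith))) hq hq0 hq1 k hk n2 hn2
    rw [← hγx n1 n2, ← hγz n1 n2, ← hε] at hl
    exact hl
  have htop := top_bound (V L α g (γx n1 n2) (γz n1 n2)) (PL ℂ T D1 D2 pc) b1 U1 b2 U2 hdet hU1 hU2
    e (e / 2) (by omega) (by omega) ε dir1 dir2 K0 hK0.ge m n hmn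
  rw [← hιφ] at htop
  -- sizes
  have hvolE : vol ≤ Real.exp (3 * e) := by
    rw [hvol]; exact vol_le e he1 T D1 D2 hTe (by omega) (by omega)
  have hWE : W ≤ Real.exp (e * Real.log e + cW * e) := by
    rw [hW, hcW]; exact W_le e he1 T (T + D1 + D2) (d * M) hdM hTe (by omega)
  have hHE : H ≤ Real.exp (e * Real.log e + (cW + 5) * e) := by
    rw [hH]; exact H_le e he1 vol W cW hvol1 hvolE hW1 hWE
  have hρE := rho_le e he1 A ρ hA1 hρe hρ1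
  have hqE : q ≤ Real.exp (-(Real.log e / 3 - c10)) := by
    rw [hq, hc10]; exact q_le e he1 A N ρ hA1 (by omega) hρe'
  have hεE := eps_le e he1 N H vol C2 CG Λ q (Real.log e / 3 - c10) (cW + 5) T D1 D2 ρ hTe
    (by omega) (by omega) hH0 hHE (by linarith) hvolE hC21 hCG hΛ1 hρ1 hρE hD1ρ hD2ρ hq0 hqE
  rw [← hSp, ← hε] at hεE
  -- Liouville
  have hdK : (d : K) ^ (T + D1 + D2 + e) ≠ 0 := by
    refine pow_ne_zero _ ?_
    have : d ≠ 0 := by omega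
    exact_mod_cast this
  have htd : (Dmn ℤ m n P).totalDegree ≤ T + D1 + D2 + e := by
    have h5 := td_Dmn_le (R := ℤ) m n P
    have h6 := td_PL_le (R := ℤ) T D1 D2 p
    rw [← hP] at h6
    omega
  have hyI : IsIntegral ℤ ((d : K) ^ (T + D1 + D2 + e) * φ n1 n2 m n) := by
    rw [hφ]
    exact int_aeval (w' n1 n2) d (hd n1 n2 hn1 hn2) _ _ htd
  have hsize : ∀ σ : K →+* ℂ, ‖σ ((d : K) ^ (T + D1 + D2 + e) * φ n1 n2 m n)‖ ≤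
      Real.exp (2 * e * Real.log e + c2 * e) := by
    intro σ
    rw [map_mul, map_pow, map_natCast, norm_mul, norm_pow, Complex.norm_natCast, hφ]
    have h5 := norm_aeval_le σ (w' n1 n2) M hM1 (fun i => hM n1 n2 hn1 hn2 i σ) (Dmn ℤ m n P)
      (T + D1 + D2 + e) htd
    have h6 : nm (MvPolynomial.map (Int.castRingHom ℂ) (Dmn ℤ m n P)) ≤
        (4 * ((T + D1 + D2 + e : ℕ) : ℝ)) ^ e * (vol * H) := by
      rw [map_Dmn, hPmap]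
      have h7 := nm_Dmn_le m n (PL ℂ T D1 D2 pc) (((T + D1 + D2 + e : ℕ) : ℝ)) (by
        have h8 := td_PL_le (R := ℂ) T D1 D2 pc
        have : (PL ℂ T D1 D2 pc).totalDegree + m + n ≤ T + D1 + D2 + e := by omega
        exact_mod_cast this)
      rw [hmn] at h7
      refine h7.trans ?_
      have h9 := nm_PL_le T D1 D2 pc H (fun i j k => by rw [hpc]; exact hpH' i j k)
      rw [← hvol] at h9
      gcongr
    have h10 := W_le' e he1 (T + D1 + D2) (d * M) hdM (by omega)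
    rw [← hcW] at h10
    have hM0 : 0 ≤ M := by linarith
    calc (d : ℝ) ^ (T + D1 + D2 + e) * ‖σ (MvPolynomial.aeval (w' n1 n2) (Dmn ℤ m n P))‖
        ≤ (d : ℝ) ^ (T + D1 + D2 + e) * (((4 * ((T + D1 + D2 + e : ℕ) : ℝ)) ^ e * (vol * H)) *
          M ^ (T + D1 + D2 + e)) := by
          gcongr
          refine h5.trans ?_
          gcongr
      _ = ((4 * ((T + D1 + D2 + e : ℕ) : ℝ)) ^ e * (d * M) ^ (T + D1 + D2 + e)) * (vol * H) := by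
          rw [mul_pow]; ring
      _ ≤ Real.exp (e * Real.log e + cW * e) * (Real.exp (3 * e) *
          Real.exp (e * Real.log e + (cW + 5) * e)) := by
          gcongr
      _ = Real.exp (2 * e * Real.log e + c2 * e) := by
          rw [← Real.exp_add, ← Real.exp_add, hc2]
          congr 1
          ring
  have hliou := liouville K _ hyI (mul_ne_zero hdK hne) _ hsize ι
  rw [map_mul, map_pow, map_natCast, norm_mul, norm_pow, Complex.norm_natCast, ← hκd] at hliou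
  have hlogd := Real.log_nonneg hd1'
  have hd4 : (d : ℝ) ^ (T + D1 + D2 + e) ≤ Real.exp (4 * e * Real.log d) := by
    refine pow_le_exp (by linarith) hlogd (by rw [Real.exp_log (by linarith)]) ?_
    exact_mod_cast (show T + D1 + D2 + e ≤ 4 * e by omega)
  have hK4 : K0 ^ (2 * e) ≤ Real.exp (2 * e * Real.log K0) := by
    refine pow_le_exp (by linarith) (Real.log_nonneg hK01) (by rw [Real.exp_log (by linarith)]) ?_
    push_cast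
    exact le_rfl
  have hε0 : 0 ≤ ε := by rw [hε]; positivity
  have hall : Real.exp (-((κ : ℝ) - 1) * (2 * e * Real.log e + c2 * e)) ≤
      Real.exp ((10 / 3) * e * Real.log e + c1 * e - N * (e / 2 : ℕ) *
        (Real.log e / 3 - c10)) := by
    calc Real.exp (-((κ : ℝ) - 1) * (2 * e * Real.log e + c2 * e))
        ≤ (d : ℝ) ^ (T + D1 + D2 + e) * ‖ι (φ n1 n2 m n)‖ := hliou
      _ ≤ Real.exp (4 * e * Real.log d) * (Real.exp (2 * e * Real.log K0) *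
          Real.exp ((10 / 3) * e * Real.log e + (2 * Real.log Λ + (cW + 5) + 3 + 1 +
            Real.log C2 + CG * (C2 ^ 2 + C2)) * e - N * (e / 2 : ℕ) *
              (Real.log e / 3 - c10))) := by
          gcongr
          refine htop.trans ?_
          gcongr
      _ = _ := by
          rw [← Real.exp_add, ← Real.exp_add, hc1]
          congr 1
          ring
  have hfinal := Real.exp_le_exp.1 hall
  have hlog : 3 * c10 + 3 * (c1 + N + N * c10 + κ * c2) < Real.log e := by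
    have h5 : Real.exp (3 * c10 + 3 * (c1 + N + N * c10 + κ * c2)) < r := by
      have : (0 : ℝ) ≤ N := Nat.cast_nonneg _
      linarith
    have h6 : (r : ℝ) ≤ e := by exact_mod_cast (show r ≤ e by omega)
    have he0 : (0 : ℝ) < e := by exact_mod_cast he1
    rw [Real.lt_log_iff_exp_lt he0]
    linarith
  have t1 : 0 ≤ 3 * (c1 + N + N * c10 + κ * c2) := by positivity
  have t2 : 0 ≤ 3 * c10 := by positivity
  exact final_num κ N hκ hN c1 c2 c10 hc1' hc2' hc10' e he1 (Real.log e) rfl (by linarith)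
    (by linarith) hfinal

end Pool.Agent.CHU.SL

namespace Pool.Agent.CHU
open Pool.Agent.ZCM Pool.Agent.CHU.SL

/-- `a U_i + b_i` logarithms of algebraic numbers, `℘(U_i)` algebraic, `U_1`, `U_2` algebraically
independent: impossible -/
theorem sl2 (L : PeriodPair) (h2 : IsAlgebraic ℚ L.g₂) (h3 : IsAlgebraic ℚ L.g₃)
    (a b1 b2 U1 U2 : ℂ) (ha : IsAlgebraic ℚ a) (ha0 : a ≠ 0) (hb1 : IsAlgebraic ℚ b1)
    (hb2 : IsAlgebraic ℚ b2) (hI : AlgebraicIndependent ℚ ![U1, U2])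
    (hP1 : IsAlgebraic ℚ (L.weierstrassP U1)) (hP2 : IsAlgebraic ℚ (L.weierstrassP U2))
    (he1 : IsAlgebraic ℚ (Complex.exp (a * U1 + b1)))
    (he2 : IsAlgebraic ℚ (Complex.exp (a * U2 + b2)))
    (hgr : ∀ n1 n2 : ℕ, (n1 ≠ 0 ∨ n2 ≠ 0) → (n1 : ℂ) * U1 + n2 * U2 ∉ L.lattice) : False := by
  have hI' := (algInd_iff U1 U2).1 hI
  by_cases hdet : b1 * U2 - b2 * U1 = 0
  · by_cases hb10 : b1 = 0
    · -- then `b2 = 0` too or directly `sl1`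
      refine sl1 L h2 h3 a U1 ha ha0 (fun n hn => ?_) hP1 (by simpa [hb10] using he1)
      have := hgr n 0 (Or.inl (by omega))
      simpa using this
    · by_cases hb20 : b2 = 0
      · refine sl1 L h2 h3 a U2 ha ha0 (fun n hn => ?_) hP2 (by simpa [hb20] using he2)
        have := hgr 0 n (Or.inr (by omega))
        simpa using this
      · apply hI'.2
        have e : U1 = (b1 / b2) * U2 := by
          field_simp
          linear_combination -hdet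
        rw [e]
        exact FF_mul (FF_of_alg (hb1.mul hb2.inv)) (mem_FF_self U2)
  · obtain ⟨g, hg⟩ : ∃ g, g = ((-1 / 4 : ℚ) : ℂ) * L.g₂ := ⟨_, rfl⟩
    obtain ⟨b, hb⟩ : ∃ b, b = ((-1 / 4 : ℚ) : ℂ) * L.g₃ := ⟨_, rfl⟩
    have hg' : IsAlgebraic ℚ g := by
      rw [hg]; exact (isAlgebraic_algebraMap (A := ℂ) (-1 / 4 : ℚ)).mul h2
    have hb' : IsAlgebraic ℚ b := by
      rw [hb]; exact (isAlgebraic_algebraMap (A := ℂ) (-1 / 4 : ℚ)).mul h3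
    have e2 : L.g₂ = -4 * g := by rw [hg]; push_cast; ring
    have e3 : L.g₃ = -4 * b := by rw [hb]; push_cast; ring
    obtain ⟨K, hF, hNF, ι, w, hw⟩ := sl_field L g b e2 e3 hg' hb' a b1 b2 U1 U2 ha hb1 hb2 hP1 hP2
      he1 he2 hgr
    exact sl2_core L g b a b1 b2 U1 U2 e2 e3 hdet hgr K ι w hw

end Pool.Agent.CHU
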