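import Pool.Agent.CHU.ThmR
import Pool.Agent.CHU.SL2

/-! # Theorem A, unconditional -/

set_option autoImplicit false

namespace Pool.Agent.CHU

theorem sl2H : SL2H := sl2

/-- dependence on `2πi` and on `π` -/
theorem dep_pi {x : ℂ} (h : ¬ AlgebraicIndependent ℚ ![x, 2 * (Real.pi : ℂ) * Complex.I]) :
    ¬ AlgebraicIndependent ℚ ![x, (Real.pi : ℂ)] := by
  intro hI
  apply h
  rw [algInd_iff] at hI ⊢
  have hI2 : IsAlgebraic ℚ (2 * Complex.I) := by
    have h3 : IsAlgebraic ℚ Complex.I := by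
      refine ⟨Polynomial.X ^ 2 + 1, ?_, by simp⟩
      intro h
      have h6 : (Polynomial.X ^ 2 + 1 : Polynomial ℚ).natDegree = 2 := by compute_degree!
      rw [h] at h6
      simp at h6
    have h4 := CM_alg_int 2
    push_cast at h4
    exact h4.mul h3
  have h20 : (2 * Complex.I : ℂ) ≠ 0 := mul_ne_zero two_ne_zero Complex.I_ne_zero
  have e1 : 2 * (Real.pi : ℂ) * Complex.I = 2 * Complex.I * Real.pi := by ring
  have e2 : (Real.pi : ℂ) = (2 * Complex.I)⁻¹ * (2 * (Real.pi : ℂ) * Complex.I) := by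
    rw [e1, ← mul_assoc, inv_mul_cancel₀ h20, one_mul]
  refine ⟨fun hA => hI.1 ?_, fun hF => hI.2 ?_⟩
  · rw [e2]
    exact hI2.inv.mul hA
  · refine FF_trans hF ?_
    rw [e1]
    exact FF_mul (FF_of_alg hI2) (mem_FF_self _)

end Pool.Agent.CHU
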