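import Mathlib

/-! # The Hermite-Lindemann theorem

If `α ≠ 0` is algebraic then `exp α` is transcendental. -/

set_option autoImplicit false

namespace Pool.Agent.CHU.HL
open Polynomial

section GroupRing
variable {K : Type*} [Field K] [Algebra ℚ K]

/-- action of the Galois group on the group ring -/
noncomputable def act (σ : K ≃ₐ[ℚ] K) : AddMonoidAlgebra ℤ K →+* AddMonoidAlgebra ℤ K :=
  AddMonoidAlgebra.mapDomainRingHom ℤ (σ : K →+ K)

theorem act_single (σ : K ≃ₐ[ℚ] K) (x : K) (c : ℤ) :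
    act σ (AddMonoidAlgebra.single x c) = AddMonoidAlgebra.single (σ x) c := by
  simp [act]

theorem act_mul (σ τ : K ≃ₐ[ℚ] K) (F : AddMonoidAlgebra ℤ K) :
    act (σ * τ) F = act σ (act τ F) := by
  have : act (σ * τ) = (act σ).comp (act τ) := by
    unfold act
    rw [← AddMonoidAlgebra.mapDomainRingHom_comp]
    congr 1
  rw [this]; rfl

theorem act_one (F : AddMonoidAlgebra ℤ K) : act 1 F = F := by
  have : act (1 : K ≃ₐ[ℚ] K) = RingHom.id _ := by
    unfold act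
    exact AddMonoidAlgebra.mapDomainRingHom_id
  rw [this]; rfl

theorem act_coeff (σ : K ≃ₐ[ℚ] K) (F : AddMonoidAlgebra ℤ K) (x : K) :
    (act σ F).coeff (σ x) = F.coeff x := by
  change (Finsupp.mapDomain σ F.coeff) (σ x) = F.coeff x
  exact Finsupp.mapDomain_apply σ.injective _ _

/-- evaluation -/
noncomputable def ev (ι : K →+* ℂ) : AddMonoidAlgebra ℤ K →ₐ[ℤ] ℂ :=
  AddMonoidAlgebra.lift ℤ ℂ K
    { toFun := fun x => Complex.exp (ι x.toAdd)
      map_one' := by simp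
      map_mul' := fun x y => by
        simp only [toAdd_mul, map_add, Complex.exp_add] }

omit [Algebra ℚ K] in
theorem ev_single (ι : K →+* ℂ) (x : K) (c : ℤ) :
    ev ι (AddMonoidAlgebra.single x c) = c * Complex.exp (ι x) := by
  simp [ev]

omit [Algebra ℚ K] in
theorem ev_apply (ι : K →+* ℂ) (F : AddMonoidAlgebra ℤ K) :
    ev ι F = F.coeff.sum fun x c => (c : ℂ) * Complex.exp (ι x) := by
  rw [ev, AddMonoidAlgebra.lift_apply]
  refine Finsupp.sum_congr fun x _ => ?_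
  simp

/-- the element of the group ring attached to a polynomial -/
theorem exists_F (ι : K →+* ℂ) (a : K) (ha : a ≠ 0) (P : ℤ[X]) (hP : P ≠ 0)
    (hPe : aeval (Complex.exp (ι a)) P = 0) :
    ∃ F : AddMonoidAlgebra ℤ K, F ≠ 0 ∧ ev ι F = 0 := by
  classical
  refine ⟨aeval (AddMonoidAlgebra.single a (1 : ℤ)) P, ?_, ?_⟩
  · intro h
    apply hP
    ext k
    have h1 := congrArg (fun G : AddMonoidAlgebra ℤ K => G.coeff (k • a)) h
    simp only [aeval_eq_sum_range, AddMonoidAlgebra.single_pow, one_pow,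
      AddMonoidAlgebra.coeff_sum, AddMonoidAlgebra.coeff_smul, AddMonoidAlgebra.coeff_zero,
      Finsupp.coe_zero, Pi.zero_apply, Finsupp.coe_finsetSum, Finset.sum_apply,
      Finsupp.smul_apply, AddMonoidAlgebra.coeff_single] at h1
    have h2 : ∀ j ∈ Finset.range (P.natDegree + 1), P.coeff j • (Finsupp.single (j • a) (1 : ℤ)) (k • a)
        = if j = k then P.coeff j else 0 := by
      intro j _
      by_cases hjk : j = k
      · subst hjk; simp
      · rw [Finsupp.single_apply, if_neg, if_neg hjk, smul_zero]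
        intro h3
        apply hjk
        rw [nsmul_eq_mul, nsmul_eq_mul] at h3
        have _ : CharZero K := charZero_of_injective_algebraMap (algebraMap ℚ K).injective
        have h4 : (j : K) = k := mul_right_cancel₀ ha h3
        exact_mod_cast h4
    rw [Finset.sum_congr rfl h2, Finset.sum_ite_eq'] at h1
    rw [coeff_zero]
    by_cases hk : k ∈ Finset.range (P.natDegree + 1)
    · rwa [if_pos hk] at h1
    · rw [Finset.mem_range, not_lt] at hk
      exact coeff_eq_zero_of_natDegree_lt (by omega)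
  · rw [← aeval_algHom_apply, ev_single]
    simpa using hPe

variable [FiniteDimensional ℚ K]

theorem exists_M (ι : K →+* ℂ) (a : K) (ha : a ≠ 0) (P : ℤ[X]) (hP : P ≠ 0)
    (hPe : aeval (Complex.exp (ι a)) P = 0) :
    ∃ M : K →₀ ℤ, (∀ σ : K ≃ₐ[ℚ] K, ∀ x, M (σ x) = M x) ∧ M 0 ≠ 0 ∧
      M.sum (fun x c => (c : ℂ) * Complex.exp (ι x)) = 0 := by
  classical
  have _ : Fintype (K ≃ₐ[ℚ] K) := Fintype.ofFinite _
  obtain ⟨F, hF0, hFe⟩ := exists_F ι a ha P hP hPe
  set N : AddMonoidAlgebra ℤ K := ∏ σ : K ≃ₐ[ℚ] K, act σ F with hN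
  have hact0 : ∀ σ : K ≃ₐ[ℚ] K, act σ F ≠ 0 := by
    intro σ h
    apply hF0
    rw [← act_one F, show (1 : K ≃ₐ[ℚ] K) = σ⁻¹ * σ from (inv_mul_cancel σ).symm, act_mul, h, map_zero]
  have hN0 : N ≠ 0 := Finset.prod_ne_zero_iff.2 fun σ _ => hact0 σ
  have hNinv : ∀ τ : K ≃ₐ[ℚ] K, act τ N = N := by
    intro τ
    rw [hN, map_prod]
    refine Fintype.prod_equiv (Equiv.mulLeft τ) _ _ fun σ => ?_
    simp only [Equiv.coe_mulLeft]
    rw [act_mul]
  have hNe : ev ι N = 0 := by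
    rw [hN, map_prod]
    refine Finset.prod_eq_zero (Finset.mem_univ 1) ?_
    rw [act_one, hFe]
  have hNc : ∀ (τ : K ≃ₐ[ℚ] K) (x : K), N.coeff (τ x) = N.coeff x := by
    intro τ x
    conv_lhs => rw [← hNinv τ]
    exact act_coeff τ N x
  obtain ⟨γ, hγ⟩ : ∃ γ, N.coeff γ ≠ 0 := by
    by_contra h
    push Not at h
    apply hN0
    ext x
    simp [h x]
  set O : AddMonoidAlgebra ℤ K := ∑ σ : K ≃ₐ[ℚ] K, AddMonoidAlgebra.single (-(σ γ)) (1 : ℤ) with hO
  have hOinv : ∀ τ : K ≃ₐ[ℚ] K, act τ O = O := by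
    intro τ
    rw [hO, map_sum]
    refine Fintype.sum_equiv (Equiv.mulLeft τ) _ _ fun σ => ?_
    simp only [Equiv.coe_mulLeft]
    rw [act_single, map_neg]
    rfl
  refine ⟨(N * O).coeff, ?_, ?_, ?_⟩
  · intro τ x
    have h1 : act τ (N * O) = N * O := by rw [map_mul, hNinv, hOinv]
    conv_lhs => rw [← h1]
    exact act_coeff τ _ x
  · rw [hO, Finset.mul_sum, AddMonoidAlgebra.coeff_sum, Finsupp.coe_finsetSum, Finset.sum_apply]
    have h1 : ∀ σ ∈ (Finset.univ : Finset (K ≃ₐ[ℚ] K)),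
        (N * AddMonoidAlgebra.single (-(σ γ)) (1 : ℤ)).coeff 0 = N.coeff γ := by
      intro σ _
      rw [AddMonoidAlgebra.coeff_mul_single_apply, mul_one, neg_neg, zero_add, hNc]
    rw [Finset.sum_congr rfl h1, Finset.sum_const, smul_ne_zero_iff]
    exact ⟨Finset.card_ne_zero.2 ⟨1, Finset.mem_univ _⟩, hγ⟩
  · rw [← ev_apply, map_mul, hNe, zero_mul]

end GroupRing

section Core
variable {K : Type*} [Field K] [Algebra ℚ K] [FiniteDimensional ℚ K] [IsGalois ℚ K]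

omit [Algebra ℚ K] [FiniteDimensional ℚ K] [IsGalois ℚ K] in
theorem isIntegral_pow_smul_aeval (f g : ℤ[X]) (γ : K) (hf : aeval γ f = 0) (N : ℕ)
    (hg : g.natDegree ≤ N) : IsIntegral ℤ ((f.leadingCoeff : K) ^ N * aeval γ g) := by
  rw [aeval_eq_sum_range' (Nat.lt_succ_of_le hg), Finset.mul_sum]
  refine IsIntegral.sum _ fun i hi => ?_
  rw [Finset.mem_range] at hi
  have h1 : (f.leadingCoeff : K) ^ N * (g.coeff i • γ ^ i)
      = ((g.coeff i * f.leadingCoeff ^ (N - i) : ℤ) : K) * (f.leadingCoeff • γ) ^ i := by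
    obtain ⟨k, rfl⟩ := Nat.exists_eq_add_of_le (Nat.lt_succ_iff.1 hi)
    rw [zsmul_eq_mul, zsmul_eq_mul, Nat.add_sub_cancel_left]
    push_cast
    ring
  rw [h1]
  exact (isIntegral_intCast _).mul ((isIntegral_leadingCoeff_smul _ _ hf).pow _)

theorem exists_int_of_fixed (z : K) (hz : IsIntegral ℤ z) (hf : ∀ σ : K ≃ₐ[ℚ] K, σ z = z) :
    ∃ m : ℤ, z = m := by
  have h1 := (IsGalois.mem_range_algebraMap_iff_fixed z).2 hf
  obtain ⟨q, hq⟩ := h1
  rw [← hq] at hz
  rw [isIntegral_algebraMap_iff (algebraMap ℚ K).injective] at hz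
  obtain ⟨m, hm⟩ := IsIntegrallyClosed.isIntegral_iff.1 hz
  refine ⟨m, ?_⟩
  rw [← hq, ← hm]
  simp

theorem core (ι : K →+* ℂ) (M : K →₀ ℤ) (hM : ∀ σ : K ≃ₐ[ℚ] K, ∀ x, M (σ x) = M x)
    (h0 : M 0 ≠ 0) (hs : M.sum (fun x c => (c : ℂ) * Complex.exp (ι x)) = 0) : False := by
  classical
  set S := M.support.erase 0 with hS
  have hex : ∀ γ : K, γ ≠ 0 → ∃ q : ℤ[X], q.coeff 0 ≠ 0 ∧ aeval γ q = 0 := by
    intro γ hγ
    have h1 : IsAlgebraic ℤ γ :=
      (IsFractionRing.isAlgebraic_iff ℤ ℚ K).2 (IsAlgebraic.of_finite ℚ γ)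
    exact h1.exists_nonzero_coeff_and_aeval_eq_zero (mem_nonZeroDivisors_of_ne_zero hγ)
  choose! q hq0 hq1 using hex
  set f : ℤ[X] := ∏ γ ∈ S, q γ with hf
  have hSne : ∀ γ ∈ S, γ ≠ 0 := fun γ hγ => Finset.ne_of_mem_erase hγ
  have hf0 : f.eval 0 ≠ 0 := by
    rw [hf, eval_prod]
    refine Finset.prod_ne_zero_iff.2 fun γ hγ => ?_
    rw [← coeff_zero_eq_eval_zero]
    exact hq0 γ (hSne γ hγ)
  have hfne : f ≠ 0 := by rintro h; rw [h, eval_zero] at hf0; exact hf0 rfl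
  have hfK : ∀ γ ∈ S, aeval γ f = 0 := by
    intro γ hγ
    rw [hf, map_prod]
    exact Finset.prod_eq_zero hγ (hq1 γ (hSne γ hγ))
  have hιa : ∀ (g : ℤ[X]) (γ : K), aeval (ι γ) g = ι (aeval γ g) := by
    intro g γ
    have := aeval_algHom_apply (ι.toIntAlgHom) γ g
    simpa using this
  have hfC : ∀ γ ∈ S, ι γ ∈ f.aroots ℂ := by
    intro γ hγ
    rw [mem_aroots]
    exact ⟨hfne, by rw [hιa, hfK γ hγ, map_zero]⟩
  obtain ⟨c, hc⟩ := LindemannWeierstrass.exp_polynomial_approx f hf0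
  set b : ℤ := f.leadingCoeff with hb
  have hb0 : b ≠ 0 := leadingCoeff_ne_zero.2 hfne
  set d := f.natDegree with hd
  set A : ℝ := ∑ γ ∈ S, |(M γ : ℝ)| with hA
  have hA0 : 0 ≤ A := Finset.sum_nonneg fun _ _ => abs_nonneg _
  -- the limit
  have hlim : Filter.Tendsto (fun k : ℕ => A * (|(b : ℝ)| ^ d * |c|) * ((|(b : ℝ)| ^ d * |c|) ^ k / (k.factorial : ℝ)))
      Filter.atTop (nhds 0) := by
    have h1 := (FloorSemiring.tendsto_pow_div_factorial_atTop (|(b : ℝ)| ^ d * |c|)).const_mul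
      (A * (|(b : ℝ)| ^ d * |c|))
    rwa [mul_zero] at h1
  have hev : ∀ᶠ k : ℕ in Filter.atTop, A * (|(b : ℝ)| ^ d * |c|) *
      ((|(b : ℝ)| ^ d * |c|) ^ k / (k.factorial : ℝ)) < 1 := hlim.eventually (gt_mem_nhds one_pos)
  obtain ⟨k0, hk0⟩ := Filter.eventually_atTop.1 hev
  obtain ⟨p, hpge, hpp⟩ := Nat.exists_infinite_primes
    (k0 + 1 + (f.eval 0).natAbs + b.natAbs + (M 0).natAbs + 1)
  obtain ⟨n, hpn, gp, hgd, hgp⟩ := hc p (by omega) hpp
  -- the algebraic integer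
  set z : K := ∑ γ ∈ S, (M γ : K) * ((b : K) ^ (p * d) * aeval γ gp) with hz
  have hzint : IsIntegral ℤ z := by
    refine IsIntegral.sum _ fun γ hγ => ?_
    exact (isIntegral_intCast _).mul
      (isIntegral_pow_smul_aeval f gp γ (hfK γ hγ) _ (hgd.trans (Nat.sub_le _ _)))
  have hSinv : ∀ (σ : K ≃ₐ[ℚ] K) (γ : K), γ ∈ S ↔ σ γ ∈ S := by
    intro σ γ
    rw [hS, Finset.mem_erase, Finset.mem_erase, Finsupp.mem_support_iff, Finsupp.mem_support_iff,
      hM σ γ]
    simp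
  have hzfix : ∀ σ : K ≃ₐ[ℚ] K, σ z = z := by
    intro σ
    rw [hz, map_sum]
    refine Finset.sum_equiv σ.toEquiv (fun γ => hSinv σ γ) fun γ _ => ?_
    have h1 : σ (aeval γ gp) = aeval (σ γ) gp := by
      have := aeval_algHom_apply ((σ : K →+* K).toIntAlgHom) γ gp
      simpa using this.symm
    simp only [map_mul, map_pow, map_intCast, AlgEquiv.toEquiv_eq_coe, EquivLike.coe_coe]
    rw [h1, hM σ γ]
  obtain ⟨m, hm⟩ := exists_int_of_fixed z hzint hzfix
  have hmC : ∑ γ ∈ S, (M γ : ℂ) * ((b : ℂ) ^ (p * d) * aeval (ι γ) gp) = (m : ℂ) := by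
    have h1 := congrArg ι hm
    rw [hz, map_sum, map_intCast] at h1
    rw [← h1]
    refine Finset.sum_congr rfl fun γ _ => ?_
    rw [hιa]
    simp only [map_mul, map_pow, map_intCast]
  have hsum : (M 0 : ℂ) + ∑ γ ∈ S, (M γ : ℂ) * Complex.exp (ι γ) = 0 := by
    rw [Finsupp.sum, ← Finset.add_sum_erase M.support _ (Finsupp.mem_support_iff.2 h0)] at hs
    simpa using hs
  have key : ((b ^ (p * d) * n * M 0 + p * m : ℤ) : ℂ)
      = - ∑ γ ∈ S, (M γ : ℂ) * ((b : ℂ) ^ (p * d) * (n • Complex.exp (ι γ) - p • aeval (ι γ) gp)) := by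
    have h1 : ∑ γ ∈ S, (M γ : ℂ) * ((b : ℂ) ^ (p * d) * (n • Complex.exp (ι γ) - p • aeval (ι γ) gp))
        = (b : ℂ) ^ (p * d) * n * (∑ γ ∈ S, (M γ : ℂ) * Complex.exp (ι γ))
          - p * (∑ γ ∈ S, (M γ : ℂ) * ((b : ℂ) ^ (p * d) * aeval (ι γ) gp)) := by
      rw [Finset.mul_sum, Finset.mul_sum, ← Finset.sum_sub_distrib]
      refine Finset.sum_congr rfl fun γ _ => ?_
      rw [zsmul_eq_mul, nsmul_eq_mul]
      ring
    rw [h1, hmC]
    have h2 : ∑ γ ∈ S, (M γ : ℂ) * Complex.exp (ι γ) = -(M 0 : ℂ) := by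
      linear_combination hsum
    rw [h2]
    push_cast
    ring
  have hbound : ‖((b ^ (p * d) * n * M 0 + p * m : ℤ) : ℂ)‖ < 1 := by
    rw [key, norm_neg]
    have hcp : c ^ p / ((p - 1).factorial : ℝ) ≤ |c| ^ p / ((p - 1).factorial : ℝ) := by
      refine div_le_div_of_nonneg_right ?_ (Nat.cast_nonneg _)
      rw [← abs_pow]
      exact le_abs_self _
    have h1 : ∀ γ ∈ S, ‖(M γ : ℂ) * ((b : ℂ) ^ (p * d) * (n • Complex.exp (ι γ) - p • aeval (ι γ) gp))‖
        ≤ |(M γ : ℝ)| * (|(b : ℝ)| ^ (p * d) * (|c| ^ p / ((p - 1).factorial : ℝ))) := by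
      intro γ hγ
      rw [norm_mul, norm_mul, norm_pow]
      have e1 : ‖(M γ : ℂ)‖ = |(M γ : ℝ)| := by
        rw [← Complex.ofReal_intCast, Complex.norm_real, Real.norm_eq_abs]
      have e2 : ‖(b : ℂ)‖ = |(b : ℝ)| := by
        rw [← Complex.ofReal_intCast, Complex.norm_real, Real.norm_eq_abs]
      rw [e1, e2]
      gcongr
      exact (hgp (hfC γ hγ)).trans hcp
    refine (norm_sum_le _ _).trans_lt ((Finset.sum_le_sum h1).trans_lt ?_)
    rw [← Finset.sum_mul, ← hA]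
    have h2 := hk0 (p - 1) (by omega)
    have h3 : A * (|(b : ℝ)| ^ (p * d) * (|c| ^ p / ((p - 1).factorial : ℝ)))
        = A * (|(b : ℝ)| ^ d * |c|) * ((|(b : ℝ)| ^ d * |c|) ^ (p - 1) / ((p - 1).factorial : ℝ)) := by
      obtain ⟨k, rfl⟩ : ∃ k, p = k + 1 := ⟨p - 1, by omega⟩
      rw [Nat.add_sub_cancel, mul_comm (k + 1) d, pow_mul]
      rw [mul_pow]
      field_simp
      ring
    rw [h3]
    exact h2
  have hzero : b ^ (p * d) * n * M 0 + p * m = 0 := by
    have h1 : ‖((b ^ (p * d) * n * M 0 + p * m : ℤ) : ℂ)‖ = |((b ^ (p * d) * n * M 0 + p * m : ℤ) : ℝ)| := by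
      rw [← Complex.ofReal_intCast, Complex.norm_real, Real.norm_eq_abs]
    rw [h1] at hbound
    have h2 : |b ^ (p * d) * n * M 0 + p * m| < 1 := by exact_mod_cast hbound
    exact Int.abs_lt_one_iff.1 h2
  have hdvd : (p : ℤ) ∣ b ^ (p * d) * n * M 0 := by
    have h1 : b ^ (p * d) * n * M 0 = -(p * m) := by linear_combination hzero
    rw [h1]
    exact (dvd_mul_right _ _).neg_right
  have hpi : Prime (p : ℤ) := Nat.prime_iff_prime_int.1 hpp
  rcases hpi.dvd_or_dvd hdvd with h | h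
  · rcases hpi.dvd_or_dvd h with h | h
    · have h1 : (p : ℤ) ∣ b := hpi.dvd_of_dvd_pow h
      have h2 := Int.natAbs_dvd_natAbs.2 h1
      have h3 := Nat.le_of_dvd (Int.natAbs_pos.2 hb0) h2
      simp only [Int.natAbs_natCast] at h3
      omega
    · exact hpn h
  · have h2 := Int.natAbs_dvd_natAbs.2 h
    have h3 := Nat.le_of_dvd (Int.natAbs_pos.2 h0) h2
    simp only [Int.natAbs_natCast] at h3
    omega

end Core

/-- Hermite-Lindemann: the exponential of a nonzero algebraic number is transcendental -/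
theorem hermite_lindemann {a : ℂ} (ha : IsAlgebraic ℚ a) (h0 : a ≠ 0) :
    Transcendental ℚ (Complex.exp a) := by
  intro hexp
  have hai : IsIntegral ℚ a := ha.isIntegral
  set p : ℚ[X] := minpoly ℚ a with hp
  set E : IntermediateField ℚ ℂ := IntermediateField.adjoin ℚ (p.rootSet ℂ) with hE
  have hsf : IsSplittingField ℚ E p :=
    IntermediateField.adjoin_rootSet_isSplittingField (IsAlgClosed.splits _)
  have _ : FiniteDimensional ℚ E := IsSplittingField.finiteDimensional E p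
  have _ : Normal ℚ E := Normal.of_isSplittingField p
  have _ : IsGalois ℚ E := ⟨⟩
  have haE : a ∈ E := by
    apply IntermediateField.subset_adjoin
    rw [mem_rootSet]
    exact ⟨minpoly.ne_zero hai, minpoly.aeval _ _⟩
  have hZ : IsAlgebraic ℤ (Complex.exp a) := (IsFractionRing.isAlgebraic_iff ℤ ℚ ℂ).2 hexp
  obtain ⟨P, hP0, hP⟩ := hZ
  obtain ⟨M, h1, h2, h3⟩ := exists_M (K := E) (E.val : E →+* ℂ) ⟨a, haE⟩
    (by intro h; exact h0 (congrArg Subtype.val h)) P hP0 hP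
  exact core (E.val : E →+* ℂ) M h1 h2 h3

end Pool.Agent.CHU.HL
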