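import Pool.Agent.ZCM.Quasi

/-! # Legendre relation up to an integer factor: `η₁ ω₂ - η₂ ω₁ = 2 π i k`, `k ≠ 0` -/

namespace Pool.Agent.CHU
open Pool.Agent.ZCM

/-- the Legendre pairing of two lattice elements is a multiple of `2 π i` -/
theorem leg_pair (L : PeriodPair) (η : L.lattice →+ ℂ)
    (hη : ∀ z ∉ L.lattice, ∀ l : L.lattice, zetaL L (z + l) = zetaL L z + η l)
    (l m : L.lattice) :
    ∃ k : ℤ, η l * (m : ℂ) - η m * (l : ℂ) = k * (2 * Real.pi * Complex.I) := by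
  obtain ⟨a, ha⟩ : ∃ a : ℂ, a = -L.g₂ / 4 := ⟨_, rfl⟩
  obtain ⟨b, hb⟩ : ∃ b : ℂ, b = -L.g₃ / 4 := ⟨_, rfl⟩
  have h2 : L.g₂ = -4 * a := by rw [ha]; ring
  have h3 : L.g₃ = -4 * b := by rw [hb]; ring
  obtain ⟨hl0, hl⟩ := S_add L a b h2 h3 l (η l) fun z hz => hη z hz l
  obtain ⟨hm0, hm⟩ := S_add L a b h2 h3 m (η m) fun z hz => hη z hz m
  obtain ⟨z, hz⟩ : ∃ z : ℂ, z ∉ L.lattice := ⟨_, L.ω₁_div_two_notMem_lattice⟩
  have hS : ev (SS a b) z ≠ 0 := fun h => hz ((S_eq_zero_iff L a b h2 h3 z).1 h)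
  have e1 := hl (z + m)
  have e2 := hm (z + l)
  rw [hm z] at e1
  rw [hl z] at e2
  have e3 : z + (m : ℂ) + l = z + l + m := by ring
  rw [e3, e2] at e1
  have e4 : Complex.exp (η m * (z + l)) * Complex.exp (η l * z)
      = Complex.exp (η l * (z + m)) * Complex.exp (η m * z) := by
    have hne : ev (RR a b) (l : ℂ) * ev (RR a b) (m : ℂ) * ev (SS a b) z ≠ 0 :=
      mul_ne_zero (mul_ne_zero hl0 hm0) hS
    apply mul_left_cancel₀ hne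
    linear_combination e1
  rw [← Complex.exp_add, ← Complex.exp_add, Complex.exp_eq_exp_iff_exists_int] at e4
  obtain ⟨n, hn⟩ := e4
  refine ⟨-n, ?_⟩
  push_cast
  linear_combination -hn

/-- Legendre relation, up to a non-zero integer -/
theorem leg (L : PeriodPair) (η : L.lattice →+ ℂ)
    (hη : ∀ z ∉ L.lattice, ∀ l : L.lattice, zetaL L (z + l) = zetaL L z + η l) :
    ∃ k : ℤ, k ≠ 0 ∧ η ⟨L.ω₁, L.ω₁_mem_lattice⟩ * L.ω₂ - η ⟨L.ω₂, L.ω₂_mem_lattice⟩ * L.ω₁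
      = k * (2 * Real.pi * Complex.I) := by
  obtain ⟨k, hk⟩ := leg_pair L η hη ⟨L.ω₁, L.ω₁_mem_lattice⟩ ⟨L.ω₂, L.ω₂_mem_lattice⟩
  refine ⟨k, ?_, hk⟩
  rintro rfl
  have h := legendre L (-L.g₂ / 4) (-L.g₃ / 4) (by ring) (by ring) η hη
  apply h
  have h1 := hk
  simp only [Int.cast_zero, zero_mul] at h1
  exact sub_eq_zero.1 h1

end Pool.Agent.CHU
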