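import Pool.Agent.ZCM.Zeta
import Mathlib.NumberTheory.ModularForms.EisensteinSeries.E2.Transform

/-! # The Legendre relation `η₁ ω₂ - η₂ ω₁ = 2 π i` -/

set_option autoImplicit false

namespace Pool.Agent.CHU
open Filter Topology Pool.Agent.ZCM EisensteinSeries UpperHalfPlane SummationFilter

/-- the general term of the zeta series -/
noncomputable def zt (l z : ℂ) : ℂ := 1 / (z - l) + 1 / l + z / l ^ 2

theorem norm_lin_tendsto (c a : ℂ) (ha : a ≠ 0) (s : ℤ) (hs : s ≠ 0) :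
    Tendsto (fun N : ℕ => 1 / (c - (s * (N : ℂ)) * a)) atTop (𝓝 0) := by
  have h1 : Tendsto (fun N : ℕ => ‖c - (s * (N : ℂ)) * a‖) atTop atTop := by
    have h2 : ∀ N : ℕ, (N : ℝ) * ‖a‖ - ‖c‖ ≤ ‖c - (s * (N : ℂ)) * a‖ := by
      intro N
      have h3 : (N : ℝ) * ‖a‖ ≤ ‖(s * (N : ℂ)) * a‖ := by
        rw [norm_mul, norm_mul]
        have h4 : (1 : ℝ) ≤ ‖(s : ℂ)‖ := by
          rw [Complex.norm_intCast]
          exact_mod_cast Int.one_le_abs hs
        have h5 : ‖(N : ℂ)‖ = N := by simp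
        rw [h5]
        have : (N : ℝ) ≤ ‖(s : ℂ)‖ * N := le_mul_of_one_le_left (Nat.cast_nonneg N) h4
        exact mul_le_mul_of_nonneg_right this (norm_nonneg a)
      have h6 : ‖(s * (N : ℂ)) * a‖ - ‖c‖ ≤ ‖c - (s * (N : ℂ)) * a‖ := by
        rw [norm_sub_rev]
        exact norm_sub_norm_le _ _
      linarith
    refine tendsto_atTop_mono h2 ?_
    refine tendsto_atTop_add_const_right _ _ ?_
    exact Tendsto.atTop_mul_const (norm_pos_iff.2 ha) tendsto_natCast_atTop_atTop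
  have h7 := tendsto_inv_atTop_zero.comp h1
  rw [tendsto_zero_iff_norm_tendsto_zero]
  refine h7.congr fun N => ?_
  simp

/-- rows: the quasi period along `a` is `G₂(b/a)/a` -/
theorem rows (a b : ℂ) (ha : a ≠ 0) (τ : ℍ) (hτ : (τ : ℂ) = b / a) (z e : ℂ)
    (h : HasSum (fun q : ℤ × ℤ => zt (q.1 * b + q.2 * a) (z + a) - zt (q.1 * b + q.2 * a) z) e) :
    e = G2 τ / a := by
  have hba : b = a * τ := by rw [hτ]; field_simp
  -- the quadratic part
  have hq : ∀ m n : ℤ, a / ((m : ℂ) * b + n * a) ^ 2 = a⁻¹ * eisSummand 2 ![m, n] τ := by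
    intro m n
    have h1 : (m : ℂ) * b + n * a = a * (m * τ + n) := by rw [hba]; ring
    have h2 : eisSummand 2 ![m, n] τ = (((m : ℂ) * τ + n) ^ 2)⁻¹ := by
      simp [eisSummand, zpow_neg]
    rw [h1, h2, mul_pow, div_eq_mul_inv, mul_inv]
    field_simp
  have hf : ∀ m n : ℤ, zt (m * b + n * a) (z + a) - zt (m * b + n * a) z
      = (1 / (z - m * b - (n - 1 : ℂ) * a) - 1 / (z - m * b - n * a))
        + a⁻¹ * eisSummand 2 ![m, n] τ := by
    intro m n
    rw [← hq]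
    unfold zt
    have e1 : z + a - ((m : ℂ) * b + n * a) = z - m * b - (n - 1 : ℂ) * a := by ring
    have e2 : z - ((m : ℂ) * b + n * a) = z - m * b - n * a := by ring
    rw [e1, e2]
    ring
  have hrow : ∀ m : ℤ, HasSum (fun n : ℤ => zt (m * b + n * a) (z + a) - zt (m * b + n * a) z)
      (a⁻¹ * e2Summand m τ) := by
    intro m
    have hs1 : Summable (fun n : ℤ => zt (m * b + n * a) (z + a) - zt (m * b + n * a) z) :=
      h.summable.prod_factor m
    have hs2 : Summable (fun n : ℤ => a⁻¹ * eisSummand 2 ![m, n] τ) :=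
      (e2Summand_summable m τ).mul_left _
    have hs3 : Summable (fun n : ℤ =>
        1 / (z - m * b - (n - 1 : ℂ) * a) - 1 / (z - m * b - n * a)) := by
      have := hs1.sub hs2
      refine this.congr fun n => ?_
      rw [hf]; ring
    have hzero : (∑' n : ℤ, (1 / (z - m * b - (n - 1 : ℂ) * a) - 1 / (z - m * b - n * a))) = 0 := by
      have h1 := hs3.hasSum
      have h2 : Tendsto (fun N : ℕ => ∑ n ∈ Finset.Icc (-(N : ℤ)) N,
          (1 / (z - m * b - ((n : ℂ) - 1) * a) - 1 / (z - m * b - n * a))) atTop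
          (𝓝 (∑' n : ℤ, (1 / (z - m * b - (n - 1 : ℂ) * a) - 1 / (z - m * b - n * a)))) := by
        exact h1.comp (Finset.tendsto_Icc_neg (R := ℤ))
      have htel : ∀ N : ℕ, ∑ n ∈ Finset.Icc (-(N : ℤ)) N,
          (1 / (z - m * b - ((n : ℂ) - 1) * a) - 1 / (z - m * b - n * a))
          = 1 / (z - m * b - ((-(N : ℤ) : ℤ) - 1 : ℂ) * a) - 1 / (z - m * b - (N : ℂ) * a) := by
        intro N
        induction N with
        | zero => simp
        | succ N ih =>
          have e3 : Finset.Icc (-((N + 1 : ℕ) : ℤ)) ((N + 1 : ℕ) : ℤ)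
              = insert (-((N + 1 : ℕ) : ℤ)) (insert ((N + 1 : ℕ) : ℤ) (Finset.Icc (-(N : ℤ)) N)) := by
            ext x
            simp only [Finset.mem_Icc, Finset.mem_insert]
            push_cast
            omega
          rw [e3, Finset.sum_insert, Finset.sum_insert, ih]
          · push_cast
            have e4 : (-((N : ℂ) + 1)) = -(N : ℂ) - 1 := by ring
            rw [e4]
            ring_nf
          · simp
          · simp only [Finset.mem_insert, Finset.mem_Icc]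
            push_cast
            omega
      have h4 : Tendsto (fun N : ℕ => 1 / (z - m * b - ((-(N : ℤ) : ℤ) - 1 : ℂ) * a)
          - 1 / (z - m * b - (N : ℂ) * a)) atTop (𝓝 0) := by
        have h5 := norm_lin_tendsto (z - m * b + a) a ha (-1) (by norm_num)
        have h6 := norm_lin_tendsto (z - m * b) a ha 1 (by norm_num)
        have h7 := h5.sub h6
        rw [sub_zero] at h7
        refine h7.congr fun N => ?_
        congr 2
        · push_cast; ring
        · push_cast; ring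
      exact tendsto_nhds_unique (h2.congr htel) h4
    have h8 := hs3.hasSum.add hs2.hasSum
    rw [hzero, zero_add, tsum_mul_left] at h8
    have e9 : (fun n : ℤ => zt (m * b + n * a) (z + a) - zt (m * b + n * a) z) = fun n : ℤ =>
        (1 / (z - m * b - (n - 1 : ℂ) * a) - 1 / (z - m * b - n * a))
        + a⁻¹ * eisSummand 2 ![m, n] τ := funext fun n => hf m n
    rw [e9]
    exact h8
  have hm : HasSum (fun m : ℤ => a⁻¹ * e2Summand m τ) e := h.prod_fiberwise hrow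
  have hm2 : HasSum (fun m : ℤ => e2Summand m τ) (a * e) := by
    have h1 := hm.mul_left a
    have e1 : (fun m : ℤ => e2Summand m τ) = fun m : ℤ => a * (a⁻¹ * e2Summand m τ) := by
      funext m
      rw [← mul_assoc, mul_inv_cancel₀ ha, one_mul]
    rw [e1]
    exact h1
  have hG : G2 τ = a * e := by
    have h1 : HasSum (fun m : ℤ => e2Summand m τ) (a * e) (symmetricIcc ℤ) := by
      rw [hasSum_symmetricIcc_iff]
      exact hm2.comp (Finset.tendsto_Icc_neg (R := ℤ))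
    exact h1.tsum_eq
  rw [hG]
  field_simp

variable (L : PeriodPair)

theorem hasSum_zt (z : ℂ) : HasSum (fun l : L.lattice => zt l z) (zetaL L z) := by
  have h0 := L.ω₁_div_two_notMem_lattice
  have h1 := Zeta_hasSum L (L.ω₁ / 2) z
  rw [Zeta_exc_of_notMem L _ h0] at h1
  have e1 : (fun l : L.lattice => if l.1 = L.ω₁ / 2 then 0 else
      (1 / (z - l) + 1 / l + z / (l : ℂ) ^ 2)) = fun l : L.lattice => zt l z := by
    funext l
    rw [if_neg]
    · rfl
    · intro h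
      exact h0 (h ▸ l.2)
  rw [e1] at h1
  exact h1

theorem eta_eq_G2 (η : L.lattice →+ ℂ)
    (hη : ∀ z ∉ L.lattice, ∀ l : L.lattice, zetaL L (z + l) = zetaL L z + η l)
    (a b : ℂ) (ha : a ≠ 0) (τ : ℍ) (hτ : (τ : ℂ) = b / a) (f : ℤ × ℤ ≃ L.lattice)
    (hf : ∀ q, (f q : ℂ) = q.1 * b + q.2 * a) (la : L.lattice) (hla : (la : ℂ) = a) :
    η la = G2 τ / a := by
  have h0 := L.ω₁_div_two_notMem_lattice
  refine rows a b ha τ hτ (L.ω₁ / 2) (η la) ?_
  have h1 := (hasSum_zt L (L.ω₁ / 2 + a)).sub (hasSum_zt L (L.ω₁ / 2))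
  have h2 : zetaL L (L.ω₁ / 2 + a) - zetaL L (L.ω₁ / 2) = η la := by
    rw [← hla, hη _ h0 la]
    ring
  rw [h2, ← f.hasSum_iff] at h1
  have e1 : ((fun l : L.lattice => zt l (L.ω₁ / 2 + a) - zt l (L.ω₁ / 2)) ∘ f) =
      fun q : ℤ × ℤ => zt (q.1 * b + q.2 * a) (L.ω₁ / 2 + a) - zt (q.1 * b + q.2 * a) (L.ω₁ / 2) := by
    funext q
    simp only [Function.comp_apply, hf]
  rw [e1] at h1
  exact h1

/-- **Legendre relation** (positively oriented basis) -/
theorem legendre_pos (η : L.lattice →+ ℂ)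
    (hη : ∀ z ∉ L.lattice, ∀ l : L.lattice, zetaL L (z + l) = zetaL L z + η l)
    (him : 0 < (L.ω₂ / L.ω₁).im) :
    η ⟨L.ω₁, L.ω₁_mem_lattice⟩ * L.ω₂ - η ⟨L.ω₂, L.ω₂_mem_lattice⟩ * L.ω₁
      = 2 * Real.pi * Complex.I := by
  have h1 : L.ω₁ ≠ 0 := by rintro h; simp [h] at him
  have h2 : L.ω₂ ≠ 0 := by rintro h; simp [h] at him
  obtain ⟨τ, hτ⟩ : ∃ τ : ℍ, (τ : ℂ) = L.ω₂ / L.ω₁ := ⟨⟨_, him⟩, rfl⟩
  have hS : ((ModularGroup.S • τ : ℍ) : ℂ) = (-L.ω₁) / L.ω₂ := by
    rw [UpperHalfPlane.modular_S_smul]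
    simp [hτ]
    ring
  have hA := eta_eq_G2 L η hη L.ω₁ L.ω₂ h1 τ hτ
    ((Equiv.prodComm ℤ ℤ).trans L.latticeEquivProd.symm.toEquiv) (by
      intro q
      have h3 := L.latticeEquiv_symm_apply (q.2, q.1)
      exact h3.trans (by ring)) ⟨L.ω₁, L.ω₁_mem_lattice⟩ rfl
  have hB := eta_eq_G2 L η hη L.ω₂ (-L.ω₁) h2 (ModularGroup.S • τ) hS
    (((Equiv.neg ℤ).prodCongr (Equiv.refl ℤ)).trans L.latticeEquivProd.symm.toEquiv) (by
      intro q
      have h3 := L.latticeEquiv_symm_apply (-q.1, q.2)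
      exact h3.trans (by push_cast; ring)) ⟨L.ω₂, L.ω₂_mem_lattice⟩ rfl
  have hT := G2_S_transform τ
  rw [hA, hB, hT, hτ]
  field_simp
  ring

/-- **Legendre relation** (negatively oriented basis) -/
theorem legendre_neg (η : L.lattice →+ ℂ)
    (hη : ∀ z ∉ L.lattice, ∀ l : L.lattice, zetaL L (z + l) = zetaL L z + η l)
    (him : (L.ω₂ / L.ω₁).im < 0) :
    η ⟨L.ω₁, L.ω₁_mem_lattice⟩ * L.ω₂ - η ⟨L.ω₂, L.ω₂_mem_lattice⟩ * L.ω₁
      = -(2 * Real.pi * Complex.I) := by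
  have h1 : L.ω₁ ≠ 0 := by rintro h; simp [h] at him
  have h2 : L.ω₂ ≠ 0 := by rintro h; simp [h] at him
  have him' : 0 < (L.ω₁ / L.ω₂).im := by
    have h3 : L.ω₁ / L.ω₂ = (L.ω₂ / L.ω₁)⁻¹ := by rw [inv_div]
    rw [h3, Complex.inv_im]
    exact div_pos (by linarith) (Complex.normSq_pos.2 (div_ne_zero h2 h1))
  obtain ⟨τ, hτ⟩ : ∃ τ : ℍ, (τ : ℂ) = L.ω₁ / L.ω₂ := ⟨⟨_, him'⟩, rfl⟩
  have hS : ((ModularGroup.S • τ : ℍ) : ℂ) = (-L.ω₂) / L.ω₁ := by
    rw [UpperHalfPlane.modular_S_smul]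
    simp [hτ]
    ring
  have hA := eta_eq_G2 L η hη L.ω₂ L.ω₁ h2 τ hτ
    L.latticeEquivProd.symm.toEquiv (by
      intro q
      have h3 := L.latticeEquiv_symm_apply (q.1, q.2)
      exact h3) ⟨L.ω₂, L.ω₂_mem_lattice⟩ rfl
  have hB := eta_eq_G2 L η hη L.ω₁ (-L.ω₂) h1 (ModularGroup.S • τ) hS
    (((Equiv.prodComm ℤ ℤ).trans ((Equiv.refl ℤ).prodCongr (Equiv.neg ℤ))).trans
      L.latticeEquivProd.symm.toEquiv) (by
      intro q
      have h3 := L.latticeEquiv_symm_apply (q.2, -q.1)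
      exact h3.trans (by push_cast; ring)) ⟨L.ω₁, L.ω₁_mem_lattice⟩ rfl
  have hT := G2_S_transform τ
  rw [hA, hB, hT, hτ]
  field_simp
  ring

/-- **Legendre relation** -/
theorem legendre (η : L.lattice →+ ℂ)
    (hη : ∀ z ∉ L.lattice, ∀ l : L.lattice, zetaL L (z + l) = zetaL L z + η l) :
    ∃ s : ℂ, (s = 1 ∨ s = -1) ∧
    η ⟨L.ω₁, L.ω₁_mem_lattice⟩ * L.ω₂ - η ⟨L.ω₂, L.ω₂_mem_lattice⟩ * L.ω₁
      = s * (2 * Real.pi * Complex.I) := by
  rcases lt_trichotomy (L.ω₂ / L.ω₁).im 0 with h | h | h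
  · exact ⟨-1, Or.inr rfl, by rw [legendre_neg L η hη h]; ring⟩
  · exfalso
    have hind := LinearIndependent.pair_iff.mp L.indep
    have hω1 : L.ω₁ ≠ 0 := by
      intro h
      have := hind 1 0 (by simp [h])
      exact one_ne_zero this.1
    have h3 : L.ω₂ = ((L.ω₂ / L.ω₁).re : ℂ) * L.ω₁ := by
      have h4 : (((L.ω₂ / L.ω₁).re : ℝ) : ℂ) = L.ω₂ / L.ω₁ := by
        apply Complex.ext
        · simp
        · simp [h]
      rw [h4]
      field_simp
    have h5 := hind (-(L.ω₂ / L.ω₁).re) 1 (by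
      simp only [Complex.real_smul, one_smul]
      push_cast
      linear_combination h3)
    exact one_ne_zero h5.2
  · exact ⟨1, Or.inl rfl, by rw [legendre_pos L η hη h]; ring⟩

end Pool.Agent.CHU
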