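import Pool.Agent.CHU.Main0
import Pool.Agent.CHU.Dk
import Pool.Agent.CHG.Crit

/-!
# CHU/Main: Chudnovsky's theorem

For a lattice with algebraic invariants `g₂, g₃`, a basis `ω₁, ω₂` of periods and the quasi-periods
`η₁, η₂`, the numbers `κ = η₁/ω₁` and `ρ = η₂ - κ ω₂ = ∓ 2πi/ω₁` are algebraically independent.
-/

namespace Pool.Agent.CHU
open Pool.Agent.ZCM

/-- the criterion of row G in the form used by `core` -/
theorem critH_of {r : ℕ} (v : Fin (r + 1) → ℂ) (h : ∀ i, v i ∈ FF (v 0)) :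
    ∃ Ca : ℝ, 0 < Ca ∧ CritH v Ca := by
  obtain ⟨Ca, hCa, hc⟩ := CHG.crit v (by
    intro i j
    rw [algInd_iff]
    rintro ⟨h1, h2⟩
    exact h2 (FF_trans (h i) (FF_symm h1 (h j))))
  refine ⟨Ca, hCa, fun A B hA hB n0 => ?_⟩
  obtain ⟨n, hn, hP⟩ := hc A B (by exact_mod_cast hA) (by exact_mod_cast hB) n0
  refine ⟨n, hn, fun P h1 h2 => ?_⟩
  exact hP P (by exact_mod_cast h1) h2

/-- **Chudnovsky's theorem** -/
theorem chud_kr (L : PeriodPair) (h2 : IsAlgebraic ℚ L.g₂) (h3 : IsAlgebraic ℚ L.g₃)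
    (η : L.lattice →+ ℂ)
    (hη : ∀ z ∉ L.lattice, ∀ l : L.lattice, zetaL L (z + l) = zetaL L z + η l) :
    AlgebraicIndependent ℚ ![η ⟨L.ω₁, L.ω₁_mem_lattice⟩ / L.ω₁,
      η ⟨L.ω₂, L.ω₂_mem_lattice⟩ - η ⟨L.ω₁, L.ω₁_mem_lattice⟩ / L.ω₁ * L.ω₂] :=
  main0 L h2 h3 η hη (fun v _ h => critH_of v h) dkm_totalDegree_le dkm_nm_le
    (fun κ ρ a b e2 e3 hf2 hf0 N p k m => Faux_iter L κ ρ a b e2 e3 hf2 hf0 N p m k)

end Pool.Agent.CHU
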