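import Pool.Agent.CHU.Per
import Pool.Agent.ZCM.Link

/-!
# CHU/Zero: the zero estimate
-/

namespace Pool.Agent.CHU
open Pool.Agent.ZCM PowerSeries Filter Topology

/-! ### Algebra -/

/-- Vandermonde over a power series ring -/
theorem Zero_vander (N T : ℕ) (F : ℂ⟦X⟧) (ρ : ℂ) (hρ : ρ ≠ 0) (c : ℕ → ℂ⟦X⟧)
    (h : ∀ m < N, X ^ T ∣ ∑ j ∈ Finset.range N, c j * (F + C ((m : ℂ) * ρ)) ^ j) :
    ∀ j < N, X ^ T ∣ c j := by
  set v : Fin N → ℂ⟦X⟧ := fun m => F + C (((m : ℕ) : ℂ) * ρ) with hv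
  set V : Matrix (Fin N) (Fin N) ℂ⟦X⟧ := Matrix.vandermonde v with hV
  have hdet : IsUnit V.det := by
    rw [hV, Matrix.det_vandermonde]
    rw [IsUnit.prod_iff]
    intro i _
    rw [IsUnit.prod_iff]
    intro j hj
    have hij : (i : ℕ) < j := by
      have := Finset.mem_Ioi.1 hj
      exact this
    have e : v j - v i = C ((((j : ℕ) : ℂ) - ((i : ℕ) : ℂ)) * ρ) := by
      simp only [hv]
      rw [show F + C (((j : ℕ) : ℂ) * ρ) - (F + C (((i : ℕ) : ℂ) * ρ))
        = C (((j : ℕ) : ℂ) * ρ) - C (((i : ℕ) : ℂ) * ρ) by ring, ← map_sub]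
      congr 1
      ring
    rw [e]
    refine IsUnit.map _ (isUnit_iff_ne_zero.2 (mul_ne_zero (sub_ne_zero.2 ?_) hρ))
    exact_mod_cast hij.ne'
  set cv : Fin N → ℂ⟦X⟧ := fun j => c j with hcv
  have hval : ∀ m : Fin N, X ^ T ∣ (V.mulVec cv) m := by
    intro m
    have h1 := h m m.2
    rw [Finset.sum_range] at h1
    convert h1 using 1
    simp only [Matrix.mulVec, dotProduct, hV, Matrix.vandermonde_apply, hv, hcv]
    exact Finset.sum_congr rfl fun j _ => mul_comm _ _
  have hinv : V⁻¹.mulVec (V.mulVec cv) = cv := by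
    rw [Matrix.mulVec_mulVec, Matrix.nonsing_inv_mul V hdet, Matrix.one_mulVec]
  intro j hj
  have h2 : c j = (V⁻¹.mulVec (V.mulVec cv)) ⟨j, hj⟩ := by rw [hinv]
  rw [h2]
  simp only [Matrix.mulVec, dotProduct]
  exact Finset.dvd_sum fun i _ => (hval i).mul_left _

/-- order of `q(x)` for a power series `x` -/
theorem Zero_order (x : ℂ⟦X⟧) (hx : x - C (constantCoeff x) ≠ 0) : ∃ r0 : ℕ,
    ∀ (q : Polynomial ℂ) (T : ℕ), q ≠ 0 → r0 * q.natDegree < T → ¬ X ^ T ∣ Polynomial.aeval x q := by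
  obtain ⟨e, he⟩ : ∃ e, e = constantCoeff x := ⟨_, rfl⟩
  rw [← he] at hx
  obtain ⟨r0, hr0⟩ : ∃ r0 : ℕ, (r0 : ℕ∞) = (x - C e).order :=
    ENat.ne_top_iff_exists.1 (fun h => hx (order_eq_top.1 h))
  refine ⟨r0, fun q T hq hT hdvd => ?_⟩
  obtain ⟨g, hg, hge⟩ := Polynomial.exists_eq_pow_rootMultiplicity_mul_and_not_dvd q hq e
  set s := q.rootMultiplicity e with hs
  have hg0 : g.eval e ≠ 0 := fun h => hge (Polynomial.dvd_iff_isRoot.2 h)
  have e1 : Polynomial.aeval x q = (x - C e) ^ s * Polynomial.aeval x g := by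
    conv_lhs => rw [hg]
    rw [map_mul, map_pow, map_sub, Polynomial.aeval_X, Polynomial.aeval_C]
    rfl
  have hunit : IsUnit (Polynomial.aeval x g) := by
    rw [PowerSeries.isUnit_iff_constantCoeff, isUnit_iff_ne_zero]
    have h1 : constantCoeff (Polynomial.aeval x g) = g.eval e := by
      rw [Polynomial.aeval_def, Polynomial.hom_eval₂, ← he]
      rw [Polynomial.eval₂_eq_eval_map]
      congr 1
      have : (constantCoeff (R := ℂ)).comp (algebraMap ℂ ℂ⟦X⟧) = RingHom.id ℂ := by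
        ext z
        simp
      rw [this, Polynomial.map_id]
    rw [h1]
    exact hg0
  rw [e1] at hdvd
  have hdvd2 : X ^ T ∣ (x - C e) ^ s := (hunit.dvd_mul_right).1 hdvd
  have h3 : (T : ℕ∞) ≤ ((x - C e) ^ s).order :=
    nat_le_order _ _ (X_pow_dvd_iff.1 hdvd2)
  rw [order_pow, ← hr0] at h3
  have h4 : T ≤ s * r0 := by
    have : (T : ℕ∞) ≤ ((s * r0 : ℕ) : ℕ∞) := by
      push_cast
      simpa using h3
    exact_mod_cast this
  have h5 : s ≤ q.natDegree := by
    have h7 := Polynomial.natDegree_le_of_dvd (Polynomial.pow_rootMultiplicity_dvd q e) hq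
    rwa [Polynomial.natDegree_pow, Polynomial.natDegree_X_sub_C, mul_one] at h7
  have h6 : s * r0 ≤ r0 * q.natDegree := by
    rw [mul_comm]
    exact Nat.mul_le_mul_left _ h5
  omega

/-! ### Taylor series of the auxiliary function -/

variable (L : PeriodPair)

theorem Zero_analytic_fz (κ : ℂ) {z : ℂ} (hz : z ∉ L.lattice) : AnalyticAt ℂ (fz L κ) z := by
  have h := Link_analyticOnNhd_zeta L z hz
  unfold fz
  exact h.fun_sub (analyticAt_const.mul analyticAt_id)

theorem Zero_analytic_P {z : ℂ} (hz : z ∉ L.lattice) : AnalyticAt ℂ L.weierstrassP z :=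
  Link_analyticOnNhd_P L z hz

theorem Zero_T_sum {ι : Type*} (s : Finset ι) (z0 : ℂ) (F : ι → ℂ → ℂ)
    (h : ∀ i ∈ s, AnalyticAt ℂ (F i) z0) :
    Link_T z0 (fun z => ∑ i ∈ s, F i z) = ∑ i ∈ s, Link_T z0 (F i) := by
  classical
  induction s using Finset.induction_on with
  | empty =>
    simp only [Finset.sum_empty]
    rw [Link_T_const, map_zero]
  | insert a s ha ih =>
    simp only [Finset.sum_insert ha]
    rw [Link_T_add (h a (Finset.mem_insert_self _ _))
      (Finset.analyticAt_fun_sum _ fun i hi => h i (Finset.mem_insert_of_mem hi)),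
      ih fun i hi => h i (Finset.mem_insert_of_mem hi)]

/-- the Taylor series of `F` at `u_m` in terms of those of `℘`, `f` at `u_0` -/
theorem Zero_T_FF (κ ρ : ℂ) (hf : ∀ z ∉ L.lattice, fz L κ (z + L.ω₂) = fz L κ z + ρ) (N : ℕ)
    (p : ℕ → ℕ → ℂ) (m : ℕ) :
    Link_T (um L m) (Faux L κ N p) = ∑ j ∈ Finset.range N,
      (∑ i ∈ Finset.range N, C (p i j) * Link_T (um L 0) L.weierstrassP ^ i) *
        (Link_T (um L 0) (fz L κ) + C ((m : ℂ) * ρ)) ^ j := by
  have h0 : um L 0 ∉ L.lattice := um_notMem L 0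
  -- shift
  have hshift : Link_T (um L m) (Faux L κ N p)
      = Link_T (um L 0) (fun z => Faux L κ N p (z + (m : ℂ) * L.ω₂)) := by
    ext n
    rw [Link_coeff_T, Link_coeff_T]
    have h1 := congrFun (iteratedDeriv_comp_add_const n (Faux L κ N p) ((m : ℂ) * L.ω₂)) (um L 0)
    rw [h1]
    congr 2
    simp [um]
  have hcongr : (fun z => Faux L κ N p (z + (m : ℂ) * L.ω₂)) =ᶠ[𝓝 (um L 0)]
      fun z => ∑ j ∈ Finset.range N, (∑ i ∈ Finset.range N, p i j * L.weierstrassP z ^ i) *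
        (fz L κ z + (m : ℂ) * ρ) ^ j := by
    filter_upwards [(isOpen_compl L).mem_nhds h0] with z hz
    simp only [Faux]
    rw [Finset.sum_comm]
    refine Finset.sum_congr rfl fun j _ => ?_
    rw [Finset.sum_mul]
    refine Finset.sum_congr rfl fun i _ => ?_
    rw [P_add_nat, fz_add_nat L κ ρ hf hz]
  rw [hshift, Link_T_congr hcongr]
  have hP := Zero_analytic_P L h0
  have hfz := Zero_analytic_fz L κ h0
  have hc : ∀ c : ℂ, AnalyticAt ℂ (fun _ : ℂ => c) (um L 0) := fun c => analyticAt_const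
  have hA : ∀ j, AnalyticAt ℂ (fun z => ∑ i ∈ Finset.range N, p i j * L.weierstrassP z ^ i)
      (um L 0) := fun j =>
    Finset.analyticAt_fun_sum _ fun i _ => (hc _).fun_mul (hP.fun_pow i)
  have hB : AnalyticAt ℂ (fun z => fz L κ z + (m : ℂ) * ρ) (um L 0) := hfz.fun_add (hc _)
  rw [Zero_T_sum _ _ _ fun j _ => (hA j).fun_mul (hB.fun_pow j)]
  refine Finset.sum_congr rfl fun j _ => ?_
  rw [Link_T_mul (hA j) (hB.fun_pow j), Link_T_pow hB, Link_T_add hfz (hc _), Link_T_const,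
    Zero_T_sum _ _ _ fun i _ => (hc _).fun_mul (hP.fun_pow i)]
  congr 1
  refine Finset.sum_congr rfl fun i _ => ?_
  rw [Link_T_mul (hc _) (hP.fun_pow i), Link_T_const, Link_T_pow hP]

/-- `℘` is not constant -/
theorem Zero_P_ne : Link_T (um L 0) L.weierstrassP
    - C (constantCoeff (Link_T (um L 0) L.weierstrassP)) ≠ 0 := by
  intro h
  obtain ⟨e, he⟩ : ∃ e, e = constantCoeff (Link_T (um L 0) L.weierstrassP) := ⟨_, rfl⟩
  rw [← he] at h
  have h0 : um L 0 ∉ L.lattice := um_notMem L 0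
  have hP := Zero_analytic_P L h0
  have h1 : Link_T (um L 0) L.weierstrassP = Link_T (um L 0) (fun _ => e) := by
    rw [Link_T_const]
    exact sub_eq_zero.1 h
  have h2 := Link_T_inj hP analyticAt_const h1
  -- identity theorem
  have h3 : Set.EqOn (fun z => L.weierstrassP z - e) 0 (L.lattice : Set ℂ)ᶜ := by
    have hA : AnalyticOnNhd ℂ (fun z => L.weierstrassP z - e) (L.lattice : Set ℂ)ᶜ := by
      intro z hz
      exact (Zero_analytic_P L hz).fun_sub analyticAt_const
    have hev : (fun z => L.weierstrassP z - e) =ᶠ[𝓝 (um L 0)] 0 := by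
      filter_upwards [h2] with z hz
      rw [hz, sub_self]
      rfl
    exact hA.eqOn_zero_of_preconnected_of_eventuallyEq_zero (isPreconnected_compl L) h0 hev
  have h4 : L.weierstrassP =ᶠ[𝓝[≠] (0 : ℂ)] fun _ => e := by
    filter_upwards [eventually_notMem L] with z hz
    have := h3 hz
    exact sub_eq_zero.1 this
  have h5 : meromorphicOrderAt L.weierstrassP (0 : ℂ) = -2 :=
    L.order_weierstrassP 0 L.lattice.zero_mem
  have h8 : meromorphicOrderAt L.weierstrassP (0 : ℂ)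
      = meromorphicOrderAt (fun _ : ℂ => e) (0 : ℂ) := meromorphicOrderAt_congr h4
  have h7 : AnalyticAt ℂ (fun _ : ℂ => e) (0 : ℂ) := analyticAt_const
  have h6 : (0 : WithTop ℤ) ≤ meromorphicOrderAt (fun _ : ℂ => e) (0 : ℂ) :=
    h7.meromorphicOrderAt_nonneg
  rw [← h8, h5] at h6
  exact absurd h6 (by decide)

/-- **Zero estimate.** -/
theorem zero_est : ∃ r0 : ℕ, ∀ (κ ρ : ℂ), ρ ≠ 0 →
    (∀ z ∉ L.lattice, fz L κ (z + L.ω₂) = fz L κ z + ρ) → ∀ (N T : ℕ) (p : ℕ → ℕ → ℂ),
    r0 * N ≤ T → (∀ m < N, ∀ k < T, iteratedDeriv k (Faux L κ N p) (um L m) = 0) →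
    ∀ i < N, ∀ j < N, p i j = 0 := by
  obtain ⟨r0, hr0⟩ := Zero_order _ (Zero_P_ne L)
  refine ⟨r0 + 1, fun κ ρ hρ hf N T p hT h => ?_⟩
  have h1 := Zero_vander N T (Link_T (um L 0) (fz L κ)) ρ hρ
    (fun j => ∑ i ∈ Finset.range N, C (p i j) * Link_T (um L 0) L.weierstrassP ^ i) ?_
  · intro i hi j hj
    have h2 := h1 j hj
    set q : Polynomial ℂ := ∑ i ∈ Finset.range N, Polynomial.C (p i j) * Polynomial.X ^ i with hq
    have h3 : Polynomial.aeval (Link_T (um L 0) L.weierstrassP) q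
        = ∑ i ∈ Finset.range N, C (p i j) * Link_T (um L 0) L.weierstrassP ^ i := by
      rw [hq, map_sum]
      refine Finset.sum_congr rfl fun i _ => ?_
      rw [map_mul, map_pow, Polynomial.aeval_X, Polynomial.aeval_C]
      rfl
    rw [← h3] at h2
    have hq0 : q = 0 := by
      by_contra hq0
      refine hr0 q T hq0 ?_ h2
      have h4 : q.natDegree < N := by
        have h5 : q.natDegree ≤ N - 1 := by
          rw [hq]
          refine Polynomial.natDegree_sum_le_of_forall_le _ _ fun i hi => ?_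
          refine (Polynomial.natDegree_C_mul_X_pow_le _ _).trans ?_
          have := Finset.mem_range.1 hi
          omega
        omega
      calc r0 * q.natDegree ≤ r0 * N := Nat.mul_le_mul_left _ h4.le
        _ < (r0 + 1) * N := by
          have : 0 < N := by omega
          nlinarith
        _ ≤ T := hT
    have h6 := congrArg (fun q => Polynomial.coeff q i) hq0
    simp only [hq, Polynomial.finsetSum_coeff, Polynomial.coeff_C_mul, Polynomial.coeff_X_pow,
      Polynomial.coeff_zero, mul_ite, mul_one, mul_zero] at h6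
    rw [Finset.sum_ite_eq (Finset.range N) i fun i => p i j, if_pos (Finset.mem_range.2 hi)] at h6
    exact h6
  · intro m hm
    rw [← Zero_T_FF L κ ρ hf N p m, X_pow_dvd_iff]
    intro k hk
    rw [Link_coeff_T, h m hm k hk, zero_div]

end Pool.Agent.CHU
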