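import Pool.Agent.CHU.Core3
import Pool.Agent.CHU.Ana
import Pool.Agent.CHU.Zero
import Pool.Agent.CHU.Leg
import Pool.Agent.CHU.CM
import Pool.Agent.CHU.HL
import Pool.Agent.CHU.Pairs

/-!
# CHU/Main0: Chudnovsky's theorem from the criterion (row G) and the derivative polynomials (row D)
-/

namespace Pool.Agent.CHU
open Pool.Agent.ZCM

/-- the list of numbers `θ, e₁, ρ, κ, a` -/
def lst (θ e1 ρ κ a : ℂ) : Fin (4 + 1) → ℂ := ![θ, e1, ρ, κ, a]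

theorem lst_zero (θ e1 ρ κ a : ℂ) : lst θ e1 ρ κ a 0 = θ := rfl

theorem lst_succ (θ e1 ρ κ a : ℂ) : lst θ e1 ρ κ a ∘ Fin.succ = ![e1, ρ, κ, a] := by
  funext i
  fin_cases i <;> rfl

/-- a transcendental number `θ` for two dependent numbers -/
theorem exists_theta {κ ρ : ℂ} (h : ¬ AlgebraicIndependent ℚ ![κ, ρ]) :
    ∃ θ : ℂ, Transcendental ℚ θ ∧ κ ∈ FF θ ∧ ρ ∈ FF θ := by
  by_cases hρ : Transcendental ℚ ρ
  · exact ⟨ρ, hρ, (dep_iff hρ).1 h, mem_FF_self ρ⟩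
  · have hρ' : IsAlgebraic ℚ ρ := by
      by_contra h'
      exact hρ h'
    by_cases hκ : Transcendental ℚ κ
    · exact ⟨κ, hκ, mem_FF_self κ, FF_of_alg hρ'⟩
    · have hκ' : IsAlgebraic ℚ κ := by
        by_contra h'
        exact hκ h'
      exact ⟨Complex.exp 1, HL.hermite_lindemann isAlgebraic_one one_ne_zero, FF_of_alg hκ',
        FF_of_alg hρ'⟩

theorem nm_rename_le {r : ℕ} (P : MvPolynomial (Fin r) ℤ) :
    nm ((MvPolynomial.rename (Fin.succ : Fin r → Fin (r + 1)) P).map (Int.castRingHom ℂ))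
      ≤ nm (P.map (Int.castRingHom ℂ)) := by
  classical
  rw [MvPolynomial.map_rename]
  conv_lhs => rw [(P.map (Int.castRingHom ℂ)).as_sum, map_sum]
  refine (nm_sum_le _ _).trans ?_
  unfold nm
  refine Finset.sum_le_sum fun m _ => ?_
  rw [MvPolynomial.rename_monomial]
  exact (nm_monomial _ _).le

/-- **Chudnovsky's theorem**, from rows G and D -/
theorem main0 (L : PeriodPair) (h2 : IsAlgebraic ℚ L.g₂) (h3 : IsAlgebraic ℚ L.g₃)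
    (η : L.lattice →+ ℂ)
    (hη : ∀ z ∉ L.lattice, ∀ l : L.lattice, zetaL L (z + l) = zetaL L z + η l)
    (hG : ∀ v : Fin (4 + 1) → ℂ, Transcendental ℚ (v 0) → (∀ i, v i ∈ FF (v 0)) →
      ∃ Ca : ℝ, 0 < Ca ∧ CritH v Ca)
    (hDd : ∀ m k i j : ℕ, (dkm m k i j).totalDegree ≤ i + j + k)
    (hDn : ∀ m k i j : ℕ, nm ((dkm m k i j).map (Int.castRingHom ℂ)) ≤
      (5 * ((i : ℝ) + j + k + 1)) ^ k * (max 1 (m : ℝ)) ^ (i + j + k))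
    (hD : ∀ (κ ρ a b : ℂ), L.g₂ = -4 * a → L.g₃ = -4 * b →
      (∀ z ∉ L.lattice, fz L κ (z + L.ω₂) = fz L κ z + ρ) → fz L κ (L.ω₁ / 2) = 0 →
      ∀ (N : ℕ) (p : ℕ → ℕ → ℂ) (k m : ℕ),
      iteratedDeriv k (Faux L κ N p) (um L m) = ∑ i ∈ Finset.range N, ∑ j ∈ Finset.range N,
        p i j * MvPolynomial.aeval ![L.weierstrassP (L.ω₁ / 2), ρ, κ, a] (dkm m k i j)) :
    AlgebraicIndependent ℚ ![η ⟨L.ω₁, L.ω₁_mem_lattice⟩ / L.ω₁,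
      η ⟨L.ω₂, L.ω₂_mem_lattice⟩ - η ⟨L.ω₁, L.ω₁_mem_lattice⟩ / L.ω₁ * L.ω₂] := by
  by_contra hdep
  obtain ⟨κ, hκ⟩ : ∃ κ, κ = η ⟨L.ω₁, L.ω₁_mem_lattice⟩ / L.ω₁ := ⟨_, rfl⟩
  obtain ⟨ρ, hρ⟩ : ∃ ρ, ρ = η ⟨L.ω₂, L.ω₂_mem_lattice⟩ - κ * L.ω₂ := ⟨_, rfl⟩
  rw [← hκ, ← hρ] at hdep
  have hω1 : L.ω₁ ≠ 0 := by
    have h := L.indep.ne_zero 0
    simpa using h
  have hκω : κ * L.ω₁ = η ⟨L.ω₁, L.ω₁_mem_lattice⟩ := by
    rw [hκ]
    field_simp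
  obtain ⟨a, ha⟩ : ∃ a : ℂ, a = -L.g₂ / 4 := ⟨_, rfl⟩
  obtain ⟨b, hb⟩ : ∃ b : ℂ, b = -L.g₃ / 4 := ⟨_, rfl⟩
  have e2 : L.g₂ = -4 * a := by rw [ha]; ring
  have e3 : L.g₃ = -4 * b := by rw [hb]; ring
  have hq : ∀ x : ℂ, IsAlgebraic ℚ x → IsAlgebraic ℚ (-x / 4) := by
    intro x hx
    have h := (isAlgebraic_algebraMap (R := ℚ) (A := ℂ) (-1 / 4)).mul hx
    rw [eq_ratCast] at h
    have e : -x / 4 = ((-1 / 4 : ℚ) : ℂ) * x := by push_cast; ring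
    rw [e]
    exact h
  have ha' : IsAlgebraic ℚ a := ha ▸ hq _ h2
  have hb' : IsAlgebraic ℚ b := hb ▸ hq _ h3
  have he1 : IsAlgebraic ℚ (L.weierstrassP (L.ω₁ / 2)) := by
    refine P_torsion_alg L a b ha' hb' e2 e3 _ L.ω₁_div_two_notMem_lattice 2 (by norm_num) ?_
    have : ((2 : ℕ) : ℂ) * (L.ω₁ / 2) = L.ω₁ := by push_cast; ring
    rw [this]
    exact L.ω₁_mem_lattice
  have hρ0 : ρ ≠ 0 := by
    obtain ⟨k, hk0, hk⟩ := leg L η hη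
    intro h0
    have h1 : η ⟨L.ω₁, L.ω₁_mem_lattice⟩ * L.ω₂ - η ⟨L.ω₂, L.ω₂_mem_lattice⟩ * L.ω₁
        = -(ρ * L.ω₁) := by
      rw [hρ, ← hκω]
      ring
    rw [h1, h0, zero_mul, neg_zero] at hk
    have h4 : (k : ℂ) ≠ 0 := by exact_mod_cast hk0
    have h5 : (2 * (Real.pi : ℂ) * Complex.I) ≠ 0 := Complex.two_pi_I_ne_zero
    exact mul_ne_zero h4 h5 hk.symm
  have hf2 : ∀ z ∉ L.lattice, fz L κ (z + L.ω₂) = fz L κ z + ρ := fun z hz => by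
    rw [fz_add_two L η hη κ hz, hρ]
  have hf0 : fz L κ (L.ω₁ / 2) = 0 := fz_half L η hη κ hκω
  have hf1 : ∀ z ∉ L.lattice, zetaL L (z + L.ω₁) = zetaL L z + κ * L.ω₁ := fun z hz => by
    rw [hκω]
    exact hη z hz ⟨L.ω₁, L.ω₁_mem_lattice⟩
  obtain ⟨θ, hθ, hκθ, hρθ⟩ := exists_theta hdep
  obtain ⟨v, hv⟩ : ∃ v, v = lst θ (L.weierstrassP (L.ω₁ / 2)) ρ κ a := ⟨_, rfl⟩
  have hv0 : v 0 = θ := by rw [hv]; rfl
  obtain ⟨Ca, hCa, hcrit⟩ := hG v (by rw [hv0]; exact hθ) (by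
    rw [hv0, hv]
    intro i
    fin_cases i
    · exact mem_FF_self θ
    · exact FF_of_alg he1
    · exact hρθ
    · exact hκθ
    · exact FF_of_alg ha')
  obtain ⟨C2, hana⟩ := anaB L κ hf1
  obtain ⟨r0, hzero⟩ := zero_est L
  -- the polynomials
  obtain ⟨G, hGdef⟩ : ∃ G : ℕ → ℕ → ℕ → ℕ → MvPolynomial (Fin (4 + 1)) ℤ,
      G = fun m k i j => MvPolynomial.rename Fin.succ (dkm m k i j) := ⟨_, rfl⟩
  have hVal : ∀ (N : ℕ) (p : ℕ → ℕ → ℂ) (m k : ℕ),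
      Val v G N p m k = iteratedDeriv k (Faux L κ N p) (um L m) := by
    intro N p m k
    rw [hD κ ρ a b e2 e3 hf2 hf0 N p k m, Val, hGdef, hv]
    refine Finset.sum_congr rfl fun i _ => Finset.sum_congr rfl fun j _ => ?_
    simp only
    rw [MvPolynomial.aeval_rename, lst_succ]
  refine core v (by rw [hv0]; exact hθ) G ?_ ?_ Ca hCa hcrit C2 ?_ r0 ?_
  · intro m k i j
    rw [hGdef]
    exact (MvPolynomial.totalDegree_rename_le _ _).trans (hDd m k i j)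
  · intro m k i j
    rw [hGdef]
    exact (nm_rename_le _).trans (hDn m k i j)
  · intro N T M H p h1 hT1 hM hH hp hz k hk hk'
    simp only [hVal] at hz hk' ⊢
    exact hana N T M H p h1 hT1 hM hH hp hz k hk hk'
  · intro N T p h1 hz
    simp only [hVal] at hz
    exact hzero κ ρ hρ0 hf2 N T p h1 hz

end Pool.Agent.CHU
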