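import Pool.Agent.CHU.Defs
import Pool.Agent.ZCM.Zeta

/-!
# CHU/Per: the points `u_m` and the periods of `f(z) = ζ(z) - κ z`
-/

namespace Pool.Agent.CHU
open Pool.Agent.ZCM

variable (L : PeriodPair)

theorem um_eq (m : ℕ) : um L m = L.ω₁ / 2 + (m : ℂ) * L.ω₂ := rfl

theorem um_zero : um L 0 = L.ω₁ / 2 := by simp [um]

theorem um_succ (m : ℕ) : um L (m + 1) = um L m + L.ω₂ := by
  simp only [um]
  push_cast
  ring

theorem nat_mul_mem (m : ℕ) : (m : ℂ) * L.ω₂ ∈ L.lattice := by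
  have h := L.lattice.smul_mem (m : ℤ) L.ω₂_mem_lattice
  rw [zsmul_eq_mul] at h
  exact_mod_cast h

theorem um_notMem (m : ℕ) : um L m ∉ L.lattice := by
  intro h
  have h2 := L.lattice.sub_mem h (nat_mul_mem L m)
  rw [um_eq, add_sub_cancel_right] at h2
  exact L.ω₁_div_two_notMem_lattice h2

theorem add_two_notMem {z : ℂ} (hz : z ∉ L.lattice) : z + L.ω₂ ∉ L.lattice := by
  intro h
  apply hz
  have h2 := L.lattice.sub_mem h L.ω₂_mem_lattice
  rwa [add_sub_cancel_right] at h2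

theorem add_one_notMem {z : ℂ} (hz : z ∉ L.lattice) : z + L.ω₁ ∉ L.lattice := by
  intro h
  apply hz
  have h2 := L.lattice.sub_mem h L.ω₁_mem_lattice
  rwa [add_sub_cancel_right] at h2

theorem add_nat_notMem {z : ℂ} (hz : z ∉ L.lattice) (m : ℕ) : z + m * L.ω₂ ∉ L.lattice := by
  intro h
  apply hz
  have h2 := L.lattice.sub_mem h (nat_mul_mem L m)
  rwa [add_sub_cancel_right] at h2

theorem P_add_nat (z : ℂ) (m : ℕ) : L.weierstrassP (z + m * L.ω₂) = L.weierstrassP z :=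
  L.weierstrassP_add_coe z ⟨_, nat_mul_mem L m⟩

theorem P'_add_nat (z : ℂ) (m : ℕ) : L.derivWeierstrassP (z + m * L.ω₂) = L.derivWeierstrassP z :=
  L.derivWeierstrassP_add_coe z ⟨_, nat_mul_mem L m⟩

section fz
variable (η : L.lattice →+ ℂ)
  (hη : ∀ z ∉ L.lattice, ∀ l : L.lattice, zetaL L (z + l) = zetaL L z + η l)
  (κ : ℂ) (hκ : κ * L.ω₁ = η ⟨L.ω₁, L.ω₁_mem_lattice⟩)
include hη

include hκ in
theorem fz_add_one {z : ℂ} (hz : z ∉ L.lattice) : fz L κ (z + L.ω₁) = fz L κ z := by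
  have h := hη z hz ⟨L.ω₁, L.ω₁_mem_lattice⟩
  simp only [fz]
  simp only at h
  rw [h, ← hκ]
  ring

theorem fz_add_two {z : ℂ} (hz : z ∉ L.lattice) :
    fz L κ (z + L.ω₂) = fz L κ z + (η ⟨L.ω₂, L.ω₂_mem_lattice⟩ - κ * L.ω₂) := by
  have h := hη z hz ⟨L.ω₂, L.ω₂_mem_lattice⟩
  simp only [fz]
  simp only at h
  rw [h]
  ring

omit hη in
theorem zeta_neg (z : ℂ) : zetaL L (-z) = -zetaL L z := by
  unfold zetaL
  rw [← tsum_neg, ← (Equiv.neg L.lattice).tsum_eq]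
  refine tsum_congr fun l => ?_
  simp only [Equiv.neg_apply, NegMemClass.coe_neg]
  rw [show -z - -(l : ℂ) = -(z - l) by ring]
  simp only [div_neg, neg_div, neg_add_rev, even_two, Even.neg_pow]
  ring

include hκ in
theorem fz_half : fz L κ (L.ω₁ / 2) = 0 := by
  have h0 := L.ω₁_div_two_notMem_lattice
  have h0' : -(L.ω₁ / 2) ∉ L.lattice := fun h => h0 (by simpa using L.lattice.neg_mem h)
  have h := hη (-(L.ω₁ / 2)) h0' ⟨L.ω₁, L.ω₁_mem_lattice⟩
  simp only at h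
  rw [zeta_neg, show -(L.ω₁ / 2) + L.ω₁ = L.ω₁ / 2 by ring] at h
  simp only [fz]
  linear_combination (1 / 2 : ℂ) * h - (1 / 2 : ℂ) * hκ

omit hη in
theorem derivP_half : L.derivWeierstrassP (L.ω₁ / 2) = 0 := by
  have h := L.derivWeierstrassP_add_coe (-(L.ω₁ / 2)) ⟨L.ω₁, L.ω₁_mem_lattice⟩
  simp only at h
  rw [L.derivWeierstrassP_neg, show -(L.ω₁ / 2) + L.ω₁ = L.ω₁ / 2 by ring] at h
  linear_combination (1 / 2 : ℂ) * h

end fz

/-- values of `f` at the translates -/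
theorem fz_add_nat (κ ρ : ℂ) (hf : ∀ z ∉ L.lattice, fz L κ (z + L.ω₂) = fz L κ z + ρ)
    {z : ℂ} (hz : z ∉ L.lattice) (m : ℕ) : fz L κ (z + m * L.ω₂) = fz L κ z + m * ρ := by
  induction m with
  | zero => simp
  | succ m ih =>
    rw [show z + ((m + 1 : ℕ) : ℂ) * L.ω₂ = z + m * L.ω₂ + L.ω₂ by push_cast; ring,
      hf _ (add_nat_notMem L hz m), ih]
    push_cast
    ring

theorem fz_um (κ ρ : ℂ) (hf : ∀ z ∉ L.lattice, fz L κ (z + L.ω₂) = fz L κ z + ρ)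
    (h0 : fz L κ (L.ω₁ / 2) = 0) (m : ℕ) : fz L κ (um L m) = m * ρ := by
  rw [um_eq, fz_add_nat L κ ρ hf L.ω₁_div_two_notMem_lattice, h0, zero_add]

theorem P_um (m : ℕ) : L.weierstrassP (um L m) = L.weierstrassP (L.ω₁ / 2) := P_add_nat L _ m

theorem P'_um (m : ℕ) : L.derivWeierstrassP (um L m) = 0 := by
  rw [um_eq, P'_add_nat, derivP_half]

end Pool.Agent.CHU
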