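import Pool.Agent.CHU.CMP

/-! # Three exceptional pairs in general position: reduction to two independent elliptic logarithms -/

set_option autoImplicit false

namespace Pool.Agent.CHU
open Pool.Agent.ZCM

/-- rational multiples of logarithms are logarithms -/
theorem exp_rat_alg {z : ℂ} (hz : IsAlgebraic ℚ (Complex.exp z)) (r : ℚ) :
    IsAlgebraic ℚ (Complex.exp (r * z)) := by
  have h1 : (Complex.exp (r * z)) ^ r.den = Complex.exp z ^ r.num := by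
    rw [← Complex.exp_nat_mul, ← Complex.exp_int_mul]
    congr 1
    have h2 : ((r.den : ℚ) * r : ℚ) = r.num := Rat.den_mul_eq_num r
    have h2' : ((r.den : ℂ) * r : ℂ) = r.num := by exact_mod_cast h2
    rw [← mul_assoc, h2']
  have h3 : IsIntegral ℚ (Complex.exp (r * z)) := by
    refine IsIntegral.of_pow r.den_pos ?_
    rw [h1]
    have h4 : IsAlgebraic ℚ (Complex.exp z ^ r.num) := by
      rcases r.num with n | n
      · rw [Int.ofNat_eq_natCast, zpow_natCast]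
        exact hz.pow n
      · rw [zpow_negSucc]
        exact (hz.pow _).inv
    exact h4.isIntegral
  exact h3.isAlgebraic

/-- elements of `ℚ(τ)` times a positive integer are endomorphisms -/
theorem exists_end (L : PeriodPair) (al : ℂ) (him : al.im ≠ 0)
    (hal : ∀ l ∈ L.lattice, al * l ∈ L.lattice) (m n : ℚ) :
    ∃ M : ℕ, 0 < M ∧ ∀ l ∈ L.lattice, ((M : ℂ) * ((m : ℂ) + n * (L.ω₂ / L.ω₁))) * l ∈ L.lattice := by
  have h1 : L.ω₁ ≠ 0 := by
    have hind := LinearIndependent.pair_iff.mp L.indep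
    intro h
    have := hind 1 0 (by simp [h])
    exact one_ne_zero this.1
  obtain ⟨p, q, h4⟩ := PeriodPair.mem_lattice.mp (hal _ L.ω₁_mem_lattice)
  obtain ⟨p', q', h5⟩ := PeriodPair.mem_lattice.mp (hal _ L.ω₂_mem_lattice)
  have hq : (q : ℂ) ≠ 0 := by
    intro hq
    rw [hq, zero_mul, add_zero] at h4
    have h6 : al = (p : ℂ) := (mul_right_cancel₀ h1 h4).symm
    rw [h6] at him
    simp at him
  have hτ : L.ω₂ / L.ω₁ = (al - p) / q := by
    field_simp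
    linear_combination h4
  obtain ⟨N1, hN1, e1⟩ := den_mem L m n
  obtain ⟨N2, hN2, e2⟩ := den_mem L (n * p' / q) (m + n * (q' - p) / q)
  refine ⟨N1 * N2, Nat.mul_pos hN1 hN2, ?_⟩
  intro l hl
  obtain ⟨i, j, hij⟩ := PeriodPair.mem_lattice.mp hl
  have e3 : (((N1 * N2 : ℕ) : ℂ) * ((m : ℂ) + n * (L.ω₂ / L.ω₁))) * l =
      (i * N2 : ℤ) • ((N1 : ℂ) * ((m : ℂ) * L.ω₁ + n * L.ω₂)) +
      (j * N1 : ℤ) • ((N2 : ℂ) * (((n * p' / q : ℚ) : ℂ) * L.ω₁ +
        ((m + n * (q' - p) / q : ℚ) : ℂ) * L.ω₂)) := by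
    rw [← hij, zsmul_eq_mul, zsmul_eq_mul]
    push_cast
    have e4 : ((m : ℂ) + n * (L.ω₂ / L.ω₁)) * L.ω₁ = (m : ℂ) * L.ω₁ + n * L.ω₂ := by
      field_simp
    have e5 : ((m : ℂ) + n * (L.ω₂ / L.ω₁)) * L.ω₂ =
        ((n : ℂ) * p' / q) * L.ω₁ + ((m : ℂ) + n * (q' - p) / q) * L.ω₂ := by
      rw [hτ]
      field_simp
      linear_combination (-(n : ℂ)) * h5
    linear_combination ((N1 : ℂ) * N2 * i) * e4 + ((N1 : ℂ) * N2 * j) * e5
  rw [e3]
  exact add_mem (L.lattice.smul_mem _ e1) (L.lattice.smul_mem _ e2)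

theorem exp_translate_alg (t : ℂ) (ht : IsAlgebraic ℚ (Complex.exp t)) (q : ℚ) :
    IsAlgebraic ℚ (Complex.exp (t + q * (2 * (Real.pi : ℂ) * Complex.I))) := by
  rw [Complex.exp_add]
  refine ht.mul (exp_rat_alg ?_ q)
  rw [Complex.exp_two_pi_mul_I]
  exact isAlgebraic_one

/-- three pairs: the linear forms and the hyperbola -/
theorem reduction_core {P W t u : ℂ} (hPW : AlgebraicIndependent ℚ ![P, W]) (q l : Fin 3 → ℂ)
    (hq : ∀ i, IsAlgebraic ℚ (q i)) (hl : ∀ i, IsAlgebraic ℚ (l i))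
    (hqi : Function.Injective q) (hli : Function.Injective l)
    (hd : ∀ i, t + q i * P ∈ FF (u + l i * W)) :
    ∃ a b c a' b' c' : ℂ, IsAlgebraic ℚ a ∧ IsAlgebraic ℚ b ∧ IsAlgebraic ℚ c ∧
      IsAlgebraic ℚ a' ∧ IsAlgebraic ℚ b' ∧ IsAlgebraic ℚ c' ∧ c ≠ 0 ∧ c' ≠ 0 ∧
      t = a + b * P + c * W ∧ u = a' + b' * W + c' * P ∧
      ∀ i, (b + q i) * (b' + l i) = c * c' := by
  obtain ⟨⟨a, b, c, ha, hb, hc, hc0, ht⟩, ⟨a', b', c', ha', hb', hc', hc0', hu⟩⟩ :=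
    three_pairs hPW q l hq hl hqi hli hd
  refine ⟨a, b, c, a', b', c', ha, hb, hc, ha', hb', hc', hc0, hc0', ht, hu, fun i => ?_⟩
  obtain ⟨D1, hD1⟩ := GenTuple.exists_der (k := ℚ) hPW ![(1 : ℂ), 0]
  obtain ⟨D2, hD2⟩ := GenTuple.exists_der (k := ℚ) hPW ![(0 : ℂ), 1]
  have d1P : D1 P = 1 := by simpa using hD1 0
  have d1W : D1 W = 0 := by simpa using hD1 1
  have d2P : D2 P = 0 := by simpa using hD2 0
  have d2W : D2 W = 1 := by simpa using hD2 1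
  have dm : ∀ (D : Derivation ℚ ℂ ℂ) (a x : ℂ), IsAlgebraic ℚ a → D (a * x) = a * D x := by
    intro D a x ha
    rw [D.leibniz, der_alg D ha]
    simp
  have h4 := det_zero (hd i) D1 D2
  rw [ht, hu] at h4
  simp only [map_add] at h4
  rw [dm _ _ _ (hq i), dm _ _ _ (hq i), dm _ _ _ (hl i), dm _ _ _ (hl i), dm _ _ _ hb,
    dm _ _ _ hb, dm _ _ _ hc, dm _ _ _ hc, dm _ _ _ hb', dm _ _ _ hb', dm _ _ _ hc',
    dm _ _ _ hc', der_alg D1 ha, der_alg D2 ha, der_alg D1 ha', der_alg D2 ha',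
    d1P, d1W, d2P, d2W] at h4
  linear_combination h4

theorem reduction (L : PeriodPair) (h2 : IsAlgebraic ℚ L.g₂) (h3 : IsAlgebraic ℚ L.g₃)
    (al : ℂ) (him : al.im ≠ 0) (hal : ∀ l ∈ L.lattice, al * l ∈ L.lattice)
    (hτ : IsAlgebraic ℚ (L.ω₂ / L.ω₁)) (hτi : (L.ω₂ / L.ω₁).im ≠ 0)
    (hPW : AlgebraicIndependent ℚ ![2 * (Real.pi : ℂ) * Complex.I, L.ω₁])
    (t u : ℂ) (ht : IsAlgebraic ℚ (Complex.exp t)) (hu : IsAlgebraic ℚ (L.weierstrassP u))
    (q : Fin 3 → ℚ) (l : Fin 3 → ℚ × ℚ) (hqi : Function.Injective q)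
    (hli : Function.Injective l)
    (hd : ∀ i, t + q i * (2 * (Real.pi : ℂ) * Complex.I) ∈
      FF (u + ((l i).1 * L.ω₁ + (l i).2 * L.ω₂))) :
    ∃ a b1 b2 U1 U2 : ℂ, IsAlgebraic ℚ a ∧ a ≠ 0 ∧ IsAlgebraic ℚ b1 ∧ IsAlgebraic ℚ b2 ∧
      AlgebraicIndependent ℚ ![U1, U2] ∧ IsAlgebraic ℚ (L.weierstrassP U1) ∧
      IsAlgebraic ℚ (L.weierstrassP U2) ∧ IsAlgebraic ℚ (Complex.exp (a * U1 + b1)) ∧
      IsAlgebraic ℚ (Complex.exp (a * U2 + b2)) ∧
      ∀ n1 n2 : ℕ, (n1 ≠ 0 ∨ n2 ≠ 0) → (n1 : ℂ) * U1 + n2 * U2 ∉ L.lattice := by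
  obtain ⟨P, hP⟩ : ∃ P, P = 2 * (Real.pi : ℂ) * Complex.I := ⟨_, rfl⟩
  obtain ⟨W, hWd⟩ : ∃ W, W = L.ω₁ := ⟨_, rfl⟩
  obtain ⟨τ, hτd⟩ : ∃ τ, τ = L.ω₂ / L.ω₁ := ⟨_, rfl⟩
  rw [← hτd] at hτ hτi
  rw [← hP, ← hWd] at hPW
  have hW : Transcendental ℚ W := ((algInd_iff P W).1 hPW).1
  have hPF : P ∉ FF W := ((algInd_iff P W).1 hPW).2
  have hW0 : W ≠ 0 := fun h => hW (by rw [h]; exact isAlgebraic_zero)
  have hw2 : L.ω₂ = τ * W := by rw [hτd, hWd]; rw [hWd] at hW0; field_simp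
  have halg : ∀ m n : ℚ, IsAlgebraic ℚ ((m : ℂ) + n * τ) := fun m n =>
    (isAlg_rat m).add ((isAlg_rat n).mul hτ)
  have hinjl : ∀ m n m' n' : ℚ, (m : ℂ) + n * τ = m' + n' * τ → m = m' ∧ n = n' := by
    intro m n m' n' h
    have h1 := congrArg Complex.im h
    simp only [Complex.add_im, Complex.ratCast_im, Complex.mul_im, Complex.ratCast_re, zero_mul,
      add_zero, zero_add] at h1
    have h2 : (n : ℝ) = n' := mul_right_cancel₀ hτi h1
    have h3 : n = n' := by exact_mod_cast h2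
    subst h3
    have h4 : (m : ℂ) = m' := by linear_combination h
    exact ⟨by exact_mod_cast h4, rfl⟩
  have hlat : ∀ m n : ℚ, (m : ℂ) * L.ω₁ + n * L.ω₂ = (m + n * τ) * W := by
    intro m n; rw [hw2, ← hWd]; ring
  obtain ⟨lc, hlc⟩ : ∃ lc : Fin 3 → ℂ, ∀ i, lc i = ((l i).1 : ℂ) + (l i).2 * τ := ⟨_, fun _ => rfl⟩
  have hlca : ∀ i, IsAlgebraic ℚ (lc i) := fun i => by rw [hlc]; exact halg _ _
  have hlci : Function.Injective lc := by
    intro i j h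
    rw [hlc, hlc] at h
    obtain ⟨e1, e2⟩ := hinjl _ _ _ _ h
    exact hli (Prod.ext e1 e2)
  have hqci : Function.Injective (fun i => (q i : ℂ)) := by
    intro i j h
    have h' : (q i : ℂ) = q j := h
    exact hqi (by exact_mod_cast h')
  have hd' : ∀ i, t + (q i : ℂ) * P ∈ FF (u + lc i * W) := by
    intro i
    have := hd i
    rwa [hlat, ← hlc, ← hP] at this
  obtain ⟨a0, b, c, a0', b', c', ha0, hb, hc, ha0', hb', hc', hc0, hc0', htf, huf, hyp⟩ :=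
    reduction_core hPW (fun i => (q i : ℂ)) lc (fun i => isAlg_rat _) hlca hqci hlci hd'
  have hbq : ∀ i, b + q i ≠ 0 := by
    intro i h
    have := hyp i
    rw [h, zero_mul] at this
    exact mul_ne_zero hc0 hc0' this.symm
  have hbl : ∀ i, b' + lc i ≠ 0 := by
    intro i h
    have := hyp i
    rw [h, mul_zero] at this
    exact mul_ne_zero hc0 hc0' this.symm
  -- `κ`s and `r`s
  obtain ⟨k1, hk1⟩ : ∃ k1, k1 = lc 1 - lc 2 := ⟨_, rfl⟩
  obtain ⟨k2, hk2⟩ : ∃ k2, k2 = lc 2 - lc 0 := ⟨_, rfl⟩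
  have hk10 : k1 ≠ 0 := by
    rw [hk1]; exact sub_ne_zero.2 fun h => by have := hlci h; simp at this
  have hk20 : k2 ≠ 0 := by
    rw [hk2]; exact sub_ne_zero.2 fun h => by have := hlci h; simp at this
  have hl01 : lc 0 - lc 1 ≠ 0 := sub_ne_zero.2 fun h => by have := hlci h; simp at this
  obtain ⟨r1, hr1⟩ : ∃ r1 : ℚ, r1 = q 1 - q 2 := ⟨_, rfl⟩
  obtain ⟨r2, hr2⟩ : ∃ r2 : ℚ, r2 = q 2 - q 0 := ⟨_, rfl⟩
  have hr10 : r1 ≠ 0 := by
    rw [hr1]; exact sub_ne_zero.2 fun h => by have := hqi h; simp at this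
  have hk1a : IsAlgebraic ℚ k1 := by rw [hk1]; exact (hlca 1).sub (hlca 2)
  have hk2a : IsAlgebraic ℚ k2 := by rw [hk2]; exact (hlca 2).sub (hlca 0)
  -- endomorphisms
  obtain ⟨M1, hM1, hM1'⟩ := exists_end L al him hal ((l 1).1 - (l 2).1) ((l 1).2 - (l 2).2)
  obtain ⟨M2, hM2, hM2'⟩ := exists_end L al him hal ((l 2).1 - (l 0).1) ((l 2).2 - (l 0).2)
  rw [← hτd] at hM1' hM2'
  have ek1 : (((l 1).1 - (l 2).1 : ℚ) : ℂ) + (((l 1).2 - (l 2).2 : ℚ) : ℂ) * τ = k1 := by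
    rw [hk1, hlc, hlc]; push_cast; ring
  have ek2 : (((l 2).1 - (l 0).1 : ℚ) : ℂ) + (((l 2).2 - (l 0).2 : ℚ) : ℂ) * τ = k2 := by
    rw [hk2, hlc, hlc]; push_cast; ring
  rw [ek1] at hM1'
  rw [ek2] at hM2'
  -- the sign
  obtain ⟨s, hs, hs'⟩ : ∃ s : ℤ, (s = 1 ∨ s = -1) ∧ ∀ n1 n2 : ℕ,
      (n1 : ℂ) * k1 + n2 * (s * k2) = 0 → n1 = 0 ∧ n2 = 0 := by
    by_cases hex : ∃ n1 n2 : ℕ, (n1 ≠ 0 ∨ n2 ≠ 0) ∧ (n1 : ℂ) * k1 + n2 * k2 = 0
    · obtain ⟨n1, n2, hn, hnk⟩ := hex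
      have hn1 : n1 ≠ 0 := by
        rintro rfl
        rcases hn with h | h
        · exact h rfl
        · simp only [Nat.cast_zero, zero_mul, zero_add] at hnk
          exact mul_ne_zero (by exact_mod_cast h) hk20 hnk
      have hn2 : n2 ≠ 0 := by
        rintro rfl
        rcases hn with h | h
        · simp only [Nat.cast_zero, zero_mul, add_zero] at hnk
          exact mul_ne_zero (by exact_mod_cast h) hk10 hnk
        · exact h rfl
      refine ⟨-1, Or.inr rfl, fun m1 m2 hm => ?_⟩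
      push_cast at hm
      have h5 : ((m1 * n2 + m2 * n1 : ℕ) : ℂ) * k2 = 0 := by
        push_cast
        linear_combination (m1 : ℂ) * hnk - (n1 : ℂ) * hm
      have h6 : (m1 * n2 + m2 * n1 : ℕ) = 0 := by
        have := (mul_eq_zero.1 h5).resolve_right hk20
        exact_mod_cast this
      have h7 : m1 * n2 = 0 := by omega
      have h8 : m2 * n1 = 0 := by omega
      exact ⟨(Nat.mul_eq_zero.1 h7).resolve_right hn2, (Nat.mul_eq_zero.1 h8).resolve_right hn1⟩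
    · refine ⟨1, Or.inl rfl, fun n1 n2 hn => ?_⟩
      by_contra hcon
      apply hex
      refine ⟨n1, n2, ?_, ?_⟩
      · by_contra h
        push Not at h
        exact hcon h
      · push_cast at hn
        linear_combination hn
  have hs0 : (s : ℂ) ≠ 0 := by
    rcases hs with rfl | rfl <;> simp
  have hsa : IsAlgebraic ℚ (s : ℂ) := isAlgebraic_intCast s
  obtain ⟨M, hM⟩ : ∃ M : ℕ, M = M1 * M2 := ⟨_, rfl⟩
  have hM0 : (M : ℂ) ≠ 0 := by
    rw [hM]; exact_mod_cast (Nat.mul_pos hM1 hM2).ne'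
  have hMa : IsAlgebraic ℚ (M : ℂ) := isAlgebraic_natCast M
  have hE1 : ∀ x ∈ L.lattice, ((M : ℂ) * k1) * x ∈ L.lattice := by
    intro x hx
    have e : ((M : ℂ) * k1) * x = (M2 : ℤ) • (((M1 : ℂ) * k1) * x) := by
      rw [hM, zsmul_eq_mul]; push_cast; ring
    rw [e]
    exact L.lattice.smul_mem _ (hM1' x hx)
  have hE2 : ∀ x ∈ L.lattice, ((M : ℂ) * (s * k2)) * x ∈ L.lattice := by
    intro x hx
    have e : ((M : ℂ) * (s * k2)) * x = (s * M1 : ℤ) • (((M2 : ℂ) * k2) * x) := by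
      rw [hM, zsmul_eq_mul]; push_cast; ring
    rw [e]
    exact L.lattice.smul_mem _ (hM2' x hx)
  -- the points
  have hy : ∀ i, u + lc i * W = a0' + (b' + lc i) * W + c' * P := by
    intro i; rw [huf]; ring
  have hx : ∀ i, t + (q i : ℂ) * P = a0 + (b + q i) * P + c * W := by
    intro i; rw [htf]; ring
  obtain ⟨y0, hy0⟩ : ∃ y0, y0 = u + lc 0 * W := ⟨_, rfl⟩
  obtain ⟨y1, hy1⟩ : ∃ y1, y1 = u + lc 1 * W := ⟨_, rfl⟩
  obtain ⟨U1, hU1⟩ : ∃ U1, U1 = (M : ℂ) * k1 * y0 := ⟨_, rfl⟩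
  obtain ⟨U2, hU2⟩ : ∃ U2, U2 = (M : ℂ) * (s * k2) * y1 := ⟨_, rfl⟩
  have hPF' : ∀ z : ℂ, z ≠ 0 → IsAlgebraic ℚ z → z * P ∉ FF W := by
    intro z hz hza h
    apply hPF
    have e : P = z⁻¹ * (z * P) := by field_simp
    rw [e]
    exact FF_mul (FF_of_alg hza.inv) h
  have hgrid : ∀ n1 n2 : ℕ, (n1 ≠ 0 ∨ n2 ≠ 0) → (n1 : ℂ) * U1 + n2 * U2 ∉ L.lattice := by
    intro n1 n2 hn h
    obtain ⟨i, j, hij⟩ := PeriodPair.mem_lattice.mp h
    have hne : (n1 : ℂ) * k1 + n2 * (s * k2) ≠ 0 := by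
      intro h0
      obtain ⟨e1, e2⟩ := hs' n1 n2 h0
      rcases hn with h | h
      · exact h e1
      · exact h e2
    refine hPF' (M * ((n1 : ℂ) * k1 + n2 * (s * k2)) * c')
      (mul_ne_zero (mul_ne_zero hM0 hne) hc0')
      ((hMa.mul (((isAlgebraic_natCast n1).mul hk1a).add
        ((isAlgebraic_natCast n2).mul (hsa.mul hk2a)))).mul hc') ?_
    have e : (M * ((n1 : ℂ) * k1 + n2 * (s * k2)) * c') * P =
        ((i : ℂ) + j * τ) * W - (M * ((n1 : ℂ) * k1 * a0' + n2 * (s * k2) * a0')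
          + (M * ((n1 : ℂ) * k1 * (b' + lc 0) + n2 * (s * k2) * (b' + lc 1))) * W) := by
      rw [hw2, ← hWd, hU1, hU2, hy0, hy1, hy, hy] at hij
      linear_combination -hij
    rw [e]
    have f1 : IsAlgebraic ℚ ((i : ℂ) + j * τ) :=
      (isAlgebraic_intCast i).add ((isAlgebraic_intCast j).mul hτ)
    have f2 : IsAlgebraic ℚ ((M : ℂ) * ((n1 : ℂ) * k1 * a0' + n2 * (s * k2) * a0')) :=
      hMa.mul ((((isAlgebraic_natCast n1).mul hk1a).mul ha0').add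
        (((isAlgebraic_natCast n2).mul (hsa.mul hk2a)).mul ha0'))
    have f3 : IsAlgebraic ℚ ((M : ℂ) * ((n1 : ℂ) * k1 * (b' + lc 0) +
        n2 * (s * k2) * (b' + lc 1))) :=
      hMa.mul ((((isAlgebraic_natCast n1).mul hk1a).mul (hb'.add (hlca 0))).add
        (((isAlgebraic_natCast n2).mul (hsa.mul hk2a)).mul (hb'.add (hlca 1))))
    exact FF_sub (FF_mul (FF_of_alg f1) (mem_FF_self W))
      (FF_add (FF_of_alg f2) (FF_mul (FF_of_alg f3) (mem_FF_self W)))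
  have hPy : ∀ i, u + lc i * W ∉ L.lattice → IsAlgebraic ℚ (L.weierstrassP (u + lc i * W)) := by
    intro i hi
    obtain ⟨N, hN, hNm⟩ := den_mem L (l i).1 (l i).2
    refine P_translate_alg L h2 h3 u _ hi hu N hN ?_
    have e : (N : ℂ) * (u + lc i * W - u) = (N : ℂ) * (((l i).1 : ℂ) * L.ω₁ + (l i).2 * L.ω₂) := by
      rw [hlat, ← hlc]; ring
    rw [e]
    exact hNm
  -- coefficients
  obtain ⟨a, ha⟩ : ∃ a, a = r1 * (b + q 0) / (c' * k1) := ⟨_, rfl⟩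
  have haa : IsAlgebraic ℚ a := by
    rw [ha, div_eq_mul_inv]
    exact ((isAlg_rat r1).mul (hb.add (isAlg_rat (q 0)))).mul (hc'.mul hk1a).inv
  have ha00 : a ≠ 0 := by
    rw [ha]
    exact div_ne_zero (mul_ne_zero (by exact_mod_cast hr10) (hbq 0)) (mul_ne_zero hc0' hk10)
  have hy0' := hyp 0
  have hy1' := hyp 1
  have hy2' := hyp 2
  -- `a k2 c' = r2 (b + q 1)`
  have hak2 : a * k2 * c' = r2 * (b + q 1) := by
    have e1 : (b + q 0) * (b + q 1) * (lc 0 - lc 1) = c * c' * ((q 1 : ℂ) - q 0) := by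
      linear_combination (b + q 1) * hy0' - (b + q 0) * hy1'
    have e2 : (b + q 1) * (b + q 2) * k1 = c * c' * ((q 2 : ℂ) - q 1) := by
      rw [hk1]
      linear_combination (b + q 2) * hy1' - (b + q 1) * hy2'
    have e3 : (b + q 0) * (b + q 2) * k2 = c * c' * ((q 0 : ℂ) - q 2) := by
      rw [hk2]
      linear_combination (b + q 0) * hy2' - (b + q 2) * hy0'
    have e4 : (b + q 2) * (k1 * (r2 * (b + q 1))) = (b + q 2) * (r1 * (b + q 0) * k2) := by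
      have c1 : (r1 : ℂ) = q 1 - q 2 := by rw [hr1]; push_cast; ring
      have c2 : (r2 : ℂ) = q 2 - q 0 := by rw [hr2]; push_cast; ring
      rw [c1, c2]
      linear_combination ((q 2 : ℂ) - q 0) * e2 - ((q 1 : ℂ) - q 2) * e3
    have e5 := mul_left_cancel₀ (hbq 2) e4
    rw [ha]
    field_simp
    linear_combination -e5
  have hak1 : a * k1 * c' = r1 * (b + q 0) := by
    rw [ha]; field_simp
  refine ⟨a, M * r1 * a0 - a * (M * k1) * a0', M * s * r2 * a0 - a * (M * (s * k2)) * a0', U1, U2,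
    haa, ha00, ?_, ?_, ?_, ?_, ?_, ?_, ?_, hgrid⟩
  · exact ((hMa.mul (isAlg_rat r1)).mul ha0).sub ((haa.mul (hMa.mul hk1a)).mul ha0')
  · exact (((hMa.mul hsa).mul (isAlg_rat r2)).mul ha0).sub
      ((haa.mul (hMa.mul (hsa.mul hk2a))).mul ha0')
  · -- independence
    have hU2t : Transcendental ℚ U2 := by
      intro hA
      refine hPF' (M * (s * k2) * c') (mul_ne_zero (mul_ne_zero hM0 (mul_ne_zero hs0 hk20)) hc0')
        ((hMa.mul (hsa.mul hk2a)).mul hc') ?_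
      have e : (M * (s * k2) * c') * P = U2 - (M * (s * k2) * a0' +
          (M * (s * k2) * (b' + lc 1)) * W) := by
        rw [hU2, hy1, hy]; ring
      rw [e]
      exact FF_sub (FF_of_alg hA) (FF_add (FF_of_alg ((hMa.mul (hsa.mul hk2a)).mul ha0'))
        (FF_mul (FF_of_alg ((hMa.mul (hsa.mul hk2a)).mul (hb'.add (hlca 1)))) (mem_FF_self W)))
    rw [algInd_iff]
    refine ⟨hU2t, fun h => ?_⟩
    have g1 : y1 ∈ FF U2 := by
      have e : y1 = (M * (s * k2) : ℂ)⁻¹ * U2 := by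
        rw [hU2]
        field_simp
      rw [e]
      exact FF_mul (FF_of_alg (hMa.mul (hsa.mul hk2a)).inv) (mem_FF_self U2)
    have g0 : y0 ∈ FF U2 := by
      have e : y0 = (M * k1 : ℂ)⁻¹ * U1 := by
        rw [hU1]
        field_simp
      rw [e]
      exact FF_mul (FF_of_alg (hMa.mul hk1a).inv) h
    have gW : W ∈ FF U2 := by
      have e : W = (lc 0 - lc 1)⁻¹ * (y0 - y1) := by
        rw [hy0, hy1]
        field_simp
        ring
      rw [e]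
      exact FF_mul (FF_of_alg ((hlca 0).sub (hlca 1)).inv) (FF_sub g0 g1)
    have gU : U2 ∈ FF W := FF_symm hW gW
    refine hPF' c' hc0' hc' ?_
    have e : c' * P = y1 - (a0' + (b' + lc 1) * W) := by rw [hy1, hy]; ring
    rw [e]
    exact FF_sub (FF_trans g1 gU) (FF_add (FF_of_alg ha0')
      (FF_mul (FF_of_alg (hb'.add (hlca 1))) (mem_FF_self W)))
  · have h1 := hgrid 1 0 (Or.inl one_ne_zero)
    have e : ((1 : ℕ) : ℂ) * U1 + ((0 : ℕ) : ℂ) * U2 = U1 := by push_cast; ring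
    rw [e] at h1
    rw [hU1] at h1 ⊢
    refine P_CM_alg L h2 h3 _ (mul_ne_zero hM0 hk10) (hMa.mul hk1a) hE1 _ h1 ?_
    have h4 : y0 ∉ L.lattice := fun h => h1 (hE1 _ h)
    rw [hy0] at h4 ⊢
    exact hPy 0 h4
  · have h1 := hgrid 0 1 (Or.inr one_ne_zero)
    have e : ((0 : ℕ) : ℂ) * U1 + ((1 : ℕ) : ℂ) * U2 = U2 := by push_cast; ring
    rw [e] at h1
    rw [hU2] at h1 ⊢
    refine P_CM_alg L h2 h3 _ (mul_ne_zero hM0 (mul_ne_zero hs0 hk20)) (hMa.mul (hsa.mul hk2a))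
      hE2 _ h1 ?_
    have h4 : y1 ∉ L.lattice := fun h => h1 (hE2 _ h)
    rw [hy1] at h4 ⊢
    exact hPy 1 h4
  · have e : a * U1 + (M * r1 * a0 - a * (M * k1) * a0') =
        ((M * r1 : ℚ) : ℂ) * (t + q 0 * P) := by
      have e1 : (r1 : ℂ) * c = a * k1 * (b' + lc 0) := by
        have h5 : c' * ((r1 : ℂ) * c) = c' * (a * k1 * (b' + lc 0)) := by
          linear_combination (-(r1 : ℂ)) * hy0' - (b' + lc 0) * hak1
        exact mul_left_cancel₀ hc0' h5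
      rw [hU1, hy0, hy, hx]
      push_cast
      linear_combination (M : ℂ) * P * hak1 - (M : ℂ) * W * e1
    rw [e]
    refine exp_rat_alg ?_ _
    rw [hP]
    exact exp_translate_alg t ht _
  · have e : a * U2 + (M * s * r2 * a0 - a * (M * (s * k2)) * a0') =
        ((M * s * r2 : ℚ) : ℂ) * (t + q 1 * P) := by
      have e1 : (r2 : ℂ) * c = a * k2 * (b' + lc 1) := by
        have h5 : c' * ((r2 : ℂ) * c) = c' * (a * k2 * (b' + lc 1)) := by
          linear_combination (-(r2 : ℂ)) * hy1' - (b' + lc 1) * hak2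
        exact mul_left_cancel₀ hc0' h5
      rw [hU2, hy1, hy, hx]
      push_cast
      linear_combination (M : ℂ) * s * P * hak2 - (M : ℂ) * s * W * e1
    rw [e]
    refine exp_rat_alg ?_ _
    rw [hP]
    exact exp_translate_alg t ht _

end Pool.Agent.CHU
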