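import Pool.Agent.CHU.Final

/-!
# Pairs (logarithm, elliptic logarithm) for lattices with complex multiplication

Let `Ω = ℤω₁ + ℤω₂` be a lattice with complex multiplication and algebraic `g₂, g₃`, let `e^t` and
`℘(u)` be algebraic, `u ∉ Ω`. Let `E` be the set of all `(q, (m, n))`, `q, m, n ∈ ℚ`, such that
`t + 2πi q` and `u + m ω₁ + n ω₂` are non-zero and algebraically dependent. Then `E` has at most two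
elements, or all its elements have the same `q`, or all its elements have the same `(m, n)`.
-/

namespace Pool.Agent.CHU.ResPairs

theorem result (ω₁ ω₂ : ℂ) (him : (ω₂ / ω₁).im ≠ 0)
    (hg2 : IsAlgebraic ℚ (60 * ∑' q : ℤ × ℤ,
      if q = 0 then (0 : ℂ) else 1 / ((q.1 : ℂ) * ω₁ + (q.2 : ℂ) * ω₂) ^ 4))
    (hg3 : IsAlgebraic ℚ (140 * ∑' q : ℤ × ℤ,
      if q = 0 then (0 : ℂ) else 1 / ((q.1 : ℂ) * ω₁ + (q.2 : ℂ) * ω₂) ^ 6))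
    (hCM : ∃ c : ℂ, (∀ q : ℚ, c ≠ q) ∧ ∃ a b a' b' : ℚ,
      c * ω₁ = (a : ℂ) * ω₁ + (b : ℂ) * ω₂ ∧ c * ω₂ = (a' : ℂ) * ω₁ + (b' : ℂ) * ω₂)
    (t u : ℂ) (ht : IsAlgebraic ℚ (Complex.exp t))
    (hu : ∀ a b : ℤ, u ≠ (a : ℂ) * ω₁ + (b : ℂ) * ω₂)
    (hP : IsAlgebraic ℚ (1 / u ^ 2 + ∑' q : ℤ × ℤ,
          if q = 0 then (0 : ℂ) else
            (1 / (u - ((q.1 : ℂ) * ω₁ + (q.2 : ℂ) * ω₂)) ^ 2
              - 1 / ((q.1 : ℂ) * ω₁ + (q.2 : ℂ) * ω₂) ^ 2)))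
    (E : Set (ℚ × (ℚ × ℚ)))
    (hE : E = {x | t + x.1 * (2 * (Real.pi : ℂ) * Complex.I) ≠ 0 ∧
      u + (x.2.1 * ω₁ + x.2.2 * ω₂) ≠ 0 ∧
      ¬ AlgebraicIndependent ℚ ![t + x.1 * (2 * (Real.pi : ℂ) * Complex.I),
        u + (x.2.1 * ω₁ + x.2.2 * ω₂)]}) :
    E.encard ≤ 2 ∨
    (∃ q₀ : ℚ, (∀ x ∈ E, x.1 = q₀) ∧
      ¬ AlgebraicIndependent ℚ ![t + q₀ * (2 * (Real.pi : ℂ) * Complex.I), ω₁] ∧
      ¬ AlgebraicIndependent ℚ ![u, ω₁]) ∨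
    (∃ l₀ : ℚ × ℚ, (∀ x ∈ E, x.2 = l₀) ∧
      ¬ AlgebraicIndependent ℚ ![t, (Real.pi : ℂ)] ∧
      ¬ AlgebraicIndependent ℚ ![u + (l₀.1 * ω₁ + l₀.2 * ω₂), (Real.pi : ℂ)]) := by
  rcases Pool.Agent.CHU.thmA3 Pool.Agent.CHU.sl2H ω₁ ω₂ him hg2 hg3 hCM t u ht hu hP E hE with
    h | h | ⟨l₀, h1, h2, h3⟩
  · exact Or.inl h
  · exact Or.inr (Or.inl h)
  · exact Or.inr (Or.inr ⟨l₀, h1, Pool.Agent.CHU.dep_pi h2, Pool.Agent.CHU.dep_pi h3⟩)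

end Pool.Agent.CHU.ResPairs
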