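import Pool.Agent.CHU.Ana
import Pool.Agent.CHU.Dk
import Pool.Agent.ZFin.SchNe

/-! # Schneider's theorem for `exp (α z)` and `℘ (z)`: derivations, analytic part -/

set_option autoImplicit false

namespace Pool.Agent.CHU.SLone
open Pool.Agent.ZCM Pool.Agent.ZFin MvPolynomial
open Filter Topology

noncomputable section

/-- the derivation of `ℤ[W, x, y, α, a]`: `W ↦ αW`, `x ↦ 2y`, `y ↦ 3x²+a` -/
def De : Derivation ℤ (MvPolynomial (Fin 5) ℤ) (MvPolynomial (Fin 5) ℤ) :=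
  mkDerivation ℤ ![X 0 * X 3, 2 * X 2, 3 * X 1 ^ 2 + X 4, 0, 0]

/-- `D^k (W^i x^j)` -/
def ek (k i j : ℕ) : MvPolynomial (Fin 5) ℤ := (⇑De)^[k] (X 0 ^ i * X 1 ^ j)

/-- `(exp (α z), ℘, ℘'/2, α, a)` -/
def vE (L : PeriodPair) (α a z : ℂ) : Fin 5 → ℂ :=
  ![Complex.exp (α * z), L.weierstrassP z, L.derivWeierstrassP z / 2, α, a]

/-- the derivation over `ℂ` -/
def gE : Fin 5 → MvPolynomial (Fin 5) ℂ :=
  ![X 0 * X 3, 2 * X 2, 3 * X 1 ^ 2 + X 4, 0, 0]

theorem map_De (p : MvPolynomial (Fin 5) ℤ) :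
    MvPolynomial.map (Int.castRingHom ℂ) (De p) =
      mkDerivation ℂ gE (MvPolynomial.map (Int.castRingHom ℂ) p) := by
  refine Size_map_deriv (Int.castRingHom ℂ) _ _ (fun i => ?_) p
  fin_cases i <;> simp [gE]

section link
variable (L : PeriodPair) (α a b : ℂ) (h2 : L.g₂ = -4 * a) (h3 : L.g₃ = -4 * b)

include h2 h3 in
theorem hasDerivAt_vE (p : MvPolynomial (Fin 5) ℤ) {z : ℂ} (hz : z ∉ L.lattice) :
    HasDerivAt (fun z => aeval (vE L α a z) p) (aeval (vE L α a z) (De p)) z := by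
  simp only [aeval_eq, map_De]
  refine Chain_poly (vE L α a) gE (fun i => ?_) _
  fin_cases i
  · have h := ((hasDerivAt_id' z).const_mul α).cexp
    simpa [vE, gE] using h
  · simpa [vE, gE] using hasDerivAt_P L hz
  · simpa [vE, gE] using hasDerivAt_P' L a b h2 h3 hz
  · simpa [vE, gE] using hasDerivAt_const z α
  · simpa [vE, gE] using hasDerivAt_const z a

include h2 h3 in
theorem iteratedDeriv_vE (p : MvPolynomial (Fin 5) ℤ) (n : ℕ) {z : ℂ} (hz : z ∉ L.lattice) :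
    iteratedDeriv n (fun z => aeval (vE L α a z) p) z = aeval (vE L α a z) ((⇑De)^[n] p) := by
  induction n generalizing z with
  | zero => simp
  | succ n ih =>
    rw [iteratedDeriv_succ, Function.iterate_succ_apply']
    have h4 : iteratedDeriv n (fun z => aeval (vE L α a z) p) =ᶠ[𝓝 z]
        fun z => aeval (vE L α a z) ((⇑De)^[n] p) := by
      filter_upwards [(isOpen_compl L).mem_nhds hz] with w hw
      exact ih hw
    rw [h4.deriv_eq]
    exact (hasDerivAt_vE L α a b h2 h3 _ hz).deriv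

end link

/-! ### degree and length -/

theorem De_totalDegree_le (p : MvPolynomial (Fin 5) ℤ) :
    (De p).totalDegree ≤ p.totalDegree + 1 := by
  refine Size_totalDegree_deriv _ (fun i => ?_) p
  fin_cases i
  · change (X 0 * X 3 : MvPolynomial (Fin 5) ℤ).totalDegree ≤ 2
    refine (totalDegree_mul _ _).trans ?_
    rw [totalDegree_X, totalDegree_X]
  · change (2 * X 2 : MvPolynomial (Fin 5) ℤ).totalDegree ≤ 2
    refine (totalDegree_mul _ _).trans ?_
    have e2 : (2 : MvPolynomial (Fin 5) ℤ) = C 2 := (map_ofNat C 2).symm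
    rw [e2, totalDegree_C, totalDegree_X]
    norm_num
  · change (3 * X 1 ^ 2 + X 4 : MvPolynomial (Fin 5) ℤ).totalDegree ≤ 2
    refine (totalDegree_add _ _).trans (max_le ?_ ?_)
    · refine (totalDegree_mul _ _).trans ?_
      have e2 : (3 : MvPolynomial (Fin 5) ℤ) = C 3 := (map_ofNat C 3).symm
      rw [e2, totalDegree_C, totalDegree_X_pow]
    · rw [totalDegree_X]; norm_num
  · change (0 : MvPolynomial (Fin 5) ℤ).totalDegree ≤ 2
    simp
  · change (0 : MvPolynomial (Fin 5) ℤ).totalDegree ≤ 2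
    simp

theorem ek_succ (k i j : ℕ) : ek (k + 1) i j = De (ek k i j) := by
  unfold ek
  rw [Function.iterate_succ_apply']

theorem ek_totalDegree_le (k i j : ℕ) : (ek k i j).totalDegree ≤ i + j + k := by
  induction k with
  | zero =>
    unfold ek
    refine (totalDegree_mul _ _).trans ?_
    simp [totalDegree_X_pow]
  | succ k ih =>
    rw [ek_succ]
    have := De_totalDegree_le (ek k i j)
    omega

theorem gE_nm (i : Fin 5) : nm (gE i) ≤ 4 := by
  have e2 : (2 : MvPolynomial (Fin 5) ℂ) = C 2 := (map_ofNat C 2).symm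
  have e3 : (3 : MvPolynomial (Fin 5) ℂ) = C 3 := (map_ofNat C 3).symm
  have hX : ∀ i : Fin 5, nm (X i : MvPolynomial (Fin 5) ℂ) = 1 := fun i => nm_X i
  fin_cases i
  · change nm (X 0 * X 3 : MvPolynomial (Fin 5) ℂ) ≤ 4
    refine (nm_mul_le _ _).trans ?_
    rw [hX, hX]
    norm_num
  · change nm (2 * X 2 : MvPolynomial (Fin 5) ℂ) ≤ 4
    refine (nm_mul_le _ _).trans ?_
    rw [e2, nm_C, hX]
    norm_num
  · change nm (3 * X 1 ^ 2 + X 4 : MvPolynomial (Fin 5) ℂ) ≤ 4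
    refine (nm_add_le _ _).trans ?_
    have h1 : nm (3 * X 1 ^ 2 : MvPolynomial (Fin 5) ℂ) ≤ 3 := by
      refine (nm_mul_le _ _).trans ?_
      rw [e3, nm_C]
      have h2 := nm_pow_le (p := (X 1 : MvPolynomial (Fin 5) ℂ)) 2
      rw [hX, one_pow] at h2
      have h4 : ‖(3 : ℂ)‖ = 3 := by norm_num
      rw [h4]
      linarith
    rw [hX]
    linarith
  · change nm (0 : MvPolynomial (Fin 5) ℂ) ≤ 4
    rw [Size_nm_zero]; norm_num
  · change nm (0 : MvPolynomial (Fin 5) ℂ) ≤ 4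
    rw [Size_nm_zero]; norm_num

theorem ek_nm_le (k i j : ℕ) :
    nm ((ek k i j).map (Int.castRingHom ℂ)) ≤ (5 * (i + j + k + 1) : ℝ) ^ k := by
  induction k with
  | zero =>
    unfold ek
    rw [Function.iterate_zero, id_eq, map_mul, map_pow, map_pow, map_X, map_X, pow_zero]
    refine (nm_mul_le _ _).trans ?_
    have h1 := nm_pow_le (p := (X 0 : MvPolynomial (Fin 5) ℂ)) i
    have h2 := nm_pow_le (p := (X 1 : MvPolynomial (Fin 5) ℂ)) j
    rw [nm_X, one_pow] at h1 h2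
    calc _ ≤ (1 : ℝ) * 1 := mul_le_mul h1 h2 (nm_nonneg _) (by norm_num)
      _ = 1 := one_mul _
  | succ k ih =>
    rw [ek_succ, map_De]
    refine (Size_nm_deriv gE 4 gE_nm (by norm_num) _).trans ?_
    have h1 : ((MvPolynomial.map (Int.castRingHom ℂ) (ek k i j)).totalDegree : ℝ) ≤ i + j + k := by
      have h4 : (MvPolynomial.map (Int.castRingHom ℂ) (ek k i j)).totalDegree ≤ i + j + k :=
        (totalDegree_map_le' _ _).trans (ek_totalDegree_le k i j)
      exact_mod_cast h4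
    have hi : (0 : ℝ) ≤ i := Nat.cast_nonneg i
    have hj : (0 : ℝ) ≤ j := Nat.cast_nonneg j
    have hk : (0 : ℝ) ≤ k := Nat.cast_nonneg k
    rw [pow_succ]
    push_cast
    have h5 : (5 * ((i : ℝ) + j + k + 1)) ^ k ≤ (5 * (i + j + (k + 1) + 1)) ^ k :=
      pow_le_pow_left₀ (by positivity) (by linarith) k
    rw [mul_comm]
    refine mul_le_mul (ih.trans h5) ?_ (by positivity) (by positivity)
    nlinarith

/-! ### the auxiliary function -/

/-- `F(z) = ∑ p i j exp(α z)^i ℘(z)^j` -/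
def FE (L : PeriodPair) (α a : ℂ) (A B : ℕ) (p : ℕ → ℕ → ℤ) (z : ℂ) : ℂ :=
  ∑ i ∈ Finset.range A, ∑ j ∈ Finset.range B, (p i j : ℂ) * aeval (vE L α a z) (ek 0 i j)

theorem FE_eq (L : PeriodPair) (α a : ℂ) (A B : ℕ) (p : ℕ → ℕ → ℤ) (z : ℂ) :
    FE L α a A B p z = ∑ i ∈ Finset.range A, ∑ j ∈ Finset.range B,
      (p i j : ℂ) * (Complex.exp (α * z) ^ i * L.weierstrassP z ^ j) := by
  unfold FE ek
  refine Finset.sum_congr rfl fun i _ => Finset.sum_congr rfl fun j _ => ?_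
  simp [vE]

/-- values of the derivatives, over any ring -/
def valE {R : Type*} [CommRing R] (v : Fin 5 → R) (A B : ℕ) (p : ℕ → ℕ → ℤ) (t : ℕ) : R :=
  ∑ i ∈ Finset.range A, ∑ j ∈ Finset.range B, (p i j : R) * aeval v (ek t i j)

theorem valE_map {R S : Type*} [CommRing R] [CommRing S] (φ : R →+* S) (v : Fin 5 → R) (A B : ℕ)
    (p : ℕ → ℕ → ℤ) (t : ℕ) : φ (valE v A B p t) = valE (φ ∘ v) A B p t := by
  unfold valE
  simp only [map_sum, map_mul, map_intCast]
  refine Finset.sum_congr rfl fun i _ => Finset.sum_congr rfl fun j _ => ?_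
  congr 1
  have h := MvPolynomial.map_aeval v φ (ek t i j)
  rw [h, MvPolynomial.aeval_def, MvPolynomial.coe_eval₂Hom]
  have e : φ.comp (algebraMap ℤ R) = algebraMap ℤ S := RingHom.ext_int _ _
  rw [e]
  rfl

theorem valE_sub {R : Type*} [CommRing R] (v : Fin 5 → R) (A B : ℕ) (p q : ℕ → ℕ → ℤ) (t : ℕ) :
    valE v A B (fun i j => p i j - q i j) t = valE v A B p t - valE v A B q t := by
  unfold valE
  simp only [← Finset.sum_sub_distrib]
  refine Finset.sum_congr rfl fun i _ => Finset.sum_congr rfl fun j _ => ?_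
  rw [Int.cast_sub]
  ring

section ana
variable (L : PeriodPair) (α a b : ℂ) (h2 : L.g₂ = -4 * a) (h3 : L.g₃ = -4 * b)

theorem vE_an (q : MvPolynomial (Fin 5) ℤ) {z : ℂ} (hz : z ∉ L.lattice) :
    AnalyticAt ℂ (fun z => aeval (vE L α a z) q) z := by
  have hP : AnalyticAt ℂ L.weierstrassP z := L.analyticOnNhd_weierstrassP _ hz
  have hP' : AnalyticAt ℂ L.derivWeierstrassP z := L.analyticOnNhd_derivWeierstrassP _ hz
  have h1 : ∀ i, AnalyticAt ℂ (fun z => vE L α a z i) z := by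
    intro i
    fin_cases i
    · change AnalyticAt ℂ (fun z => Complex.exp (α * z)) z
      fun_prop
    · exact hP
    · change AnalyticAt ℂ (fun z => L.derivWeierstrassP z / 2) z
      exact hP'.div_const
    · exact analyticAt_const
    · exact analyticAt_const
  induction q using MvPolynomial.induction_on with
  | C c => simpa using analyticAt_const
  | add p q hp hq => simpa only [map_add] using hp.fun_add hq
  | mul_X p i hp => simpa only [map_mul, aeval_X] using hp.fun_mul (h1 i)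

include h2 h3 in
theorem FE_iter (A B : ℕ) (p : ℕ → ℕ → ℤ) (t : ℕ) {z : ℂ} (hz : z ∉ L.lattice) :
    iteratedDeriv t (FE L α a A B p) z = valE (vE L α a z) A B p t := by
  have hF : FE L α a A B p = fun z => ∑ i ∈ Finset.range A, ∑ j ∈ Finset.range B,
      (p i j : ℂ) * aeval (vE L α a z) (ek 0 i j) := rfl
  rw [hF, iteratedDeriv_fun_sum]
  · refine Finset.sum_congr rfl fun i _ => ?_
    rw [iteratedDeriv_fun_sum]
    · refine Finset.sum_congr rfl fun j _ => ?_
      rw [iteratedDeriv_const_mul_field, iteratedDeriv_vE L α a b h2 h3 _ t hz]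
      rfl
    · intro j _
      exact (analyticAt_const.fun_mul (vE_an L α a _ hz)).contDiffAt
  · intro i _
    have : AnalyticAt ℂ (fun z => ∑ j ∈ Finset.range B,
        (p i j : ℂ) * aeval (vE L α a z) (ek 0 i j)) z :=
      Finset.analyticAt_fun_sum _ fun j _ => analyticAt_const.fun_mul (vE_an L α a _ hz)
    exact this.contDiffAt

theorem FE_an (A B : ℕ) (p : ℕ → ℕ → ℤ) {z : ℂ} (hz : z ∉ L.lattice) :
    AnalyticAt ℂ (FE L α a A B p) z := by
  unfold FE
  exact Finset.analyticAt_fun_sum _ fun i _ => Finset.analyticAt_fun_sum _ fun j _ =>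
    analyticAt_const.fun_mul (vE_an L α a _ hz)

/-- the entire function `S^(2B) F` -/
def GE (A B : ℕ) (p : ℕ → ℕ → ℤ) (z : ℂ) : ℂ :=
  ∑ i ∈ Finset.range A, ∑ j ∈ Finset.range B, (p i j : ℂ) * (Complex.exp (α * z) ^ i *
    (ev (QQ a b) z ^ j * ev (SS a b) z ^ (2 * B - 2 * j)))

theorem GE_diff (A B : ℕ) (p : ℕ → ℕ → ℤ) : Differentiable ℂ (GE α a b A B p) := by
  have hS := differentiable_ev (Link_Ent_SS a b)
  have hQ := differentiable_ev (Link_Ent_QQ a b)
  unfold GE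
  fun_prop

include h2 h3 in
theorem GE_eq (A B : ℕ) (p : ℕ → ℕ → ℤ) {z : ℂ} (hz : z ∉ L.lattice) :
    GE α a b A B p z = ev (SS a b) z ^ (2 * B) * FE L α a A B p z := by
  have hQ := link_Q L a b h2 h3 hz
  rw [FE_eq]
  unfold GE
  rw [Finset.mul_sum]
  refine Finset.sum_congr rfl fun i _ => ?_
  rw [Finset.mul_sum]
  refine Finset.sum_congr rfl fun j hj => ?_
  have hj' := Finset.mem_range.1 hj
  have e : ev (SS a b) z ^ (2 * B) = (ev (SS a b) z ^ 2) ^ j * ev (SS a b) z ^ (2 * B - 2 * j) := by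
    rw [← pow_mul, ← pow_add]
    congr 1
    omega
  rw [← hQ, e, mul_pow]
  ring

include h2 h3 in
theorem GE_iter (A B : ℕ) (p : ℕ → ℕ → ℤ) {z0 : ℂ} (hz : z0 ∉ L.lattice) {k : ℕ}
    (h : ∀ i < k, iteratedDeriv i (FE L α a A B p) z0 = 0) :
    iteratedDeriv k (GE α a b A B p) z0 =
      ev (SS a b) z0 ^ (2 * B) * iteratedDeriv k (FE L α a A B p) z0 := by
  have he : GE α a b A B p =ᶠ[𝓝 z0] fun z => ev (SS a b) z ^ (2 * B) * FE L α a A B p z := by
    filter_upwards [(isOpen_compl L).mem_nhds hz] with z hz'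
    exact GE_eq L α a b h2 h3 A B p hz'
  rw [he.iteratedDeriv_eq k]
  exact Ana.T_low ((Link_analyticAt_ev (Link_Ent_SS a b) z0).fun_pow _) (FE_an L α a A B p hz) h

/-- growth -/
theorem GE_grow : ∃ C : ℝ, 0 ≤ C ∧ ∀ (A B : ℕ) (H : ℝ) (p : ℕ → ℕ → ℤ), 0 ≤ H →
    (∀ i j, |(p i j : ℝ)| ≤ H) → ∀ z : ℂ,
    ‖GE α a b A B p z‖ ≤ A * B * H * Real.exp (C * (A * ‖z‖ + B * (1 + ‖z‖ ^ 2))) := by
  obtain ⟨C, hC, h⟩ := Ana.grow3 a b 0
  refine ⟨2 * C + ‖α‖, by positivity, fun A B H p hH hp z => ?_⟩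
  obtain ⟨hS, hQ, -⟩ := h z
  obtain ⟨E, hE⟩ : ∃ E, E = Real.exp (C * (1 + ‖z‖ ^ 2)) := ⟨_, rfl⟩
  rw [← hE] at hS hQ
  have hE1 : 1 ≤ E := by
    rw [hE]
    exact Real.one_le_exp (by positivity)
  have hW : ‖Complex.exp (α * z)‖ ≤ Real.exp (‖α‖ * ‖z‖) := by
    rw [Complex.norm_exp]
    refine Real.exp_le_exp.2 ((Complex.re_le_norm _).trans ?_)
    rw [norm_mul]
  have hW1 : 1 ≤ Real.exp (‖α‖ * ‖z‖) := Real.one_le_exp (by positivity)
  have hterm : ∀ i ∈ Finset.range A, ∀ j ∈ Finset.range B,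
      ‖(p i j : ℂ) * (Complex.exp (α * z) ^ i *
        (ev (QQ a b) z ^ j * ev (SS a b) z ^ (2 * B - 2 * j)))‖ ≤
      H * (Real.exp (‖α‖ * ‖z‖) ^ A * E ^ (2 * B)) := by
    intro i hi j hj
    have hi' := Finset.mem_range.1 hi
    have hj' := Finset.mem_range.1 hj
    rw [norm_mul, norm_mul, norm_mul, norm_pow, norm_pow, norm_pow, Complex.norm_intCast]
    refine mul_le_mul (hp i j) (mul_le_mul ?_ ?_ (by positivity) (by positivity))
      (by positivity) hH
    · exact (pow_le_pow_left₀ (norm_nonneg _) hW i).trans (pow_le_pow_right₀ hW1 hi'.le)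
    · calc ‖ev (QQ a b) z‖ ^ j * ‖ev (SS a b) z‖ ^ (2 * B - 2 * j)
          ≤ E ^ j * E ^ (2 * B - 2 * j) := by gcongr
        _ = E ^ (j + (2 * B - 2 * j)) := by rw [pow_add]
        _ ≤ E ^ (2 * B) := pow_le_pow_right₀ hE1 (by omega)
  calc ‖GE α a b A B p z‖ ≤ ∑ i ∈ Finset.range A, ‖∑ j ∈ Finset.range B,
        (p i j : ℂ) * (Complex.exp (α * z) ^ i *
        (ev (QQ a b) z ^ j * ev (SS a b) z ^ (2 * B - 2 * j)))‖ := norm_sum_le _ _
    _ ≤ ∑ i ∈ Finset.range A, ∑ j ∈ Finset.range B, ‖(p i j : ℂ) * (Complex.exp (α * z) ^ i *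
        (ev (QQ a b) z ^ j * ev (SS a b) z ^ (2 * B - 2 * j)))‖ :=
        Finset.sum_le_sum fun i _ => norm_sum_le _ _
    _ ≤ ∑ _i ∈ Finset.range A, ∑ _j ∈ Finset.range B,
        H * (Real.exp (‖α‖ * ‖z‖) ^ A * E ^ (2 * B)) :=
        Finset.sum_le_sum fun i hi => Finset.sum_le_sum fun j hj => hterm i hi j hj
    _ = A * B * H * (Real.exp (‖α‖ * ‖z‖) ^ A * E ^ (2 * B)) := by
        rw [Finset.sum_const, Finset.sum_const, Finset.card_range, Finset.card_range,
          nsmul_eq_mul, nsmul_eq_mul]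
        ring
    _ ≤ _ := by
        refine mul_le_mul_of_nonneg_left ?_ (by positivity)
        rw [hE, ← Real.exp_nat_mul, ← Real.exp_nat_mul, ← Real.exp_add]
        refine Real.exp_le_exp.2 ?_
        push_cast
        have k1 : 0 ≤ 2 * C * (A * ‖z‖) := by positivity
        have k2 : 0 ≤ ‖α‖ * (B * (1 + ‖z‖ ^ 2)) := by positivity
        linarith

end ana

end

end Pool.Agent.CHU.SLone
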