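import Pool.Agent.CHU.SL1a
import Pool.Agent.ZFin.SchDup
import Pool.Agent.ZFin.TA
import Pool.Agent.ZCM.Count
import Pool.Agent.ZCM.Liou

/-! # Schneider's theorem for `exp (α z)` and `℘ (z)`: non-vanishing, arithmetic -/

set_option autoImplicit false

namespace Pool.Agent.CHU.SLone
open Pool.Agent.ZCM Pool.Agent.ZFin
open Filter Topology NumberField

noncomputable section

/-! ### non-vanishing -/

theorem exists_om (L : PeriodPair) (α : ℂ) (hα : α ≠ 0) :
    ∃ ω ∈ L.lattice, ∀ d : ℕ, 0 < d → Complex.exp (α * ω) ^ d ≠ 1 := by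
  by_contra hcon
  push Not at hcon
  obtain ⟨d1, hd1, e1⟩ := hcon L.ω₁ L.ω₁_mem_lattice
  obtain ⟨d2, hd2, e2⟩ := hcon L.ω₂ L.ω₂_mem_lattice
  rw [← Complex.exp_nat_mul, Complex.exp_eq_one_iff] at e1 e2
  obtain ⟨n1, hn1⟩ := e1
  obtain ⟨n2, hn2⟩ := e2
  have hpi : (2 * (Real.pi : ℂ) * Complex.I) ≠ 0 := Complex.two_pi_I_ne_zero
  have h1 : α * (((d1 * n2 : ℤ) : ℂ) * L.ω₁ + ((-(d2 * n1) : ℤ) : ℂ) * L.ω₂) = 0 := by
    push_cast
    linear_combination (n2 : ℂ) * hn1 - (n1 : ℂ) * hn2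
  have h2 := (mul_eq_zero.1 h1).resolve_left hα
  have h3 : (((d1 * n2 : ℤ) : ℝ)) • L.ω₁ + (((-(d2 * n1) : ℤ) : ℝ)) • L.ω₂ = 0 := by
    rw [Complex.real_smul, Complex.real_smul]
    push_cast at h2 ⊢
    exact h2
  have h4 := (LinearIndependent.pair_iff.1 L.indep) _ _ h3
  have h5 : (d1 : ℤ) * n2 = 0 := by exact_mod_cast h4.1
  have h6 : (d2 : ℤ) * n1 = 0 := by
    have : (-(d2 * n1) : ℤ) = 0 := by exact_mod_cast h4.2
    linarith
  have h7 : n1 = 0 := (mul_eq_zero.1 h6).resolve_left (by exact_mod_cast hd2.ne')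
  rw [h7, Int.cast_zero, zero_mul] at hn1
  have hω : L.ω₁ ≠ 0 := by
    intro h0
    apply L.ω₁_div_two_notMem_lattice
    rw [h0]
    simp
  rcases mul_eq_zero.1 hn1 with h8 | h8
  · exact hd1.ne' (by exact_mod_cast h8)
  · rcases mul_eq_zero.1 h8 with h9 | h9
    · exact hα h9
    · exact hω h9

open Polynomial in
theorem coeff_geom (A : ℕ) (c : ℕ → ℂ) (q : ℂ) (hq0 : q ≠ 0) (hq : ∀ d : ℕ, 0 < d → q ^ d ≠ 1)
    (h : ∀ n : ℕ, ∑ i ∈ Finset.range A, c i * (q ^ n) ^ i = 0) : ∀ i < A, c i = 0 := by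
  set Q : Polynomial ℂ := ∑ i ∈ Finset.range A, C (c i) * X ^ i with hQ
  have hroot : ∀ n : ℕ, Q.IsRoot (q ^ n) := by
    intro n
    rw [Polynomial.IsRoot.def, hQ, Polynomial.eval_finsetSum]
    simp only [Polynomial.eval_mul, Polynomial.eval_C, Polynomial.eval_pow, Polynomial.eval_X]
    exact h n
  have hinj : Function.Injective fun n : ℕ => q ^ n := by
    intro m n hmn
    simp only at hmn
    by_contra hne
    rcases Nat.lt_or_gt_of_ne hne with hlt | hlt
    · apply hq (n - m) (by omega)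
      have e : q ^ n = q ^ (n - m) * q ^ m := by rw [← pow_add]; congr 1; omega
      rw [e] at hmn
      have h0 : q ^ m ≠ 0 := pow_ne_zero _ hq0
      exact mul_right_cancel₀ h0 (by rw [← hmn, one_mul])
    · apply hq (m - n) (by omega)
      have e : q ^ m = q ^ (m - n) * q ^ n := by rw [← pow_add]; congr 1; omega
      rw [e] at hmn
      have h0 : q ^ n ≠ 0 := pow_ne_zero _ hq0
      exact mul_right_cancel₀ h0 (by rw [hmn, one_mul])
  have hQ0 : Q = 0 := by
    apply Polynomial.eq_zero_of_infinite_isRoot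
    apply Set.Infinite.mono (s := Set.range fun n : ℕ => q ^ n)
    · rintro _ ⟨n, rfl⟩
      exact hroot n
    · exact Set.infinite_range_of_injective hinj
  intro i hi
  have h1 : Q.coeff i = c i := by
    rw [hQ, Polynomial.finsetSum_coeff]
    simp only [Polynomial.coeff_C_mul, Polynomial.coeff_X_pow]
    rw [Finset.sum_eq_single i]
    · simp
    · intro j _ hj
      simp [hj.symm]
    · intro h
      exact absurd (Finset.mem_range.mpr hi) h
  rw [← h1, hQ0, Polynomial.coeff_zero]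

open Polynomial in
/-- `℘` is not a root of a fixed polynomial -/
theorem P_root (L : PeriodPair) (R : Polynomial ℂ) (hR0 : R ≠ 0)
    (h : ∀ z, z ∉ L.lattice → R.eval (L.weierstrassP z) = 0) : False := by
  have hroot : ∀ z, z ∉ L.lattice → L.weierstrassP z ∈ R.rootSet ℂ := by
    intro z hz
    rw [Polynomial.mem_rootSet]
    refine ⟨hR0, ?_⟩
    rw [Polynomial.coe_aeval_eq_eval]
    exact h z hz
  have hfin : (R.rootSet ℂ).Finite := Polynomial.rootSet_finite R ℂ
  obtain ⟨M, hM⟩ := hfin.isBounded.exists_norm_le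
  have hx := (Link_analyticAt_x L).continuousAt
  have hx1 : Filter.Tendsto (fun z => ‖Link_x L z‖) (nhdsWithin (0:ℂ) {0}ᶜ) (nhds 1) := by
    have := hx.tendsto.norm
    rw [Link_x_zero] at this
    simp only [norm_one] at this
    exact this.mono_left nhdsWithin_le_nhds
  have hx2 : Filter.Tendsto (fun z : ℂ => ‖z‖ ^ 2 * M) (nhdsWithin (0:ℂ) {0}ᶜ) (nhds 0) := by
    have h1 : ContinuousAt (fun z : ℂ => ‖z‖ ^ 2 * M) 0 := by fun_prop
    have h2 := h1.tendsto
    simp only [norm_zero, ne_eq, OfNat.ofNat_ne_zero, not_false_eq_true, zero_pow, zero_mul] at h2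
    exact h2.mono_left nhdsWithin_le_nhds
  have hle : ∀ᶠ z in nhdsWithin (0:ℂ) {0}ᶜ, ‖Link_x L z‖ ≤ ‖z‖ ^ 2 * M := by
    filter_upwards [eventually_notMem L, self_mem_nhdsWithin] with z hz hz0
    rw [Link_x_eq L hz0, norm_mul, norm_pow]
    exact mul_le_mul_of_nonneg_left (hM _ (hroot z hz)) (by positivity)
  have := le_of_tendsto_of_tendsto hx1 hx2 hle
  norm_num at this

theorem FE_ne (L : PeriodPair) (α a : ℂ) (hα : α ≠ 0) (A B : ℕ) (p : ℕ → ℕ → ℤ)
    (h0 : ∃ i < A, ∃ j < B, p i j ≠ 0) : ∃ z, z ∉ L.lattice ∧ FE L α a A B p z ≠ 0 := by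
  by_contra hcon
  push Not at hcon
  obtain ⟨i, hi, j, hj, hij⟩ := h0
  obtain ⟨ω, hω, hq⟩ := exists_om L α hα
  have hA : ∀ z, z ∉ L.lattice →
      ∑ j ∈ Finset.range B, (p i j : ℂ) * L.weierstrassP z ^ j = 0 := by
    intro z hz
    have key := coeff_geom A (fun i => Complex.exp (α * z) ^ i *
      ∑ j ∈ Finset.range B, (p i j : ℂ) * L.weierstrassP z ^ j) (Complex.exp (α * ω))
      (Complex.exp_ne_zero _) hq ?_ i hi
    · exact (mul_eq_zero.1 key).resolve_left (pow_ne_zero _ (Complex.exp_ne_zero _))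
    intro n
    have hmem : (n : ℂ) * ω ∈ L.lattice := by
      have := L.lattice.smul_mem (n : ℤ) hω
      simpa using this
    have hz' : z + n * ω ∉ L.lattice := by
      intro h
      apply hz
      have := L.lattice.sub_mem h hmem
      simpa using this
    have h1 := hcon _ hz'
    rw [FE_eq] at h1
    have h2 : L.weierstrassP (z + n * ω) = L.weierstrassP z :=
      L.weierstrassP_add_coe z ⟨_, hmem⟩
    rw [h2] at h1
    rw [← h1]
    refine Finset.sum_congr rfl fun i _ => ?_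
    rw [Finset.mul_sum, Finset.sum_mul]
    refine Finset.sum_congr rfl fun j _ => ?_
    have e : Complex.exp (α * (z + n * ω)) = Complex.exp (α * z) * Complex.exp (α * ω) ^ n := by
      rw [← Complex.exp_nat_mul, ← Complex.exp_add]
      congr 1
      ring
    rw [e, mul_pow]
    ring
  open Polynomial in
  have hR0 : (∑ j ∈ Finset.range B, C (p i j : ℂ) * X ^ j : ℂ[X]) ≠ 0 := by
    intro h
    have h1 : (∑ j ∈ Finset.range B, C (p i j : ℂ) * X ^ j : ℂ[X]).coeff j = (p i j : ℂ) := by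
      rw [Polynomial.finsetSum_coeff]
      simp only [Polynomial.coeff_C_mul, Polynomial.coeff_X_pow]
      rw [Finset.sum_eq_single j]
      · simp
      · intro k _ hk
        simp [hk.symm]
      · intro h
        exact absurd (Finset.mem_range.mpr hj) h
    rw [h, Polynomial.coeff_zero] at h1
    apply hij
    exact_mod_cast h1.symm
  refine P_root L _ hR0 fun z hz => ?_
  rw [Polynomial.eval_finsetSum]
  simp only [Polynomial.eval_mul, Polynomial.eval_C, Polynomial.eval_pow, Polynomial.eval_X]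
  exact hA z hz

/-! ### arithmetic -/

section arith
variable {K : Type} [Field K] [NumberField K]

theorem mult5 (v : Fin 5 → K) : ∃ M : ℕ, 0 < M ∧ ∀ i, IsIntegral ℤ ((M : K) * v i) := by
  classical
  have hal : Algebra.IsAlgebraic ℤ K := ⟨fun z => by
    have h1 : IsAlgebraic ℚ z := Algebra.IsAlgebraic.isAlgebraic z
    exact (IsFractionRing.isAlgebraic_iff ℤ ℚ K).2 h1⟩
  obtain ⟨y, hy, h⟩ :=
    Algebra.IsAlgebraic.exists_integral_multiples ℤ (Finset.univ.image v)
  refine ⟨y.natAbs, Int.natAbs_pos.2 hy, fun i => ?_⟩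
  have h1 : IsIntegral ℤ (y • v i) := h (v i) (by simp)
  rw [zsmul_eq_mul] at h1
  rcases Int.natAbs_eq y with h2 | h2
  · have h3 : ((y.natAbs : ℕ) : K) = (y : K) := by
      have h4 := congrArg (fun z : ℤ => (z : K)) h2
      simp only [Int.cast_natCast] at h4
      exact h4.symm
    rw [h3]; exact h1
  · have h3 : ((y.natAbs : ℕ) : K) = -(y : K) := by
      have h4 := congrArg (fun z : ℤ => (z : K)) h2
      simp only [Int.cast_neg, Int.cast_natCast] at h4
      rw [h4, neg_neg]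
    rw [h3, neg_mul]; exact h1.neg

theorem int_nat (M : ℕ) : IsIntegral ℤ ((M : K)) := by
  have h5 := isIntegral_algebraMap (R := ℤ) (A := K) (x := (M : ℤ))
  simpa using h5

theorem int5 (P : MvPolynomial (Fin 5) ℤ) (v : Fin 5 → K) (M : ℕ)
    (hM : ∀ i, IsIntegral ℤ ((M : K) * v i)) (d : ℕ) (hd : P.totalDegree ≤ d) :
    IsIntegral ℤ ((M : K) ^ d * MvPolynomial.aeval v P) := by
  rw [MvPolynomial.aeval_def, MvPolynomial.eval₂_eq', Finset.mul_sum]
  refine IsIntegral.sum _ fun m hm => ?_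
  have h1 : ∑ i, m i ≤ d := by
    refine le_trans ?_ hd
    have := MvPolynomial.le_totalDegree hm
    rwa [Finsupp.sum_fintype _ _ (by intro; rfl)] at this
  have h2 : (M : K) ^ d * (algebraMap ℤ K (P.coeff m) * ∏ i, v i ^ m i)
      = algebraMap ℤ K (P.coeff m) *
        ((M : K) ^ (d - ∑ i, m i) * ∏ i, ((M : K) * v i) ^ m i) := by
    have h3 : (M : K) ^ d = (M : K) ^ (d - ∑ i, m i) * (M : K) ^ (∑ i, m i) := by
      rw [← pow_add, Nat.sub_add_cancel h1]
    simp_rw [mul_pow, Finset.prod_mul_distrib, Finset.prod_pow_eq_pow_sum]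
    rw [h3]; ring
  rw [h2]
  refine IsIntegral.mul isIntegral_algebraMap (IsIntegral.mul ?_ ?_)
  · exact (int_nat M).pow _
  · exact IsIntegral.prod _ fun i _ => (hM i).pow _

theorem valE_int (v : Fin 5 → K) : ∃ M : ℕ, 0 < M ∧ ∀ (A B t : ℕ) (p : ℕ → ℕ → ℤ),
    IsIntegral ℤ ((M : K) ^ (A + B + t) * valE v A B p t) := by
  obtain ⟨M, hM, hMi⟩ := mult5 v
  refine ⟨M, hM, fun A B t p => ?_⟩
  unfold valE
  rw [Finset.mul_sum]
  refine IsIntegral.sum _ fun i hi => ?_
  rw [Finset.mul_sum]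
  refine IsIntegral.sum _ fun j hj => ?_
  have e : (M : K) ^ (A + B + t) * ((p i j : K) * MvPolynomial.aeval v (ek t i j)) =
      algebraMap ℤ K (p i j) * ((M : K) ^ (A + B + t) * MvPolynomial.aeval v (ek t i j)) := by
    simp only [algebraMap_int_eq, eq_intCast]
    ring
  rw [e]
  have hi' := Finset.mem_range.1 hi
  have hj' := Finset.mem_range.1 hj
  refine IsIntegral.mul isIntegral_algebraMap (int5 _ v M hMi _ ?_)
  exact (ek_totalDegree_le t i j).trans (by omega)

theorem size_aux (m : ℝ) (hm : 1 ≤ m) : ∃ C : ℝ, 0 ≤ C ∧ ∀ A B t : ℕ,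
    (A * B : ℝ) * ((5 * (A + B + t + 1 : ℝ)) ^ t * m ^ (A + B + t)) ≤
      Real.exp (t * Real.log (A + B + t + 1) + C * (A + B + t + 1)) := by
  have hlm : 0 ≤ Real.log m := Real.log_nonneg hm
  have hl5 : 0 ≤ Real.log 5 := Real.log_nonneg (by norm_num)
  refine ⟨Real.log 5 + 2 + Real.log m, by positivity, fun A B t => ?_⟩
  have hA : (0 : ℝ) ≤ A := Nat.cast_nonneg _
  have hB : (0 : ℝ) ≤ B := Nat.cast_nonneg _
  have ht : (0 : ℝ) ≤ t := Nat.cast_nonneg _
  have hX : (0 : ℝ) < A + B + t + 1 := by positivity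
  have e1 : (A * B : ℝ) ≤ Real.exp (2 * (A + B + t + 1)) := by
    have h1 : (A : ℝ) ≤ Real.exp (A + B + t + 1) := by
      have := Real.add_one_le_exp ((A : ℝ) + B + t + 1)
      linarith
    have h2 : (B : ℝ) ≤ Real.exp (A + B + t + 1) := by
      have := Real.add_one_le_exp ((A : ℝ) + B + t + 1)
      linarith
    calc (A * B : ℝ) ≤ Real.exp (A + B + t + 1) * Real.exp (A + B + t + 1) :=
          mul_le_mul h1 h2 hB (Real.exp_pos _).le
      _ = Real.exp (2 * (A + B + t + 1)) := by rw [← Real.exp_add]; congr 1; ring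
  have e2 : (5 * (A + B + t + 1 : ℝ)) ^ t =
      Real.exp (t * Real.log 5 + t * Real.log (A + B + t + 1)) := by
    rw [← mul_add, ← Real.log_mul (by norm_num) hX.ne', Real.exp_nat_mul,
      Real.exp_log (by positivity)]
  have e3 : m ^ (A + B + t) ≤ Real.exp (Real.log m * (A + B + t + 1)) := by
    have h1 : m ^ (A + B + t) = Real.exp (((A + B + t : ℕ) : ℝ) * Real.log m) := by
      rw [Real.exp_nat_mul, Real.exp_log (by linarith)]
    rw [h1]
    refine Real.exp_le_exp.2 ?_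
    push_cast
    nlinarith
  calc (A * B : ℝ) * ((5 * (A + B + t + 1 : ℝ)) ^ t * m ^ (A + B + t))
      ≤ Real.exp (2 * (A + B + t + 1)) * (Real.exp (t * Real.log 5 + t * Real.log (A + B + t + 1)) *
          Real.exp (Real.log m * (A + B + t + 1))) := by
        rw [e2]
        exact mul_le_mul e1 (mul_le_mul_of_nonneg_left e3 (Real.exp_pos _).le)
          (by positivity) (Real.exp_pos _).le
    _ ≤ _ := by
        rw [← Real.exp_add, ← Real.exp_add]
        refine Real.exp_le_exp.2 ?_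
        have h5 : t * Real.log 5 ≤ Real.log 5 * (A + B + t + 1) := by
          have : Real.log 5 * (A + B + t + 1) - t * Real.log 5 = Real.log 5 * (A + B + 1) := by ring
          have h6 : 0 ≤ Real.log 5 * ((A : ℝ) + B + 1) := by positivity
          linarith
        linarith

theorem valE_size (v : Fin 5 → K) : ∃ C : ℝ, 0 ≤ C ∧ ∀ (A B t : ℕ) (H : ℝ) (p : ℕ → ℕ → ℤ),
    0 ≤ H → (∀ i j, |(p i j : ℝ)| ≤ H) → ∀ σ : K →+* ℂ,
    ‖σ (valE v A B p t)‖ ≤
      H * Real.exp (t * Real.log (A + B + t + 1) + C * (A + B + t + 1)) := by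
  obtain ⟨M0, hM0⟩ := (Set.finite_range
    (fun s : (K →+* ℂ) × Fin 5 => ‖s.1 (v s.2)‖)).bddAbove
  obtain ⟨C, hC, hCb⟩ := size_aux (max M0 1) (le_max_right _ _)
  refine ⟨C, hC, fun A B t H p hH hp σ => ?_⟩
  have hm1 : (1 : ℝ) ≤ max M0 1 := le_max_right _ _
  have hM : ∀ i, ‖(σ ∘ v) i‖ ≤ max M0 1 := fun i =>
    (hM0 ⟨(σ, i), rfl⟩).trans (le_max_left _ _)
  rw [valE_map]
  have hterm : ∀ i ∈ Finset.range A, ∀ j ∈ Finset.range B,
      ‖(p i j : ℂ) * MvPolynomial.aeval (σ ∘ v) (ek t i j)‖ ≤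
      H * ((5 * (A + B + t + 1 : ℝ)) ^ t * (max M0 1) ^ (A + B + t)) := by
    intro i hi j hj
    have hi' : i ≤ A := (Finset.mem_range.1 hi).le
    have hj' : j ≤ B := (Finset.mem_range.1 hj).le
    have hi'' : (i : ℝ) ≤ A := by exact_mod_cast hi'
    have hj'' : (j : ℝ) ≤ B := by exact_mod_cast hj'
    rw [norm_mul, Complex.norm_intCast]
    refine mul_le_mul (hp i j) ?_ (norm_nonneg _) hH
    rw [aeval_eq]
    refine (norm_eval_le _ (σ ∘ v) (max M0 1) hm1 hM).trans ?_
    refine mul_le_mul ((ek_nm_le t i j).trans ?_) ?_ (by positivity) (by positivity)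
    · exact pow_le_pow_left₀ (by positivity) (by linarith) _
    · refine pow_le_pow_right₀ hm1 ?_
      exact (totalDegree_map_le' _ _).trans ((ek_totalDegree_le t i j).trans (by omega))
  unfold valE
  calc ‖∑ i ∈ Finset.range A, ∑ j ∈ Finset.range B,
        (p i j : ℂ) * MvPolynomial.aeval (σ ∘ v) (ek t i j)‖
      ≤ ∑ i ∈ Finset.range A, ‖∑ j ∈ Finset.range B,
        (p i j : ℂ) * MvPolynomial.aeval (σ ∘ v) (ek t i j)‖ := norm_sum_le _ _
    _ ≤ ∑ i ∈ Finset.range A, ∑ j ∈ Finset.range B,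
        ‖(p i j : ℂ) * MvPolynomial.aeval (σ ∘ v) (ek t i j)‖ :=
        Finset.sum_le_sum fun i _ => norm_sum_le _ _
    _ ≤ ∑ _i ∈ Finset.range A, ∑ _j ∈ Finset.range B,
        H * ((5 * (A + B + t + 1 : ℝ)) ^ t * (max M0 1) ^ (A + B + t)) :=
        Finset.sum_le_sum fun i hi => Finset.sum_le_sum fun j hj => hterm i hi j hj
    _ = H * ((A * B : ℝ) * ((5 * (A + B + t + 1 : ℝ)) ^ t * (max M0 1) ^ (A + B + t))) := by
        rw [Finset.sum_const, Finset.sum_const, Finset.card_range, Finset.card_range,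
          nsmul_eq_mul, nsmul_eq_mul]
        ring
    _ ≤ _ := mul_le_mul_of_nonneg_left (hCb A B t) hH

end arith

end

end Pool.Agent.CHU.SLone
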