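import Pool.Agent.CHU.SL1b

/-! # Schneider's theorem for `exp (α z)` and `℘ (z)`: Siegel's lemma -/

set_option autoImplicit false

namespace Pool.Agent.CHU.SLone
open Pool.Agent.ZCM Pool.Agent.ZFin
open NumberField

noncomputable section

/-- extension of an array -/
def ext {A B X : ℕ} (q : Fin A × Fin B → Fin X) (i j : ℕ) : ℤ :=
  if h : i < A ∧ j < B then ((q (⟨i, h.1⟩, ⟨j, h.2⟩) : ℕ) : ℤ) else 0

theorem ext_apply {A B X : ℕ} (q : Fin A × Fin B → Fin X) (t : Fin A × Fin B) :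
    ext q t.1 t.2 = ((q t : ℕ) : ℤ) := by
  unfold ext
  rw [dif_pos ⟨t.1.2, t.2.2⟩]

theorem ext_bound {A B X : ℕ} (hX : 1 ≤ X) (q q' : Fin A × Fin B → Fin X) (i j : ℕ) :
    |((ext q i j - ext q' i j : ℤ) : ℝ)| ≤ (X : ℝ) - 1 := by
  have h1 : ∀ r : Fin A × Fin B → Fin X, 0 ≤ ext r i j ∧ ext r i j ≤ (X : ℤ) - 1 := by
    intro r
    unfold ext
    split_ifs with h
    · have := (r (⟨i, h.1⟩, ⟨j, h.2⟩)).2
      constructor <;> omega
    · constructor <;> omega
  have h2 := h1 q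
  have h3 := h1 q'
  have h4 : |ext q i j - ext q' i j| ≤ (X : ℤ) - 1 := by
    rw [abs_le]
    constructor <;> omega
  rw [← Int.cast_abs]
  have h5 : ((|ext q i j - ext q' i j| : ℤ) : ℝ) ≤ (((X : ℤ) - 1 : ℤ) : ℝ) := by
    exact_mod_cast h4
  push_cast at h5 ⊢
  exact h5

/-- the pigeonhole for given parameters -/
theorem core {K : Type} [Field K] [NumberField K] (v : ℕ → Fin 5 → K) (S A B T X : ℕ)
    (hX : 1 ≤ X) (M : ℕ → ℕ) (hM : ∀ n, 0 < M n)
    (hI : ∀ n (A B t : ℕ) (p : ℕ → ℕ → ℤ), IsIntegral ℤ ((M n : K) ^ (A + B + t) *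
        valE (v n) A B p t))
    (CP : ℝ) (hpig : ∀ {α : Type} (Om : Finset α) (T1 : ℕ) (y : ℕ → α → 𝓞 K) (ρ : ℕ → ℝ),
      (∀ n, 0 ≤ ρ n) →
      (∀ p ∈ Om, ∀ p' ∈ Om, ∀ n < T1, (∀ i < n, y i p = y i p') →
        ∀ σ : K →+* ℂ, ‖σ ((y n p : K) - (y n p' : K))‖ ≤ ρ n) →
      ∏ n ∈ Finset.range T1, (CP * (1 + ρ n)) ^ (Module.finrank ℚ K) < (Om.card : ℝ) →
      ∃ p ∈ Om, ∃ p' ∈ Om, p ≠ p' ∧ ∀ n < T1, y n p = y n p')
    (ρ : ℝ) (hρ : 0 ≤ ρ)
    (hbound : ∀ n < S, ∀ t < T, ∀ (p : ℕ → ℕ → ℤ), (∀ i j, |(p i j : ℝ)| ≤ (X : ℝ) - 1) →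
      ∀ σ : K →+* ℂ, ‖σ ((M n : K) ^ (A + B + t) * valE (v n) A B p t)‖ ≤ ρ)
    (hprod : ((CP * (1 + ρ)) ^ (Module.finrank ℚ K)) ^ (S * T) < (X : ℝ) ^ (A * B)) :
    ∃ p : ℕ → ℕ → ℤ, (∀ i j, |(p i j : ℝ)| ≤ (X : ℝ) - 1) ∧
      (∃ i < A, ∃ j < B, p i j ≠ 0) ∧ ∀ n < S, ∀ t < T, valE (v n) A B p t = 0 := by
  classical
  let w : ℕ → (Fin A × Fin B → Fin X) → 𝓞 K := fun l q =>
    ⟨(M (l / T) : K) ^ (A + B + l % T) * valE (v (l / T)) A B (ext q) (l % T), hI _ _ _ _ _⟩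
  have hw : ∀ l q, ((w l q : 𝓞 K) : K) = (M (l / T) : K) ^ (A + B + l % T) *
        valE (v (l / T)) A B (ext q) (l % T) := fun l q => rfl
  have hdiff : ∀ l q q', ((w l q : 𝓞 K) : K) - ((w l q' : 𝓞 K) : K) =
      (M (l / T) : K) ^ (A + B + l % T) *
        valE (v (l / T)) A B (fun i j => ext q i j - ext q' i j) (l % T) := by
    intro l q q'
    rw [hw, hw, valE_sub]
    ring
  obtain ⟨q, -, q', -, hne, heq⟩ := hpig (Finset.univ : Finset (Fin A × Fin B → Fin X))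
    (S * T) w (fun _ => ρ) (fun _ => hρ) (by
      intro q _ q' _ l hl _ σ
      have hT : 0 < T := Nat.pos_of_ne_zero (by rintro rfl; simp at hl)
      rw [hdiff]
      exact hbound (l / T) (Nat.div_lt_of_lt_mul (by rwa [mul_comm])) (l % T) (Nat.mod_lt _ hT) _
        (fun i j => ext_bound hX q q' i j) σ) (by
      rw [Finset.prod_const, Finset.card_range, Finset.card_univ, Fintype.card_fun,
        Fintype.card_prod, Fintype.card_fin, Fintype.card_fin, Fintype.card_fin, Nat.cast_pow]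
      exact hprod)
  refine ⟨fun i j => ext q i j - ext q' i j, fun i j => ext_bound hX q q' i j, ?_, ?_⟩
  · obtain ⟨t, ht⟩ := Function.ne_iff.1 hne
    refine ⟨t.1, t.1.2, t.2, t.2.2, ?_⟩
    change ext q t.1 t.2 - ext q' t.1 t.2 ≠ 0
    rw [ext_apply, ext_apply]
    intro h
    apply ht
    apply Fin.ext
    omega
  · intro n hn t ht
    have hT : 0 < T := lt_of_le_of_lt (Nat.zero_le _) ht
    have h1 : (n * T + t) / T = n := by
      rw [mul_comm, Nat.mul_add_div hT, Nat.div_eq_of_lt ht, add_zero]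
    have h2 : (n * T + t) % T = t := by
      rw [mul_comm, Nat.mul_add_mod, Nat.mod_eq_of_lt ht]
    have h3 : n * T + t < S * T := by
      have : (n + 1) * T ≤ S * T := Nat.mul_le_mul_right T hn
      have h4 : (n + 1) * T = n * T + T := by ring
      omega
    have h5 := hdiff (n * T + t) q q'
    rw [heq _ h3, sub_self, h1, h2] at h5
    have h6 : (M n : K) ^ (A + B + t) ≠ 0 := pow_ne_zero _ (by exact_mod_cast (hM n).ne')
    rcases mul_eq_zero.mp h5.symm with h7 | h7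
    · exact absurd h7 h6
    · exact h7

/-- `κ = [K:ℚ]`, `S` points, `A = 2κS N²`, `B = N`, `T = N³` -/
theorem siegelE {K : Type} [Field K] [NumberField K] (v : ℕ → Fin 5 → K) (κ S : ℕ)
    (hκ : κ = Module.finrank ℚ K) (hS1 : 1 ≤ S) : ∃ C : ℝ, 0 ≤ C ∧ ∀ N ≥ 1,
    ∃ p : ℕ → ℕ → ℤ,
      (∀ i j, |(p i j : ℝ)| ≤ Real.exp ((N ^ 3 : ℕ) * Real.log (N ^ 3 : ℕ) + C * (N ^ 3 : ℕ))) ∧
      (∃ i < 2 * κ * S * N ^ 2, ∃ j < N, p i j ≠ 0) ∧
      ∀ n < S, ∀ t < N ^ 3, valE (v n) (2 * κ * S * N ^ 2) N p t = 0 := by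
  have hκ1 : 1 ≤ κ := by rw [hκ]; exact Module.finrank_pos
  obtain ⟨CP, hCP, hpig⟩ := pigeon K
  choose M hM hI using fun n => valE_int (v n)
  choose Cs hCs hSz using fun n => valE_size (v n)
  set Cm : ℝ := ∑ n ∈ Finset.range S, Cs n with hCm
  set Lm : ℝ := ∑ n ∈ Finset.range S, Real.log (M n) with hLm
  have hlogM : ∀ n, 0 ≤ Real.log (M n) := fun n => Real.log_nonneg (by exact_mod_cast hM n)
  have hCm0 : 0 ≤ Cm := Finset.sum_nonneg fun n _ => hCs n
  have hLm0 : 0 ≤ Lm := Finset.sum_nonneg fun n _ => hlogM n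
  have hCm1 : ∀ n < S, Cs n ≤ Cm := fun n hn =>
    Finset.single_le_sum (f := Cs) (fun i _ => hCs i) (Finset.mem_range.mpr hn)
  have hLm1 : ∀ n < S, Real.log (M n) ≤ Lm := fun n hn =>
    Finset.single_le_sum (f := fun n => Real.log (M n)) (fun i _ => hlogM i) (Finset.mem_range.mpr hn)
  obtain ⟨c0, hc0⟩ : ∃ c0 : ℝ, c0 = 2 * κ * S + 3 := ⟨_, rfl⟩
  have hκr : (1:ℝ) ≤ κ := by exact_mod_cast hκ1
  have hSr : (1:ℝ) ≤ S := by exact_mod_cast hS1
  have hc01 : 1 ≤ c0 := by rw [hc0]; nlinarith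
  have hl3 : 0 ≤ Real.log c0 := Real.log_nonneg hc01
  set C4 : ℝ := Real.log c0 + Cm * c0 + Lm * c0 with hC4
  have hC40 : 0 ≤ C4 := by positivity
  have hlogC : 0 ≤ Real.log (2 * CP) := Real.log_nonneg (by linarith)
  refine ⟨C4 + Real.log (2 * CP), by positivity, fun N hN => ?_⟩
  obtain ⟨T, hT⟩ : ∃ T : ℕ, T = N ^ 3 := ⟨_, rfl⟩
  obtain ⟨A, hA⟩ : ∃ A : ℕ, A = 2 * κ * S * N ^ 2 := ⟨_, rfl⟩
  rw [← hT, ← hA]
  have hNr : (1:ℝ) ≤ N := by exact_mod_cast hN
  have hTN : (T : ℝ) = (N : ℝ) ^ 3 := by rw [hT]; push_cast; ring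
  have hTr : (1:ℝ) ≤ T := by rw [hTN]; exact one_le_pow₀ hNr
  have hT0 : (0:ℝ) < T := by linarith
  have hlogT : 0 ≤ Real.log T := Real.log_nonneg hTr
  have hN2 : (N : ℝ) ^ 2 ≤ T := by rw [hTN]; exact pow_le_pow_right₀ hNr (by norm_num)
  have hN1 : (N : ℝ) ≤ T := by
    rw [hTN]
    calc (N : ℝ) = (N : ℝ) ^ 1 := (pow_one _).symm
      _ ≤ (N : ℝ) ^ 3 := pow_le_pow_right₀ hNr (by norm_num)
  have hAr : (A : ℝ) ≤ 2 * κ * S * T := by
    rw [hA]; push_cast
    exact mul_le_mul_of_nonneg_left hN2 (by positivity)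
  set B : ℝ := Real.exp (T * Real.log T + C4 * T) with hB
  have hB1 : 1 ≤ B := Real.one_le_exp (by positivity)
  set X : ℕ := ⌊2 * CP * B⌋₊ + 1 with hX
  have hX1 : 1 ≤ X := by omega
  have hXr : (1:ℝ) ≤ X := by exact_mod_cast hX1
  have hXlt : 2 * CP * B < X := by
    rw [hX]; push_cast; exact Nat.lt_floor_add_one _
  have hXle : (X : ℝ) - 1 ≤ 2 * CP * B := by
    rw [hX]; push_cast
    have := Nat.floor_le (a := 2 * CP * B) (by positivity)
    linarith
  -- the bound for the coefficients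
  have hfinal : (X : ℝ) - 1 ≤ Real.exp (T * Real.log T + (C4 + Real.log (2 * CP)) * T) := by
    refine hXle.trans ?_
    have h1 : 2 * CP * B = Real.exp (Real.log (2 * CP) + (T * Real.log T + C4 * T)) := by
      rw [Real.exp_add, Real.exp_log (by linarith)]
    rw [h1]
    apply Real.exp_le_exp.mpr
    nlinarith
  -- the bound for the values
  have hbound : ∀ n < S, ∀ t < T, ∀ (p : ℕ → ℕ → ℤ),
      (∀ i j, |(p i j : ℝ)| ≤ (X : ℝ) - 1) → ∀ σ : K →+* ℂ,
      ‖σ ((M n : K) ^ (A + N + t) * valE (v n) A N p t)‖ ≤ X * B := by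
    intro n hn t ht p hp σ
    have h1 := hSz n A N t X p (by positivity) (fun i j => (hp i j).trans (by linarith)) σ
    have htr : (t : ℝ) + 1 ≤ T := by exact_mod_cast ht
    have ht0 : (0:ℝ) ≤ t := Nat.cast_nonneg t
    rw [map_mul, map_pow, map_natCast, norm_mul, norm_pow, Complex.norm_natCast]
    have hMpos : (0:ℝ) < M n := by exact_mod_cast hM n
    have h2 : (M n : ℝ) ^ (A + N + t) =
        Real.exp (((A + N + t : ℕ) : ℝ) * Real.log (M n)) := by
      rw [Real.exp_nat_mul, Real.exp_log hMpos]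
    have hLt : (A : ℝ) + N + t + 1 ≤ c0 * T := by rw [hc0]; nlinarith
    have hLt0 : (1:ℝ) ≤ (A : ℝ) + N + t + 1 := by
      have : (0:ℝ) ≤ A := Nat.cast_nonneg A
      linarith
    have h3 : (t : ℝ) * Real.log (A + N + t + 1) ≤ T * Real.log T + Real.log c0 * T := by
      have h4 : Real.log (A + N + t + 1) ≤ Real.log T + Real.log c0 := by
        rw [← Real.log_mul (by linarith) (by linarith), mul_comm (T:ℝ)]
        exact Real.log_le_log (by linarith) hLt
      have h5 : 0 ≤ Real.log (A + N + t + 1) := Real.log_nonneg hLt0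
      calc (t : ℝ) * Real.log (A + N + t + 1) ≤ T * Real.log (A + N + t + 1) :=
            mul_le_mul_of_nonneg_right (by linarith) h5
        _ ≤ T * (Real.log T + Real.log c0) := mul_le_mul_of_nonneg_left h4 (by linarith)
        _ = _ := by ring
    have h6 : Cs n * ((A : ℝ) + N + t + 1) ≤ Cm * c0 * T := by
      calc Cs n * ((A : ℝ) + N + t + 1) ≤ Cm * (c0 * T) :=
            mul_le_mul (hCm1 n hn) hLt (by linarith) hCm0
        _ = _ := by ring
    have h7 : ((A + N + t : ℕ) : ℝ) * Real.log (M n) ≤ Lm * c0 * T := by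
      have h8 : ((A + N + t : ℕ) : ℝ) ≤ c0 * T := by
        push_cast
        linarith
      calc ((A + N + t : ℕ) : ℝ) * Real.log (M n) ≤ (c0 * T) * Lm :=
            mul_le_mul h8 (hLm1 n hn) (hlogM n) (by positivity)
        _ = _ := by ring
    calc (M n : ℝ) ^ (A + N + t) * ‖σ (valE (v n) A N p t)‖
        ≤ Real.exp (((A + N + t : ℕ) : ℝ) * Real.log (M n)) *
          (X * Real.exp (t * Real.log (A + N + t + 1) + Cs n * (A + N + t + 1))) := by
          rw [h2]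
          exact mul_le_mul_of_nonneg_left h1 (Real.exp_pos _).le
      _ = X * Real.exp (((A + N + t : ℕ) : ℝ) * Real.log (M n) +
          (t * Real.log (A + N + t + 1) + Cs n * (A + N + t + 1))) := by
          rw [Real.exp_add (((A + N + t : ℕ) : ℝ) * Real.log (M n))]; ring
      _ ≤ X * B := by
          apply mul_le_mul_of_nonneg_left _ (by positivity)
          apply Real.exp_le_exp.mpr
          have h9 : C4 * T = Real.log c0 * T + Cm * c0 * T + Lm * c0 * T := by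
            rw [hC4]; ring
          linarith
  -- the pigeonhole condition
  have hprod : ((CP * (1 + X * B)) ^ (Module.finrank ℚ K)) ^ (S * T) < (X : ℝ) ^ (A * N) := by
    have h1 : A * N = 2 * (κ * (S * T)) := by rw [hA, hT]; ring
    rw [← hκ, h1, ← pow_mul (CP * (1 + X * B)), pow_mul (X : ℝ) 2]
    have hXB : (1:ℝ) ≤ X * B := by nlinarith
    apply pow_lt_pow_left₀ _ (by positivity)
    · have hTp : 0 < T := by exact_mod_cast hT0
      have : 0 < κ * (S * T) := by positivity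
      exact this.ne'
    · calc CP * (1 + X * B) ≤ CP * (X * B + X * B) := by
            apply mul_le_mul_of_nonneg_left (by linarith) (by linarith)
        _ = (2 * CP * B) * X := by ring
        _ < X * X := by
            apply mul_lt_mul_of_pos_right hXlt (by linarith)
        _ = (X:ℝ) ^ 2 := by ring
  obtain ⟨p, hp1, hp2, hp3⟩ := core v S A N T X hX1 M hM hI CP hpig (X * B) (by positivity)
    hbound hprod
  exact ⟨p, fun i j => (hp1 i j).trans hfinal, hp2, hp3⟩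

end

end Pool.Agent.CHU.SLone
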