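import Pool.Agent.ZCM.Size

/-! # Two variable Schneider-Lang, algebra: the derivations `∂x`, `∂z` on polynomials in
`x, ℘(z), ℘'(z)/2, exp (a z + x), a, g` -/

namespace Pool.Agent.CHU.SL
open Pool.Agent.ZCM MvPolynomial

/-- `∂x` -/
noncomputable def dx (R : Type*) [CommRing R] :
    Derivation R (MvPolynomial (Fin 6) R) (MvPolynomial (Fin 6) R) :=
  mkDerivation R ![1, 0, 0, X 3, 0, 0]

/-- `∂z` -/
noncomputable def dz (R : Type*) [CommRing R] :
    Derivation R (MvPolynomial (Fin 6) R) (MvPolynomial (Fin 6) R) :=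
  mkDerivation R ![0, 2 * X 2, 3 * X 1 ^ 2 + X 5, X 4 * X 3, 0, 0]

variable {R : Type*} [CommRing R]

theorem dx_X (i : Fin 6) : dx R (X i) = ![1, 0, 0, X 3, 0, 0] i := by
  rw [dx, mkDerivation_X]

theorem dz_X (i : Fin 6) : dz R (X i) = ![0, 2 * X 2, 3 * X 1 ^ 2 + X 5, X 4 * X 3, 0, 0] i := by
  rw [dz, mkDerivation_X]

/-- the two derivations commute -/
theorem dx_dz (q : MvPolynomial (Fin 6) R) : dx R (dz R q) = dz R (dx R q) := by
  have h : ⁅dx R, dz R⁆ = 0 := by
    apply MvPolynomial.derivation_ext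
    intro i
    rw [Derivation.commutator_apply, dx_X, dz_X]
    fin_cases i
    · simp
    · simp [dx_X]
      rw [show (2 : MvPolynomial (Fin 6) R) = ((2 : ℕ) : MvPolynomial (Fin 6) R) by norm_num,
        Derivation.map_natCast]
    · simp [dx_X]
      rw [show (3 : MvPolynomial (Fin 6) R) = ((3 : ℕ) : MvPolynomial (Fin 6) R) by norm_num,
        Derivation.map_natCast]
    · simp [dx_X, dz_X]
    · simp
    · simp
  have := congrArg (fun D : Derivation R (MvPolynomial (Fin 6) R) (MvPolynomial (Fin 6) R) => D q) h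
  simp only [Derivation.commutator_apply, Derivation.zero_apply] at this
  exact sub_eq_zero.1 this

/-- the mixed derivative `∂x^m ∂z^n` -/
noncomputable def Dmn (R : Type*) [CommRing R] (m n : ℕ) (q : MvPolynomial (Fin 6) R) :
    MvPolynomial (Fin 6) R := (⇑(dx R))^[m] ((⇑(dz R))^[n] q)

theorem Dmn_comm (m n : ℕ) (q : MvPolynomial (Fin 6) R) :
    Dmn R m n q = (⇑(dz R))^[n] ((⇑(dx R))^[m] q) := by
  have h : Function.Commute (⇑(dx R)) (⇑(dz R)) := fun q => dx_dz q
  exact (h.iterate_iterate m n).eq q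

/-- the auxiliary polynomial -/
noncomputable def PL (R : Type*) [CommRing R] (D0 D1 D2 : ℕ) (p : ℕ → ℕ → ℕ → R) :
    MvPolynomial (Fin 6) R :=
  ∑ i ∈ Finset.range D0, ∑ j ∈ Finset.range D1, ∑ k ∈ Finset.range D2,
    C (p i j k) * (X 0 ^ i * X 1 ^ j * X 3 ^ k)

theorem map_dx {S : Type*} [CommRing S] (φ : R →+* S) (q : MvPolynomial (Fin 6) R) :
    MvPolynomial.map φ (dx R q) = dx S (MvPolynomial.map φ q) := by
  apply Size_map_deriv
  intro i
  fin_cases i <;> simp

theorem map_dz {S : Type*} [CommRing S] (φ : R →+* S) (q : MvPolynomial (Fin 6) R) :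
    MvPolynomial.map φ (dz R q) = dz S (MvPolynomial.map φ q) := by
  apply Size_map_deriv
  intro i
  fin_cases i <;> simp

theorem map_dx_iter {S : Type*} [CommRing S] (φ : R →+* S) (m : ℕ) (q : MvPolynomial (Fin 6) R) :
    MvPolynomial.map φ ((⇑(dx R))^[m] q) = (⇑(dx S))^[m] (MvPolynomial.map φ q) := by
  induction m with
  | zero => rfl
  | succ m ih => rw [Function.iterate_succ_apply', Function.iterate_succ_apply', map_dx, ih]

theorem map_dz_iter {S : Type*} [CommRing S] (φ : R →+* S) (m : ℕ) (q : MvPolynomial (Fin 6) R) :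
    MvPolynomial.map φ ((⇑(dz R))^[m] q) = (⇑(dz S))^[m] (MvPolynomial.map φ q) := by
  induction m with
  | zero => rfl
  | succ m ih => rw [Function.iterate_succ_apply', Function.iterate_succ_apply', map_dz, ih]

theorem map_Dmn {S : Type*} [CommRing S] (φ : R →+* S) (m n : ℕ) (q : MvPolynomial (Fin 6) R) :
    MvPolynomial.map φ (Dmn R m n q) = Dmn S m n (MvPolynomial.map φ q) := by
  rw [Dmn, map_dx_iter, map_dz_iter, Dmn]

theorem map_PL {S : Type*} [CommRing S] (φ : R →+* S) (D0 D1 D2 : ℕ) (p : ℕ → ℕ → ℕ → R) :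
    MvPolynomial.map φ (PL R D0 D1 D2 p) = PL S D0 D1 D2 (fun i j k => φ (p i j k)) := by
  simp [PL]

/-! ### degrees -/

theorem td_X_le (i : Fin 6) : (X i : MvPolynomial (Fin 6) R).totalDegree ≤ 1 := by
  rcases subsingleton_or_nontrivial R with h | h
  · have : (X i : MvPolynomial (Fin 6) R) = 0 := Subsingleton.elim _ _
    rw [this]; simp
  · rw [totalDegree_X]

theorem td_num_mul_le (n : ℕ) (q : MvPolynomial (Fin 6) R) :
    ((n : MvPolynomial (Fin 6) R) * q).totalDegree ≤ q.totalDegree := by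
  refine (totalDegree_mul _ _).trans ?_
  have : ((n : MvPolynomial (Fin 6) R)).totalDegree = 0 := by
    rw [show (n : MvPolynomial (Fin 6) R) = C (n : R) by simp]
    exact totalDegree_C _
  omega

theorem td_dx_le (q : MvPolynomial (Fin 6) R) : (dx R q).totalDegree ≤ q.totalDegree + 1 := by
  apply Size_totalDegree_deriv
  intro i
  fin_cases i
  · simp
  · simp
  · simp
  · exact (td_X_le 3).trans (by norm_num)
  · simp
  · simp

theorem td_dz_le (q : MvPolynomial (Fin 6) R) : (dz R q).totalDegree ≤ q.totalDegree + 1 := by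
  apply Size_totalDegree_deriv
  intro i
  fin_cases i
  · simp
  · exact (td_num_mul_le 2 (X 2)).trans ((td_X_le 2).trans (by norm_num))
  · refine (totalDegree_add _ _).trans (max_le ?_ ((td_X_le 5).trans (by norm_num)))
    refine (td_num_mul_le 3 (X 1 ^ 2)).trans ((totalDegree_pow _ _).trans ?_)
    have := td_X_le (R := R) 1
    omega
  · refine (totalDegree_mul _ _).trans ?_
    have h1 := td_X_le (R := R) 4
    have h2 := td_X_le (R := R) 3
    omega
  · simp
  · simp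

theorem td_dx_iter_le (m : ℕ) (q : MvPolynomial (Fin 6) R) :
    ((⇑(dx R))^[m] q).totalDegree ≤ q.totalDegree + m := by
  induction m with
  | zero => simp
  | succ m ih =>
    rw [Function.iterate_succ_apply']
    have := td_dx_le ((⇑(dx R))^[m] q)
    omega

theorem td_dz_iter_le (m : ℕ) (q : MvPolynomial (Fin 6) R) :
    ((⇑(dz R))^[m] q).totalDegree ≤ q.totalDegree + m := by
  induction m with
  | zero => simp
  | succ m ih =>
    rw [Function.iterate_succ_apply']
    have := td_dz_le ((⇑(dz R))^[m] q)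
    omega

theorem td_Dmn_le (m n : ℕ) (q : MvPolynomial (Fin 6) R) :
    (Dmn R m n q).totalDegree ≤ q.totalDegree + (m + n) := by
  have h1 := td_dx_iter_le m ((⇑(dz R))^[n] q)
  have h2 := td_dz_iter_le n q
  rw [Dmn]
  omega

theorem td_mono_le (i j k : ℕ) :
    (X 0 ^ i * X 1 ^ j * X 3 ^ k : MvPolynomial (Fin 6) R).totalDegree ≤ i + j + k := by
  have h : ∀ (s : Fin 6) (n : ℕ), (X s ^ n : MvPolynomial (Fin 6) R).totalDegree ≤ n := by
    intro s n
    refine (totalDegree_pow _ _).trans ?_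
    have := td_X_le (R := R) s
    calc n * (X s : MvPolynomial (Fin 6) R).totalDegree ≤ n * 1 := Nat.mul_le_mul_left _ this
      _ = n := by ring
  have h1 := totalDegree_mul (X 0 ^ i * X 1 ^ j : MvPolynomial (Fin 6) R) (X 3 ^ k)
  have h2 := totalDegree_mul (X 0 ^ i : MvPolynomial (Fin 6) R) (X 1 ^ j)
  have := h 0 i
  have := h 1 j
  have := h 3 k
  omega

theorem td_PL_le (D0 D1 D2 : ℕ) (p : ℕ → ℕ → ℕ → R) :
    (PL R D0 D1 D2 p).totalDegree ≤ D0 + D1 + D2 := by
  refine totalDegree_finsetSum_le fun i hi => totalDegree_finsetSum_le fun j hj =>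
    totalDegree_finsetSum_le fun k hk => ?_
  rw [Finset.mem_range] at hi hj hk
  refine (totalDegree_mul _ _).trans ?_
  rw [totalDegree_C]
  have := td_mono_le (R := R) i j k
  omega

/-! ### sizes -/

theorem nm_dx_le (q : MvPolynomial (Fin 6) ℂ) : nm (dx ℂ q) ≤ 4 * q.totalDegree * nm q := by
  apply Size_nm_deriv _ _ _ (by norm_num)
  intro i
  fin_cases i
  · exact (nm_one_le).trans (by norm_num)
  · simp [Size_nm_zero]
  · simp [Size_nm_zero]
  · exact (nm_X 3).le.trans (by norm_num)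
  · simp [Size_nm_zero]
  · simp [Size_nm_zero]

theorem nm_dz_le (q : MvPolynomial (Fin 6) ℂ) : nm (dz ℂ q) ≤ 4 * q.totalDegree * nm q := by
  apply Size_nm_deriv _ _ _ (by norm_num)
  intro i
  have h2 : nm (2 : MvPolynomial (Fin 6) ℂ) = 2 := by
    rw [← map_ofNat (C : ℂ →+* MvPolynomial (Fin 6) ℂ) 2, nm_C]; norm_num
  have h3 : nm (3 : MvPolynomial (Fin 6) ℂ) = 3 := by
    rw [← map_ofNat (C : ℂ →+* MvPolynomial (Fin 6) ℂ) 3, nm_C]; norm_num
  fin_cases i
  · simp [Size_nm_zero]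
  · refine (nm_mul_le _ _).trans ?_
    rw [h2]
    simp only [nm_X]
    norm_num
  · refine (nm_add_le _ _).trans ?_
    have h4 := nm_mul_le (3 : MvPolynomial (Fin 6) ℂ) (X 1 ^ 2)
    have h5 := nm_pow_le (X 1 : MvPolynomial (Fin 6) ℂ) 2
    rw [h3] at h4
    rw [nm_X] at h5 ⊢
    linarith
  · refine (nm_mul_le _ _).trans ?_
    simp only [nm_X]
    norm_num
  · simp [Size_nm_zero]
  · simp [Size_nm_zero]

theorem nm_dx_iter_le (m : ℕ) (q : MvPolynomial (Fin 6) ℂ) (B : ℝ)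
    (hB : (q.totalDegree + m : ℝ) ≤ B) :
    nm ((⇑(dx ℂ))^[m] q) ≤ (4 * B) ^ m * nm q := by
  induction m with
  | zero => simp
  | succ m ih =>
    push_cast at hB
    have hB0 : 0 ≤ B := le_trans (by positivity) hB
    rw [Function.iterate_succ_apply']
    have h1 := nm_dx_le ((⇑(dx ℂ))^[m] q)
    have h2 : (((⇑(dx ℂ))^[m] q).totalDegree : ℝ) ≤ B := by
      have := td_dx_iter_le (R := ℂ) m q
      have h3 : (((⇑(dx ℂ))^[m] q).totalDegree : ℝ) ≤ q.totalDegree + m := by exact_mod_cast this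
      linarith
    have h4 := ih (by linarith)
    have h5 := nm_nonneg ((⇑(dx ℂ))^[m] q)
    calc nm (dx ℂ ((⇑(dx ℂ))^[m] q)) ≤ 4 * (((⇑(dx ℂ))^[m] q).totalDegree : ℝ) *
          nm ((⇑(dx ℂ))^[m] q) := h1
      _ ≤ 4 * B * nm ((⇑(dx ℂ))^[m] q) := by gcongr
      _ ≤ 4 * B * ((4 * B) ^ m * nm q) := by gcongr
      _ = (4 * B) ^ (m + 1) * nm q := by ring

theorem nm_dz_iter_le (m : ℕ) (q : MvPolynomial (Fin 6) ℂ) (B : ℝ)
    (hB : (q.totalDegree + m : ℝ) ≤ B) :
    nm ((⇑(dz ℂ))^[m] q) ≤ (4 * B) ^ m * nm q := by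
  induction m with
  | zero => simp
  | succ m ih =>
    push_cast at hB
    have hB0 : 0 ≤ B := le_trans (by positivity) hB
    rw [Function.iterate_succ_apply']
    have h1 := nm_dz_le ((⇑(dz ℂ))^[m] q)
    have h2 : (((⇑(dz ℂ))^[m] q).totalDegree : ℝ) ≤ B := by
      have := td_dz_iter_le (R := ℂ) m q
      have h3 : (((⇑(dz ℂ))^[m] q).totalDegree : ℝ) ≤ q.totalDegree + m := by exact_mod_cast this
      linarith
    have h4 := ih (by linarith)
    have h5 := nm_nonneg ((⇑(dz ℂ))^[m] q)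
    calc nm (dz ℂ ((⇑(dz ℂ))^[m] q)) ≤ 4 * (((⇑(dz ℂ))^[m] q).totalDegree : ℝ) *
          nm ((⇑(dz ℂ))^[m] q) := h1
      _ ≤ 4 * B * nm ((⇑(dz ℂ))^[m] q) := by gcongr
      _ ≤ 4 * B * ((4 * B) ^ m * nm q) := by gcongr
      _ = (4 * B) ^ (m + 1) * nm q := by ring

theorem nm_Dmn_le (m n : ℕ) (q : MvPolynomial (Fin 6) ℂ) (B : ℝ)
    (hB : (q.totalDegree + m + n : ℝ) ≤ B) :
    nm (Dmn ℂ m n q) ≤ (4 * B) ^ (m + n) * nm q := by
  have hB0 : 0 ≤ B := le_trans (by positivity) hB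
  have h1 := nm_dz_iter_le n q B (by
    have : (0 : ℝ) ≤ m := Nat.cast_nonneg _
    linarith)
  have h2 := nm_dx_iter_le m ((⇑(dz ℂ))^[n] q) B (by
    have := td_dz_iter_le (R := ℂ) n q
    have h3 : (((⇑(dz ℂ))^[n] q).totalDegree : ℝ) ≤ q.totalDegree + n := by exact_mod_cast this
    linarith)
  calc nm (Dmn ℂ m n q) ≤ (4 * B) ^ m * nm ((⇑(dz ℂ))^[n] q) := h2
    _ ≤ (4 * B) ^ m * ((4 * B) ^ n * nm q) := by gcongr
    _ = (4 * B) ^ (m + n) * nm q := by ring

theorem nm_mono_le (i j k : ℕ) :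
    nm (X 0 ^ i * X 1 ^ j * X 3 ^ k : MvPolynomial (Fin 6) ℂ) ≤ 1 := by
  have h : ∀ (s : Fin 6) (n : ℕ), nm (X s ^ n : MvPolynomial (Fin 6) ℂ) ≤ 1 := by
    intro s n
    refine (nm_pow_le _ _).trans ?_
    rw [nm_X, one_pow]
  calc nm (X 0 ^ i * X 1 ^ j * X 3 ^ k : MvPolynomial (Fin 6) ℂ)
      ≤ nm (X 0 ^ i * X 1 ^ j : MvPolynomial (Fin 6) ℂ) * nm (X 3 ^ k : MvPolynomial (Fin 6) ℂ) :=
        nm_mul_le _ _
    _ ≤ (nm (X 0 ^ i : MvPolynomial (Fin 6) ℂ) * nm (X 1 ^ j : MvPolynomial (Fin 6) ℂ)) *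
        nm (X 3 ^ k : MvPolynomial (Fin 6) ℂ) := by
        gcongr
        · exact nm_nonneg _
        · exact nm_mul_le _ _
    _ ≤ (1 * 1) * 1 := by
        gcongr
        · exact nm_nonneg _
        · exact nm_nonneg _
        · exact h 0 i
        · exact h 1 j
        · exact h 3 k
    _ = 1 := by norm_num

theorem nm_PL_le (D0 D1 D2 : ℕ) (p : ℕ → ℕ → ℕ → ℂ) (H : ℝ) (hH : ∀ i j k, ‖p i j k‖ ≤ H) :
    nm (PL ℂ D0 D1 D2 p) ≤ D0 * D1 * D2 * H := by
  have h0 : 0 ≤ H := (norm_nonneg _).trans (hH 0 0 0)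
  refine (nm_sum_le _ _).trans ?_
  calc ∑ i ∈ Finset.range D0, nm (∑ j ∈ Finset.range D1, ∑ k ∈ Finset.range D2,
        (C (p i j k) * (X 0 ^ i * X 1 ^ j * X 3 ^ k) : MvPolynomial (Fin 6) ℂ))
      ≤ ∑ i ∈ Finset.range D0, ∑ j ∈ Finset.range D1, ∑ k ∈ Finset.range D2, H := by
        refine Finset.sum_le_sum fun i _ => (nm_sum_le _ _).trans ?_
        refine Finset.sum_le_sum fun j _ => (nm_sum_le _ _).trans ?_
        refine Finset.sum_le_sum fun k _ => ?_
        calc nm (C (p i j k) * (X 0 ^ i * X 1 ^ j * X 3 ^ k) : MvPolynomial (Fin 6) ℂ)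
            ≤ nm (C (p i j k) : MvPolynomial (Fin 6) ℂ) *
              nm (X 0 ^ i * X 1 ^ j * X 3 ^ k : MvPolynomial (Fin 6) ℂ) := nm_mul_le _ _
          _ ≤ H * 1 := by
              rw [nm_C]
              gcongr
              · exact nm_nonneg _
              · exact hH i j k
              · exact nm_mono_le i j k
          _ = H := mul_one H
    _ = D0 * D1 * D2 * H := by
        simp only [Finset.sum_const, Finset.card_range, nsmul_eq_mul]
        ring

/-! ### values in a field: size of the conjugates and denominators -/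

theorem norm_aeval_le {K : Type*} [Field K] (σ : K →+* ℂ) (w : Fin 6 → K) (M : ℝ) (hM : 1 ≤ M)
    (hw : ∀ i, ‖σ (w i)‖ ≤ M) (q : MvPolynomial (Fin 6) ℤ) (D : ℕ) (hD : q.totalDegree ≤ D) :
    ‖σ (aeval w q)‖ ≤ nm (MvPolynomial.map (Int.castRingHom ℂ) q) * M ^ D := by
  have h1 : σ (aeval w q) =
      eval (fun i => σ (w i)) (MvPolynomial.map (Int.castRingHom ℂ) q) := by
    rw [eval_map, aeval_def, eval₂_comp_left]
    congr 1
    exact Subsingleton.elim _ _
  rw [h1]
  refine (norm_eval_le _ _ M hM hw).trans ?_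
  have : (MvPolynomial.map (Int.castRingHom ℂ) q).totalDegree ≤ D :=
    ((Finset.sup_mono (support_map_subset _ _)).trans hD)
  gcongr
  exact nm_nonneg _

theorem int_aeval {K : Type*} [Field K] (w : Fin 6 → K) (d : ℕ)
    (hd : ∀ i, IsIntegral ℤ ((d : K) * w i)) (q : MvPolynomial (Fin 6) ℤ) (D : ℕ)
    (hD : q.totalDegree ≤ D) : IsIntegral ℤ ((d : K) ^ D * aeval w q) := by
  rw [q.as_sum, map_sum, Finset.mul_sum]
  refine IsIntegral.sum _ fun m hm => ?_
  rw [aeval_monomial]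
  have h1 : m.degree ≤ D := (le_totalDegree hm).trans hD
  have h2 : (d : K) ^ D * ((algebraMap ℤ K) (coeff m q) * m.prod fun i k => w i ^ k) =
      ((coeff m q : ℤ) : K) * ((d : K) ^ (D - m.degree) * m.prod fun i k => ((d : K) * w i) ^ k) := by
    have h3 : (m.prod fun i k => ((d : K) * w i) ^ k) =
        (d : K) ^ m.degree * m.prod fun i k => w i ^ k := by
      simp only [mul_pow]
      rw [Finsupp.prod_mul]
      congr 1
      rw [Finsupp.prod, Finset.prod_pow_eq_pow_sum]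
      rfl
    rw [h3]
    have h4 : (d : K) ^ D = (d : K) ^ (D - m.degree) * (d : K) ^ m.degree := by
      rw [← pow_add, Nat.sub_add_cancel h1]
    rw [h4]
    simp
    ring
  rw [h2]
  refine IsIntegral.mul ?_ (IsIntegral.mul ?_ ?_)
  · exact_mod_cast isIntegral_algebraMap (R := ℤ) (A := K) (x := coeff m q)
  · have : IsIntegral ℤ (d : K) := by
      exact_mod_cast isIntegral_algebraMap (R := ℤ) (A := K) (x := (d : ℤ))
    exact this.pow _
  · refine IsIntegral.prod _ fun i _ => (hd i).pow _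

end Pool.Agent.CHU.SL
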