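import Pool.Agent.ZFin.DerivG
import Pool.Agent.ZFin.Shift
import Pool.Agent.CHU.SL2P

/-! # Two variable Schneider-Lang, analysis -/

namespace Pool.Agent.CHU.SL
open Pool.Agent.ZCM Pool.Agent.ZFin
open Filter Topology
open scoped NNReal ENNReal

/-- the point `(x, ℘ z, ℘' z / 2, exp (α z + x), α, g)` -/
noncomputable def V (L : PeriodPair) (α g x z : ℂ) : Fin 6 → ℂ :=
  ![x, L.weierstrassP z, L.derivWeierstrassP z / 2, Complex.exp (α * z + x), α, g]

/-- the derivative in the direction `(β, u)` -/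
noncomputable def Dv (β u : ℂ) :
    Derivation ℂ (MvPolynomial (Fin 6) ℂ) (MvPolynomial (Fin 6) ℂ) :=
  β • dx ℂ + u • dz ℂ

theorem Dv_apply (β u : ℂ) (q : MvPolynomial (Fin 6) ℂ) :
    Dv β u q = β • dx ℂ q + u • dz ℂ q := rfl

section
variable (L : PeriodPair) (α g b : ℂ) (h2 : L.g₂ = -4 * g) (h3 : L.g₃ = -4 * b)
include h2 h3

theorem V_hasDerivAt (β u x0 z0 : ℂ) (q : MvPolynomial (Fin 6) ℂ) {s : ℂ}
    (hs : z0 + s * u ∉ L.lattice) :
    HasDerivAt (fun s => MvPolynomial.eval (V L α g (x0 + s * β) (z0 + s * u)) q)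
      (MvPolynomial.eval (V L α g (x0 + s * β) (z0 + s * u)) (Dv β u q)) s := by
  induction q using MvPolynomial.induction_on with
  | C r =>
    have h1 : Dv β u (MvPolynomial.C r) = 0 := (Dv β u).map_algebraMap r
    rw [h1, map_zero]
    simp only [MvPolynomial.eval_C]
    exact hasDerivAt_const s r
  | add p q hp hq =>
    rw [map_add, map_add]
    simp only [map_add]
    exact hp.add hq
  | mul_X p i hp =>
    rw [Derivation.leibniz]
    simp only [map_add, smul_eq_mul, map_mul, MvPolynomial.eval_X]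
    have hx : HasDerivAt (fun s : ℂ => x0 + s * β) β s := by
      simpa using ((hasDerivAt_id' s).mul_const β).const_add x0
    have hzz : HasDerivAt (fun s : ℂ => z0 + s * u) u s := by
      simpa using ((hasDerivAt_id' s).mul_const u).const_add z0
    have hi : HasDerivAt (fun s => V L α g (x0 + s * β) (z0 + s * u) i)
        (MvPolynomial.eval (V L α g (x0 + s * β) (z0 + s * u))
          (Dv β u (MvPolynomial.X i))) s := by
      rw [Dv_apply, dx_X, dz_X]
      fin_cases i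
      · simpa [V, MvPolynomial.smul_eq_C_mul] using hx
      · have h := HasDerivAt.comp s (hasDerivAt_P L hs) hzz
        exact HasDerivAt.congr_deriv h (by simp [V, MvPolynomial.smul_eq_C_mul]; ring)
      · have h := HasDerivAt.comp s (hasDerivAt_P' L g b h2 h3 hs) hzz
        exact HasDerivAt.congr_deriv h (by simp [V, MvPolynomial.smul_eq_C_mul]; ring)
      · have h := ((hzz.const_mul α).add hx).cexp
        exact HasDerivAt.congr_deriv h (by simp [V, MvPolynomial.smul_eq_C_mul]; ring)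
      · simpa [V] using hasDerivAt_const s α
      · simpa [V] using hasDerivAt_const s g
    have := hp.mul hi
    refine this.congr_deriv ?_
    ring

theorem line_open (u z0 : ℂ) : IsOpen {s : ℂ | z0 + s * u ∉ L.lattice} := by
  have h : Continuous fun s : ℂ => z0 + s * u := by fun_prop
  exact (isOpen_compl L).preimage h

theorem V_iteratedDeriv (β u x0 z0 : ℂ) (q : MvPolynomial (Fin 6) ℂ) (t : ℕ) {s : ℂ}
    (hs : z0 + s * u ∉ L.lattice) :
    iteratedDeriv t (fun s => MvPolynomial.eval (V L α g (x0 + s * β) (z0 + s * u)) q) s =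
      MvPolynomial.eval (V L α g (x0 + s * β) (z0 + s * u)) ((⇑(Dv β u))^[t] q) := by
  induction t generalizing s with
  | zero => simp
  | succ n ih =>
    rw [iteratedDeriv_succ]
    have hev : iteratedDeriv n
        (fun s => MvPolynomial.eval (V L α g (x0 + s * β) (z0 + s * u)) q) =ᶠ[𝓝 s]
        fun s => MvPolynomial.eval (V L α g (x0 + s * β) (z0 + s * u)) ((⇑(Dv β u))^[n] q) := by
      filter_upwards [(line_open L g b h2 h3 u z0).mem_nhds hs] with s' hs'
      exact ih hs'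
    rw [hev.deriv_eq, (V_hasDerivAt L α g b h2 h3 β u x0 z0 _ hs).deriv,
      Function.iterate_succ_apply']

theorem V_analyticAt (β u x0 z0 : ℂ) (q : MvPolynomial (Fin 6) ℂ) {s : ℂ}
    (hs : z0 + s * u ∉ L.lattice) :
    AnalyticAt ℂ (fun s => MvPolynomial.eval (V L α g (x0 + s * β) (z0 + s * u)) q) s := by
  have hd : DifferentiableOn ℂ
      (fun s => MvPolynomial.eval (V L α g (x0 + s * β) (z0 + s * u)) q)
      {s : ℂ | z0 + s * u ∉ L.lattice} := fun s' hs' =>
    (V_hasDerivAt L α g b h2 h3 β u x0 z0 q hs').differentiableAt.differentiableWithinAt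
  exact hd.analyticAt ((line_open L g b h2 h3 u z0).mem_nhds hs)

/-- derivatives of `G = S^w F` on a line at a point where the first ones of `F` vanish -/
theorem V_deriv_G (β u x0 z0 : ℂ) (w : ℕ) (q : MvPolynomial (Fin 6) ℂ) (G : ℂ → ℂ)
    (hG : ∀ s, z0 + s * u ∉ L.lattice → G s = ev (SS g b) (z0 + s * u) ^ w *
      MvPolynomial.eval (V L α g (x0 + s * β) (z0 + s * u)) q)
    (s0 : ℂ) (hs0 : z0 + s0 * u ∉ L.lattice) (e : ℕ)
    (h : ∀ t < e, MvPolynomial.eval (V L α g (x0 + s0 * β) (z0 + s0 * u))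
      ((⇑(Dv β u))^[t] q) = 0) :
    (∀ t < e, iteratedDeriv t G s0 = 0) ∧
      iteratedDeriv e G s0 = ev (SS g b) (z0 + s0 * u) ^ w *
        MvPolynomial.eval (V L α g (x0 + s0 * β) (z0 + s0 * u)) ((⇑(Dv β u))^[e] q) := by
  have hS : Differentiable ℂ (ev (SS g b)) := differentiable_ev (Gr_SS g b).ent
  have hA : AnalyticAt ℂ (fun s => ev (SS g b) (z0 + s * u) ^ w) s0 := by
    have hdiff : Differentiable ℂ (fun s => ev (SS g b) (z0 + s * u) ^ w) := by fun_prop
    exact hdiff.analyticAt s0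
  have hφ := V_analyticAt L α g b h2 h3 β u x0 z0 q hs0
  have hev : G =ᶠ[𝓝 s0] (fun s => ev (SS g b) (z0 + s * u) ^ w) *
      fun s => MvPolynomial.eval (V L α g (x0 + s * β) (z0 + s * u)) q := by
    filter_upwards [(line_open L g b h2 h3 u z0).mem_nhds hs0] with s hs
    exact hG s hs
  have key : ∀ t ≤ e, iteratedDeriv t G s0 =
      ev (SS g b) (z0 + s0 * u) ^ w *
        MvPolynomial.eval (V L α g (x0 + s0 * β) (z0 + s0 * u)) ((⇑(Dv β u))^[t] q) := by
    intro t ht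
    rw [hev.iteratedDeriv_eq, Curve_leibniz _ _ t s0 hA hφ (fun j hj => ?_),
      V_iteratedDeriv L α g b h2 h3 β u x0 z0 q t hs0]
    rw [V_iteratedDeriv L α g b h2 h3 β u x0 z0 q j hs0]
    exact h j (lt_of_lt_of_le hj ht)
  exact ⟨fun t ht => by rw [key t ht.le, h t ht, mul_zero], key e le_rfl⟩

end

/-! ### the operator `(∂x + k)^m` on polynomials in `x` -/

open Polynomial in
/-- `q ↦ q' + c q` -/
noncomputable def Wp (c : ℂ) (q : ℂ[X]) : ℂ[X] := derivative q + C c * q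

open Polynomial in
theorem natDegree_Wp_le (c : ℂ) (q : ℂ[X]) : (Wp c q).natDegree ≤ q.natDegree := by
  refine (natDegree_add_le _ _).trans (max_le ?_ (natDegree_C_mul_le _ _))
  exact (natDegree_derivative_le q).trans (Nat.sub_le _ _)

open Polynomial in
theorem nm1_derivative_le (q : ℂ[X]) : nm1 (derivative q) ≤ q.natDegree * nm1 q := by
  have h1 : derivative q = ∑ n ∈ q.support, C (q.coeff n * n) * X ^ (n - 1) := by
    rw [derivative_apply, Polynomial.sum]
  rw [h1]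
  refine (Gel_nm1_sum_le _ _).trans ?_
  rw [nm1, Finset.mul_sum]
  refine Finset.sum_le_sum fun n hn => ?_
  refine (Reduce_nm1_monomial _ _).trans ?_
  rw [norm_mul, mul_comm]
  have : (n : ℝ) ≤ q.natDegree := by exact_mod_cast le_natDegree_of_mem_supp n hn
  have h3 : ‖(n : ℂ)‖ = n := by simp
  rw [h3]
  gcongr

open Polynomial in
theorem nm1_Wp_le (c : ℂ) (q : ℂ[X]) : nm1 (Wp c q) ≤ (q.natDegree + ‖c‖) * nm1 q := by
  refine (nm1_add_le _ _).trans ?_
  have h1 := nm1_derivative_le q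
  have h2 := nm1_C_mul c q
  linarith

open Polynomial in
theorem natDegree_Wp_iter_le (c : ℂ) (q : ℂ[X]) (m : ℕ) :
    ((Wp c)^[m] q).natDegree ≤ q.natDegree := by
  induction m with
  | zero => simp
  | succ m ih =>
    rw [Function.iterate_succ_apply']
    exact (natDegree_Wp_le _ _).trans ih

open Polynomial in
theorem nm1_Wp_iter_le (c : ℂ) (q : ℂ[X]) (m : ℕ) :
    nm1 ((Wp c)^[m] q) ≤ (q.natDegree + ‖c‖) ^ m * nm1 q := by
  induction m with
  | zero => simp
  | succ m ih =>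
    rw [Function.iterate_succ_apply']
    have h1 := nm1_Wp_le c ((Wp c)^[m] q)
    have h2 : (((Wp c)^[m] q).natDegree : ℝ) ≤ q.natDegree := by
      exact_mod_cast natDegree_Wp_iter_le c q m
    calc nm1 (Wp c ((Wp c)^[m] q)) ≤ ((((Wp c)^[m] q).natDegree : ℝ) + ‖c‖) *
          nm1 ((Wp c)^[m] q) := h1
      _ ≤ (q.natDegree + ‖c‖) * nm1 ((Wp c)^[m] q) := by
          gcongr
          exact nm1_nonneg _
      _ ≤ (q.natDegree + ‖c‖) * ((q.natDegree + ‖c‖) ^ m * nm1 q) := by gcongr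
      _ = (q.natDegree + ‖c‖) ^ (m + 1) * nm1 q := by ring

theorem norm_Wp_eval_le (c : ℂ) (i m : ℕ) (x : ℂ) :
    ‖((Wp c)^[m] (Polynomial.X ^ i)).eval x‖ ≤ (i + ‖c‖) ^ m * max 1 ‖x‖ ^ i := by
  have h1 := norm_eval_le1 ((Wp c)^[m] (Polynomial.X ^ i)) x
  have h2 := nm1_Wp_iter_le c (Polynomial.X ^ i) m
  have h3 := natDegree_Wp_iter_le c (Polynomial.X ^ i) m
  rw [Polynomial.natDegree_X_pow] at h2 h3
  have h4 : nm1 ((Polynomial.X : Polynomial ℂ) ^ i) ≤ 1 := by
    have := Reduce_nm1_monomial 1 i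
    simpa using this
  have h0 : 0 ≤ nm1 ((Wp c)^[m] (Polynomial.X ^ i)) := nm1_nonneg _
  calc ‖((Wp c)^[m] (Polynomial.X ^ i)).eval x‖
      ≤ nm1 ((Wp c)^[m] (Polynomial.X ^ i)) *
        max 1 ‖x‖ ^ ((Wp c)^[m] (Polynomial.X ^ i)).natDegree := h1
    _ ≤ nm1 ((Wp c)^[m] (Polynomial.X ^ i)) * max 1 ‖x‖ ^ i := by
        gcongr
        exact le_max_left _ _
    _ ≤ ((i + ‖c‖) ^ m * 1) * max 1 ‖x‖ ^ i := by
        gcongr
        exact h2.trans (by gcongr)
    _ = (i + ‖c‖) ^ m * max 1 ‖x‖ ^ i := by ring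

/-- `∂x` on `q(x) e^k` -/
theorem dx_aeval (q : Polynomial ℂ) (k : ℕ) :
    dx ℂ (Polynomial.aeval (MvPolynomial.X 0) q * MvPolynomial.X 3 ^ k) =
      Polynomial.aeval (MvPolynomial.X 0) (Wp k q) * MvPolynomial.X 3 ^ k := by
  rw [Derivation.leibniz, Derivation.map_aeval, Derivation.leibniz_pow, dx_X, dx_X, Wp]
  simp only [map_add, map_mul, Polynomial.aeval_C]
  rcases k with _ | k
  · simp
  · simp [pow_succ]
    ring

theorem dx_iter_aeval (q : Polynomial ℂ) (k m : ℕ) :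
    (⇑(dx ℂ))^[m] (Polynomial.aeval (MvPolynomial.X 0) q * MvPolynomial.X 3 ^ k) =
      Polynomial.aeval (MvPolynomial.X 0) ((Wp k)^[m] q) * MvPolynomial.X 3 ^ k := by
  induction m with
  | zero => rfl
  | succ m ih => rw [Function.iterate_succ_apply', Function.iterate_succ_apply', ih, dx_aeval]

theorem dx_iter_mul (q : MvPolynomial (Fin 6) ℂ) (c : ℂ) (j m : ℕ) :
    (⇑(dx ℂ))^[m] (MvPolynomial.C c * MvPolynomial.X 1 ^ j * q) =
      MvPolynomial.C c * MvPolynomial.X 1 ^ j * (⇑(dx ℂ))^[m] q := by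
  induction m with
  | zero => rfl
  | succ m ih =>
    rw [Function.iterate_succ_apply', Function.iterate_succ_apply', ih, Derivation.leibniz]
    have h : dx ℂ (MvPolynomial.C c * MvPolynomial.X 1 ^ j) = 0 := by
      rw [Derivation.leibniz, Derivation.leibniz_pow, dx_X]
      have : dx ℂ (MvPolynomial.C c) = 0 := (dx ℂ).map_algebraMap c
      rw [this]
      simp
    rw [h]
    simp

/-- `∂x^m` of the auxiliary polynomial -/
theorem dx_iter_PL (D0 D1 D2 : ℕ) (p : ℕ → ℕ → ℕ → ℂ) (m : ℕ) :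
    (⇑(dx ℂ))^[m] (PL ℂ D0 D1 D2 p) =
      ∑ i ∈ Finset.range D0, ∑ j ∈ Finset.range D1, ∑ k ∈ Finset.range D2,
        MvPolynomial.C (p i j k) * MvPolynomial.X 1 ^ j *
          (Polynomial.aeval (MvPolynomial.X 0) ((Wp k)^[m] (Polynomial.X ^ i)) *
            MvPolynomial.X 3 ^ k) := by
  rw [PL]
  have hs : ∀ {ι : Type} (s : Finset ι) (f : ι → MvPolynomial (Fin 6) ℂ),
      (⇑(dx ℂ))^[m] (∑ i ∈ s, f i) = ∑ i ∈ s, (⇑(dx ℂ))^[m] (f i) := by
    intro ι s f
    induction m with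
    | zero => rfl
    | succ m ih =>
      rw [Function.iterate_succ_apply', ih, map_sum]
      refine Finset.sum_congr rfl fun i _ => ?_
      rw [Function.iterate_succ_apply']
  rw [hs]
  refine Finset.sum_congr rfl fun i _ => ?_
  rw [hs]
  refine Finset.sum_congr rfl fun j _ => ?_
  rw [hs]
  refine Finset.sum_congr rfl fun k _ => ?_
  rw [← dx_iter_aeval, ← dx_iter_mul]
  congr 1
  simp
  ring

/-- the entire function `σ^(2 D1) ∂x^m F` -/
noncomputable def EL (α g b : ℂ) (D0 D1 D2 : ℕ) (p : ℕ → ℕ → ℕ → ℂ) (m : ℕ) (x z : ℂ) : ℂ :=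
  ∑ i ∈ Finset.range D0, ∑ j ∈ Finset.range D1, ∑ k ∈ Finset.range D2,
    p i j k * (ev (SS g b) z ^ (2 * (D1 - j)) * ev (QQ g b) z ^ j) *
      (((Wp k)^[m] (Polynomial.X ^ i)).eval x * Complex.exp (α * z + x) ^ k)

theorem link_EL (L : PeriodPair) (α g b : ℂ) (h2 : L.g₂ = -4 * g) (h3 : L.g₃ = -4 * b)
    (D0 D1 D2 : ℕ) (p : ℕ → ℕ → ℕ → ℂ) (m : ℕ) (x : ℂ) {z : ℂ} (hz : z ∉ L.lattice) :
    EL α g b D0 D1 D2 p m x z = ev (SS g b) z ^ (2 * D1) *
      MvPolynomial.eval (V L α g x z) ((⇑(dx ℂ))^[m] (PL ℂ D0 D1 D2 p)) := by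
  rw [dx_iter_PL, EL]
  have hQ := link_Q L g b h2 h3 hz
  simp only [map_sum, Finset.mul_sum]
  refine Finset.sum_congr rfl fun i _ => Finset.sum_congr rfl fun j hj =>
    Finset.sum_congr rfl fun k hk => ?_
  rw [Finset.mem_range] at hj hk
  have h1 : ev (SS g b) z ^ (2 * D1) = ev (SS g b) z ^ (2 * (D1 - j)) *
      (ev (SS g b) z ^ 2) ^ j := by
    rw [← pow_mul, ← pow_add]
    congr 1
    omega
  have h5 : MvPolynomial.eval (V L α g x z)
      (Polynomial.aeval (MvPolynomial.X 0) ((Wp k)^[m] (Polynomial.X ^ i))) =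
      ((Wp k)^[m] (Polynomial.X ^ i)).eval x := by
    have h6 := Polynomial.hom_eval₂ ((Wp (k : ℂ))^[m] (Polynomial.X ^ i))
      (algebraMap ℂ (MvPolynomial (Fin 6) ℂ)) (MvPolynomial.eval (V L α g x z))
      (MvPolynomial.X 0)
    rw [Polynomial.aeval_def, h6]
    have h7 : (MvPolynomial.eval (V L α g x z)).comp (algebraMap ℂ (MvPolynomial (Fin 6) ℂ)) =
        RingHom.id ℂ := by
      ext c
      simp
    rw [h7]
    simp [V, Polynomial.eval₂_id]
  rw [h1, ← hQ]
  simp only [map_mul, map_pow, MvPolynomial.eval_C, MvPolynomial.eval_X, h5]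
  have h8 : V L α g x z 1 = L.weierstrassP z := rfl
  have h9 : V L α g x z 3 = Complex.exp (α * z + x) := rfl
  rw [h8, h9, mul_pow]
  ring

end Pool.Agent.CHU.SL
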