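import Pool.Agent.CHU.SL2A
import Pool.Agent.ZFin.Schwarz

/-! # Two variable Schneider-Lang: growth, Schwarz lemma on a line -/

namespace Pool.Agent.CHU.SL
open Pool.Agent.ZCM Pool.Agent.ZFin
open Filter Topology
open scoped NNReal ENNReal

theorem norm_ev_exp (f : PowerSeries ℂ) (hf : Gr f) : ∃ C : ℝ, 0 ≤ C ∧ ∀ z : ℂ,
    ‖ev f z‖ ≤ Real.exp (C * (1 + ‖z‖ ^ 2)) := by
  obtain ⟨C, hC, h⟩ := hf
  refine ⟨C, hC, fun z => ?_⟩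
  have h1 := norm_ev_le (Gr.ent ⟨C, hC, h⟩) (z := z) (r := ‖z‖₊) le_rfl
  refine h1.trans ?_
  have h2 := ENNReal.toReal_mono ENNReal.ofReal_ne_top (h ‖z‖₊)
  rw [ENNReal.toReal_ofReal (Real.exp_pos _).le] at h2
  exact h2

/-- the entire function restricted to a line is entire -/
theorem differentiable_EL (α g b : ℂ) (D0 D1 D2 : ℕ) (p : ℕ → ℕ → ℕ → ℂ) (m : ℕ)
    (x0 z0 β u : ℂ) :
    Differentiable ℂ fun s => EL α g b D0 D1 D2 p m (x0 + s * β) (z0 + s * u) := by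
  have hS : Differentiable ℂ (ev (SS g b)) := differentiable_ev (Gr_SS g b).ent
  have hQ : Differentiable ℂ (ev (QQ g b)) := differentiable_ev (Gr_QQ g b).ent
  have hp : ∀ q : Polynomial ℂ, Differentiable ℂ fun s : ℂ => q.eval (x0 + s * β) := by
    intro q
    exact q.differentiable.comp (by fun_prop)
  unfold EL
  fun_prop

/-- growth of the entire function -/
theorem grow_EL (α g b : ℂ) : ∃ C : ℝ, 0 ≤ C ∧ ∀ (D0 D1 D2 : ℕ) (p : ℕ → ℕ → ℕ → ℂ) (H : ℝ),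
    0 ≤ H → (∀ i < D0, ∀ j < D1, ∀ k < D2, ‖p i j k‖ ≤ H) → ∀ (m : ℕ) (x z : ℂ) (ρ : ℝ), 1 ≤ ρ →
    ‖x‖ ≤ ρ → ‖z‖ ≤ ρ →
    ‖EL α g b D0 D1 D2 p m x z‖ ≤ H * (D0 * D1 * D2) * ((D0 + D2 : ℝ) ^ m * ρ ^ D0 *
      Real.exp (C * (D1 * ρ ^ 2 + D2 * ρ))) := by
  obtain ⟨C1, hC1, g1⟩ := norm_ev_exp _ (Gr_SS g b)
  obtain ⟨C2, hC2, g2⟩ := norm_ev_exp _ (Gr_QQ g b)
  refine ⟨4 * (C1 + C2) + (1 + ‖α‖), by positivity, fun D0 D1 D2 p H hH hp m x z ρ hρ hx hz => ?_⟩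
  set E : ℝ := Real.exp ((C1 + C2) * (2 * ρ ^ 2)) with hE
  have hρ0 : 0 < ρ := by linarith
  have hρ2 : 1 ≤ ρ ^ 2 := by nlinarith
  have hz2 : ‖z‖ ^ 2 ≤ ρ ^ 2 := by
    have := norm_nonneg z
    gcongr
  have hE1 : 1 ≤ E := Real.one_le_exp (by positivity)
  have hE0 : 0 < E := by linarith
  have k1 : ‖ev (SS g b) z‖ ≤ E := (g1 z).trans (Real.exp_le_exp.2 (by
    have : 1 + ‖z‖ ^ 2 ≤ 2 * ρ ^ 2 := by linarith
    calc C1 * (1 + ‖z‖ ^ 2) ≤ C1 * (2 * ρ ^ 2) := by gcongr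
      _ ≤ (C1 + C2) * (2 * ρ ^ 2) := by gcongr; linarith))
  have k2 : ‖ev (QQ g b) z‖ ≤ E := (g2 z).trans (Real.exp_le_exp.2 (by
    have : 1 + ‖z‖ ^ 2 ≤ 2 * ρ ^ 2 := by linarith
    calc C2 * (1 + ‖z‖ ^ 2) ≤ C2 * (2 * ρ ^ 2) := by gcongr
      _ ≤ (C1 + C2) * (2 * ρ ^ 2) := by gcongr; linarith))
  have k3 : ‖Complex.exp (α * z + x)‖ ≤ Real.exp ((1 + ‖α‖) * ρ) := by
    rw [Complex.norm_exp]
    refine Real.exp_le_exp.2 ((Complex.re_le_norm _).trans ((norm_add_le _ _).trans ?_))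
    rw [norm_mul]
    have := norm_nonneg α
    nlinarith [mul_le_mul_of_nonneg_left hz this]
  have k3' : 1 ≤ Real.exp ((1 + ‖α‖) * ρ) := Real.one_le_exp (by positivity)
  have hterm : ∀ i ∈ Finset.range D0, ∀ j ∈ Finset.range D1, ∀ k ∈ Finset.range D2,
      ‖p i j k * (ev (SS g b) z ^ (2 * (D1 - j)) * ev (QQ g b) z ^ j) *
      (((Wp k)^[m] (Polynomial.X ^ i)).eval x * Complex.exp (α * z + x) ^ k)‖ ≤
      H * E ^ (2 * D1) * ((D0 + D2 : ℝ) ^ m * ρ ^ D0 * Real.exp ((1 + ‖α‖) * ρ) ^ D2) := by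
    intro i hi j hj k hk
    rw [Finset.mem_range] at hi hj hk
    rw [norm_mul, norm_mul, norm_mul, norm_mul, norm_pow, norm_pow, norm_pow]
    have t1 : ‖ev (SS g b) z‖ ^ (2 * (D1 - j)) * ‖ev (QQ g b) z‖ ^ j ≤ E ^ (2 * D1) := by
      calc ‖ev (SS g b) z‖ ^ (2 * (D1 - j)) * ‖ev (QQ g b) z‖ ^ j
          ≤ E ^ (2 * (D1 - j)) * E ^ j := by gcongr
        _ = E ^ (2 * (D1 - j) + j) := by rw [pow_add]
        _ ≤ E ^ (2 * D1) := pow_le_pow_right₀ hE1 (by omega)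
    have t2 : ‖((Wp k)^[m] (Polynomial.X ^ i)).eval x‖ ≤ (D0 + D2 : ℝ) ^ m * ρ ^ D0 := by
      refine (norm_Wp_eval_le (k : ℂ) i m x).trans ?_
      have h1 : ‖(k : ℂ)‖ = k := by simp
      rw [h1]
      have h2 : (i : ℝ) ≤ D0 := by exact_mod_cast hi.le
      have h3 : (k : ℝ) ≤ D2 := by exact_mod_cast hk.le
      have h4 : max 1 ‖x‖ ≤ ρ := max_le hρ hx
      have h5 : max 1 ‖x‖ ^ i ≤ ρ ^ D0 := by
        calc max 1 ‖x‖ ^ i ≤ ρ ^ i := by gcongr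
          _ ≤ ρ ^ D0 := pow_le_pow_right₀ hρ hi.le
      gcongr
    have t3 : ‖Complex.exp (α * z + x)‖ ^ k ≤ Real.exp ((1 + ‖α‖) * ρ) ^ D2 := by
      calc ‖Complex.exp (α * z + x)‖ ^ k ≤ Real.exp ((1 + ‖α‖) * ρ) ^ k := by gcongr
        _ ≤ Real.exp ((1 + ‖α‖) * ρ) ^ D2 := pow_le_pow_right₀ k3' hk.le
    have t4 := hp i hi j hj k hk
    gcongr
  have hsum : ‖EL α g b D0 D1 D2 p m x z‖ ≤
      ∑ i ∈ Finset.range D0, ∑ j ∈ Finset.range D1, ∑ k ∈ Finset.range D2,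
        H * E ^ (2 * D1) * ((D0 + D2 : ℝ) ^ m * ρ ^ D0 * Real.exp ((1 + ‖α‖) * ρ) ^ D2) := by
    unfold EL
    refine (norm_sum_le _ _).trans (Finset.sum_le_sum fun i hi => ?_)
    refine (norm_sum_le _ _).trans (Finset.sum_le_sum fun j hj => ?_)
    refine (norm_sum_le _ _).trans (Finset.sum_le_sum fun k hk => ?_)
    exact hterm i hi j hj k hk
  refine hsum.trans ?_
  simp only [Finset.sum_const, Finset.card_range, nsmul_eq_mul]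
  have hE2 : E ^ (2 * D1) = Real.exp ((4 * (C1 + C2)) * (D1 * ρ ^ 2)) := by
    rw [hE, ← Real.exp_nat_mul]
    congr 1
    push_cast
    ring
  have hE3 : Real.exp ((1 + ‖α‖) * ρ) ^ D2 = Real.exp ((1 + ‖α‖) * (D2 * ρ)) := by
    rw [← Real.exp_nat_mul]
    congr 1
    ring
  have hE4 : E ^ (2 * D1) * Real.exp ((1 + ‖α‖) * ρ) ^ D2 ≤
      Real.exp ((4 * (C1 + C2) + (1 + ‖α‖)) * (D1 * ρ ^ 2 + D2 * ρ)) := by
    rw [hE2, hE3, ← Real.exp_add]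
    refine Real.exp_le_exp.2 ?_
    have h1 : (0 : ℝ) ≤ D1 * ρ ^ 2 := by positivity
    have h2 : (0 : ℝ) ≤ D2 * ρ := by positivity
    have h3 : (0 : ℝ) ≤ 1 + ‖α‖ := by positivity
    have h4 : (0 : ℝ) ≤ 4 * (C1 + C2) := by positivity
    nlinarith [mul_nonneg h3 h1, mul_nonneg h4 h2]
  calc (D0 : ℝ) * (D1 * (D2 * (H * E ^ (2 * D1) *
        ((D0 + D2 : ℝ) ^ m * ρ ^ D0 * Real.exp ((1 + ‖α‖) * ρ) ^ D2))))
      = H * (D0 * D1 * D2) * ((D0 + D2 : ℝ) ^ m * ρ ^ D0 *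
        (E ^ (2 * D1) * Real.exp ((1 + ‖α‖) * ρ) ^ D2)) := by ring
    _ ≤ H * (D0 * D1 * D2) * ((D0 + D2 : ℝ) ^ m * ρ ^ D0 *
        Real.exp ((4 * (C1 + C2) + (1 + ‖α‖)) * (D1 * ρ ^ 2 + D2 * ρ))) := by gcongr

/-- Schwarz and Cauchy on a line: `N` zeros of order `τ` at `0, 1, .., N` (minus anything) -/
theorem schwarz_line (N τ : ℕ) (G : ℂ → ℂ) (hG : Differentiable ℂ G) (β : Fin N → ℂ)
    (hinj : Function.Injective β) (hβ : ∀ i, ‖β i‖ ≤ N)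
    (hz : ∀ i, ∀ t < τ, iteratedDeriv t G (β i) = 0) (R S : ℝ) (hR : (N : ℝ) + 1 ≤ R)
    (hS0 : 0 ≤ S)
    (hS : ∀ z, ‖z‖ = R → ‖G z‖ ≤ S) (i : Fin N) :
    ‖iteratedDeriv τ G (β i)‖ ≤ τ.factorial * (S * ((2 * N + 1) / (R - N)) ^ (N * τ)) := by
  have hN : (0 : ℝ) ≤ N := Nat.cast_nonneg _
  have h1 : ∀ z, ‖z‖ ≤ (N : ℝ) + 1 → ‖G z‖ ≤ S * ((2 * N + 1) / (R - N)) ^ (N * τ) := by
    intro z hzn
    have h := schwarz_many N τ β hinj G hG hz N R S hβ hN (by linarith) hS z (by linarith)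
    refine h.trans ?_
    have h3 : 0 < R - N := by linarith
    have h4 : ‖z‖ + N ≤ 2 * N + 1 := by linarith
    have := norm_nonneg z
    gcongr
  have h2 := Complex.norm_iteratedDeriv_le_of_forall_mem_sphere_norm_le τ (c := β i) (R := 1)
    (f := G) (C := S * ((2 * N + 1) / (R - N)) ^ (N * τ)) one_pos hG.diffContOnCl (fun z hz => by
      refine h1 z ?_
      have h3 : ‖z - β i‖ = 1 := by simpa using hz
      calc ‖z‖ = ‖(z - β i) + β i‖ := by ring_nf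
        _ ≤ ‖z - β i‖ + ‖β i‖ := norm_add_le _ _
        _ ≤ 1 + N := by rw [h3]; linarith [hβ i]
        _ = N + 1 := by ring)
  simpa using h2

end Pool.Agent.CHU.SL
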