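import Pool.Agent.CHU.SL2B

/-! # Two variable Schneider-Lang: change of directions -/

namespace Pool.Agent.CHU.SL
open Pool.Agent.ZCM Pool.Agent.ZFin

/-- binomial expansion under a linear functional -/
theorem bin_bound {E : Type*} [Ring E] [Algebra ℂ E] (Φ : E →ₗ[ℂ] ℂ) (W P Q : E)
    (hPQ : Commute P Q) (c d : ℂ) (n : ℕ) (ε : ℝ)
    (h : ∀ k ≤ n, ‖Φ (W * (P ^ k * Q ^ (n - k)))‖ ≤ ε) :
    ‖Φ (W * (c • P + d • Q) ^ n)‖ ≤ (‖c‖ + ‖d‖) ^ n * ε := by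
  have hc : Commute (c • P) (d • Q) := (hPQ.smul_left c).smul_right d
  have h1 : Φ (W * (c • P + d • Q) ^ n) = ∑ k ∈ Finset.range (n + 1),
      c ^ k * d ^ (n - k) * (n.choose k) * Φ (W * (P ^ k * Q ^ (n - k))) := by
    rw [hc.add_pow, Finset.mul_sum, map_sum]
    refine Finset.sum_congr rfl fun k _ => ?_
    rw [smul_pow, smul_pow]
    have h2 : W * ((c ^ k • P ^ k) * (d ^ (n - k) • Q ^ (n - k)) * (n.choose k : E)) =
        (c ^ k * d ^ (n - k) * (n.choose k) : ℂ) • (W * (P ^ k * Q ^ (n - k))) := by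
      rw [smul_mul_smul_comm, smul_mul_assoc, mul_smul_comm]
      have h3 : (P ^ k * Q ^ (n - k)) * ((n.choose k : ℕ) : E) =
          ((n.choose k : ℕ) : ℂ) • (P ^ k * Q ^ (n - k)) := by
        rw [Nat.cast_smul_eq_nsmul, nsmul_eq_mul, (Nat.cast_commute _ _).eq]
      rw [h3, mul_smul_comm, smul_smul]
    rw [h2, map_smul, smul_eq_mul]
  rw [h1]
  refine (norm_sum_le _ _).trans ?_
  have h4 : (‖c‖ + ‖d‖) ^ n * ε = ∑ k ∈ Finset.range (n + 1),
      ‖c‖ ^ k * ‖d‖ ^ (n - k) * (n.choose k) * ε := by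
    rw [add_pow, Finset.sum_mul]
  rw [h4]
  refine Finset.sum_le_sum fun k hk => ?_
  rw [Finset.mem_range] at hk
  rw [norm_mul, norm_mul, norm_mul, norm_pow, norm_pow, Complex.norm_natCast]
  have := h k (by omega)
  gcongr

/-- vanishing of the mixed derivatives of a directional one -/
theorem bin_zero {E : Type*} [Ring E] [Algebra ℂ E] (Φ : E →ₗ[ℂ] ℂ) (W P Q : E)
    (hPQ : Commute P Q) (c d : ℂ) (n : ℕ)
    (h : ∀ k ≤ n, Φ (W * (P ^ k * Q ^ (n - k))) = 0) :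
    Φ (W * (c • P + d • Q) ^ n) = 0 := by
  have := bin_bound Φ W P Q hPQ c d n 0 (fun k hk => by rw [h k hk, norm_zero])
  rw [mul_zero] at this
  exact norm_le_zero_iff.1 this

/-- all derivatives of order `e` are small if the ones along the two directions are -/
theorem top_abs {E : Type*} [Ring E] [Algebra ℂ E] (Φ : E →ₗ[ℂ] ℂ) (X Z A B : E)
    (hXZ : Commute X Z) (β1 u1 β2 u2 : ℂ) (hA : A = β1 • X + u1 • Z) (hB : B = β2 • X + u2 • Z)
    (hdet : β1 * u2 - β2 * u1 ≠ 0) (hu1 : u1 ≠ 0) (hu2 : u2 ≠ 0) (e M : ℕ) (he : e ≤ 2 * M + 1)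
    (hM : M ≤ e) (ε : ℝ)
    (h1 : ∀ k ≤ M, ‖Φ (A ^ (e - k) * X ^ k)‖ ≤ ε)
    (h2 : ∀ k ≤ M, ‖Φ (B ^ (e - k) * X ^ k)‖ ≤ ε) (K : ℝ)
    (hK : 1 + ‖u2 / (β1 * u2 - β2 * u1)‖ + ‖u1 / (β1 * u2 - β2 * u1)‖ +
      ‖β1 / (β1 * u2 - β2 * u1)‖ + ‖β2 / (β1 * u2 - β2 * u1)‖ + ‖(β1 * u2 - β2 * u1) / u1‖ +
      ‖(β1 * u2 - β2 * u1) / u2‖ + ‖u2 / u1‖ + ‖u1 / u2‖ ≤ K) (m n : ℕ) (hmn : m + n = e) :
    ‖Φ (X ^ m * Z ^ n)‖ ≤ K ^ (2 * e) * ε := by
  set δ := β1 * u2 - β2 * u1 with hδ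
  have hε : 0 ≤ ε := (norm_nonneg _).trans (h1 0 (Nat.zero_le _))
  have nn := fun x : ℂ => norm_nonneg x
  have hK1 : 1 ≤ K := by
    linarith [nn (u2 / δ), nn (u1 / δ), nn (β1 / δ), nn (β2 / δ), nn (δ / u1), nn (δ / u2),
      nn (u2 / u1), nn (u1 / u2)]
  have hAB : Commute A B := by
    rw [hA, hB]
    exact (((Commute.refl X).smul_left _).add_left (hXZ.symm.smul_left _)).smul_right _ |>.add_right
      (((hXZ.smul_left _).add_left ((Commute.refl Z).smul_left _)).smul_right _)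
  have hAX : Commute A X := by
    rw [hA]
    exact ((Commute.refl X).smul_left _).add_left (hXZ.symm.smul_left _)
  have hBX : Commute B X := by
    rw [hB]
    exact ((Commute.refl X).smul_left _).add_left (hXZ.symm.smul_left _)
  have eX : X = (u2 / δ) • A + (-(u1 / δ)) • B := by
    rw [hA, hB]
    simp only [smul_add, smul_smul]
    have e1 : u2 / δ * β1 + -(u1 / δ) * β2 = 1 := by
      have : u2 / δ * β1 + -(u1 / δ) * β2 = (β1 * u2 - β2 * u1) / δ := by ring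
      rw [this, ← hδ]; exact div_self hdet
    have e2 : u2 / δ * u1 + -(u1 / δ) * u2 = 0 := by ring
    calc X = (u2 / δ * β1 + -(u1 / δ) * β2) • X + (u2 / δ * u1 + -(u1 / δ) * u2) • Z := by
          rw [e1, e2]; simp
      _ = _ := by rw [add_smul, add_smul]; abel
  have eZ : Z = (-(β2 / δ)) • A + (β1 / δ) • B := by
    rw [hA, hB]
    simp only [smul_add, smul_smul]
    have e1 : -(β2 / δ) * β1 + β1 / δ * β2 = 0 := by ring
    have e2 : -(β2 / δ) * u1 + β1 / δ * u2 = 1 := by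
      have : -(β2 / δ) * u1 + β1 / δ * u2 = (β1 * u2 - β2 * u1) / δ := by ring
      rw [this, ← hδ]; exact div_self hdet
    calc Z = (-(β2 / δ) * β1 + β1 / δ * β2) • X + (-(β2 / δ) * u1 + β1 / δ * u2) • Z := by
          rw [e1, e2]; simp
      _ = _ := by rw [add_smul, add_smul]; abel
  have eB : B = (u2 / u1) • A + (-(δ / u1)) • X := by
    rw [hA, hB]
    simp only [smul_add, smul_smul]
    have e1 : u2 / u1 * β1 + -(δ / u1) = β2 := by
      rw [hδ]; field_simp; ring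
    have e2 : u2 / u1 * u1 = u2 := by field_simp
    calc β2 • X + u2 • Z = (u2 / u1 * β1 + -(δ / u1)) • X + (u2 / u1 * u1) • Z := by rw [e1, e2]
      _ = _ := by rw [add_smul]; abel
  have eA : A = (u1 / u2) • B + (δ / u2) • X := by
    rw [hA, hB]
    simp only [smul_add, smul_smul]
    have e1 : u1 / u2 * β2 + δ / u2 = β1 := by
      rw [hδ]; field_simp; ring
    have e2 : u1 / u2 * u2 = u1 := by field_simp
    calc β1 • X + u1 • Z = (u1 / u2 * β2 + δ / u2) • X + (u1 / u2 * u2) • Z := by rw [e1, e2]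
      _ = _ := by rw [add_smul]; abel
  -- the products `A^i B^j`
  have step1 : ∀ i j, i + j = e → ‖Φ (A ^ i * B ^ j)‖ ≤ K ^ e * ε := by
    intro i j hij
    rcases le_or_gt j M with hj | hj
    · have t := bin_bound Φ (A ^ i) A X hAX (u2 / u1) (-(δ / u1)) j ε (fun k hk => by
        have e1 : A ^ i * (A ^ k * X ^ (j - k)) = A ^ (e - (j - k)) * X ^ (j - k) := by
          rw [← mul_assoc, ← pow_add]
          congr 2
          omega
        rw [e1]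
        exact h1 (j - k) (by omega))
      rw [← eB] at t
      refine t.trans ?_
      have t2 : ‖u2 / u1‖ + ‖-(δ / u1)‖ ≤ K := by
        rw [norm_neg]
        linarith [nn (u2 / δ), nn (u1 / δ), nn (β1 / δ), nn (β2 / δ), nn (δ / u1), nn (δ / u2),
          nn (u2 / u1), nn (u1 / u2)]
      calc (‖u2 / u1‖ + ‖-(δ / u1)‖) ^ j * ε ≤ K ^ j * ε := by gcongr
        _ ≤ K ^ e * ε := by
            have := pow_le_pow_right₀ hK1 (show j ≤ e by omega)
            gcongr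
    · have hi : i ≤ M := by omega
      have t := bin_bound Φ (B ^ j) B X hBX (u1 / u2) (δ / u2) i ε (fun k hk => by
        have e1 : B ^ j * (B ^ k * X ^ (i - k)) = B ^ (e - (i - k)) * X ^ (i - k) := by
          rw [← mul_assoc, ← pow_add]
          congr 2
          omega
        rw [e1]
        exact h2 (i - k) (by omega))
      rw [← eA] at t
      rw [(hAB.pow_pow i j).eq]
      refine t.trans ?_
      have t2 : ‖u1 / u2‖ + ‖δ / u2‖ ≤ K := by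
        linarith [nn (u2 / δ), nn (u1 / δ), nn (β1 / δ), nn (β2 / δ), nn (δ / u1), nn (δ / u2),
          nn (u2 / u1), nn (u1 / u2)]
      calc (‖u1 / u2‖ + ‖δ / u2‖) ^ i * ε ≤ K ^ i * ε := by gcongr
        _ ≤ K ^ e * ε := by
            have := pow_le_pow_right₀ hK1 (show i ≤ e by omega)
            gcongr
  -- then `X^m A^k B^l`
  have step2 : ∀ k l, k + l = n → ‖Φ (X ^ m * (A ^ k * B ^ l))‖ ≤ K ^ m * (K ^ e * ε) := by
    intro k l hkl
    have hc : Commute (X ^ m) (A ^ k * B ^ l) :=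
      ((hAX.symm.pow_pow m k).mul_right (hBX.symm.pow_pow m l))
    rw [hc.eq]
    have t := bin_bound Φ (A ^ k * B ^ l) A B hAB (u2 / δ) (-(u1 / δ)) m (K ^ e * ε)
      (fun i hi => by
        have e1 : A ^ k * B ^ l * (A ^ i * B ^ (m - i)) = A ^ (k + i) * B ^ (l + (m - i)) := by
          rw [mul_assoc, ← mul_assoc (B ^ l), ((hAB.symm).pow_pow l i).eq, mul_assoc,
            ← mul_assoc (A ^ k), ← pow_add, ← pow_add]
        rw [e1]
        exact step1 _ _ (by omega))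
    rw [← eX] at t
    refine t.trans ?_
    have t2 : ‖u2 / δ‖ + ‖-(u1 / δ)‖ ≤ K := by
      rw [norm_neg]
      linarith [nn (u2 / δ), nn (u1 / δ), nn (β1 / δ), nn (β2 / δ), nn (δ / u1), nn (δ / u2),
        nn (u2 / u1), nn (u1 / u2)]
    gcongr
  have step3 := bin_bound Φ (X ^ m) A B hAB (-(β2 / δ)) (β1 / δ) n (K ^ m * (K ^ e * ε))
    (fun k hk => step2 k (n - k) (by omega))
  rw [← eZ] at step3
  refine step3.trans ?_
  have t2 : ‖-(β2 / δ)‖ + ‖β1 / δ‖ ≤ K := by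
    rw [norm_neg]
    linarith [nn (u2 / δ), nn (u1 / δ), nn (β1 / δ), nn (β2 / δ), nn (δ / u1), nn (δ / u2),
      nn (u2 / u1), nn (u1 / u2)]
  calc (‖-(β2 / δ)‖ + ‖β1 / δ‖) ^ n * (K ^ m * (K ^ e * ε)) ≤ K ^ n * (K ^ m * (K ^ e * ε)) := by
        gcongr
    _ = K ^ (m + n + e) * ε := by rw [pow_add, pow_add]; ring
    _ = K ^ (2 * e) * ε := by
        congr 2
        omega

/-- `∂x` and `∂z` as linear maps -/
noncomputable def eX : Module.End ℂ (MvPolynomial (Fin 6) ℂ) := (dx ℂ).toLinearMap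
noncomputable def eZ : Module.End ℂ (MvPolynomial (Fin 6) ℂ) := (dz ℂ).toLinearMap

theorem eX_eZ : Commute eX eZ := by
  refine LinearMap.ext fun q => ?_
  exact dx_dz q

theorem eX_pow (k : ℕ) (q : MvPolynomial (Fin 6) ℂ) : (eX ^ k) q = (⇑(dx ℂ))^[k] q := by
  rw [Module.End.pow_apply]; rfl

theorem eZ_pow (k : ℕ) (q : MvPolynomial (Fin 6) ℂ) : (eZ ^ k) q = (⇑(dz ℂ))^[k] q := by
  rw [Module.End.pow_apply]; rfl

theorem Dv_pow (β u : ℂ) (k : ℕ) (q : MvPolynomial (Fin 6) ℂ) :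
    ((β • eX + u • eZ) ^ k) q = (⇑(Dv β u))^[k] q := by
  rw [Module.End.pow_apply]
  congr 1

/-- the functional -/
noncomputable def Fn (v : Fin 6 → ℂ) (q : MvPolynomial (Fin 6) ℂ) :
    Module.End ℂ (MvPolynomial (Fin 6) ℂ) →ₗ[ℂ] ℂ where
  toFun T := MvPolynomial.eval v (T q)
  map_add' S T := by simp
  map_smul' c T := by simp [MvPolynomial.smul_eval]

theorem Fn_apply (v : Fin 6 → ℂ) (q : MvPolynomial (Fin 6) ℂ)
    (T : Module.End ℂ (MvPolynomial (Fin 6) ℂ)) : Fn v q T = MvPolynomial.eval v (T q) := rfl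

theorem low_zero (v : Fin 6 → ℂ) (q : MvPolynomial (Fin 6) ℂ) (e : ℕ)
    (h : ∀ m n, m + n < e → MvPolynomial.eval v (Dmn ℂ m n q) = 0) (β u : ℂ) (t k : ℕ)
    (htk : t + k < e) :
    MvPolynomial.eval v ((⇑(Dv β u))^[t] ((⇑(dx ℂ))^[k] q)) = 0 := by
  have t1 := bin_zero (Fn v q) (eX ^ k) eX eZ eX_eZ β u t (fun i hi => by
    rw [← mul_assoc, ← pow_add, Fn_apply, Module.End.mul_apply, eZ_pow, eX_pow]
    exact h _ _ (by omega))
  have hc : Commute (eX ^ k) ((β • eX + u • eZ) ^ t) := by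
    refine Commute.pow_pow ?_ _ _
    exact ((Commute.refl eX).smul_right β).add_right (eX_eZ.smul_right u)
  rw [hc.eq, Fn_apply, Module.End.mul_apply, eX_pow, Dv_pow] at t1
  exact t1

theorem top_bound (v : Fin 6 → ℂ) (q : MvPolynomial (Fin 6) ℂ) (β1 u1 β2 u2 : ℂ)
    (hdet : β1 * u2 - β2 * u1 ≠ 0) (hu1 : u1 ≠ 0) (hu2 : u2 ≠ 0) (e M : ℕ) (he : e ≤ 2 * M + 1)
    (hM : M ≤ e) (ε : ℝ)
    (h1 : ∀ k ≤ M,
      ‖MvPolynomial.eval v ((⇑(Dv β1 u1))^[e - k] ((⇑(dx ℂ))^[k] q))‖ ≤ ε)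
    (h2 : ∀ k ≤ M,
      ‖MvPolynomial.eval v ((⇑(Dv β2 u2))^[e - k] ((⇑(dx ℂ))^[k] q))‖ ≤ ε) (K : ℝ)
    (hK : 1 + ‖u2 / (β1 * u2 - β2 * u1)‖ + ‖u1 / (β1 * u2 - β2 * u1)‖ +
      ‖β1 / (β1 * u2 - β2 * u1)‖ + ‖β2 / (β1 * u2 - β2 * u1)‖ + ‖(β1 * u2 - β2 * u1) / u1‖ +
      ‖(β1 * u2 - β2 * u1) / u2‖ + ‖u2 / u1‖ + ‖u1 / u2‖ ≤ K) (m n : ℕ) (hmn : m + n = e) :
    ‖MvPolynomial.eval v (Dmn ℂ m n q)‖ ≤ K ^ (2 * e) * ε := by
  have := top_abs (Fn v q) eX eZ (β1 • eX + u1 • eZ) (β2 • eX + u2 • eZ) eX_eZ β1 u1 β2 u2 rfl rfl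
    hdet hu1 hu2 e M he hM ε (fun k hk => by
      rw [Fn_apply, Module.End.mul_apply, eX_pow, Dv_pow]
      exact h1 k hk) (fun k hk => by
      rw [Fn_apply, Module.End.mul_apply, eX_pow, Dv_pow]
      exact h2 k hk) K hK m n hmn
  rw [Fn_apply, Module.End.mul_apply, eZ_pow, eX_pow] at this
  exact this

end Pool.Agent.CHU.SL
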