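import Pool.Agent.CHU.SL2A
import Pool.Agent.CHU.Pigeon
import Pool.Agent.ZCM.Liou

/-! # Two variable Schneider-Lang: Siegel's lemma -/

namespace Pool.Agent.CHU.SL
open Pool.Agent.ZCM Pool.Agent.ZFin

/-- an algebraic integer all of whose conjugates are smaller than one is zero -/
theorem eq_zero_of_small (K : Type) [Field K] [NumberField K] (y : K) (hy : IsIntegral ℤ y)
    (h : ∀ σ : K →+* ℂ, ‖σ y‖ < 1) : y = 0 := by
  by_contra h0
  obtain ⟨σ⟩ : Nonempty (K →+* ℂ) := inferInstance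
  have h1 := liouville K y hy h0 0 (fun σ => by rw [Real.exp_zero]; exact (h σ).le) σ
  rw [mul_zero, Real.exp_zero] at h1
  linarith [h σ]

theorem Dmn_sum {R : Type*} [CommRing R] {ι : Type*} (m n : ℕ) (s : Finset ι)
    (f : ι → MvPolynomial (Fin 6) R) : Dmn R m n (∑ i ∈ s, f i) = ∑ i ∈ s, Dmn R m n (f i) := by
  have h1 : ∀ (D : Derivation R (MvPolynomial (Fin 6) R) (MvPolynomial (Fin 6) R)) (n : ℕ)
      (f : ι → MvPolynomial (Fin 6) R), (⇑D)^[n] (∑ i ∈ s, f i) = ∑ i ∈ s, (⇑D)^[n] (f i) := by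
    intro D n f
    induction n with
    | zero => rfl
    | succ n ih =>
      rw [Function.iterate_succ_apply', ih, map_sum]
      refine Finset.sum_congr rfl fun i _ => ?_
      rw [Function.iterate_succ_apply']
  rw [Dmn, h1, h1]
  rfl

theorem Dmn_C_mul {R : Type*} [CommRing R] (m n : ℕ) (c : R) (q : MvPolynomial (Fin 6) R) :
    Dmn R m n (MvPolynomial.C c * q) = MvPolynomial.C c * Dmn R m n q := by
  have h1 : ∀ (D : Derivation R (MvPolynomial (Fin 6) R) (MvPolynomial (Fin 6) R)) (n : ℕ)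
      (q : MvPolynomial (Fin 6) R), (⇑D)^[n] (MvPolynomial.C c * q) =
        MvPolynomial.C c * (⇑D)^[n] q := by
    intro D n q
    induction n with
    | zero => rfl
    | succ n ih =>
      rw [Function.iterate_succ_apply', ih, Function.iterate_succ_apply',
        ← MvPolynomial.smul_eq_C_mul, Derivation.map_smul, MvPolynomial.smul_eq_C_mul]
  rw [Dmn, h1, h1]
  rfl

theorem siegel_step (K : Type) [Field K] [NumberField K] (N : ℕ) (w : ℕ → ℕ → Fin 6 → K) (d : ℕ)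
    (hd : 1 ≤ d) (hint : ∀ n1 n2, n1 < N → n2 < N → ∀ i, IsIntegral ℤ ((d : K) * w n1 n2 i))
    (M : ℝ) (hM : 1 ≤ M)
    (hw : ∀ n1 n2, n1 < N → n2 < N → ∀ i, ∀ σ : K →+* ℂ, ‖σ (w n1 n2 i)‖ ≤ M)
    (D0 D1 D2 T : ℕ) (W : ℝ)
    (hW : (4 * ((D0 + D1 + D2 + T : ℕ) : ℝ)) ^ T * (d * M) ^ (D0 + D1 + D2 + T) ≤ W)
    (hT : 1 ≤ T)
    (hU : 4 * (Module.finrank ℚ K * (N * N * (T * T))) < D0 * D1 * D2) :
    ∃ p : ℕ → ℕ → ℕ → ℤ, (∀ i j k, |((p i j k : ℤ) : ℝ)| ≤ 3 * (D0 * D1 * D2) * W + 2) ∧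
      (∃ i < D0, ∃ j < D1, ∃ k < D2, p i j k ≠ 0) ∧
      ∀ n1 n2, n1 < N → n2 < N → ∀ m n, m + n < T →
        MvPolynomial.aeval (w n1 n2) (Dmn ℤ m n (PL ℤ D0 D1 D2 p)) = 0 := by
  classical
  set D := D0 + D1 + D2 with hD
  have hDT : 1 ≤ D + T := by omega
  have hdM : 1 ≤ (d : ℝ) * M := by
    have : (1 : ℝ) ≤ d := by exact_mod_cast hd
    nlinarith
  have hW1 : 1 ≤ W := by
    refine le_trans ?_ hW
    have h1 : (1 : ℝ) ≤ ((D + T : ℕ) : ℝ) := by exact_mod_cast hDT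
    have h2 : (1 : ℝ) ≤ (4 * ((D + T : ℕ) : ℝ)) ^ T := one_le_pow₀ (by linarith)
    have h3 : (1 : ℝ) ≤ (d * M) ^ (D + T) := one_le_pow₀ hdM
    nlinarith
  set I := Fin D0 × Fin D1 × Fin D2 with hI
  set J := (K →+* ℂ) × Fin N × Fin N × Fin T × Fin T with hJ
  have cI : Fintype.card I = D0 * D1 * D2 := by
    simp [hI, mul_assoc]
  have cJ : Fintype.card J = Module.finrank ℚ K * (N * N * (T * T)) := by
    simp only [hJ, Fintype.card_prod, Fintype.card_fin]
    rw [NumberField.Embeddings.card]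
    ring
  set eI : I ≃ Fin (Fintype.card I) := Fintype.equivFin I with heI
  set eJ : J ≃ Fin (Fintype.card J) := Fintype.equivFin J with heJ
  -- the linear forms
  set val : ℕ → ℕ → ℕ → ℕ → ℕ → ℕ → ℕ → K := fun n1 n2 m n i j k =>
    (d : K) ^ (D + T) * MvPolynomial.aeval (w n1 n2)
      (Dmn ℤ m n (MvPolynomial.X 0 ^ i * MvPolynomial.X 1 ^ j * MvPolynomial.X 3 ^ k)) with hval
  set A : Fin (Fintype.card J) → Fin (Fintype.card I) → ℂ := fun f u =>
    if ((eJ.symm f).2.2.2.1 : ℕ) + ((eJ.symm f).2.2.2.2 : ℕ) < T then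
      (eJ.symm f).1 (val (eJ.symm f).2.1 (eJ.symm f).2.2.1 (eJ.symm f).2.2.2.1
        (eJ.symm f).2.2.2.2 (eI.symm u).1 (eI.symm u).2.1 (eI.symm u).2.2) else 0 with hA
  have hAW : ∀ f u, ‖A f u‖ ≤ W := by
    intro f u
    simp only [hA]
    split_ifs with hmn
    · set σ := (eJ.symm f).1
      set n1 := (eJ.symm f).2.1
      set n2 := (eJ.symm f).2.2.1
      set m := (eJ.symm f).2.2.2.1
      set n := (eJ.symm f).2.2.2.2
      set i := (eI.symm u).1
      set j := (eI.symm u).2.1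
      set k := (eI.symm u).2.2
      set q : MvPolynomial (Fin 6) ℤ :=
        MvPolynomial.X 0 ^ (i : ℕ) * MvPolynomial.X 1 ^ (j : ℕ) * MvPolynomial.X 3 ^ (k : ℕ) with hq
      have tdq : q.totalDegree ≤ D := by
        rw [hq]
        refine (td_mono_le (R := ℤ) (i : ℕ) j k).trans ?_
        have := i.2; have := j.2; have := k.2
        omega
      have td : (Dmn ℤ m n q).totalDegree ≤ D + T := by
        have := td_Dmn_le (R := ℤ) m n q
        omega
      have h1 := norm_aeval_le σ (w n1 n2) M hM (fun s => hw n1 n2 n1.2 n2.2 s σ)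
        (Dmn ℤ m n q) (D + T) td
      have hmapq : MvPolynomial.map (Int.castRingHom ℂ) q =
          MvPolynomial.X 0 ^ (i : ℕ) * MvPolynomial.X 1 ^ (j : ℕ) * MvPolynomial.X 3 ^ (k : ℕ) := by
        simp [hq]
      have h2 : nm (MvPolynomial.map (Int.castRingHom ℂ) (Dmn ℤ m n q)) ≤
          (4 * ((D + T : ℕ) : ℝ)) ^ T := by
        rw [map_Dmn, hmapq]
        set q' : MvPolynomial (Fin 6) ℂ :=
          MvPolynomial.X 0 ^ (i : ℕ) * MvPolynomial.X 1 ^ (j : ℕ) * MvPolynomial.X 3 ^ (k : ℕ)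
          with hq'
        have tdq' : q'.totalDegree ≤ D := by
          rw [hq']
          refine (td_mono_le (R := ℂ) (i : ℕ) j k).trans ?_
          have := i.2; have := j.2; have := k.2
          omega
        have h3 := nm_Dmn_le m n q' (((D + T : ℕ) : ℝ)) (by
          have : q'.totalDegree + m + n ≤ D + T := by omega
          exact_mod_cast this)
        have h4 : nm q' ≤ 1 := nm_mono_le i j k
        have h5 : (1 : ℝ) ≤ 4 * ((D + T : ℕ) : ℝ) := by
          have : (1 : ℝ) ≤ ((D + T : ℕ) : ℝ) := by exact_mod_cast hDT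
          linarith
        calc nm (Dmn ℂ m n q') ≤ (4 * ((D + T : ℕ) : ℝ)) ^ ((m : ℕ) + n) * nm q' := h3
          _ ≤ (4 * ((D + T : ℕ) : ℝ)) ^ ((m : ℕ) + n) * 1 := by gcongr
          _ = (4 * ((D + T : ℕ) : ℝ)) ^ ((m : ℕ) + n) := mul_one _
          _ ≤ (4 * ((D + T : ℕ) : ℝ)) ^ T := pow_le_pow_right₀ h5 hmn.le
      rw [hval]
      simp only
      rw [map_mul, map_pow, map_natCast, norm_mul, norm_pow, Complex.norm_natCast]
      calc (d : ℝ) ^ (D + T) * ‖σ (MvPolynomial.aeval (w n1 n2) (Dmn ℤ m n q))‖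
          ≤ (d : ℝ) ^ (D + T) * (nm (MvPolynomial.map (Int.castRingHom ℂ) (Dmn ℤ m n q)) *
            M ^ (D + T)) := by gcongr
        _ ≤ (d : ℝ) ^ (D + T) * ((4 * ((D + T : ℕ) : ℝ)) ^ T * M ^ (D + T)) := by gcongr
        _ = (4 * ((D + T : ℕ) : ℝ)) ^ T * (d * M) ^ (D + T) := by rw [mul_pow]; ring
        _ ≤ W := hW
    · rw [norm_zero]; linarith
  set Ur : ℝ := ((Fintype.card I : ℕ) : ℝ) with hUr
  have hUr1 : 1 ≤ Ur := by
    have : 1 ≤ Fintype.card I := by rw [cI]; omega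
    rw [hUr]; exact_mod_cast this
  set X : ℕ := ⌊3 * Ur * W⌋₊ + 1 with hX
  have hX1 : 3 * Ur * W < X := by
    have := Nat.lt_floor_add_one (3 * Ur * W)
    rw [hX]; push_cast; exact this
  have hX2 : (X : ℝ) ≤ 3 * Ur * W + 1 := by
    have := Nat.floor_le (show 0 ≤ 3 * Ur * W by positivity)
    rw [hX]; push_cast; linarith
  have hX3 : 2 ≤ X := by
    have h1 : (1 : ℝ) ≤ Ur * W := by nlinarith
    have : (2 : ℝ) < X := by nlinarith
    have : 2 < X := by exact_mod_cast this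
    omega
  have hl : 1 ≤ X ^ 2 := Nat.one_le_pow _ _ (by omega)
  have hpow : (X ^ 2) ^ (2 * Fintype.card J) < X ^ Fintype.card I := by
    rw [← pow_mul]
    refine Nat.pow_lt_pow_right (by omega) ?_
    rw [cI, cJ]
    have := hU
    calc 2 * (2 * (Module.finrank ℚ K * (N * N * (T * T)))) =
          4 * (Module.finrank ℚ K * (N * N * (T * T))) := by ring
      _ < D0 * D1 * D2 := hU
  obtain ⟨P, hP0, hPX, hPs⟩ := _root_.CHU.pigeon A hAW hpow hl
  -- the coefficients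
  set p : ℕ → ℕ → ℕ → ℤ := fun i j k =>
    if h : i < D0 ∧ j < D1 ∧ k < D2 then P (eI (⟨i, h.1⟩, ⟨j, h.2.1⟩, ⟨k, h.2.2⟩)) else 0 with hp
  have hpv : ∀ (i : Fin D0) (j : Fin D1) (k : Fin D2), p i j k = P (eI (i, j, k)) := by
    intro i j k
    simp [hp]
  refine ⟨p, ?_, ?_, ?_⟩
  · intro i j k
    by_cases h : i < D0 ∧ j < D1 ∧ k < D2
    · have h1 : p i j k = P (eI (⟨i, h.1⟩, ⟨j, h.2.1⟩, ⟨k, h.2.2⟩)) := by
        simp only [hp]; rw [dif_pos h]
      rw [h1]
      have h2 := hPX (eI (⟨i, h.1⟩, ⟨j, h.2.1⟩, ⟨k, h.2.2⟩))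
      have h3 : |((P (eI (⟨i, h.1⟩, ⟨j, h.2.1⟩, ⟨k, h.2.2⟩)) : ℤ) : ℝ)| < X := by
        exact_mod_cast h2
      have h4 : Ur = D0 * D1 * D2 := by rw [hUr, cI]; push_cast; ring
      rw [← h4]
      linarith
    · have h1 : p i j k = 0 := by
        simp only [hp]; rw [dif_neg h]
      rw [h1]
      simp only [Int.cast_zero, abs_zero]
      positivity
  · obtain ⟨u, hu⟩ : ∃ u, P u ≠ 0 := by
      by_contra hc
      push Not at hc
      exact hP0 (funext hc)
    refine ⟨(eI.symm u).1, (eI.symm u).1.2, (eI.symm u).2.1, (eI.symm u).2.1.2,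
      (eI.symm u).2.2, (eI.symm u).2.2.2, ?_⟩
    rw [hpv]
    have : eI ((eI.symm u).1, (eI.symm u).2.1, (eI.symm u).2.2) = u := eI.apply_symm_apply u
    rw [this]
    exact hu
  · intro n1 n2 hn1 hn2 m n hmn
    -- linearity
    have hlin : (d : K) ^ (D + T) * MvPolynomial.aeval (w n1 n2)
        (Dmn ℤ m n (PL ℤ D0 D1 D2 p)) =
        ∑ i ∈ Finset.range D0, ∑ j ∈ Finset.range D1, ∑ k ∈ Finset.range D2,
          val n1 n2 m n i j k * (p i j k : K) := by
      rw [PL, Dmn_sum, map_sum, Finset.mul_sum]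
      refine Finset.sum_congr rfl fun i _ => ?_
      rw [Dmn_sum, map_sum, Finset.mul_sum]
      refine Finset.sum_congr rfl fun j _ => ?_
      rw [Dmn_sum, map_sum, Finset.mul_sum]
      refine Finset.sum_congr rfl fun k _ => ?_
      rw [Dmn_C_mul, map_mul, MvPolynomial.aeval_C, hval]
      simp only [algebraMap_int_eq, eq_intCast]
      ring
    have hsum : ∀ (σ : K →+* ℂ), σ ((d : K) ^ (D + T) * MvPolynomial.aeval (w n1 n2)
        (Dmn ℤ m n (PL ℤ D0 D1 D2 p))) = ∑ u, A (eJ (σ, ⟨n1, hn1⟩, ⟨n2, hn2⟩,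
          ⟨m, by omega⟩, ⟨n, by omega⟩)) u * (P u : ℂ) := by
      intro σ
      rw [hlin]
      have h1 : ∀ u, A (eJ (σ, ⟨n1, hn1⟩, ⟨n2, hn2⟩, ⟨m, by omega⟩, ⟨n, by omega⟩)) u =
          σ (val n1 n2 m n (eI.symm u).1 (eI.symm u).2.1 (eI.symm u).2.2) := by
        intro u
        simp only [hA]
        rw [Equiv.symm_apply_apply]
        simp only
        rw [if_pos hmn]
      simp only [h1]
      rw [← eI.sum_comp]
      simp only [Equiv.symm_apply_apply]
      rw [Fintype.sum_prod_type]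
      simp only [Fintype.sum_prod_type]
      rw [Finset.sum_range, map_sum]
      refine Finset.sum_congr rfl fun i _ => ?_
      rw [Finset.sum_range, map_sum]
      refine Finset.sum_congr rfl fun j _ => ?_
      rw [Finset.sum_range, map_sum]
      refine Finset.sum_congr rfl fun k _ => ?_
      rw [map_mul, map_intCast, hpv]
    have hy : IsIntegral ℤ ((d : K) ^ (D + T) * MvPolynomial.aeval (w n1 n2)
        (Dmn ℤ m n (PL ℤ D0 D1 D2 p))) := by
      refine int_aeval (w n1 n2) d (hint n1 n2 hn1 hn2) _ (D + T) ?_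
      have h1 := td_Dmn_le (R := ℤ) m n (PL ℤ D0 D1 D2 p)
      have h2 := td_PL_le (R := ℤ) D0 D1 D2 p
      omega
    have hz := eq_zero_of_small K _ hy (fun σ => by
      rw [hsum σ]
      refine lt_of_le_of_lt (hPs _) ?_
      have hXp : (0 : ℝ) < X := by
        have : 0 < X := by omega
        exact_mod_cast this
      push_cast
      rw [div_lt_one (by positivity)]
      have := hX1
      rw [← hUr]
      nlinarith)
    have hdK : (d : K) ^ (D + T) ≠ 0 := by
      refine pow_ne_zero _ ?_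
      have : d ≠ 0 := by omega
      exact_mod_cast this
    exact (mul_eq_zero.1 hz).resolve_left hdK

end Pool.Agent.CHU.SL
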