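import Mathlib

/-! # `x`, `℘(z)`, `exp(a z + x)` are algebraically independent functions of `(z, x)` -/

set_option autoImplicit false

namespace Pool.Agent.CHU
open Finset

/-- `x` and `e^x` are algebraically independent functions -/
theorem exp_poly_zero (A B : ℕ) (c : ℕ → ℕ → ℂ)
    (h : ∀ x : ℂ, ∑ i ∈ range A, ∑ k ∈ range B, c i k * x ^ i * Complex.exp (k * x) = 0) :
    ∀ i < A, ∀ k < B, c i k = 0 := by
  have h1 : ∀ x : ℂ, ∀ i < A, ∑ k ∈ range B, c i k * Complex.exp (k * x) = 0 := by
    intro x i hi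
    set p : Polynomial ℂ := ∑ i ∈ range A,
      Polynomial.C (∑ k ∈ range B, c i k * Complex.exp (k * x)) * Polynomial.X ^ i with hpd
    have hp : p = 0 := by
      apply Polynomial.eq_zero_of_infinite_isRoot
      have hinj : Function.Injective (fun n : ℕ => x + n * (2 * Real.pi * Complex.I)) := by
        intro m n hmn
        have h2 : (m : ℂ) * (2 * Real.pi * Complex.I) = n * (2 * Real.pi * Complex.I) := by
          simpa using hmn
        have h3 : (m : ℂ) = n := mul_right_cancel₀ Complex.two_pi_I_ne_zero h2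
        exact_mod_cast h3
      refine (Set.infinite_range_of_injective hinj).mono ?_
      rintro _ ⟨n, rfl⟩
      have h2 := h (x + n * (2 * Real.pi * Complex.I))
      rw [Set.mem_ofPred_eq, Polynomial.IsRoot.def, hpd, Polynomial.eval_finsetSum]
      rw [← h2]
      refine sum_congr rfl fun i _ => ?_
      rw [Polynomial.eval_mul, Polynomial.eval_C, Polynomial.eval_pow, Polynomial.eval_X, sum_mul]
      refine sum_congr rfl fun k _ => ?_
      have h3 : Complex.exp (k * (x + n * (2 * Real.pi * Complex.I))) = Complex.exp (k * x) := by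
        rw [mul_add, Complex.exp_add]
        have h4 : (k : ℂ) * (n * (2 * Real.pi * Complex.I)) =
            ((k * n : ℕ) : ℤ) * (2 * Real.pi * Complex.I) := by
          push_cast
          ring
        rw [h4, Complex.exp_int_mul_two_pi_mul_I, mul_one]
      rw [h3]
      ring
    have h2 : p.coeff i = ∑ k ∈ range B, c i k * Complex.exp (k * x) := by
      rw [hpd, Polynomial.finsetSum_coeff]
      simp only [Polynomial.coeff_C_mul, Polynomial.coeff_X_pow, mul_ite, mul_one, mul_zero]
      rw [sum_ite_eq, if_pos (mem_range.2 hi)]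
    rw [← h2, hp, Polynomial.coeff_zero]
  intro i hi k hk
  set p : Polynomial ℂ := ∑ k ∈ range B, Polynomial.C (c i k) * Polynomial.X ^ k with hpd
  have hp : p = 0 := by
    apply Polynomial.eq_zero_of_infinite_isRoot
    have hinf : {y : ℂ | y ≠ 0}.Infinite := by
      have h3 : ({0}ᶜ : Set ℂ).Infinite := Set.Finite.infinite_compl (Set.finite_singleton 0)
      exact h3
    refine hinf.mono ?_
    intro y hy
    have h2 := h1 (Complex.log y) i hi
    rw [Set.mem_ofPred_eq, Polynomial.IsRoot.def, hpd, Polynomial.eval_finsetSum, ← h2]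
    refine sum_congr rfl fun k _ => ?_
    rw [Polynomial.eval_mul, Polynomial.eval_C, Polynomial.eval_pow, Polynomial.eval_X,
      Complex.exp_nat_mul, Complex.exp_log hy]
  have h2 : p.coeff k = c i k := by
    rw [hpd, Polynomial.finsetSum_coeff]
    simp only [Polynomial.coeff_C_mul, Polynomial.coeff_X_pow, mul_ite, mul_one, mul_zero]
    rw [sum_ite_eq, if_pos (mem_range.2 hk)]
  rw [← h2, hp, Polynomial.coeff_zero]

open Filter Topology in
/-- the function `℘` is transcendental over `ℂ` (takes infinitely many values) -/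
theorem wp_poly_zero (L : PeriodPair) (D : ℕ) (c : ℕ → ℂ)
    (h : ∀ z ∉ L.lattice, ∑ j ∈ range D, c j * L.weierstrassP z ^ j = 0) : ∀ j < D, c j = 0 := by
  intro j hj
  set p : Polynomial ℂ := ∑ j ∈ range D, Polynomial.C (c j) * Polynomial.X ^ j with hpd
  have hroot : ∀ z ∉ L.lattice, p.IsRoot (L.weierstrassP z) := by
    intro z hz
    rw [Polynomial.IsRoot.def, hpd, Polynomial.eval_finsetSum, ← h z hz]
    refine sum_congr rfl fun k _ => ?_
    rw [Polynomial.eval_mul, Polynomial.eval_C, Polynomial.eval_pow, Polynomial.eval_X]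
  have hp : p = 0 := by
    by_contra hp0
    have hfin : {x | p.IsRoot x}.Finite := Polynomial.finite_setOfPred_isRoot hp0
    have h0 : (0 : ℂ) ∈ L.lattice := zero_mem _
    have ht : Tendsto L.weierstrassP (𝓝[≠] (0 : ℂ)) (Bornology.cobounded ℂ) := by
      rw [tendsto_cobounded_iff_meromorphicOrderAt_neg (L.meromorphic_weierstrassP 0), L.order_weierstrassP 0 h0]
      decide
    have hb : Bornology.IsBounded {x | p.IsRoot x} := hfin.isBounded
    have h1 : ∀ᶠ z in 𝓝[≠] (0 : ℂ), L.weierstrassP z ∈ {x | p.IsRoot x}ᶜ :=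
      ht (Bornology.isBounded_def.1 hb)
    have h2 : ∀ᶠ z in 𝓝[≠] (0 : ℂ), z ∉ L.lattice := by
      have h3 : ((L.lattice : Set ℂ) \ {0})ᶜ ∈ 𝓝[≠] (0 : ℂ) :=
        mem_nhdsWithin_of_mem_nhds (L.compl_lattice_sdiff_singleton_mem_nhds 0)
      filter_upwards [h3, self_mem_nhdsWithin] with z hz hz0 hz1
      exact hz ⟨hz1, hz0⟩
    obtain ⟨z, hz1, hz2⟩ := (h1.and h2).exists
    exact hz1 (hroot z hz2)
  have h2 : p.coeff j = c j := by
    rw [hpd, Polynomial.finsetSum_coeff]
    simp only [Polynomial.coeff_C_mul, Polynomial.coeff_X_pow, mul_ite, mul_one, mul_zero]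
    rw [sum_ite_eq, if_pos (mem_range.2 hj)]
  rw [← h2, hp, Polynomial.coeff_zero]

theorem sl_ind (L : PeriodPair) (a : ℂ) (D1 D2 D3 : ℕ) (c : ℕ → ℕ → ℕ → ℂ)
    (h : ∀ z ∉ L.lattice, ∀ x : ℂ, ∑ i ∈ range D1, ∑ j ∈ range D2, ∑ k ∈ range D3,
      c i j k * x ^ i * L.weierstrassP z ^ j * Complex.exp (k * (a * z + x)) = 0) :
    ∀ i < D1, ∀ j < D2, ∀ k < D3, c i j k = 0 := by
  have h1 : ∀ i < D1, ∀ k < D3, ∀ z ∉ L.lattice, ∑ j ∈ range D2, c i j k * L.weierstrassP z ^ j = 0 := by
    intro i hi k hk z hz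
    have h2 := exp_poly_zero D1 D3 (fun i k => (∑ j ∈ range D2, c i j k * L.weierstrassP z ^ j) *
      Complex.exp (k * (a * z))) (by
        intro x
        rw [← h z hz x]
        refine sum_congr rfl fun i _ => ?_
        rw [sum_comm]
        refine sum_congr rfl fun k _ => ?_
        rw [sum_mul, sum_mul, sum_mul]
        refine sum_congr rfl fun j _ => ?_
        rw [mul_add, Complex.exp_add]
        ring) i hi k hk
    exact (mul_eq_zero.1 h2).resolve_right (Complex.exp_ne_zero _)
  intro i hi j hj k hk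
  exact wp_poly_zero L D2 (fun j => c i j k) (h1 i hi k hk) j hj

end Pool.Agent.CHU

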