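import Pool.Agent.CHU.SL2C
import Pool.Agent.CHU.SL2S
import Pool.Agent.CHU.SLInd

/-! # Two variable Schneider-Lang: non-vanishing, the bound on one line -/

namespace Pool.Agent.CHU.SL
open Pool.Agent.ZCM Pool.Agent.ZFin
open Filter Topology

theorem entire_zero (G : ℂ → ℂ) (hG : Differentiable ℂ G) (z0 : ℂ)
    (h : ∀ t, iteratedDeriv t G z0 = 0) (z : ℂ) : G z = 0 := by
  have han : AnalyticOnNhd ℂ G Set.univ := fun w _ => hG.analyticAt w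
  have hord : analyticOrderAt G z0 = ⊤ := by
    rw [ENat.eq_top_iff_forall_ge]
    intro m
    exact (natCast_le_analyticOrderAt_iff_iteratedDeriv_eq_zero (hG.analyticAt z0)).2
      fun t _ => h t
  have hev := analyticOrderAt_eq_top.1 hord
  exact han.eqOn_zero_of_preconnected_of_eventuallyEq_zero isPreconnected_univ
    (Set.mem_univ z0) hev (Set.mem_univ z)

/-- evaluation of the auxiliary polynomial -/
theorem eval_PL (L : PeriodPair) (α g : ℂ) (D0 D1 D2 : ℕ) (p : ℕ → ℕ → ℕ → ℂ) (x z : ℂ) :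
    MvPolynomial.eval (V L α g x z) (PL ℂ D0 D1 D2 p) =
      ∑ i ∈ Finset.range D0, ∑ j ∈ Finset.range D1, ∑ k ∈ Finset.range D2,
        p i j k * x ^ i * L.weierstrassP z ^ j * Complex.exp (k * (α * z + x)) := by
  unfold PL
  simp only [map_sum, map_mul, map_pow, MvPolynomial.eval_C, MvPolynomial.eval_X]
  refine Finset.sum_congr rfl fun i _ => Finset.sum_congr rfl fun j _ =>
    Finset.sum_congr rfl fun k _ => ?_
  rw [Complex.exp_nat_mul]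
  change p i j k * (x ^ i * L.weierstrassP z ^ j * Complex.exp (α * z + x) ^ k) = _
  ring

theorem nonvanish (L : PeriodPair) (α g b : ℂ) (h2 : L.g₂ = -4 * g) (h3 : L.g₃ = -4 * b)
    (D0 D1 D2 : ℕ) (p : ℕ → ℕ → ℕ → ℂ) (hp : ∃ i < D0, ∃ j < D1, ∃ k < D2, p i j k ≠ 0)
    (x0 z0 : ℂ) (hz0 : z0 ∉ L.lattice) :
    ∃ m n, MvPolynomial.eval (V L α g x0 z0) (Dmn ℂ m n (PL ℂ D0 D1 D2 p)) ≠ 0 := by
  by_contra hc
  push Not at hc
  obtain ⟨i, hi, j, hj, k, hk, hne⟩ := hp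
  apply hne
  refine sl_ind L α D0 D1 D2 p (fun z hz x => ?_) i hi j hj k hk
  rw [← eval_PL L α g]
  have h := V_deriv_G L α g b h2 h3 (x - x0) (z - z0) x0 z0 (2 * D1) (PL ℂ D0 D1 D2 p)
    (fun s => EL α g b D0 D1 D2 p 0 (x0 + s * (x - x0)) (z0 + s * (z - z0)))
    (fun s hs => link_EL L α g b h2 h3 D0 D1 D2 p 0 _ hs) 0 (by simpa using hz0)
  have h0 : ∀ t, iteratedDeriv t
      (fun s => EL α g b D0 D1 D2 p 0 (x0 + s * (x - x0)) (z0 + s * (z - z0))) 0 = 0 := by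
    intro t
    refine (h (t + 1) (fun s _ => ?_)).1 t (Nat.lt_succ_self t)
    have := low_zero (V L α g x0 z0) (PL ℂ D0 D1 D2 p) (s + 1) (fun m n _ => hc m n)
      (x - x0) (z - z0) s 0 (by omega)
    simpa using this
  have h1 := entire_zero _ (differentiable_EL α g b D0 D1 D2 p 0 x0 z0 (x - x0) (z - z0)) 0 h0 1
  simp only [one_mul, add_sub_cancel] at h1
  rw [link_EL L α g b h2 h3 D0 D1 D2 p 0 x hz] at h1
  have hS : ev (SS g b) z ^ (2 * D1) ≠ 0 := by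
    refine pow_ne_zero _ fun h => hz ?_
    exact (S_eq_zero_iff L g b h2 h3 z).1 h
  exact (mul_eq_zero.1 h1).resolve_left hS

/-- the bound for the leading derivatives along one line of the grid -/
theorem line_bound (L : PeriodPair) (α g b : ℂ) (h2 : L.g₂ = -4 * g) (h3 : L.g₃ = -4 * b)
    (D0 D1 D2 : ℕ) (p : ℕ → ℕ → ℕ → ℂ) (β u x0 z0 : ℂ) (N τ k : ℕ)
    (hgr : ∀ n < N, z0 + ((n + 1 : ℕ) : ℂ) * u ∉ L.lattice)
    (hv : ∀ n < N, ∀ t < τ, MvPolynomial.eval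
      (V L α g (x0 + ((n + 1 : ℕ) : ℂ) * β) (z0 + ((n + 1 : ℕ) : ℂ) * u))
      ((⇑(Dv β u))^[t] ((⇑(dx ℂ))^[k] (PL ℂ D0 D1 D2 p))) = 0)
    (R S : ℝ) (hR : (N : ℝ) + 1 ≤ R) (hS0 : 0 ≤ S)
    (hS : ∀ s : ℂ, ‖s‖ = R → ‖EL α g b D0 D1 D2 p k (x0 + s * β) (z0 + s * u)‖ ≤ S)
    (n : ℕ) (hn : n < N) :
    ‖ev (SS g b) (z0 + ((n + 1 : ℕ) : ℂ) * u)‖ ^ (2 * D1) * ‖MvPolynomial.eval
      (V L α g (x0 + ((n + 1 : ℕ) : ℂ) * β) (z0 + ((n + 1 : ℕ) : ℂ) * u))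
      ((⇑(Dv β u))^[τ] ((⇑(dx ℂ))^[k] (PL ℂ D0 D1 D2 p)))‖ ≤
      τ.factorial * (S * ((2 * N + 1) / (R - N)) ^ (N * τ)) := by
  have key : ∀ n < N, (∀ t < τ, iteratedDeriv t
      (fun s => EL α g b D0 D1 D2 p k (x0 + s * β) (z0 + s * u)) ((n + 1 : ℕ) : ℂ) = 0) ∧
      iteratedDeriv τ (fun s => EL α g b D0 D1 D2 p k (x0 + s * β) (z0 + s * u))
        ((n + 1 : ℕ) : ℂ) = ev (SS g b) (z0 + ((n + 1 : ℕ) : ℂ) * u) ^ (2 * D1) *
        MvPolynomial.eval (V L α g (x0 + ((n + 1 : ℕ) : ℂ) * β) (z0 + ((n + 1 : ℕ) : ℂ) * u))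
          ((⇑(Dv β u))^[τ] ((⇑(dx ℂ))^[k] (PL ℂ D0 D1 D2 p))) := by
    intro n hn
    exact V_deriv_G L α g b h2 h3 β u x0 z0 (2 * D1) ((⇑(dx ℂ))^[k] (PL ℂ D0 D1 D2 p)) _
      (fun s hs => link_EL L α g b h2 h3 D0 D1 D2 p k _ hs) _ (hgr n hn) τ (hv n hn)
  have h := schwarz_line N τ (fun s => EL α g b D0 D1 D2 p k (x0 + s * β) (z0 + s * u))
    (differentiable_EL α g b D0 D1 D2 p k x0 z0 β u) (fun i : Fin N => (((i : ℕ) + 1 : ℕ) : ℂ))
    (fun i j hij => by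
      simp only at hij
      have h1 : (i : ℕ) + 1 = j + 1 := by exact_mod_cast hij
      exact Fin.ext (by omega))
    (fun i => by
      rw [Complex.norm_natCast]
      have := i.2
      exact_mod_cast (show (i : ℕ) + 1 ≤ N by omega))
    (fun i => (key i i.2).1) R S hR hS0 hS ⟨n, hn⟩
  simp only at h
  rw [(key n hn).2, norm_mul, norm_pow] at h
  exact h

end Pool.Agent.CHU.SL
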