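import Pool.Agent.CHU.SL2A
import Pool.Agent.ZFin.SchDup
import Pool.Agent.ZFR.ZAdd2

/-! # Two variable Schneider-Lang: the number field -/

namespace Pool.Agent.CHU.SL
open Pool.Agent.ZCM Pool.Agent.ZFin Pool.Agent.ZFR

/-- the values of `℘`, `℘'/2` at `z` lie in the field `K` -/
def InK (L : PeriodPair) (K : IntermediateField ℚ ℂ) (z : ℂ) : Prop :=
  L.weierstrassP z ∈ K ∧ L.derivWeierstrassP z / 2 ∈ K

theorem InK_dup (L : PeriodPair) (g b : ℂ) (h2 : L.g₂ = -4 * g) (h3 : L.g₃ = -4 * b)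
    (K : IntermediateField ℚ ℂ) (hg : g ∈ K) (z : ℂ) (h2z : 2 * z ∉ L.lattice) (h : InK L K z) :
    InK L K (2 * z) := by
  have hz : z ∉ L.lattice := by
    intro hz
    apply h2z
    have := L.lattice.add_mem hz hz
    rwa [← two_mul] at this
  obtain ⟨e1, e2⟩ := dup_lat L g b h2 h3 z _ _ hz h2z rfl rfl
  obtain ⟨hx, hy⟩ := h
  have t2 : (2 : ℂ) ∈ K := by exact_mod_cast K.natCast_mem 2
  have t3 : (3 : ℂ) ∈ K := by exact_mod_cast K.natCast_mem 3
  have t4 : (4 : ℂ) ∈ K := by exact_mod_cast K.natCast_mem 4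
  have t8 : (8 : ℂ) ∈ K := by exact_mod_cast K.natCast_mem 8
  have t12 : (12 : ℂ) ∈ K := by exact_mod_cast K.natCast_mem 12
  have c1 : 3 * L.weierstrassP z ^ 2 + g ∈ K := K.add_mem (K.mul_mem t3 (K.pow_mem hx 2)) hg
  constructor
  · rw [e1]
    exact K.div_mem (K.sub_mem (K.pow_mem c1 2) (K.mul_mem (K.mul_mem t8 hx) (K.pow_mem hy 2)))
      (K.mul_mem t4 (K.pow_mem hy 2))
  · rw [e2]
    refine K.div_mem (K.neg_mem (K.add_mem (K.sub_mem (K.pow_mem c1 3)
      (K.mul_mem (K.mul_mem (K.mul_mem t12 hx) (K.pow_mem hy 2)) c1))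
      (K.mul_mem t8 (K.pow_mem hy 4)))) (K.mul_mem t8 (K.pow_mem hy 3))

theorem InK_lat (L : PeriodPair) (K : IntermediateField ℚ ℂ) (z l : ℂ) (hl : l ∈ L.lattice)
    (h : InK L K z) : InK L K (z + l) := by
  obtain ⟨h1, h2⟩ := h
  have e1 := L.weierstrassP_add_coe z ⟨l, hl⟩
  have e2 := L.derivWeierstrassP_add_coe z ⟨l, hl⟩
  simp only at e1 e2
  exact ⟨by rw [e1]; exact h1, by rw [e2]; exact h2⟩

theorem InK_add (L : PeriodPair) (g b : ℂ) (h2 : L.g₂ = -4 * g) (h3 : L.g₃ = -4 * b)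
    (K : IntermediateField ℚ ℂ) (hg : g ∈ K) (z w : ℂ) (hz : z ∉ L.lattice) (hw : w ∉ L.lattice)
    (hzw : z + w ∉ L.lattice) (h : InK L K z) (h' : InK L K w) : InK L K (z + w) := by
  by_cases hne : L.weierstrassP z = L.weierstrassP w
  · rcases P_eq L g b h2 h3 hz hw hne with h5 | h5
    · have e : z + w = 2 * w + (z - w) := by ring
      have h2w : 2 * w ∉ L.lattice := by
        intro hcon
        apply hzw
        rw [e]
        exact L.lattice.add_mem hcon h5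
      rw [e]
      exact InK_lat L K _ _ h5 (InK_dup L g b h2 h3 K hg w h2w h')
    · exact absurd h5 hzw
  · obtain ⟨hx, hy⟩ := h
    obtain ⟨hx', hy'⟩ := h'
    have c1 : (L.derivWeierstrassP z / 2 - L.derivWeierstrassP w / 2) /
      (L.weierstrassP z - L.weierstrassP w) ∈ K :=
      K.div_mem (K.sub_mem hy hy') (K.sub_mem hx hx')
    have e1 := P_add L g b h2 h3 z w hz hw hzw hne
    have c2 : L.weierstrassP (z + w) ∈ K := by
      rw [e1]
      exact K.sub_mem (K.sub_mem (K.pow_mem c1 2) hx) hx'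
    refine ⟨c2, ?_⟩
    have e2 := derivP_add L g b h2 h3 z w hz hw hzw hne
    have e3 : L.derivWeierstrassP (z + w) / 2 =
        -((L.derivWeierstrassP z / 2 - L.derivWeierstrassP w / 2) /
          (L.weierstrassP z - L.weierstrassP w) * (L.weierstrassP (z + w) - L.weierstrassP z) +
            L.derivWeierstrassP z / 2) := by
      rw [e2]; ring
    rw [e3]
    exact K.neg_mem (K.add_mem (K.mul_mem c1 (K.sub_mem c2 hx)) hy)

/-- the grid -/
theorem InK_grid (L : PeriodPair) (g b : ℂ) (h2 : L.g₂ = -4 * g) (h3 : L.g₃ = -4 * b)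
    (K : IntermediateField ℚ ℂ) (hg : g ∈ K) (U1 U2 : ℂ)
    (hgr : ∀ n1 n2 : ℕ, (n1 ≠ 0 ∨ n2 ≠ 0) → (n1 : ℂ) * U1 + n2 * U2 ∉ L.lattice)
    (h1 : InK L K U1) (h2' : InK L K U2) (n1 n2 : ℕ) (hn : n1 ≠ 0 ∨ n2 ≠ 0) :
    InK L K ((n1 : ℂ) * U1 + n2 * U2) := by
  have k1 : U1 ∉ L.lattice := by simpa using hgr 1 0 (by simp)
  have k2 : U2 ∉ L.lattice := by simpa using hgr 0 1 (by simp)
  induction n1 with
  | zero =>
    have hn2 : n2 ≠ 0 := by simpa using hn
    clear hn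
    induction n2 with
    | zero => exact absurd rfl hn2
    | succ n ih =>
      by_cases h0 : n = 0
      · subst h0; simpa using h2'
      · have := ih h0
        have e : ((0 : ℕ) : ℂ) * U1 + ((n + 1 : ℕ) : ℂ) * U2 =
          (((0 : ℕ) : ℂ) * U1 + (n : ℂ) * U2) + U2 := by push_cast; ring
        rw [e]
        refine InK_add L g b h2 h3 K hg _ _ (hgr 0 n (Or.inr h0)) k2 ?_ this h2'
        rw [← e]
        exact hgr 0 (n + 1) (Or.inr (by omega))
  | succ n ih =>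
    by_cases h0 : n = 0 ∧ n2 = 0
    · obtain ⟨rfl, rfl⟩ := h0
      simpa using h1
    · have h0' : n ≠ 0 ∨ n2 ≠ 0 := by
        by_contra hc
        push Not at hc
        exact h0 hc
      have := ih h0'
      have e : ((n + 1 : ℕ) : ℂ) * U1 + (n2 : ℂ) * U2 = ((n : ℂ) * U1 + (n2 : ℂ) * U2) + U1 := by
        push_cast; ring
      rw [e]
      refine InK_add L g b h2 h3 K hg _ _ (hgr n n2 h0') k1 ?_ this h1
      rw [← e]
      exact hgr (n + 1) n2 (Or.inl (by omega))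

theorem y_alg (L : PeriodPair) (g b : ℂ) (h2 : L.g₂ = -4 * g) (h3 : L.g₃ = -4 * b)
    (hg : IsAlgebraic ℚ g) (hb : IsAlgebraic ℚ b) (z : ℂ) (hz : z ∉ L.lattice)
    (hP : IsAlgebraic ℚ (L.weierstrassP z)) : IsAlgebraic ℚ (L.derivWeierstrassP z / 2) := by
  refine IsAlgebraic.of_pow (n := 2) (by norm_num) ?_
  have hy0 : (L.derivWeierstrassP z / 2) ^ 2 =
      L.weierstrassP z ^ 3 + g * L.weierstrassP z + b := by
    have h := L.derivWeierstrassP_sq z hz
    rw [h2, h3] at h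
    linear_combination h / 4
  rw [hy0]
  exact ((hP.pow 3).add (hg.mul hP)).add hb

/-- all values at the grid lie in one number field -/
theorem sl_field (L : PeriodPair) (g b : ℂ) (h2 : L.g₂ = -4 * g) (h3 : L.g₃ = -4 * b)
    (hg : IsAlgebraic ℚ g) (hb : IsAlgebraic ℚ b) (α b1 b2 U1 U2 : ℂ) (hα : IsAlgebraic ℚ α)
    (hb1 : IsAlgebraic ℚ b1) (hb2 : IsAlgebraic ℚ b2)
    (hP1 : IsAlgebraic ℚ (L.weierstrassP U1)) (hP2 : IsAlgebraic ℚ (L.weierstrassP U2))
    (he1 : IsAlgebraic ℚ (Complex.exp (α * U1 + b1)))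
    (he2 : IsAlgebraic ℚ (Complex.exp (α * U2 + b2)))
    (hgr : ∀ n1 n2 : ℕ, (n1 ≠ 0 ∨ n2 ≠ 0) → (n1 : ℂ) * U1 + n2 * U2 ∉ L.lattice) :
    ∃ (K : Type) (_ : Field K) (_ : NumberField K) (ι : K →+* ℂ) (w : ℕ → ℕ → Fin 6 → K),
      ∀ n1 n2 : ℕ, (n1 ≠ 0 ∨ n2 ≠ 0) → ∀ i,
        ι (w n1 n2 i) = V L α g (n1 * b1 + n2 * b2) (n1 * U1 + n2 * U2) i := by
  have k1 : U1 ∉ L.lattice := by simpa using hgr 1 0 (by simp)
  have k2 : U2 ∉ L.lattice := by simpa using hgr 0 1 (by simp)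
  set s : Set ℂ := {g, b1, b2, L.weierstrassP U1, L.derivWeierstrassP U1 / 2,
    L.weierstrassP U2, L.derivWeierstrassP U2 / 2, Complex.exp (α * U1 + b1),
    Complex.exp (α * U2 + b2), α} with hs
  set K := IntermediateField.adjoin ℚ s with hK
  have hsK : s ⊆ K := IntermediateField.subset_adjoin ℚ s
  have hfin : FiniteDimensional ℚ K := by
    have hsf : Finite s := by
      rw [hs]; infer_instance
    refine IntermediateField.finiteDimensional_adjoin ?_
    intro t ht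
    rw [hs] at ht
    simp only [Set.mem_insert_iff, Set.mem_singleton_iff] at ht
    rcases ht with rfl | rfl | rfl | rfl | rfl | rfl | rfl | rfl | rfl | rfl
    · exact hg.isIntegral
    · exact hb1.isIntegral
    · exact hb2.isIntegral
    · exact hP1.isIntegral
    · exact (y_alg L g b h2 h3 hg hb U1 k1 hP1).isIntegral
    · exact hP2.isIntegral
    · exact (y_alg L g b h2 h3 hg hb U2 k2 hP2).isIntegral
    · exact he1.isIntegral
    · exact he2.isIntegral
    · exact hα.isIntegral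
  have hNF : NumberField K := ⟨⟩
  have hgK : g ∈ K := hsK (by simp [hs])
  have hb1K : b1 ∈ K := hsK (by simp [hs])
  have hb2K : b2 ∈ K := hsK (by simp [hs])
  have hαK : α ∈ K := hsK (by simp [hs])
  have hE1 : Complex.exp (α * U1 + b1) ∈ K := hsK (by simp [hs])
  have hE2 : Complex.exp (α * U2 + b2) ∈ K := hsK (by simp [hs])
  have hI1 : InK L K U1 := ⟨hsK (by simp [hs]), hsK (by simp [hs])⟩
  have hI2 : InK L K U2 := ⟨hsK (by simp [hs]), hsK (by simp [hs])⟩
  have hall : ∀ n1 n2 : ℕ, ∀ i, ∃ k : K, (n1 ≠ 0 ∨ n2 ≠ 0) →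
      (k : ℂ) = V L α g (n1 * b1 + n2 * b2) (n1 * U1 + n2 * U2) i := by
    intro n1 n2 i
    by_cases hn : n1 ≠ 0 ∨ n2 ≠ 0
    · have hk : V L α g (n1 * b1 + n2 * b2) (n1 * U1 + n2 * U2) i ∈ K := by
        obtain ⟨hx, hy⟩ := InK_grid L g b h2 h3 K hgK U1 U2 hgr hI1 hI2 n1 n2 hn
        have c1 : (n1 : ℂ) ∈ K := K.natCast_mem n1
        have c2 : (n2 : ℂ) ∈ K := K.natCast_mem n2
        fin_cases i
        · exact K.add_mem (K.mul_mem c1 hb1K) (K.mul_mem c2 hb2K)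
        · exact hx
        · exact hy
        · have e : Complex.exp (α * (n1 * U1 + n2 * U2) + (n1 * b1 + n2 * b2)) =
            Complex.exp (α * U1 + b1) ^ n1 * Complex.exp (α * U2 + b2) ^ n2 := by
            rw [← Complex.exp_nat_mul, ← Complex.exp_nat_mul, ← Complex.exp_add]
            congr 1
            ring
          change Complex.exp (α * (n1 * U1 + n2 * U2) + (n1 * b1 + n2 * b2)) ∈ K
          rw [e]
          exact K.mul_mem (K.pow_mem hE1 n1) (K.pow_mem hE2 n2)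
        · exact hαK
        · exact hgK
      exact ⟨⟨_, hk⟩, fun _ => rfl⟩
    · exact ⟨0, fun h => absurd h hn⟩
  choose w hw using hall
  exact ⟨K, inferInstance, hNF, (K.val : K →+* ℂ), w, fun n1 n2 hn i => hw n1 n2 i hn⟩

end Pool.Agent.CHU.SL
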