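import Mathlib

/-! # Two variable Schneider-Lang: the numbers -/

namespace Pool.Agent.CHU.SL

/-- the final inequality; `x = log e` -/
theorem final_num (κ N : ℕ) (hκ : 1 ≤ κ) (hN : N = 12 * κ + 24) (c1 c2 c10 : ℝ) (hc1 : 0 ≤ c1)
    (hc2 : 0 ≤ c2) (hc10 : 0 ≤ c10) (e : ℕ) (he : 1 ≤ e) (x : ℝ) (hx : x = Real.log e)
    (hx1 : 3 * c10 ≤ x) (hx2 : 3 * (c1 + N + N * c10 + κ * c2) < x)
    (h : -((κ : ℝ) - 1) * (2 * e * x + c2 * e) ≤
      (10 / 3) * e * x + c1 * e - N * (e / 2 : ℕ) * (x / 3 - c10)) : False := by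
  have he0 : (1 : ℝ) ≤ e := by exact_mod_cast he
  have hx0 : 0 ≤ x := by rw [hx]; exact Real.log_nonneg he0
  have hxe : x ≤ e := by
    rw [hx]
    exact (Real.log_le_sub_one_of_pos (by linarith)).trans (by linarith)
  have h1 : ((e : ℝ) - 1) / 2 ≤ ((e / 2 : ℕ) : ℝ) := by
    have : e ≤ 2 * (e / 2) + 1 := by omega
    have h2 : (e : ℝ) ≤ 2 * ((e / 2 : ℕ) : ℝ) + 1 := by exact_mod_cast this
    linarith
  have hN' : (N : ℝ) = 12 * κ + 24 := by rw [hN]; push_cast; ring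
  have hκ' : (1 : ℝ) ≤ κ := by exact_mod_cast hκ
  have hN0 : (0 : ℝ) ≤ N := Nat.cast_nonneg _
  have h3 : (N : ℝ) * (((e : ℝ) - 1) / 2) * (x / 3 - c10) ≤
      N * (e / 2 : ℕ) * (x / 3 - c10) := by
    have h4 : 0 ≤ x / 3 - c10 := by linarith
    have h5 : (N : ℝ) * (((e : ℝ) - 1) / 2) ≤ N * ((e / 2 : ℕ) : ℝ) := by gcongr
    exact mul_le_mul_of_nonneg_right h5 h4
  have h6 : (N : ℝ) * (((e : ℝ) - 1) / 2) * (x / 3 - c10) =
      N / 6 * (e * x) - N / 6 * x - N / 2 * c10 * e + N / 2 * c10 := by ring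
  have h7 : (N : ℝ) / 6 * (e * x) = (2 * κ + 4) * (e * x) := by rw [hN']; ring
  have h8 : 0 ≤ (N : ℝ) / 2 * c10 := by positivity
  have h9 : (N : ℝ) / 6 * x ≤ N / 6 * e := by gcongr
  have h10 : -((κ : ℝ) - 1) * (2 * e * x + c2 * e) ≥ -(2 * κ) * (e * x) - κ * c2 * e := by
    have t1 : 0 ≤ (e : ℝ) * x := by positivity
    have t2 : 0 ≤ c2 * e := by positivity
    nlinarith
  -- collect
  have h11 : (2 / 3) * (e * x) ≤ (c1 + N / 6 + N / 2 * c10 + κ * c2) * e := by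
    nlinarith
  have h12 : (2 / 3) * x ≤ c1 + N / 6 + N / 2 * c10 + κ * c2 := by
    have e0 : (0 : ℝ) < e := by linarith
    have : (2 / 3 * x) * e ≤ (c1 + N / 6 + N / 2 * c10 + κ * c2) * e := by linarith
    exact le_of_mul_le_mul_right this e0
  have h13 : 0 ≤ (κ : ℝ) * c2 := by positivity
  have h14 : 0 ≤ (N : ℝ) * c10 := by positivity
  linarith

end Pool.Agent.CHU.SL
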