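import Pool.Agent.CHU.SL2D
import Pool.Agent.CHU.SL2N
import Pool.Agent.CHU.SL2K

/-! # Two variable Schneider-Lang: the contradiction -/

namespace Pool.Agent.CHU.SL
open Pool.Agent.ZCM Pool.Agent.ZFin

theorem map_aeval6 {K : Type*} [Field K] (ι : K →+* ℂ) (w : Fin 6 → K) (v : Fin 6 → ℂ)
    (hv : ∀ i, ι (w i) = v i) (q : MvPolynomial (Fin 6) ℤ) :
    ι (MvPolynomial.aeval w q) =
      MvPolynomial.eval v (MvPolynomial.map (Int.castRingHom ℂ) q) := by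
  rw [MvPolynomial.eval_map, MvPolynomial.aeval_def, MvPolynomial.eval₂_comp_left]
  have h1 : (fun i => ι (w i)) = v := funext hv
  have h2 : (⇑ι ∘ w) = v := h1
  rw [h2]
  congr 1
  exact Subsingleton.elim _ _

theorem exists_den (K : Type) [Field K] [NumberField K] (N : ℕ) (w : ℕ → ℕ → Fin 6 → K) :
    ∃ d : ℕ, 1 ≤ d ∧ ∀ n1 n2, n1 < N → n2 < N → ∀ i, IsIntegral ℤ ((d : K) * w n1 n2 i) := by
  classical
  set s : Finset K := Finset.univ.image fun t : Fin N × Fin N × Fin 6 => w t.1 t.2.1 t.2.2 with hs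
  obtain ⟨y, hy0, hy⟩ := exists_integral_multiples ℤ ℚ (L := K) s
  refine ⟨y.natAbs, Int.natAbs_pos.2 hy0, fun n1 n2 h1 h2 i => ?_⟩
  have h3 : w n1 n2 i ∈ s := by
    rw [hs, Finset.mem_image]
    exact ⟨(⟨n1, h1⟩, ⟨n2, h2⟩, i), Finset.mem_univ _, rfl⟩
  have h4 := hy _ h3
  rw [zsmul_eq_mul] at h4
  rcases Int.natAbs_eq y with h5 | h5
  · have : (y : K) = ((y.natAbs : ℕ) : K) := by
      conv_lhs => rw [h5]
      simp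
    rwa [this] at h4
  · have : (y : K) = -((y.natAbs : ℕ) : K) := by
      conv_lhs => rw [h5]
      simp
    rw [this, neg_mul] at h4
    have := h4.neg
    rwa [neg_neg] at this

theorem exists_size (K : Type) [Field K] [NumberField K] (N : ℕ) (w : ℕ → ℕ → Fin 6 → K) :
    ∃ M : ℝ, 1 ≤ M ∧ ∀ n1 n2, n1 < N → n2 < N → ∀ i, ∀ σ : K →+* ℂ, ‖σ (w n1 n2 i)‖ ≤ M := by
  refine ⟨1 + ∑ t : Fin N × Fin N × Fin 6 × (K →+* ℂ), ‖t.2.2.2 (w t.1 t.2.1 t.2.2.1)‖, ?_, ?_⟩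
  · have : 0 ≤ ∑ t : Fin N × Fin N × Fin 6 × (K →+* ℂ), ‖t.2.2.2 (w t.1 t.2.1 t.2.2.1)‖ :=
      Finset.sum_nonneg fun _ _ => norm_nonneg _
    linarith
  · intro n1 n2 h1 h2 i σ
    have := Finset.single_le_sum (f := fun t : Fin N × Fin N × Fin 6 × (K →+* ℂ) =>
      ‖t.2.2.2 (w t.1 t.2.1 t.2.2.1)‖) (fun _ _ => norm_nonneg _)
      (Finset.mem_univ (⟨n1, h1⟩, ⟨n2, h2⟩, i, σ))
    simp only at this
    linarith

theorem exists_low (N : ℕ) (f : ℕ → ℕ → ℂ) (hf : ∀ n1 n2, n1 < N → n2 < N → f n1 n2 ≠ 0) :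
    ∃ Λ : ℝ, 1 ≤ Λ ∧ ∀ n1 n2, n1 < N → n2 < N → 1 ≤ Λ * ‖f n1 n2‖ := by
  refine ⟨1 + ∑ t : Fin N × Fin N, ‖f t.1 t.2‖⁻¹, ?_, ?_⟩
  · have : 0 ≤ ∑ t : Fin N × Fin N, ‖f t.1 t.2‖⁻¹ :=
      Finset.sum_nonneg fun _ _ => inv_nonneg.2 (norm_nonneg _)
    linarith
  · intro n1 n2 h1 h2
    have := Finset.single_le_sum (f := fun t : Fin N × Fin N => ‖f t.1 t.2‖⁻¹)
      (fun _ _ => inv_nonneg.2 (norm_nonneg _)) (Finset.mem_univ (⟨n1, h1⟩, ⟨n2, h2⟩))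
    simp only at this
    have h3 : 0 < ‖f n1 n2‖ := norm_pos_iff.2 (hf n1 n2 h1 h2)
    have h4 : ‖f n1 n2‖⁻¹ * ‖f n1 n2‖ = 1 := inv_mul_cancel₀ h3.ne'
    nlinarith

/-- the radius -/
theorem exists_rho (A r e : ℕ) (hA : 1 ≤ A) (hr : 1 ≤ r) (h : A * r ^ 3 ≤ e) :
    ∃ ρ : ℕ, r ≤ ρ ∧ A * ρ ^ 3 ≤ e ∧ e < A * (ρ + 1) ^ 3 := by
  classical
  have hre : r ≤ e := by
    calc r = r ^ 1 := (pow_one r).symm
      _ ≤ r ^ 3 := Nat.pow_le_pow_right hr (by norm_num)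
      _ ≤ A * r ^ 3 := Nat.le_mul_of_pos_left _ hA
      _ ≤ e := h
  set ρ := Nat.findGreatest (fun ρ => A * ρ ^ 3 ≤ e) e with hρ
  refine ⟨ρ, Nat.le_findGreatest hre h, ?_, ?_⟩
  · exact Nat.findGreatest_spec (P := fun ρ => A * ρ ^ 3 ≤ e) hre h
  · by_contra hc
    push Not at hc
    by_cases h1 : ρ + 1 ≤ e
    · exact Nat.findGreatest_is_greatest (P := fun ρ => A * ρ ^ 3 ≤ e) (Nat.lt_succ_self ρ) h1 hc
    · have h2 : ρ + 1 ≤ A * (ρ + 1) ^ 3 := by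
        calc ρ + 1 = (ρ + 1) ^ 1 := (pow_one _).symm
          _ ≤ (ρ + 1) ^ 3 := Nat.pow_le_pow_right (by omega) (by norm_num)
          _ ≤ A * (ρ + 1) ^ 3 := Nat.le_mul_of_pos_left _ hA
      omega

/-- powers as exponentials -/
theorem pow_le_exp {b l : ℝ} (hb : 0 ≤ b) (hl : 0 ≤ l) (h : b ≤ Real.exp l) {n : ℕ} {m : ℝ}
    (hn : (n : ℝ) ≤ m) : b ^ n ≤ Real.exp (m * l) := by
  calc b ^ n ≤ Real.exp l ^ n := by gcongr
    _ = Real.exp (n * l) := by rw [← Real.exp_nat_mul]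
    _ ≤ Real.exp (m * l) := Real.exp_le_exp.2 (by gcongr)

end Pool.Agent.CHU.SL
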