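import Pool.Agent.CHU.SL2M

/-! # Two variable Schneider-Lang: the numerical bounds -/

namespace Pool.Agent.CHU.SL

section
variable (e : ℕ) (he : 1 ≤ e)
include he

theorem e_exp : (e : ℝ) = Real.exp (Real.log e) := by
  rw [Real.exp_log]
  exact_mod_cast he

theorem x_nonneg : 0 ≤ Real.log (e : ℝ) := Real.log_nonneg (by exact_mod_cast he)

theorem x_le : Real.log (e : ℝ) ≤ e := by
  have : (0 : ℝ) < e := by exact_mod_cast he
  exact (Real.log_le_sub_one_of_pos this).trans (by linarith)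

theorem W_le (T D : ℕ) (B : ℝ) (hB : 1 ≤ B) (hT : T ≤ e) (hD : D ≤ 3 * e) :
    (4 * ((D + T : ℕ) : ℝ)) ^ T * B ^ (D + T) ≤
      Real.exp (e * Real.log e + (Real.log 16 + 4 * Real.log B) * e) := by
  have hx := x_nonneg e he
  have h16 : 0 ≤ Real.log 16 := Real.log_nonneg (by norm_num)
  have hlB : 0 ≤ Real.log B := Real.log_nonneg hB
  have h1 : (4 * ((D + T : ℕ) : ℝ)) ≤ Real.exp (Real.log 16 + Real.log e) := by
    rw [Real.exp_add, Real.exp_log (by norm_num), ← e_exp e he]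
    have : ((D + T : ℕ) : ℝ) ≤ 4 * e := by exact_mod_cast (show D + T ≤ 4 * e by omega)
    linarith
  have h2 := pow_le_exp (n := T) (m := e) (by positivity) (by positivity) h1
    (by exact_mod_cast hT)
  have h3 := pow_le_exp (b := B) (l := Real.log B) (n := D + T) (m := 4 * e) (by linarith) hlB
    (by rw [Real.exp_log (by linarith)]) (by exact_mod_cast (show D + T ≤ 4 * e by omega))
  calc (4 * ((D + T : ℕ) : ℝ)) ^ T * B ^ (D + T)
      ≤ Real.exp (e * (Real.log 16 + Real.log e)) * Real.exp (4 * e * Real.log B) := by gcongr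
    _ = Real.exp (e * Real.log e + (Real.log 16 + 4 * Real.log B) * e) := by
        rw [← Real.exp_add]; congr 1; ring

theorem W_le' (D : ℕ) (B : ℝ) (hB : 1 ≤ B) (hD : D ≤ 3 * e) :
    (4 * ((D + e : ℕ) : ℝ)) ^ e * B ^ (D + e) ≤
      Real.exp (e * Real.log e + (Real.log 16 + 4 * Real.log B) * e) :=
  W_le e he e D B hB le_rfl hD

theorem vol_le (D0 D1 D2 : ℕ) (h0 : D0 ≤ e) (h1 : D1 ≤ e) (h2 : D2 ≤ e) :
    (D0 : ℝ) * D1 * D2 ≤ Real.exp (3 * e) := by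
  have hx := x_nonneg e he
  have hxe := x_le e he
  have h3 : (D0 : ℝ) * D1 * D2 ≤ (e : ℝ) * e * e := by
    have : (D0 : ℝ) ≤ e := by exact_mod_cast h0
    have : (D1 : ℝ) ≤ e := by exact_mod_cast h1
    have : (D2 : ℝ) ≤ e := by exact_mod_cast h2
    gcongr
  refine h3.trans ?_
  have h4 : (e : ℝ) * e * e = Real.exp (3 * Real.log e) := by
    conv_lhs => rw [e_exp e he]
    rw [← Real.exp_add, ← Real.exp_add]
    congr 1
    ring
  rw [h4]
  exact Real.exp_le_exp.2 (by linarith)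

theorem H_le (vol W cW : ℝ) (hvol : 1 ≤ vol) (hv : vol ≤ Real.exp (3 * e)) (hW1 : 1 ≤ W)
    (hW : W ≤ Real.exp (e * Real.log e + cW * e)) :
    3 * vol * W + 2 ≤ Real.exp (e * Real.log e + (cW + 5) * e) := by
  have he' : (1 : ℝ) ≤ e := by exact_mod_cast he
  have h1 : 1 ≤ vol * W := by nlinarith
  have h2 : 3 * vol * W + 2 ≤ 5 * (vol * W) := by linarith
  have h3 : (5 : ℝ) ≤ Real.exp (2 * e) := by
    have h4 := Real.quadratic_le_exp_of_nonneg (x := 2 * (e : ℝ)) (by positivity)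
    nlinarith
  calc 3 * vol * W + 2 ≤ 5 * (vol * W) := h2
    _ ≤ Real.exp (2 * e) * (Real.exp (3 * e) * Real.exp (e * Real.log e + cW * e)) := by
        gcongr
    _ = Real.exp (e * Real.log e + (cW + 5) * e) := by
        rw [← Real.exp_add, ← Real.exp_add]; congr 1; ring

theorem fact_le : ((e.factorial : ℕ) : ℝ) ≤ Real.exp (e * Real.log e) := by
  have h1 : ((e.factorial : ℕ) : ℝ) ≤ (e : ℝ) ^ e := by exact_mod_cast Nat.factorial_le_pow e
  refine h1.trans ?_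
  conv_lhs => rw [e_exp e he]
  rw [← Real.exp_nat_mul]

theorem q_le (A N ρ : ℕ) (hA : 1 ≤ A) (hρ : 2 * N + 1 ≤ ρ) (h : e < A * (ρ + 1) ^ 3) :
    (2 * (N : ℝ) + 1) / (ρ - N) ≤
      Real.exp (-(Real.log e / 3 - (Real.log A / 3 + Real.log (2 * (2 * N + 1))))) := by
  have hρ' : 2 * (N : ℝ) + 1 ≤ ρ := by exact_mod_cast hρ
  have hN : (0 : ℝ) ≤ N := Nat.cast_nonneg _
  have h1 : Real.log e ≤ Real.log A + 3 * Real.log (ρ + 1) := by
    have h2 : (e : ℝ) ≤ A * (ρ + 1) ^ 3 := by exact_mod_cast h.le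
    have he0 : (0 : ℝ) < e := by exact_mod_cast he
    have hA0 : (0 : ℝ) < A := by exact_mod_cast hA
    have h3 := Real.log_le_log he0 h2
    rw [Real.log_mul hA0.ne' (by positivity), Real.log_pow] at h3
    exact_mod_cast h3
  have h3 : ((ρ : ℝ) + 1) / 2 ≤ ρ - N := by linarith
  have h4 : 0 < ((ρ : ℝ) + 1) / 2 := by positivity
  calc (2 * (N : ℝ) + 1) / (ρ - N) ≤ (2 * N + 1) / (((ρ : ℝ) + 1) / 2) := by gcongr
    _ = Real.exp (Real.log (2 * (2 * N + 1)) - Real.log (ρ + 1)) := by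
        rw [Real.exp_sub, Real.exp_log (by positivity), Real.exp_log (by positivity)]
        field_simp
    _ ≤ _ := Real.exp_le_exp.2 (by linarith)

theorem rho_le (A ρ : ℕ) (hA : 1 ≤ A) (h : A * ρ ^ 3 ≤ e) (hρ : 1 ≤ ρ) :
    (ρ : ℝ) ≤ Real.exp (Real.log e / 3) := by
  have hρ0 : (0 : ℝ) < ρ := by exact_mod_cast hρ
  have h1 : ρ ^ 3 ≤ e := (Nat.le_mul_of_pos_left _ hA).trans h
  have h2 : ((ρ : ℝ)) ^ 3 ≤ e := by exact_mod_cast h1
  have h3 := Real.log_le_log (by positivity) h2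
  rw [Real.log_pow] at h3
  push_cast at h3
  rw [← Real.log_le_iff_le_exp hρ0]
  linarith

end

/-- the whole upper bound for `ε` -/
theorem eps_le (e : ℕ) (he : 1 ≤ e) (N : ℕ) (H vol C2 CG Λ q lq cH : ℝ) (D0 D1 D2 ρ : ℕ)
    (hD0 : D0 ≤ e) (hD1 : D1 ≤ e) (hD2 : D2 ≤ e)
    (hH0 : 0 ≤ H) (hH : H ≤ Real.exp (e * Real.log e + cH * e)) (hvol0 : 0 ≤ vol)
    (hvol : vol ≤ Real.exp (3 * e)) (hC2 : 1 ≤ C2) (hCG : 0 ≤ CG) (hΛ : 1 ≤ Λ) (hρ1 : 1 ≤ ρ)
    (hρ : (ρ : ℝ) ≤ Real.exp (Real.log e / 3)) (h1 : (D1 : ℝ) * ρ ^ 2 ≤ e)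
    (h2 : (D2 : ℝ) * ρ ≤ e) (hq0 : 0 ≤ q) (hq : q ≤ Real.exp (-lq)) :
    Λ ^ (2 * D1) * (e.factorial * (H * vol * (((D0 : ℝ) + D2) ^ e * (C2 * ρ) ^ D0 *
      Real.exp (CG * (D1 * (C2 * ρ) ^ 2 + D2 * (C2 * ρ)))) * q ^ (N * (e / 2)))) ≤
    Real.exp ((10 / 3) * e * Real.log e + (2 * Real.log Λ + cH + 3 + 1 + Real.log C2 +
      CG * (C2 ^ 2 + C2)) * e - N * (e / 2 : ℕ) * lq) := by
  have hx := x_nonneg e he
  have hlΛ : 0 ≤ Real.log Λ := Real.log_nonneg hΛ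
  have hlC : 0 ≤ Real.log C2 := Real.log_nonneg hC2
  have hρ0 : (0 : ℝ) < ρ := by exact_mod_cast hρ1
  have b1 : Λ ^ (2 * D1) ≤ Real.exp (2 * e * Real.log Λ) :=
    pow_le_exp (by linarith) hlΛ (by rw [Real.exp_log (by linarith)]) (by
      exact_mod_cast (show 2 * D1 ≤ 2 * e by omega))
  have b2 := fact_le e he
  have b3 : ((D0 : ℝ) + D2) ^ e ≤ Real.exp (e * (1 + Real.log e)) := by
    refine pow_le_exp (by positivity) (by positivity) ?_ le_rfl
    rw [Real.exp_add, ← e_exp e he]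
    have h3 : ((D0 : ℝ) + D2) ≤ 2 * e := by exact_mod_cast (show D0 + D2 ≤ 2 * e by omega)
    have h4 : (2 : ℝ) ≤ Real.exp 1 := by
      have := Real.add_one_le_exp (1 : ℝ)
      linarith
    have he0 : (0 : ℝ) ≤ e := Nat.cast_nonneg _
    nlinarith
  have b4 : (C2 * ρ) ^ D0 ≤ Real.exp (e * (Real.log C2 + Real.log e / 3)) := by
    refine pow_le_exp (by positivity) (by positivity) ?_ (by exact_mod_cast hD0)
    rw [Real.exp_add, Real.exp_log (by linarith)]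
    gcongr
  have b5 : Real.exp (CG * (D1 * (C2 * ρ) ^ 2 + D2 * (C2 * ρ))) ≤
      Real.exp (CG * (C2 ^ 2 + C2) * e) := by
    refine Real.exp_le_exp.2 ?_
    have : (D1 : ℝ) * (C2 * ρ) ^ 2 + D2 * (C2 * ρ) ≤ (C2 ^ 2 + C2) * e := by
      have t1 : (D1 : ℝ) * (C2 * ρ) ^ 2 = C2 ^ 2 * (D1 * ρ ^ 2) := by ring
      have t2 : (D2 : ℝ) * (C2 * ρ) = C2 * (D2 * ρ) := by ring
      rw [t1, t2, add_mul]
      gcongr
    calc CG * (D1 * (C2 * ρ) ^ 2 + D2 * (C2 * ρ)) ≤ CG * ((C2 ^ 2 + C2) * e) := by gcongr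
      _ = CG * (C2 ^ 2 + C2) * e := by ring
  have b6 : q ^ (N * (e / 2)) ≤ Real.exp (-(N * (e / 2 : ℕ) * lq)) := by
    calc q ^ (N * (e / 2)) ≤ Real.exp (-lq) ^ (N * (e / 2)) := by gcongr
      _ = Real.exp (-(N * (e / 2 : ℕ) * lq)) := by
          rw [← Real.exp_nat_mul]
          congr 1
          push_cast
          ring
  calc Λ ^ (2 * D1) * (e.factorial * (H * vol * (((D0 : ℝ) + D2) ^ e * (C2 * ρ) ^ D0 *
      Real.exp (CG * (D1 * (C2 * ρ) ^ 2 + D2 * (C2 * ρ)))) * q ^ (N * (e / 2))))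
      ≤ Real.exp (2 * e * Real.log Λ) * (Real.exp (e * Real.log e) *
        (Real.exp (e * Real.log e + cH * e) * Real.exp (3 * e) *
          (Real.exp (e * (1 + Real.log e)) * Real.exp (e * (Real.log C2 + Real.log e / 3)) *
            Real.exp (CG * (C2 ^ 2 + C2) * e)) *
              Real.exp (-(N * (e / 2 : ℕ) * lq)))) := by
        gcongr
    _ = Real.exp (2 * e * Real.log Λ + (e * Real.log e + (e * Real.log e + cH * e + 3 * e +
          (e * (1 + Real.log e) + e * (Real.log C2 + Real.log e / 3) + CG * (C2 ^ 2 + C2) * e) +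
            (-(N * (e / 2 : ℕ) * lq))))) := by
        simp only [Real.exp_add]
    _ = _ := by
        congr 1
        ring

end Pool.Agent.CHU.SL
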