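import Pool.Agent.ZFR.SchSc
import Pool.Agent.ZFin.Schneider

/-! # If `g₂, g₃, ℘(u)` are algebraic and `u ∉ Ω`, then `u` is transcendental (Schneider) -/

set_option autoImplicit false

namespace Pool.Agent.CHU
open Pool.Agent.ZCM Pool.Agent.ZFin Pool.Agent.ZFR

theorem u_transc (L : PeriodPair) (h2 : IsAlgebraic ℚ L.g₂) (h3 : IsAlgebraic ℚ L.g₃) (u : ℂ)
    (hu : u ∉ L.lattice) (hP : IsAlgebraic ℚ (L.weierstrassP u)) : Transcendental ℚ u := by
  intro hua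
  obtain ⟨d2, hd2, hi2⟩ := TA_clear _ (SchSc_rat (-1 / 4) h2)
  obtain ⟨d3, hd3, hi3⟩ := TA_clear _ (SchSc_rat (-1 / 4) h3)
  obtain ⟨m, hm⟩ : ∃ m : ℕ, m = d2 * d3 := ⟨_, rfl⟩
  have hm0 : 0 < m := by rw [hm]; exact Nat.mul_pos hd2 hd3
  have hmC : (m : ℂ) ≠ 0 := by exact_mod_cast hm0.ne'
  obtain ⟨L', hL1, hL2, hL3, hL4⟩ := scale L m hm0
  have ha : IsIntegral ℤ (-(m : ℂ) ^ 4 / 4 * L.g₂) := by
    have e : -(m : ℂ) ^ 4 / 4 * L.g₂ =
        ((d2 ^ 3 * d3 ^ 4 : ℕ) : ℂ) * ((d2 : ℂ) * (((-1 / 4 : ℚ) : ℂ) * L.g₂)) := by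
      rw [hm]
      push_cast
      ring
    rw [e]
    exact (TA_nat _).mul hi2
  have hb : IsIntegral ℤ (-(m : ℂ) ^ 6 / 4 * L.g₃) := by
    have e : -(m : ℂ) ^ 6 / 4 * L.g₃ =
        ((d2 ^ 6 * d3 ^ 5 : ℕ) : ℂ) * ((d3 : ℂ) * (((-1 / 4 : ℚ) : ℂ) * L.g₃)) := by
      rw [hm]
      push_cast
      ring
    rw [e]
    exact (TA_nat _).mul hi3
  have hmul : (m : ℂ) * (u / m) = u := by field_simp
  have hp' : u / m ∉ L'.lattice := by
    rw [hL1, hmul]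
    exact hu
  have hPP : L'.weierstrassP (u / m) = (m : ℂ) ^ 2 * L.weierstrassP u := by
    have h4 := hasDerivAt_zetaL L' hp'
    have h5 : HasDerivAt (fun w : ℂ => (m : ℂ) * w) (m : ℂ) (u / m) := by
      simpa using (hasDerivAt_id' (u / (m : ℂ))).const_mul (m : ℂ)
    have h6 : HasDerivAt (zetaL L) (-L.weierstrassP u) ((m : ℂ) * (u / m)) := by
      rw [hmul]
      exact hasDerivAt_zetaL L hu
    have h7 := (h6.comp (u / (m : ℂ)) h5).const_mul (m : ℂ)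
    have h8 : zetaL L' = fun w => (m : ℂ) * (zetaL L ∘ fun w : ℂ => (m : ℂ) * w) w := by
      funext w
      exact hL4 w
    rw [h8] at h4
    have h9 := h4.unique h7
    linear_combination -h9
  refine schneider L' _ _ ha hb ?_ ?_ (u / m) hp' ?_ ?_
  · rw [hL2]
    ring
  · rw [hL3]
    ring
  · have e : u / m = (((1 / m : ℚ)) : ℂ) * u := by
      push_cast
      field_simp
    rw [e]
    exact SchSc_rat _ hua
  · rw [hPP]
    have := SchSc_nat (m ^ 2) hP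
    push_cast at this
    exact this

end Pool.Agent.CHU
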