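import Pool.Agent.CHU.Tr
import Pool.Agent.CHU.Words
import Pool.Agent.CHU.Main

/-! # Theorem A: pairs (logarithm, elliptic logarithm) for lattices with complex multiplication -/

set_option autoImplicit false

namespace Pool.Agent.CHU
open Pool.Agent.ZCM

theorem thmA (ω₁ ω₂ : ℂ) (him : (ω₂ / ω₁).im ≠ 0)
    (hg2 : IsAlgebraic ℚ (60 * ∑' q : ℤ × ℤ,
      if q = 0 then (0 : ℂ) else 1 / ((q.1 : ℂ) * ω₁ + (q.2 : ℂ) * ω₂) ^ 4))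
    (hg3 : IsAlgebraic ℚ (140 * ∑' q : ℤ × ℤ,
      if q = 0 then (0 : ℂ) else 1 / ((q.1 : ℂ) * ω₁ + (q.2 : ℂ) * ω₂) ^ 6))
    (hCM : ∃ c : ℂ, (∀ q : ℚ, c ≠ q) ∧ ∃ a b a' b' : ℚ,
      c * ω₁ = (a : ℂ) * ω₁ + (b : ℂ) * ω₂ ∧ c * ω₂ = (a' : ℂ) * ω₁ + (b' : ℂ) * ω₂)
    (t u : ℂ) (ht : IsAlgebraic ℚ (Complex.exp t))
    (hu : ∀ a b : ℤ, u ≠ (a : ℂ) * ω₁ + (b : ℂ) * ω₂)
    (hP : IsAlgebraic ℚ (1 / u ^ 2 + ∑' q : ℤ × ℤ,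
          if q = 0 then (0 : ℂ) else
            (1 / (u - ((q.1 : ℂ) * ω₁ + (q.2 : ℂ) * ω₂)) ^ 2
              - 1 / ((q.1 : ℂ) * ω₁ + (q.2 : ℂ) * ω₂) ^ 2)))
    (E : Set (ℚ × (ℚ × ℚ)))
    (hE : E = {x | t + x.1 * (2 * (Real.pi : ℂ) * Complex.I) ≠ 0 ∧
      u + (x.2.1 * ω₁ + x.2.2 * ω₂) ≠ 0 ∧
      ¬ AlgebraicIndependent ℚ ![t + x.1 * (2 * (Real.pi : ℂ) * Complex.I),
        u + (x.2.1 * ω₁ + x.2.2 * ω₂)]}) :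
    E.encard ≤ 2 ∨
    (∃ q₀ : ℚ, (∀ x ∈ E, x.1 = q₀) ∧
      ¬ AlgebraicIndependent ℚ ![t + q₀ * (2 * (Real.pi : ℂ) * Complex.I), ω₁] ∧
      ¬ AlgebraicIndependent ℚ ![u, ω₁]) ∨
    (∃ l₀ : ℚ × ℚ, (∀ x ∈ E, x.2 = l₀) ∧
      ¬ AlgebraicIndependent ℚ ![t, 2 * (Real.pi : ℂ) * Complex.I] ∧
      ¬ AlgebraicIndependent ℚ ![u + (l₀.1 * ω₁ + l₀.2 * ω₂), 2 * (Real.pi : ℂ) * Complex.I]) ∨
    ((∃ a b c : ℂ, IsAlgebraic ℚ a ∧ IsAlgebraic ℚ b ∧ IsAlgebraic ℚ c ∧ c ≠ 0 ∧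
        t = a + b * (2 * (Real.pi : ℂ) * Complex.I) + c * ω₁) ∧
      (∃ a b c : ℂ, IsAlgebraic ℚ a ∧ IsAlgebraic ℚ b ∧ IsAlgebraic ℚ c ∧ c ≠ 0 ∧
        u = a + b * ω₁ + c * (2 * (Real.pi : ℂ) * Complex.I)) ∧
      Set.InjOn Prod.fst E ∧ Set.InjOn Prod.snd E ∧
      {x ∈ E | ∃ j m n : ℤ, x = ((j : ℚ), ((m : ℚ), (n : ℚ)))}.Finite) := by
  obtain ⟨hPW, -, hτ⟩ := words chud_kr ω₁ ω₂ him hg2 hg3 hCM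
  obtain ⟨L, hL1, hL2⟩ := exists_periodPair ω₁ ω₂ him
  subst hL1 hL2
  rw [← g₂_eq_tsum] at hg2
  rw [← g₃_eq_tsum] at hg3
  rw [← P_eq_tsum] at hP
  have hW : Transcendental ℚ L.ω₁ := ((algInd_iff _ _).1 hPW).1
  have hEQ : E = DQ (2 * (Real.pi : ℂ) * Complex.I) L.ω₁ L.ω₂ t u := by
    rw [hE]
    ext x
    constructor
    · rintro ⟨h1, h2, h3⟩
      exact ⟨t_translate_transc t ht _ h1, u_translate_transc L hg2 hg3 hτ hW u hP _ _ h2, h3⟩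
    · rintro ⟨h1, h2, h3⟩
      exact ⟨fun h => h1 (by rw [h]; exact isAlgebraic_zero),
        fun h => h2 (by rw [h]; exact isAlgebraic_zero), h3⟩
  rw [hEQ]
  rcases exceptional_sharp hPW hτ him t u with h | h | h | ⟨h1, h2, h3, h4, h5⟩
  · exact Or.inl h
  · exact Or.inr (Or.inl h)
  · exact Or.inr (Or.inr (Or.inl h))
  · refine Or.inr (Or.inr (Or.inr ⟨h1, h2, h3, h4, ?_⟩))
    refine (h5.image phiQ).subset ?_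
    rintro x ⟨hx, j, m, n, rfl⟩
    exact ⟨(j, (m, n)), (phiQ_mem _).1 hx, rfl⟩

end Pool.Agent.CHU
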