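import Pool.Agent.CHU.Red
import Pool.Agent.CHU.Words
import Pool.Agent.CHU.Main

/-! # Theorem A, final form (with the two-variable Schneider-Lang statement as a hypothesis) -/

set_option autoImplicit false

namespace Pool.Agent.CHU
open Pool.Agent.ZCM

/-- the statement `SL2` -/
def SL2H : Prop := ∀ (L : PeriodPair), IsAlgebraic ℚ L.g₂ → IsAlgebraic ℚ L.g₃ →
  ∀ a b1 b2 U1 U2 : ℂ, IsAlgebraic ℚ a → a ≠ 0 → IsAlgebraic ℚ b1 → IsAlgebraic ℚ b2 →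
    AlgebraicIndependent ℚ ![U1, U2] → IsAlgebraic ℚ (L.weierstrassP U1) →
    IsAlgebraic ℚ (L.weierstrassP U2) → IsAlgebraic ℚ (Complex.exp (a * U1 + b1)) →
    IsAlgebraic ℚ (Complex.exp (a * U2 + b2)) →
    (∀ n1 n2 : ℕ, (n1 ≠ 0 ∨ n2 ≠ 0) → (n1 : ℂ) * U1 + n2 * U2 ∉ L.lattice) → False

theorem thmA3 (hSL : SL2H) (ω₁ ω₂ : ℂ) (him : (ω₂ / ω₁).im ≠ 0)
    (hg2 : IsAlgebraic ℚ (60 * ∑' q : ℤ × ℤ,
      if q = 0 then (0 : ℂ) else 1 / ((q.1 : ℂ) * ω₁ + (q.2 : ℂ) * ω₂) ^ 4))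
    (hg3 : IsAlgebraic ℚ (140 * ∑' q : ℤ × ℤ,
      if q = 0 then (0 : ℂ) else 1 / ((q.1 : ℂ) * ω₁ + (q.2 : ℂ) * ω₂) ^ 6))
    (hCM : ∃ c : ℂ, (∀ q : ℚ, c ≠ q) ∧ ∃ a b a' b' : ℚ,
      c * ω₁ = (a : ℂ) * ω₁ + (b : ℂ) * ω₂ ∧ c * ω₂ = (a' : ℂ) * ω₁ + (b' : ℂ) * ω₂)
    (t u : ℂ) (ht : IsAlgebraic ℚ (Complex.exp t))
    (hu : ∀ a b : ℤ, u ≠ (a : ℂ) * ω₁ + (b : ℂ) * ω₂)
    (hP : IsAlgebraic ℚ (1 / u ^ 2 + ∑' q : ℤ × ℤ,
          if q = 0 then (0 : ℂ) else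
            (1 / (u - ((q.1 : ℂ) * ω₁ + (q.2 : ℂ) * ω₂)) ^ 2
              - 1 / ((q.1 : ℂ) * ω₁ + (q.2 : ℂ) * ω₂) ^ 2)))
    (E : Set (ℚ × (ℚ × ℚ)))
    (hE : E = {x | t + x.1 * (2 * (Real.pi : ℂ) * Complex.I) ≠ 0 ∧
      u + (x.2.1 * ω₁ + x.2.2 * ω₂) ≠ 0 ∧
      ¬ AlgebraicIndependent ℚ ![t + x.1 * (2 * (Real.pi : ℂ) * Complex.I),
        u + (x.2.1 * ω₁ + x.2.2 * ω₂)]}) :
    E.encard ≤ 2 ∨
    (∃ q₀ : ℚ, (∀ x ∈ E, x.1 = q₀) ∧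
      ¬ AlgebraicIndependent ℚ ![t + q₀ * (2 * (Real.pi : ℂ) * Complex.I), ω₁] ∧
      ¬ AlgebraicIndependent ℚ ![u, ω₁]) ∨
    (∃ l₀ : ℚ × ℚ, (∀ x ∈ E, x.2 = l₀) ∧
      ¬ AlgebraicIndependent ℚ ![t, 2 * (Real.pi : ℂ) * Complex.I] ∧
      ¬ AlgebraicIndependent ℚ ![u + (l₀.1 * ω₁ + l₀.2 * ω₂), 2 * (Real.pi : ℂ) * Complex.I]) := by
  obtain ⟨hPW, -, hτ⟩ := words chud_kr ω₁ ω₂ him hg2 hg3 hCM
  obtain ⟨c, hc, a, b, a', b', hc1, hc2⟩ := hCM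
  have hω₁ : ω₁ ≠ 0 := by rintro rfl; simp at him
  have him' : c.im ≠ 0 := by
    intro h0
    have e : c = a + b * (ω₂ / ω₁) := by
      field_simp
      linear_combination hc1
    have hb : b = 0 := by
      have h3 : c.im = b * (ω₂ / ω₁).im := by
        rw [e]; simp
      rw [h0] at h3
      have := (mul_eq_zero.1 h3.symm).resolve_right him
      exact_mod_cast this
    exact hc a (by rw [e, hb]; simp)
  obtain ⟨N, -, -, hN, -, -, hmat⟩ := cm_data ω₁ ω₂ c him him' ⟨a, b, hc1⟩ ⟨a', b', hc2⟩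
  obtain ⟨L, hL1, hL2⟩ := exists_periodPair ω₁ ω₂ him
  subst hL1 hL2
  have hal : ∀ l ∈ L.lattice, ((N : ℂ) * c) * l ∈ L.lattice := by
    intro l hl
    obtain ⟨u, v, e⟩ := PeriodPair.mem_lattice.1 hl
    obtain ⟨u', v', e'⟩ := hmat u v
    refine PeriodPair.mem_lattice.2 ⟨u', v', ?_⟩
    rw [← e', ← e]
  have himN : ((N : ℂ) * c).im ≠ 0 := by
    have hN' : (N : ℝ) ≠ 0 := by exact_mod_cast hN.ne'
    simpa using ⟨hN.ne', him'⟩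
  rw [← g₂_eq_tsum] at hg2
  rw [← g₃_eq_tsum] at hg3
  rw [← P_eq_tsum] at hP
  have hW : Transcendental ℚ L.ω₁ := ((algInd_iff _ _).1 hPW).1
  have hEQ : E = DQ (2 * (Real.pi : ℂ) * Complex.I) L.ω₁ L.ω₂ t u := by
    rw [hE]
    ext x
    constructor
    · rintro ⟨h1, h2, h3⟩
      exact ⟨t_translate_transc t ht _ h1, u_translate_transc L hg2 hg3 hτ hW u hP _ _ h2, h3⟩
    · rintro ⟨h1, h2, h3⟩
      exact ⟨fun h => h1 (by rw [h]; exact isAlgebraic_zero),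
        fun h => h2 (by rw [h]; exact isAlgebraic_zero), h3⟩
  rw [hEQ]
  rcases exceptional_sharp hPW hτ him t u with h | h | h | ⟨-, -, i1, i2, -⟩
  · exact Or.inl h
  · exact Or.inr (Or.inl h)
  · exact Or.inr (Or.inr h)
  · left
    by_contra hle
    push Not at hle
    obtain ⟨x, y, z, hxy, hxz, hyz, hx, hy, hz⟩ : ∃ x y z : ℚ × (ℚ × ℚ), x ≠ y ∧ x ≠ z ∧ y ≠ z ∧
        x ∈ DQ (2 * (Real.pi : ℂ) * Complex.I) L.ω₁ L.ω₂ t u ∧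
        y ∈ DQ (2 * (Real.pi : ℂ) * Complex.I) L.ω₁ L.ω₂ t u ∧
        z ∈ DQ (2 * (Real.pi : ℂ) * Complex.I) L.ω₁ L.ω₂ t u := by
      have h3 : (3 : ℕ∞) ≤ (DQ (2 * (Real.pi : ℂ) * Complex.I) L.ω₁ L.ω₂ t u).encard := by
        have := Order.add_one_le_of_lt hle
        have e : (2 : ℕ∞) + 1 = 3 := by norm_num
        rwa [e] at this
      obtain ⟨S, hS, hS3⟩ := Set.exists_subset_encard_eq h3
      obtain ⟨x, y, z, h1, h2, h3, rfl⟩ := Set.encard_eq_three.1 hS3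
      exact ⟨x, y, z, h1, h2, h3, hS (by simp), hS (by simp), hS (by simp)⟩
    obtain ⟨f, hf, hf0, hf1, hf2, hfi⟩ : ∃ f : Fin 3 → ℚ × (ℚ × ℚ),
        (∀ i, f i ∈ DQ (2 * (Real.pi : ℂ) * Complex.I) L.ω₁ L.ω₂ t u) ∧ f 0 = x ∧ f 1 = y ∧
        f 2 = z ∧ Function.Injective f := by
      refine ⟨![x, y, z], ?_, rfl, rfl, rfl, ?_⟩
      · intro i
        fin_cases i
        · exact hx
        · exact hy
        · exact hz
      · intro i j hij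
        fin_cases i <;> fin_cases j <;> simp at hij ⊢
        · exact hxy hij
        · exact hxz hij
        · exact hxy hij.symm
        · exact hyz hij
        · exact hxz hij.symm
        · exact hyz hij.symm
    obtain ⟨a, b1, b2, U1, U2, r1, r2, r3, r4, r5, r6, r7, r8, r9, r10⟩ :=
      reduction L hg2 hg3 _ himN hal hτ him hPW t u ht hP (fun i => (f i).1) (fun i => (f i).2)
        (fun i j h => hfi (i1 (hf i) (hf j) h)) (fun i j h => hfi (i2 (hf i) (hf j) h))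
        (fun i => (dep_iff (hf i).2.1).1 (hf i).2.2)
    exact hSL L hg2 hg3 a b1 b2 U1 U2 r1 r2 r3 r4 r5 r6 r7 r8 r9 r10

end Pool.Agent.CHU
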