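import Pool.Agent.CHU.Words
import Pool.Agent.CHU.Main
import Pool.Agent.CHU.Exc2

/-! # Theorem B: `ζ(p)` algebraic, complex multiplication -/

set_option autoImplicit false

namespace Pool.Agent.CHU
open Pool.Agent.ZCM

/-- the abstract form -/
theorem abstractB {P W w2 p : ℂ} (hPW : AlgebraicIndependent ℚ ![P, W])
    (hτ : IsAlgebraic ℚ (w2 / W)) (him : (w2 / W).im ≠ 0) (hp : Transcendental ℚ p) :
    (∀ t : ℂ, {q : ℚ | ¬ AlgebraicIndependent ℚ ![t + q * P, p]}.Subsingleton) ∨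
    (∀ u : ℂ, {l : ℚ × ℚ | ¬ AlgebraicIndependent ℚ ![u + (l.1 * W + l.2 * w2), p]}.Subsingleton) := by
  have hW : Transcendental ℚ W := ((algInd_iff P W).1 hPW).1
  have hPF : P ∉ FF W := ((algInd_iff P W).1 hPW).2
  have hW0 : W ≠ 0 := fun h => hW (by rw [h]; exact isAlgebraic_zero)
  by_cases hPp : P ∈ FF p
  · right
    intro u l hl l' hl'
    by_contra hne
    have e1 := (dep_iff hp).1 hl
    have e2 := (dep_iff hp).1 hl'
    apply hPF
    refine FF_trans hPp (FF_symm hW ?_)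
    obtain ⟨m, n⟩ := l
    obtain ⟨m', n'⟩ := l'
    simp only at e1 e2
    have hjj : ((m : ℂ) + n * (w2 / W)) - (m' + n' * (w2 / W)) ≠ 0 := by
      intro h
      apply hne
      have h1 := congrArg Complex.im h
      simp only [Complex.sub_im, Complex.add_im, Complex.ratCast_im, Complex.mul_im,
        Complex.ratCast_re, zero_mul, add_zero, zero_add, Complex.zero_im] at h1
      have h2 : ((n : ℝ) - n') * (w2 / W).im = 0 := by linear_combination h1
      have h3 : (n : ℝ) = n' := sub_eq_zero.1 ((mul_eq_zero.1 h2).resolve_right him)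
      have h4 : n = n' := by exact_mod_cast h3
      subst h4
      have h5 : (m : ℂ) = m' := by linear_combination h
      have h6 : m = m' := by exact_mod_cast h5
      rw [h6]
    have e3 : W = (((m : ℂ) + n * (w2 / W)) - (m' + n' * (w2 / W)))⁻¹ *
        ((u + (m * W + n * w2)) - (u + (m' * W + n' * w2))) := by
      have e0 : (u + (m * W + n * w2)) - (u + (m' * W + n' * w2)) =
          (((m : ℂ) + n * (w2 / W)) - (m' + n' * (w2 / W))) * W := by
        field_simp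
        ring
      rw [e0, ← mul_assoc, inv_mul_cancel₀ hjj, one_mul]
    rw [e3]
    exact FF_mul (FF_of_alg ((((isAlg_rat m).add ((isAlg_rat n).mul hτ)).sub
      ((isAlg_rat m').add ((isAlg_rat n').mul hτ))).inv)) (FF_sub e1 e2)
  · left
    intro t q hq q' hq'
    by_contra hne
    have e1 := (dep_iff hp).1 hq
    have e2 := (dep_iff hp).1 hq'
    apply hPp
    have hjj : (q : ℂ) - q' ≠ 0 := by
      intro h
      apply hne
      have : (q : ℂ) = q' := by linear_combination h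
      exact_mod_cast this
    have e4 : P = ((q : ℂ) - q')⁻¹ * ((t + q * P) - (t + q' * P)) := by
      field_simp
      ring
    rw [e4]
    exact FF_mul (FF_of_alg ((isAlg_rat q).sub (isAlg_rat q')).inv) (FF_sub e1 e2)

theorem thmB (ω₁ ω₂ : ℂ) (him : (ω₂ / ω₁).im ≠ 0)
    (hg2 : IsAlgebraic ℚ (60 * ∑' q : ℤ × ℤ,
      if q = 0 then (0 : ℂ) else 1 / ((q.1 : ℂ) * ω₁ + (q.2 : ℂ) * ω₂) ^ 4))
    (hg3 : IsAlgebraic ℚ (140 * ∑' q : ℤ × ℤ,
      if q = 0 then (0 : ℂ) else 1 / ((q.1 : ℂ) * ω₁ + (q.2 : ℂ) * ω₂) ^ 6))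
    (hCM : ∃ c : ℂ, (∀ q : ℚ, c ≠ q) ∧ ∃ a b a' b' : ℚ,
      c * ω₁ = (a : ℂ) * ω₁ + (b : ℂ) * ω₂ ∧ c * ω₂ = (a' : ℂ) * ω₁ + (b' : ℂ) * ω₂)
    (p : ℂ) (hp : ∀ a b : ℤ, p ≠ (a : ℂ) * ω₁ + (b : ℂ) * ω₂)
    (hζ : IsAlgebraic ℚ (1 / p + ∑' q : ℤ × ℤ,
          if q = 0 then (0 : ℂ) else
            (1 / (p - ((q.1 : ℂ) * ω₁ + (q.2 : ℂ) * ω₂))
              + 1 / ((q.1 : ℂ) * ω₁ + (q.2 : ℂ) * ω₂)
              + p / ((q.1 : ℂ) * ω₁ + (q.2 : ℂ) * ω₂) ^ 2))) :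
    Transcendental ℚ p ∧
    ((∀ t : ℂ, {q : ℚ | ¬ AlgebraicIndependent ℚ
        ![t + q * (2 * (Real.pi : ℂ) * Complex.I), p]}.Subsingleton) ∨
     (∀ u : ℂ, {l : ℚ × ℚ | ¬ AlgebraicIndependent ℚ
        ![u + (l.1 * ω₁ + l.2 * ω₂), p]}.Subsingleton)) := by
  obtain ⟨hPW, -, hτ⟩ := words chud_kr ω₁ ω₂ him hg2 hg3 hCM
  obtain ⟨c, hc, a, b, a', b', h1, h2⟩ := hCM
  have hω₁ : ω₁ ≠ 0 := by rintro rfl; simp at him
  have him' : c.im ≠ 0 := by
    intro h0
    have e : c = a + b * (ω₂ / ω₁) := by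
      field_simp
      linear_combination h1
    have hb : b = 0 := by
      have h3 : c.im = b * (ω₂ / ω₁).im := by
        rw [e]; simp
      rw [h0] at h3
      have := (mul_eq_zero.1 h3.symm).resolve_right him
      exact_mod_cast this
    exact hc a (by rw [e, hb]; simp)
  have hpt := ZCM.main ω₁ ω₂ him hg2 hg3 c him' ⟨a, b, h1⟩ ⟨a', b', h2⟩ p hp hζ
  exact ⟨hpt, abstractB hPW hτ him hpt⟩

end Pool.Agent.CHU
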