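import Pool.Agent.CHU.ThmR2
import Pool.Agent.CHU.ThmB
import Pool.Agent.CHU.ConjR

/-! # Theorem A, final form: the exceptional row and column in the real case -/

set_option autoImplicit false

namespace Pool.Agent.CHU
open Pool.Agent.ZCM ComplexConjugate

theorem ai_swap {x y : ℂ} (h : AlgebraicIndependent ℚ ![x, y]) : AlgebraicIndependent ℚ ![y, x] := by
  obtain ⟨h1, h2⟩ := transc_of_algInd h
  rw [algInd_iff]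
  exact ⟨h1, fun h3 => ((algInd_iff _ _).1 h).2 (FF_symm h2 h3)⟩

theorem ai_pi {x : ℂ} (h : AlgebraicIndependent ℚ ![x, 2 * (Real.pi : ℂ) * Complex.I]) :
    AlgebraicIndependent ℚ ![x, (Real.pi : ℂ)] := by
  by_contra hcon
  obtain ⟨h1, h2⟩ := transc_of_algInd h
  have e : 2 * (Real.pi : ℂ) * Complex.I = (2 * Complex.I) * (Real.pi : ℂ) := by ring
  have h3 : IsAlgebraic ℚ (2 * Complex.I) := by
    have h4 : IsAlgebraic ℚ (2 : ℂ) := by simpa using isAlgebraic_natCast (R := ℚ) (A := ℂ) 2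
    refine h4.mul ?_
    refine ⟨Polynomial.X ^ 2 + 1, ?_, by simp⟩
    intro h5
    have h6 : (Polynomial.X ^ 2 + 1 : Polynomial ℚ).natDegree = 2 := by compute_degree!
    rw [h5] at h6
    simp at h6
  have h5 : Transcendental ℚ (Real.pi : ℂ) := by
    intro h6
    apply h2
    rw [e]
    exact h3.mul h6
  rw [dep_iff h5] at hcon
  apply ((algInd_iff _ _).1 h).2
  refine FF_trans hcon ?_
  have e2 : (Real.pi : ℂ) = (2 * Complex.I)⁻¹ * (2 * (Real.pi : ℂ) * Complex.I) := by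
    have : (Complex.I : ℂ) ≠ 0 := Complex.I_ne_zero
    field_simp
  have h7 : (2 * Complex.I)⁻¹ * (2 * (Real.pi : ℂ) * Complex.I) ∈
      FF (2 * (Real.pi : ℂ) * Complex.I) := FF_mul (FF_of_alg h3.inv) (mem_FF_self _)
  rwa [← e2] at h7

theorem thmA5 (ω₁ ω₂ : ℂ) (him : (ω₂ / ω₁).im ≠ 0)
    (hg2 : IsAlgebraic ℚ (60 * ∑' q : ℤ × ℤ,
      if q = 0 then (0 : ℂ) else 1 / ((q.1 : ℂ) * ω₁ + (q.2 : ℂ) * ω₂) ^ 4))
    (hg3 : IsAlgebraic ℚ (140 * ∑' q : ℤ × ℤ,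
      if q = 0 then (0 : ℂ) else 1 / ((q.1 : ℂ) * ω₁ + (q.2 : ℂ) * ω₂) ^ 6))
    (hCM : ∃ c : ℂ, (∀ q : ℚ, c ≠ q) ∧ ∃ a b a' b' : ℚ,
      c * ω₁ = (a : ℂ) * ω₁ + (b : ℂ) * ω₂ ∧ c * ω₂ = (a' : ℂ) * ω₁ + (b' : ℂ) * ω₂)
    (t u : ℂ) (ht : IsAlgebraic ℚ (Complex.exp t))
    (hu : (∃ a b : ℤ, u = (a : ℂ) * ω₁ + (b : ℂ) * ω₂) ∨
      IsAlgebraic ℚ (1 / u ^ 2 + ∑' q : ℤ × ℤ,
          if q = 0 then (0 : ℂ) else
            (1 / (u - ((q.1 : ℂ) * ω₁ + (q.2 : ℂ) * ω₂)) ^ 2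
              - 1 / ((q.1 : ℂ) * ω₁ + (q.2 : ℂ) * ω₂) ^ 2)))
    (E : Set (ℚ × (ℚ × ℚ)))
    (hE : E = {x | t + x.1 * (2 * (Real.pi : ℂ) * Complex.I) ≠ 0 ∧
      u + (x.2.1 * ω₁ + x.2.2 * ω₂) ≠ 0 ∧
      ¬ AlgebraicIndependent ℚ ![t + x.1 * (2 * (Real.pi : ℂ) * Complex.I),
        u + (x.2.1 * ω₁ + x.2.2 * ω₂)]}) :
    E.encard ≤ 2 ∨
    (∃ q₀ : ℚ, (∀ x ∈ E, x.1 = q₀) ∧
      ¬ AlgebraicIndependent ℚ ![t + q₀ * (2 * (Real.pi : ℂ) * Complex.I), ω₁] ∧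
      ¬ AlgebraicIndependent ℚ ![u, ω₁] ∧
      (t.im = 0 → q₀ = 0)) ∨
    (∃ l₀ : ℚ × ℚ, (∀ x ∈ E, x.2 = l₀) ∧
      ¬ AlgebraicIndependent ℚ ![t, (Real.pi : ℂ)] ∧
      ¬ AlgebraicIndependent ℚ ![u + (l₀.1 * ω₁ + l₀.2 * ω₂), (Real.pi : ℂ)] ∧
      ∀ w : ℂ, (∃ a b : ℤ, w = (a : ℂ) * ω₁ + (b : ℂ) * ω₂) → w ≠ 0 → (u / w).im = 0 →
        ((l₀.1 * ω₁ + l₀.2 * ω₂) / w).im = 0) := by
  obtain ⟨hPW, -, hτ⟩ := words chud_kr ω₁ ω₂ him hg2 hg3 hCM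
  have hcr := conj_ratio_alg ω₁ ω₂ him hg2 hg3 hCM
  rcases thmA4 ω₁ ω₂ him hg2 hg3 hCM t u ht hu E hE with h | ⟨q₀, h1, h2, h3⟩ | ⟨l₀, h1, h2, h3⟩
  · exact Or.inl h
  · refine Or.inr (Or.inl ⟨q₀, h1, h2, h3, fun hti => ?_⟩)
    by_contra hq
    refine h2 (row_excl hPW hcr t ?_ q₀ hq)
    rw [Complex.conj_eq_iff_im]
    exact hti
  · refine Or.inr (Or.inr ⟨l₀, h1, dep_pi h2, dep_pi h3, fun w hw hw0 huw => ?_⟩)
    by_contra hl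
    have hwc0 : conj w ≠ 0 := (map_ne_zero _).2 hw0
    refine h3 (col_excl hPW hcr hτ w hw hw0 u ?_ l₀.1 l₀.2 ?_)
    · have h5 : conj (u / w) = u / w := Complex.conj_eq_iff_im.2 huw
      rw [map_div₀, div_eq_div_iff hwc0 hw0] at h5
      exact h5.symm
    · intro h5
      apply hl
      rw [← Complex.conj_eq_iff_im, map_div₀, div_eq_div_iff hwc0 hw0]
      exact h5.symm

/-- `p` with `ζ(p)` algebraic is algebraically independent of `π` or of `ω₁` -/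
theorem thmB2 (ω₁ ω₂ : ℂ) (him : (ω₂ / ω₁).im ≠ 0)
    (hg2 : IsAlgebraic ℚ (60 * ∑' q : ℤ × ℤ,
      if q = 0 then (0 : ℂ) else 1 / ((q.1 : ℂ) * ω₁ + (q.2 : ℂ) * ω₂) ^ 4))
    (hg3 : IsAlgebraic ℚ (140 * ∑' q : ℤ × ℤ,
      if q = 0 then (0 : ℂ) else 1 / ((q.1 : ℂ) * ω₁ + (q.2 : ℂ) * ω₂) ^ 6))
    (hCM : ∃ c : ℂ, (∀ q : ℚ, c ≠ q) ∧ ∃ a b a' b' : ℚ,
      c * ω₁ = (a : ℂ) * ω₁ + (b : ℂ) * ω₂ ∧ c * ω₂ = (a' : ℂ) * ω₁ + (b' : ℂ) * ω₂)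
    (p : ℂ) (hp : ∀ a b : ℤ, p ≠ (a : ℂ) * ω₁ + (b : ℂ) * ω₂)
    (hζ : IsAlgebraic ℚ (1 / p + ∑' q : ℤ × ℤ,
          if q = 0 then (0 : ℂ) else
            (1 / (p - ((q.1 : ℂ) * ω₁ + (q.2 : ℂ) * ω₂))
              + 1 / ((q.1 : ℂ) * ω₁ + (q.2 : ℂ) * ω₂)
              + p / ((q.1 : ℂ) * ω₁ + (q.2 : ℂ) * ω₂) ^ 2))) :
    AlgebraicIndependent ℚ ![p, (Real.pi : ℂ)] ∨ AlgebraicIndependent ℚ ![p, ω₁] := by
  obtain ⟨-, h | h⟩ := thmB ω₁ ω₂ him hg2 hg3 hCM p hp hζ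
  · left
    have h1 := h 0
    by_contra hcon
    have h2 : (1 : ℚ) ∈ {q : ℚ | ¬ AlgebraicIndependent ℚ
        ![(0 : ℂ) + q * (2 * (Real.pi : ℂ) * Complex.I), p]} := by
      intro h3
      apply hcon
      have e : (0 : ℂ) + ((1 : ℚ) : ℂ) * (2 * (Real.pi : ℂ) * Complex.I) =
        2 * (Real.pi : ℂ) * Complex.I := by push_cast; ring
      rw [e] at h3
      exact ai_pi (ai_swap h3)
    have h3 : (0 : ℚ) ∈ {q : ℚ | ¬ AlgebraicIndependent ℚ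
        ![(0 : ℂ) + q * (2 * (Real.pi : ℂ) * Complex.I), p]} := by
      intro h3
      have h4 := (transc_of_algInd h3).1
      apply h4
      push_cast
      rw [zero_mul, add_zero]
      exact isAlgebraic_zero
    exact one_ne_zero (h1 h2 h3)
  · right
    have h1 := h 0
    by_contra hcon
    have h2 : ((1 : ℚ), (0 : ℚ)) ∈ {l : ℚ × ℚ | ¬ AlgebraicIndependent ℚ
        ![(0 : ℂ) + (l.1 * ω₁ + l.2 * ω₂), p]} := by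
      intro h3
      apply hcon
      have e : (0 : ℂ) + (((1 : ℚ) : ℂ) * ω₁ + ((0 : ℚ) : ℂ) * ω₂) = ω₁ := by push_cast; ring
      rw [e] at h3
      exact ai_swap h3
    have h3 : ((0 : ℚ), (0 : ℚ)) ∈ {l : ℚ × ℚ | ¬ AlgebraicIndependent ℚ
        ![(0 : ℂ) + (l.1 * ω₁ + l.2 * ω₂), p]} := by
      intro h3
      have h4 := (transc_of_algInd h3).1
      apply h4
      have e : (0 : ℂ) + (((0 : ℚ) : ℂ) * ω₁ + ((0 : ℚ) : ℂ) * ω₂) = 0 := by push_cast; ring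
      rw [e]
      exact isAlgebraic_zero
    exact one_ne_zero (congrArg Prod.fst (h1 h2 h3))

end Pool.Agent.CHU
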