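import Pool.Agent.CHU.ThmA3
import Pool.Agent.CHU.Conj

/-! # The real form of Theorem A: no exceptional row, no exceptional column -/

set_option autoImplicit false

namespace Pool.Agent.CHU
open Pool.Agent.ZCM ComplexConjugate

theorem conj_two_pi_I : conj (2 * (Real.pi : ℂ) * Complex.I) = -(2 * (Real.pi : ℂ) * Complex.I) := by
  rw [map_mul, map_mul, Complex.conj_I, Complex.conj_ofReal, map_ofNat]
  ring

theorem real_form (ω₁ ω₂ : ℂ) (him : (ω₂ / ω₁).im ≠ 0) (hτ : IsAlgebraic ℚ (ω₂ / ω₁))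
    (hPW : AlgebraicIndependent ℚ ![2 * (Real.pi : ℂ) * Complex.I, ω₁])
    (hreal : ∀ a b : ℤ, ∃ a' b' : ℤ,
      conj ((a : ℂ) * ω₁ + (b : ℂ) * ω₂) = (a' : ℂ) * ω₁ + (b' : ℂ) * ω₂)
    (t u : ℂ) (htr : conj t = t) (hur : conj u = u) (E : Set (ℚ × (ℚ × ℚ)))
    (htri : E.encard ≤ 2 ∨
      (∃ q₀ : ℚ, (∀ x ∈ E, x.1 = q₀) ∧
        ¬ AlgebraicIndependent ℚ ![t + q₀ * (2 * (Real.pi : ℂ) * Complex.I), ω₁] ∧
        ¬ AlgebraicIndependent ℚ ![u, ω₁]) ∨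
      (∃ l₀ : ℚ × ℚ, (∀ x ∈ E, x.2 = l₀) ∧
        ¬ AlgebraicIndependent ℚ ![t, 2 * (Real.pi : ℂ) * Complex.I] ∧
        ¬ AlgebraicIndependent ℚ ![u + (l₀.1 * ω₁ + l₀.2 * ω₂), 2 * (Real.pi : ℂ) * Complex.I])) :
    {x ∈ E | x.1 ≠ 0 ∧
      conj ((x.2.1 : ℂ) * ω₁ + x.2.2 * ω₂) ≠ (x.2.1 : ℂ) * ω₁ + x.2.2 * ω₂}.encard ≤ 2 := by
  have hW : Transcendental ℚ ω₁ := ((algInd_iff _ _).1 hPW).1
  have hW0 : ω₁ ≠ 0 := fun h => hW (by rw [h]; exact isAlgebraic_zero)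
  obtain ⟨a1, b1, h1⟩ := hreal 1 0
  obtain ⟨a2, b2, h2⟩ := hreal 0 1
  have h1' : conj ω₁ = (a1 : ℂ) * ω₁ + (b1 : ℂ) * ω₂ := by simpa using h1
  have h2' : conj ω₂ = (a2 : ℂ) * ω₁ + (b2 : ℂ) * ω₂ := by simpa using h2
  rcases htri with h | ⟨q₀, hq, h3, -⟩ | ⟨l₀, hl, -, h3⟩
  · exact (Set.encard_le_encard (fun x hx => hx.1)).trans h
  · have hq0 : q₀ = 0 := by
      by_contra hne
      apply h3
      refine conj_log (w := ω₁) (b := 1) (q := 2 * q₀) hPW ?_ (by simpa using hne) ?_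
        isAlgebraic_one one_ne_zero (by ring)
      · have e : conj ω₁ / ω₁ = (a1 : ℂ) + b1 * (ω₂ / ω₁) := by
          rw [h1']; field_simp
        rw [e]
        exact (isAlgebraic_intCast a1).add ((isAlgebraic_intCast b1).mul hτ)
      · rw [map_add, map_mul, conj_two_pi_I, htr, map_ratCast]
        push_cast
        ring
    have : {x ∈ E | x.1 ≠ 0 ∧
      conj ((x.2.1 : ℂ) * ω₁ + x.2.2 * ω₂) ≠ (x.2.1 : ℂ) * ω₁ + x.2.2 * ω₂} = ∅ := by
      ext x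
      simp only [Set.mem_ofPred_eq, Set.mem_empty_iff_false, iff_false]
      rintro ⟨hx, hx1, -⟩
      exact hx1 ((hq x hx).trans hq0)
    rw [this]
    simp
  · have hreal0 : conj ((l₀.1 : ℂ) * ω₁ + l₀.2 * ω₂) = (l₀.1 : ℂ) * ω₁ + l₀.2 * ω₂ := by
      by_contra hne
      apply h3
      have h4 : AlgebraicIndependent ℚ ![2 * (Real.pi : ℂ) * Complex.I,
          u + (l₀.1 * ω₁ + l₀.2 * ω₂)] := by
        obtain ⟨b, hb⟩ : ∃ b : ℂ, b = ((l₀.1 : ℂ) + l₀.2 * (ω₂ / ω₁)) -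
          ((l₀.1 : ℂ) * (a1 + b1 * (ω₂ / ω₁)) + l₀.2 * (a2 + b2 * (ω₂ / ω₁))) := ⟨_, rfl⟩
        have hba : IsAlgebraic ℚ b := by
          rw [hb]
          exact ((isAlg_rat _).add ((isAlg_rat _).mul hτ)).sub
            (((isAlg_rat _).mul ((isAlgebraic_intCast a1).add ((isAlgebraic_intCast b1).mul hτ))).add
            ((isAlg_rat _).mul ((isAlgebraic_intCast a2).add ((isAlgebraic_intCast b2).mul hτ))))
        have hbw : ((l₀.1 : ℂ) * ω₁ + l₀.2 * ω₂) - conj ((l₀.1 : ℂ) * ω₁ + l₀.2 * ω₂) = b * ω₁ := by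
          rw [map_add, map_mul, map_mul, map_ratCast, map_ratCast, h1', h2', hb]
          field_simp
        refine conj_ell (w := ω₁) (b := b) hPW hba ?_ ?_
        · intro h0
          rw [h0, zero_mul] at hbw
          exact hne (sub_eq_zero.1 hbw).symm
        · rw [map_add, hur, ← hbw]
          ring
      -- swap
      have h5 := (transc_of_algInd h4)
      rw [algInd_iff]
      refine ⟨h5.1, fun h6 => ?_⟩
      exact ((algInd_iff _ _).1 h4).2 (FF_symm h5.2 h6)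
    have : {x ∈ E | x.1 ≠ 0 ∧
      conj ((x.2.1 : ℂ) * ω₁ + x.2.2 * ω₂) ≠ (x.2.1 : ℂ) * ω₁ + x.2.2 * ω₂} = ∅ := by
      ext x
      simp only [Set.mem_ofPred_eq, Set.mem_empty_iff_false, iff_false]
      rintro ⟨hx, -, hx1⟩
      apply hx1
      rw [hl x hx]
      exact hreal0
    rw [this]
    simp

end Pool.Agent.CHU
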