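import Pool.Agent.CHU.Final

/-! # The real form for all CM lattices: `t ∈ ℝ`, `u ∈ ℝ w`, `w ∈ Ω` -/

set_option autoImplicit false

namespace Pool.Agent.CHU
open Pool.Agent.ZCM ComplexConjugate

theorem isAlg_conj {x : ℂ} (hx : IsAlgebraic ℚ x) : IsAlgebraic ℚ (conj x) := by
  by_contra h
  exact (conj_transcendental.1 h) hx

/-- no exceptional row with `q ≠ 0` -/
theorem row_excl {ω₁ : ℂ} (hPW : AlgebraicIndependent ℚ ![2 * (Real.pi : ℂ) * Complex.I, ω₁])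
    (hcr : IsAlgebraic ℚ (conj ω₁ / ω₁)) (t : ℂ) (htr : conj t = t) (q : ℚ) (hq : q ≠ 0) :
    AlgebraicIndependent ℚ ![t + q * (2 * (Real.pi : ℂ) * Complex.I), ω₁] := by
  refine conj_log (w := ω₁) (b := 1) (q := 2 * q) hPW hcr (by simpa using hq) ?_
    isAlgebraic_one one_ne_zero (by ring)
  rw [map_add, map_mul, conj_two_pi_I, htr, map_ratCast]
  push_cast
  ring

/-- no exceptional column with `λ ∉ ℝ w` -/
theorem col_excl {ω₁ ω₂ : ℂ} (hPW : AlgebraicIndependent ℚ ![2 * (Real.pi : ℂ) * Complex.I, ω₁])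
    (hcr : IsAlgebraic ℚ (conj ω₁ / ω₁)) (hτ : IsAlgebraic ℚ (ω₂ / ω₁)) (w : ℂ)
    (hw : ∃ a b : ℤ, w = (a : ℂ) * ω₁ + (b : ℂ) * ω₂) (hw0 : w ≠ 0) (u : ℂ)
    (hu : u * conj w = conj u * w) (m n : ℚ)
    (hl : ((m : ℂ) * ω₁ + n * ω₂) * conj w ≠ conj ((m : ℂ) * ω₁ + n * ω₂) * w) :
    AlgebraicIndependent ℚ ![u + ((m : ℂ) * ω₁ + n * ω₂), 2 * (Real.pi : ℂ) * Complex.I] := by
  obtain ⟨P, hPd⟩ : ∃ P, P = 2 * (Real.pi : ℂ) * Complex.I := ⟨_, rfl⟩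
  have hPc : conj P = -P := by rw [hPd]; exact conj_two_pi_I
  rw [← hPd] at hPW ⊢
  obtain ⟨hP, hW⟩ := transc_of_algInd hPW
  have hW0 : ω₁ ≠ 0 := fun h => hW (by rw [h]; exact isAlgebraic_zero)
  have hWc0 : conj ω₁ ≠ 0 := (map_ne_zero _).2 hW0
  have hwc0 : conj w ≠ 0 := (map_ne_zero _).2 hw0
  obtain ⟨τ, hτd⟩ : ∃ τ, τ = ω₂ / ω₁ := ⟨_, rfl⟩
  have hw2 : ω₂ = τ * ω₁ := by rw [hτd]; field_simp
  rw [← hτd] at hτ
  obtain ⟨a, b, hab⟩ := hw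
  obtain ⟨s, hs⟩ : ∃ s, s = conj ω₁ / ω₁ := ⟨_, rfl⟩
  rw [← hs] at hcr
  have hs1 : conj ω₁ = s * ω₁ := by rw [hs]; field_simp
  have hs0 : s ≠ 0 := by rw [hs]; exact div_ne_zero hWc0 hW0
  have hw' : w = ((a : ℂ) + b * τ) * ω₁ := by rw [hab, hw2]; ring
  have hwc : conj w = ((a : ℂ) + b * conj τ) * s * ω₁ := by
    rw [hw', map_mul, map_add, map_mul, map_intCast, map_intCast, hs1]; ring
  have hA : IsAlgebraic ℚ ((a : ℂ) + b * τ) :=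
    (isAlgebraic_intCast a).add ((isAlgebraic_intCast b).mul hτ)
  have hA' : IsAlgebraic ℚ ((a : ℂ) + b * conj τ) :=
    (isAlgebraic_intCast a).add ((isAlgebraic_intCast b).mul (isAlg_conj hτ))
  have hA0' : (a : ℂ) + b * conj τ ≠ 0 := by
    intro h
    rw [h, zero_mul, zero_mul] at hwc
    exact hwc0 hwc
  obtain ⟨c, hc⟩ : ∃ c, c = w / conj w := ⟨_, rfl⟩
  have hca : IsAlgebraic ℚ c := by
    have e : c = ((a : ℂ) + b * τ) * (((a : ℂ) + b * conj τ) * s)⁻¹ := by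
      rw [hc, hwc, hw']
      field_simp
    rw [e]
    exact hA.mul (hA'.mul hcr).inv
  obtain ⟨lam, hlam⟩ : ∃ lam, lam = (m : ℂ) * ω₁ + n * ω₂ := ⟨_, rfl⟩
  rw [← hlam] at hl ⊢
  by_contra hcon
  rw [dep_iff hP] at hcon
  have h1 : conj (u + lam) ∈ FF P := by
    refine FF_trans (conj_FF hP hcon) ?_
    rw [hPc]
    exact FF_neg (mem_FF_self P)
  have h2 : (u + lam) - c * conj (u + lam) ∈ FF P := FF_sub hcon (FF_mul (FF_of_alg hca) h1)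
  have h3 : (u + lam) - c * conj (u + lam) = lam - c * conj lam := by
    have h4 : c * conj u = u := by
      rw [hc]
      field_simp
      linear_combination -hu
    rw [map_add]
    linear_combination -h4
  rw [h3] at h2
  have hlam' : lam = ((m : ℂ) + n * τ) * ω₁ := by rw [hlam, hw2]; ring
  have hlamc : conj lam = ((m : ℂ) + n * conj τ) * s * ω₁ := by
    rw [hlam', map_mul, map_add, map_mul, map_ratCast, map_ratCast, hs1]; ring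
  have h5 : lam - c * conj lam = (((m : ℂ) + n * τ) - c * (((m : ℂ) + n * conj τ) * s)) * ω₁ := by
    rw [hlamc]
    nth_rewrite 1 [hlam']
    ring
  have hba : IsAlgebraic ℚ (((m : ℂ) + n * τ) - c * (((m : ℂ) + n * conj τ) * s)) :=
    ((isAlg_rat m).add ((isAlg_rat n).mul hτ)).sub
      (hca.mul (((isAlg_rat m).add ((isAlg_rat n).mul (isAlg_conj hτ))).mul hcr))
  have hb0 : ((m : ℂ) + n * τ) - c * (((m : ℂ) + n * conj τ) * s) ≠ 0 := by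
    intro h
    rw [h, zero_mul] at h5
    apply hl
    have h6 : lam = c * conj lam := sub_eq_zero.1 h5
    nth_rewrite 1 [h6]
    rw [hc]
    field_simp
  rw [h5] at h2
  have h7 := FF_of_mul hba hb0 h2
  exact ((algInd_iff _ _).1 hPW).2 (FF_symm hW h7)

/-- `λ ∉ ℝ w` in terms of conjugates -/
theorem not_mem_line {w l : ℂ} (hw0 : w ≠ 0) (hl : ∀ s : ℝ, l ≠ s * w) :
    l * conj w ≠ conj l * w := by
  intro h
  have hwc0 : conj w ≠ 0 := (map_ne_zero _).2 hw0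
  have h1 : conj (l / w) = l / w := by
    rw [map_div₀, div_eq_div_iff hwc0 hw0]
    exact h.symm
  obtain ⟨r, hr⟩ := Complex.conj_eq_iff_real.1 h1
  refine hl r ?_
  rw [← hr]
  field_simp

/-- Theorem A, with `u ∈ Ω` allowed -/
theorem thmA4 (ω₁ ω₂ : ℂ) (him : (ω₂ / ω₁).im ≠ 0)
    (hg2 : IsAlgebraic ℚ (60 * ∑' q : ℤ × ℤ,
      if q = 0 then (0 : ℂ) else 1 / ((q.1 : ℂ) * ω₁ + (q.2 : ℂ) * ω₂) ^ 4))
    (hg3 : IsAlgebraic ℚ (140 * ∑' q : ℤ × ℤ,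
      if q = 0 then (0 : ℂ) else 1 / ((q.1 : ℂ) * ω₁ + (q.2 : ℂ) * ω₂) ^ 6))
    (hCM : ∃ c : ℂ, (∀ q : ℚ, c ≠ q) ∧ ∃ a b a' b' : ℚ,
      c * ω₁ = (a : ℂ) * ω₁ + (b : ℂ) * ω₂ ∧ c * ω₂ = (a' : ℂ) * ω₁ + (b' : ℂ) * ω₂)
    (t u : ℂ) (ht : IsAlgebraic ℚ (Complex.exp t))
    (hP : (∃ a b : ℤ, u = (a : ℂ) * ω₁ + (b : ℂ) * ω₂) ∨
      IsAlgebraic ℚ (1 / u ^ 2 + ∑' q : ℤ × ℤ,
          if q = 0 then (0 : ℂ) else
            (1 / (u - ((q.1 : ℂ) * ω₁ + (q.2 : ℂ) * ω₂)) ^ 2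
              - 1 / ((q.1 : ℂ) * ω₁ + (q.2 : ℂ) * ω₂) ^ 2)))
    (E : Set (ℚ × (ℚ × ℚ)))
    (hE : E = {x | t + x.1 * (2 * (Real.pi : ℂ) * Complex.I) ≠ 0 ∧
      u + (x.2.1 * ω₁ + x.2.2 * ω₂) ≠ 0 ∧
      ¬ AlgebraicIndependent ℚ ![t + x.1 * (2 * (Real.pi : ℂ) * Complex.I),
        u + (x.2.1 * ω₁ + x.2.2 * ω₂)]}) :
    E.encard ≤ 2 ∨
    (∃ q₀ : ℚ, (∀ x ∈ E, x.1 = q₀) ∧
      ¬ AlgebraicIndependent ℚ ![t + q₀ * (2 * (Real.pi : ℂ) * Complex.I), ω₁] ∧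
      ¬ AlgebraicIndependent ℚ ![u, ω₁]) ∨
    (∃ l₀ : ℚ × ℚ, (∀ x ∈ E, x.2 = l₀) ∧
      ¬ AlgebraicIndependent ℚ ![t, 2 * (Real.pi : ℂ) * Complex.I] ∧
      ¬ AlgebraicIndependent ℚ ![u + (l₀.1 * ω₁ + l₀.2 * ω₂), 2 * (Real.pi : ℂ) * Complex.I]) := by
  obtain ⟨hPW, -, hτ⟩ := words chud_kr ω₁ ω₂ him hg2 hg3 hCM
  obtain ⟨hPt, hW⟩ := transc_of_algInd hPW
  have hW0 : ω₁ ≠ 0 := fun h => hW (by rw [h]; exact isAlgebraic_zero)
  by_cases hu : ∃ a b : ℤ, u = (a : ℂ) * ω₁ + (b : ℂ) * ω₂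
  · obtain ⟨a, b, hab⟩ := hu
    obtain ⟨τ, hτd⟩ : ∃ τ, τ = ω₂ / ω₁ := ⟨_, rfl⟩
    have hw2 : ω₂ = τ * ω₁ := by rw [hτd]; field_simp
    rw [← hτd] at hτ
    have huF : u ∈ FF ω₁ := by
      have e : u = ((a : ℂ) + b * τ) * ω₁ := by rw [hab, hw2]; ring
      rw [e]
      exact FF_mul (FF_of_alg ((isAlgebraic_intCast a).add ((isAlgebraic_intCast b).mul hτ)))
        (mem_FF_self _)
    have key : ∀ x ∈ E, t + x.1 * (2 * (Real.pi : ℂ) * Complex.I) ∈ FF ω₁ := by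
      intro x hx
      rw [hE] at hx
      obtain ⟨-, h2, h3⟩ := hx
      have e : u + (x.2.1 * ω₁ + x.2.2 * ω₂) = ((a : ℂ) + b * τ + (x.2.1 + x.2.2 * τ)) * ω₁ := by
        rw [hab, hw2]; ring
      have hca : IsAlgebraic ℚ ((a : ℂ) + b * τ + (x.2.1 + x.2.2 * τ)) :=
        ((isAlgebraic_intCast a).add ((isAlgebraic_intCast b).mul hτ)).add
          ((isAlg_rat _).add ((isAlg_rat _).mul hτ))
      have hc0 : (a : ℂ) + b * τ + (x.2.1 + x.2.2 * τ) ≠ 0 := by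
        intro h
        rw [e, h, zero_mul] at h2
        exact h2 rfl
      have hF : u + (x.2.1 * ω₁ + x.2.2 * ω₂) ∈ FF ω₁ := by
        rw [e]
        exact FF_mul (FF_of_alg hca) (mem_FF_self _)
      have hy : Transcendental ℚ (u + (x.2.1 * ω₁ + x.2.2 * ω₂)) := by
        intro hA
        apply hW
        have e2 : ω₁ = ((a : ℂ) + b * τ + (x.2.1 + x.2.2 * τ))⁻¹ *
            (u + (x.2.1 * ω₁ + x.2.2 * ω₂)) := by
          rw [e, ← mul_assoc, inv_mul_cancel₀ hc0, one_mul]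
        rw [e2]
        exact hca.inv.mul hA
      exact FF_trans ((dep_iff hy).1 h3) hF
    by_cases hne : E.Nonempty
    · obtain ⟨x0, hx0⟩ := hne
      refine Or.inr (Or.inl ⟨x0.1, fun x hx => ?_, (dep_iff hW).2 (key x0 hx0),
        (dep_iff hW).2 huF⟩)
      by_contra hcon
      have h1 := FF_sub (key x hx) (key x0 hx0)
      have hq : (x.1 : ℂ) - x0.1 ≠ 0 := by
        intro h
        apply hcon
        have : (x.1 : ℂ) = x0.1 := by linear_combination h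
        exact_mod_cast this
      have h2 : (t + x.1 * (2 * (Real.pi : ℂ) * Complex.I)) -
          (t + x0.1 * (2 * (Real.pi : ℂ) * Complex.I)) =
          ((x.1 : ℂ) - x0.1) * (2 * (Real.pi : ℂ) * Complex.I) := by ring
      rw [h2] at h1
      exact ((algInd_iff _ _).1 hPW).2 (FF_of_mul ((isAlg_rat _).sub (isAlg_rat _)) hq h1)
    · left
      rw [Set.not_nonempty_iff_eq_empty.1 hne]
      simp
  · refine thmA3 sl2H ω₁ ω₂ him hg2 hg3 hCM t u ht ?_ (hP.resolve_left hu) E hE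
    intro a b h
    exact hu ⟨a, b, h⟩

/-- the real form, for every CM lattice -/
theorem thmR2 (ω₁ ω₂ : ℂ) (him : (ω₂ / ω₁).im ≠ 0)
    (hg2 : IsAlgebraic ℚ (60 * ∑' q : ℤ × ℤ,
      if q = 0 then (0 : ℂ) else 1 / ((q.1 : ℂ) * ω₁ + (q.2 : ℂ) * ω₂) ^ 4))
    (hg3 : IsAlgebraic ℚ (140 * ∑' q : ℤ × ℤ,
      if q = 0 then (0 : ℂ) else 1 / ((q.1 : ℂ) * ω₁ + (q.2 : ℂ) * ω₂) ^ 6))
    (hCM : ∃ c : ℂ, (∀ q : ℚ, c ≠ q) ∧ ∃ a b a' b' : ℚ,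
      c * ω₁ = (a : ℂ) * ω₁ + (b : ℂ) * ω₂ ∧ c * ω₂ = (a' : ℂ) * ω₁ + (b' : ℂ) * ω₂)
    (hcr : IsAlgebraic ℚ (conj ω₁ / ω₁))
    (w : ℂ) (hw : ∃ a b : ℤ, w = (a : ℂ) * ω₁ + (b : ℂ) * ω₂) (hw0 : w ≠ 0)
    (t r : ℝ) (ht : IsAlgebraic ℚ (Complex.exp t))
    (hP : (∃ a b : ℤ, r * w = (a : ℂ) * ω₁ + (b : ℂ) * ω₂) ∨
      IsAlgebraic ℚ (1 / (r * w) ^ 2 + ∑' q : ℤ × ℤ,
          if q = 0 then (0 : ℂ) else
            (1 / (r * w - ((q.1 : ℂ) * ω₁ + (q.2 : ℂ) * ω₂)) ^ 2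
              - 1 / ((q.1 : ℂ) * ω₁ + (q.2 : ℂ) * ω₂) ^ 2)))
    (S : Set (ℚ × (ℚ × ℚ)))
    (hS : S = {x | x.1 ≠ 0 ∧ (∀ s : ℝ, (x.2.1 * ω₁ + x.2.2 * ω₂ : ℂ) ≠ s * w) ∧
      ¬ AlgebraicIndependent ℚ ![t + x.1 * (2 * (Real.pi : ℂ) * Complex.I),
        r * w + (x.2.1 * ω₁ + x.2.2 * ω₂)]}) :
    S.encard ≤ 2 ∧ ((t = 0 ∨ ∃ a b : ℚ, r * w = (a : ℂ) * ω₁ + (b : ℂ) * ω₂) → S = ∅) := by
  obtain ⟨hPW, -, hτ⟩ := words chud_kr ω₁ ω₂ him hg2 hg3 hCM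
  obtain ⟨hPt, hW⟩ := transc_of_algInd hPW
  have hW0 : ω₁ ≠ 0 := fun h => hW (by rw [h]; exact isAlgebraic_zero)
  have htr : conj (t : ℂ) = t := Complex.conj_ofReal t
  have hur : (r * w : ℂ) * conj w = conj (r * w : ℂ) * w := by
    rw [map_mul, Complex.conj_ofReal]; ring
  have hrow : ∀ q : ℚ, q ≠ 0 →
      AlgebraicIndependent ℚ ![(t : ℂ) + q * (2 * (Real.pi : ℂ) * Complex.I), ω₁] :=
    fun q hq => row_excl hPW hcr t htr q hq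
  have hcol : ∀ m n : ℚ, (∀ s : ℝ, ((m : ℂ) * ω₁ + n * ω₂) ≠ s * w) →
      AlgebraicIndependent ℚ ![(r * w : ℂ) + ((m : ℂ) * ω₁ + n * ω₂),
        2 * (Real.pi : ℂ) * Complex.I] :=
    fun m n hl => col_excl hPW hcr hτ w hw hw0 _ hur m n (not_mem_line hw0 hl)
  obtain ⟨E, hE⟩ : ∃ E : Set (ℚ × (ℚ × ℚ)),
    E = {x | (t : ℂ) + x.1 * (2 * (Real.pi : ℂ) * Complex.I) ≠ 0 ∧
      (r * w : ℂ) + (x.2.1 * ω₁ + x.2.2 * ω₂) ≠ 0 ∧
      ¬ AlgebraicIndependent ℚ ![(t : ℂ) + x.1 * (2 * (Real.pi : ℂ) * Complex.I),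
        (r * w : ℂ) + (x.2.1 * ω₁ + x.2.2 * ω₂)]} := ⟨_, rfl⟩
  have hSE : S ⊆ E := by
    intro x hx
    rw [hS] at hx
    obtain ⟨h1, h2, h3⟩ := hx
    rw [hE]
    refine ⟨fun h => ?_, fun h => ?_, h3⟩
    · have h4 := (transc_of_algInd (hrow x.1 h1)).1
      rw [h] at h4
      exact h4 isAlgebraic_zero
    · have h4 := (transc_of_algInd (hcol x.2.1 x.2.2 h2)).1
      rw [h] at h4
      exact h4 isAlgebraic_zero
  constructor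
  · rcases thmA4 ω₁ ω₂ him hg2 hg3 hCM t (r * w) ht hP E hE with h | ⟨q₀, hq, h3, -⟩ |
      ⟨l₀, hl, -, h3⟩
    · exact (Set.encard_le_encard hSE).trans h
    · have hemp : S = ∅ := by
        refine Set.eq_empty_of_forall_notMem fun x hx => ?_
        have h4 := hq x (hSE hx)
        rw [hS] at hx
        exact h3 (by rw [← h4]; exact hrow x.1 hx.1)
      rw [hemp]
      simp
    · have hemp : S = ∅ := by
        refine Set.eq_empty_of_forall_notMem fun x hx => ?_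
        have h4 := hl x (hSE hx)
        rw [hS] at hx
        exact h3 (by rw [← h4]; exact hcol x.2.1 x.2.2 hx.2.1)
      rw [hemp]
      simp
  · intro hcase
    refine Set.eq_empty_of_forall_notMem fun x hx => ?_
    rw [hS] at hx
    obtain ⟨h1, h2, h3⟩ := hx
    have hcolx := hcol x.2.1 x.2.2 h2
    have hrowx := hrow x.1 h1
    rcases hcase with h0 | ⟨a, b, hab⟩
    · -- `t = 0`
      subst h0
      have hxc : (x.1 : ℂ) ≠ 0 := by exact_mod_cast h1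
      rw [dep_iff (transc_of_algInd hcolx).1] at h3
      have h4 : (x.1 : ℂ) * (2 * (Real.pi : ℂ) * Complex.I) ∈
          FF (r * w + (x.2.1 * ω₁ + x.2.2 * ω₂)) := by
        simpa using h3
      have h5 := FF_of_mul (isAlg_rat _) hxc h4
      exact ((algInd_iff _ _).1 hcolx).2 (FF_symm hPt h5)
    · -- `u ∈ ℚ Ω`
      obtain ⟨τ, hτd⟩ : ∃ τ, τ = ω₂ / ω₁ := ⟨_, rfl⟩
      have hw2 : ω₂ = τ * ω₁ := by rw [hτd]; field_simp
      rw [← hτd] at hτ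
      have e : (r * w : ℂ) + (x.2.1 * ω₁ + x.2.2 * ω₂) =
          ((a : ℂ) + b * τ + (x.2.1 + x.2.2 * τ)) * ω₁ := by
        rw [hab, hw2]; ring
      have hF : (r * w : ℂ) + (x.2.1 * ω₁ + x.2.2 * ω₂) ∈ FF ω₁ := by
        rw [e]
        exact FF_mul (FF_of_alg (((isAlg_rat a).add ((isAlg_rat b).mul hτ)).add
          ((isAlg_rat _).add ((isAlg_rat _).mul hτ)))) (mem_FF_self _)
      rw [dep_iff (transc_of_algInd hcolx).1] at h3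
      exact ((algInd_iff _ _).1 hrowx).2 (FF_trans h3 hF)

end Pool.Agent.CHU
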