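import Pool.Agent.CHU.Exc

/-! # Three dependent pairs `(t + q_i P, u + l_i W)` force `t, u ∈ ℚ̄ + ℚ̄ P + ℚ̄ W` -/

set_option autoImplicit false

namespace Pool.Agent.CHU

/-- a number killed by all derivations that kill `W` is algebraic over `ℚ(W)` -/
theorem mem_FF_of_der {W x : ℂ} (hW : Transcendental ℚ W)
    (h : ∀ D : Derivation ℚ ℂ ℂ, D W = 0 → D x = 0) : x ∈ FF W := by
  by_contra hx
  have hi : AlgebraicIndependent ℚ ![x, W] := (algInd_iff x W).2 ⟨hW, hx⟩
  obtain ⟨D, hD⟩ := GenTuple.exists_der (k := ℚ) hi ![(1 : ℂ), 0]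
  have h1 : D x = 1 := by simpa using hD 0
  have h2 : D W = 0 := by simpa using hD 1
  exact one_ne_zero (h1.symm.trans (h D h2))

/-- the derivative of an algebraic function is an algebraic function -/
theorem der_mem_FF {W x : ℂ} (hW : Transcendental ℚ W) (hx : x ∈ FF W) (D : Derivation ℚ ℂ ℂ)
    (hD : D W = 1) : D x ∈ FF W := by
  refine mem_FF_of_der hW fun δ hδ => ?_
  have h1 : ⁅δ, D⁆ W = 0 := by
    rw [Derivation.commutator_apply, hδ, hD, map_zero, sub_zero]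
    exact Derivation.map_one_eq_zero δ
  have h2 := der_FF ⁅δ, D⁆ h1 hx
  rwa [Derivation.commutator_apply, der_FF δ hδ hx, map_zero, sub_zero] at h2

theorem alg_of_inter {P W x : ℂ} (hPW : AlgebraicIndependent ℚ ![P, W]) (h1 : x ∈ FF P)
    (h2 : x ∈ FF W) : IsAlgebraic ℚ x := by
  by_contra hx
  have hx' : Transcendental ℚ x := hx
  exact ((algInd_iff P W).1 hPW).2 (FF_trans (FF_symm hx' h1) h2)

theorem der_alg (D : Derivation ℚ ℂ ℂ) {a : ℂ} (ha : IsAlgebraic ℚ a) : D a = 0 :=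
  der_FF D (y := 0) (map_zero D) (FF_of_alg ha)

/-- a function of `W` with derivative zero is algebraic -/
theorem alg_of_der {W x : ℂ} (hx : x ∈ FF W) (D : Derivation ℚ ℂ ℂ) (hD : D W = 1)
    (h0 : D x = 0) : IsAlgebraic ℚ x := by
  by_contra h
  have h' : Transcendental ℚ x := h
  have h1 := der_FF D h0 (FF_symm h' hx)
  rw [hD] at h1
  exact one_ne_zero h1

theorem three_pairs {P W t u : ℂ} (hPW : AlgebraicIndependent ℚ ![P, W]) (q l : Fin 3 → ℂ)
    (hq : ∀ i, IsAlgebraic ℚ (q i)) (hl : ∀ i, IsAlgebraic ℚ (l i))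
    (hqi : Function.Injective q) (hli : Function.Injective l)
    (hd : ∀ i, t + q i * P ∈ FF (u + l i * W)) :
    (∃ a b c : ℂ, IsAlgebraic ℚ a ∧ IsAlgebraic ℚ b ∧ IsAlgebraic ℚ c ∧ c ≠ 0 ∧
      t = a + b * P + c * W) ∧
    (∃ a b c : ℂ, IsAlgebraic ℚ a ∧ IsAlgebraic ℚ b ∧ IsAlgebraic ℚ c ∧ c ≠ 0 ∧
      u = a + b * W + c * P) := by
  have hW : Transcendental ℚ W := ((algInd_iff P W).1 hPW).1
  have hPF : P ∉ FF W := ((algInd_iff P W).1 hPW).2
  have hP : Transcendental ℚ P := fun h => hPF (FF_of_alg h)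
  obtain ⟨D1, hD1⟩ := GenTuple.exists_der (k := ℚ) hPW ![(1 : ℂ), 0]
  obtain ⟨D2, hD2⟩ := GenTuple.exists_der (k := ℚ) hPW ![(0 : ℂ), 1]
  have d1P : D1 P = 1 := by simpa using hD1 0
  have d1W : D1 W = 0 := by simpa using hD1 1
  have d2P : D2 P = 0 := by simpa using hD2 0
  have d2W : D2 W = 1 := by simpa using hD2 1
  have dm : ∀ (D : Derivation ℚ ℂ ℂ) (a x : ℂ), IsAlgebraic ℚ a → D (a * x) = a * D x := by
    intro D a x ha
    rw [D.leibniz, der_alg D ha]
    simp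
  -- the equation
  have heq : ∀ (E1 E2 : Derivation ℚ ℂ ℂ), E1 P = 1 → E1 W = 0 → E2 P = 0 → E2 W = 1 →
      ∀ i, (E1 t + q i) * (E2 u + l i) = E2 t * E1 u := by
    intro E1 E2 e1 e2 e3 e4 i
    have h4 := det_zero (hd i) E1 E2
    rw [map_add, map_add, map_add, map_add, dm _ _ _ (hq i), dm _ _ _ (hq i), dm _ _ _ (hl i),
      dm _ _ _ (hl i), e1, e2, e3, e4] at h4
    linear_combination h4
  have hq10 : q 1 - q 0 ≠ 0 := sub_ne_zero.2 fun h => by have := hqi h; simp at this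
  have hq20 : q 2 - q 0 ≠ 0 := sub_ne_zero.2 fun h => by have := hqi h; simp at this
  have hl10 : l 1 - l 0 ≠ 0 := sub_ne_zero.2 fun h => by have := hli h; simp at this
  have hl12 : l 1 - l 2 ≠ 0 := sub_ne_zero.2 fun h => by have := hli h; simp at this
  have hq12 : q 1 - q 2 ≠ 0 := sub_ne_zero.2 fun h => by have := hqi h; simp at this
  have hl20 : l 2 - l 0 ≠ 0 := sub_ne_zero.2 fun h => by have := hli h; simp at this
  -- `E1 t` and `E2 u` do not depend on the choice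
  have hA : ∀ (E1 : Derivation ℚ ℂ ℂ), E1 P = 1 → E1 W = 0 → E1 t = D1 t := by
    intro E1 e1 e2
    have h0 := heq E1 D2 e1 e2 d2P d2W 0
    have h1 := heq E1 D2 e1 e2 d2P d2W 1
    have h0' := heq D1 D2 d1P d1W d2P d2W 0
    have h1' := heq D1 D2 d1P d1W d2P d2W 1
    have : (E1 t - D1 t) * (l 1 - l 0) = 0 := by linear_combination h1 - h0 - h1' + h0'
    exact sub_eq_zero.1 ((mul_eq_zero.1 this).resolve_right hl10)
  have hB : ∀ (E2 : Derivation ℚ ℂ ℂ), E2 P = 0 → E2 W = 1 → E2 u = D2 u := by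
    intro E2 e1 e2
    have h0 := heq D1 E2 d1P d1W e1 e2 0
    have h1 := heq D1 E2 d1P d1W e1 e2 1
    have h0' := heq D1 D2 d1P d1W d2P d2W 0
    have h1' := heq D1 D2 d1P d1W d2P d2W 1
    have : (E2 u - D2 u) * (q 1 - q 0) = 0 := by linear_combination h1 - h0 - h1' + h0'
    exact sub_eq_zero.1 ((mul_eq_zero.1 this).resolve_right hq10)
  -- algebraicity
  have e0 := heq D1 D2 d1P d1W d2P d2W 0
  have e1 := heq D1 D2 d1P d1W d2P d2W 1
  have e2 := heq D1 D2 d1P d1W d2P d2W 2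
  obtain ⟨A, hAd⟩ : ∃ A, A = D1 t := ⟨_, rfl⟩
  obtain ⟨B, hBd⟩ : ∃ B, B = D2 u := ⟨_, rfl⟩
  rw [← hAd, ← hBd] at e0 e1 e2
  have hΔ : (l 1 - l 0) * (q 2 - q 0) - (l 2 - l 0) * (q 1 - q 0) ≠ 0 := by
    intro h
    have h1 : (q 1 - q 0) * (q 2 - q 0) * (l 1 - l 2) = 0 := by
      linear_combination (q 2 - q 0) * (e1 - e0) - (q 1 - q 0) * (e2 - e0) - (A + q 0) * h
    exact mul_ne_zero (mul_ne_zero hq10 hq20) hl12 h1
  have hAalg : IsAlgebraic ℚ A := by
    have h1 : A = ((q 2 * l 2 - q 0 * l 0) * (q 1 - q 0) - (q 1 * l 1 - q 0 * l 0) * (q 2 - q 0)) *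
        ((l 1 - l 0) * (q 2 - q 0) - (l 2 - l 0) * (q 1 - q 0))⁻¹ := by
      rw [eq_mul_inv_iff_mul_eq₀ hΔ]
      linear_combination (q 2 - q 0) * (e1 - e0) - (q 1 - q 0) * (e2 - e0)
    rw [h1]
    exact (((((hq 2).mul (hl 2)).sub ((hq 0).mul (hl 0))).mul ((hq 1).sub (hq 0))).sub
      ((((hq 1).mul (hl 1)).sub ((hq 0).mul (hl 0))).mul ((hq 2).sub (hq 0)))).mul
      ((((hl 1).sub (hl 0)).mul ((hq 2).sub (hq 0))).sub
        (((hl 2).sub (hl 0)).mul ((hq 1).sub (hq 0)))).inv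
  have hBalg : IsAlgebraic ℚ B := by
    have h1 : B = ((q 1 * l 1 - q 0 * l 0) * (l 2 - l 0) - (q 2 * l 2 - q 0 * l 0) * (l 1 - l 0)) *
        ((l 1 - l 0) * (q 2 - q 0) - (l 2 - l 0) * (q 1 - q 0))⁻¹ := by
      rw [eq_mul_inv_iff_mul_eq₀ hΔ]
      linear_combination -(l 2 - l 0) * (e1 - e0) + (l 1 - l 0) * (e2 - e0)
    rw [h1]
    exact (((((hq 1).mul (hl 1)).sub ((hq 0).mul (hl 0))).mul ((hl 2).sub (hl 0))).sub
      ((((hq 2).mul (hl 2)).sub ((hq 0).mul (hl 0))).mul ((hl 1).sub (hl 0)))).mul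
      ((((hl 1).sub (hl 0)).mul ((hq 2).sub (hq 0))).sub
        (((hl 2).sub (hl 0)).mul ((hq 1).sub (hq 0)))).inv
  obtain ⟨C, hCd⟩ : ∃ C, C = D2 t * D1 u := ⟨_, rfl⟩
  rw [← hCd] at e0 e1 e2
  have hCalg : IsAlgebraic ℚ C := by
    rw [← e0]
    exact (hAalg.add (hq 0)).mul (hBalg.add (hl 0))
  have hC0 : C ≠ 0 := by
    intro h0
    rw [h0] at e0 e1 e2
    rcases mul_eq_zero.1 e0 with a0 | b0 <;> rcases mul_eq_zero.1 e1 with a1 | b1 <;>
      rcases mul_eq_zero.1 e2 with a2 | b2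
    · exact hq10 (by linear_combination a1 - a0)
    · exact hq10 (by linear_combination a1 - a0)
    · exact hq20 (by linear_combination a2 - a0)
    · exact hl12 (by linear_combination b1 - b2)
    · exact hq12 (by linear_combination a1 - a2)
    · exact hl20 (by linear_combination b2 - b0)
    · exact hl10 (by linear_combination b1 - b0)
    · exact hl10 (by linear_combination b1 - b0)
  -- `t - A P` is a function of `W`, `u - B W` a function of `P`
  have ht' : t - A * P ∈ FF W := by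
    refine mem_FF_of_der hW fun D hDW => ?_
    have h1 := hA (D1 + D - (D P) • D1) (by
      simp only [Derivation.sub_apply, Derivation.add_apply, Derivation.smul_apply, smul_eq_mul]
      rw [d1P]; ring) (by
      simp only [Derivation.sub_apply, Derivation.add_apply, Derivation.smul_apply, smul_eq_mul]
      rw [d1W, hDW]; ring)
    simp only [Derivation.sub_apply, Derivation.add_apply, Derivation.smul_apply, smul_eq_mul] at h1
    rw [← hAd] at h1
    rw [map_sub, dm _ _ _ hAalg]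
    linear_combination h1
  have hu' : u - B * W ∈ FF P := by
    refine mem_FF_of_der hP fun D hDP => ?_
    have h1 := hB (D2 + D - (D W) • D2) (by
      simp only [Derivation.sub_apply, Derivation.add_apply, Derivation.smul_apply, smul_eq_mul]
      rw [d2P, hDP]; ring) (by
      simp only [Derivation.sub_apply, Derivation.add_apply, Derivation.smul_apply, smul_eq_mul]
      rw [d2W]; ring)
    simp only [Derivation.sub_apply, Derivation.add_apply, Derivation.smul_apply, smul_eq_mul] at h1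
    rw [← hBd] at h1
    rw [map_sub, dm _ _ _ hBalg]
    linear_combination h1
  have h2t : D2 (t - A * P) = D2 t := by rw [map_sub, dm _ _ _ hAalg, d2P]; ring
  have h1u : D1 (u - B * W) = D1 u := by rw [map_sub, dm _ _ _ hBalg, d1W]; ring
  have hc1 : D2 t ∈ FF W := by rw [← h2t]; exact der_mem_FF hW ht' D2 d2W
  have hc2 : D1 u ∈ FF P := by rw [← h1u]; exact der_mem_FF hP hu' D1 d1P
  have ht0 : D2 t ≠ 0 := fun h => hC0 (by rw [hCd, h, zero_mul])
  have hu0 : D1 u ≠ 0 := fun h => hC0 (by rw [hCd, h, mul_zero])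
  have hc : IsAlgebraic ℚ (D2 t) := by
    refine alg_of_inter hPW ?_ hc1
    have h1 : D2 t = C * (D1 u)⁻¹ := by rw [hCd]; field_simp
    rw [h1]
    exact FF_mul (FF_of_alg hCalg) (FF_inv hc2)
  have hc' : IsAlgebraic ℚ (D1 u) := by
    have h1 : D1 u = C * (D2 t)⁻¹ := by rw [hCd]; field_simp
    rw [h1]
    exact hCalg.mul hc.inv
  constructor
  · refine ⟨t - A * P - D2 t * W, A, D2 t, ?_, hAalg, hc, ht0, by ring⟩
    refine alg_of_der (W := W) (FF_sub ht' (FF_mul (FF_of_alg hc) (mem_FF_self W))) D2 d2W ?_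
    rw [map_sub, h2t, dm _ _ _ hc, d2W]
    ring
  · refine ⟨u - B * W - D1 u * P, B, D1 u, ?_, hBalg, hc', hu0, by ring⟩
    refine alg_of_der (W := P) (FF_sub hu' (FF_mul (FF_of_alg hc') (mem_FF_self P))) D1 d1P ?_
    rw [map_sub, h1u, dm _ _ _ hc', d1P]
    ring

end Pool.Agent.CHU
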