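import Pool.Agent.CHU.CM
import Pool.Agent.CHU.SchU
import Pool.Agent.CHU.HL
import Pool.Agent.CHU.Exc2
import Pool.Agent.ZCM.Bridge

/-! # Translates of logarithms and of elliptic logarithms -/

set_option autoImplicit false

namespace Pool.Agent.CHU
open Pool.Agent.ZCM

theorem P_eq_tsum (L : PeriodPair) (z : ℂ) :
    L.weierstrassP z = 1 / z ^ 2 + ∑' q : ℤ × ℤ, if q = 0 then (0 : ℂ) else
      (1 / (z - ((q.1 : ℂ) * L.ω₁ + (q.2 : ℂ) * L.ω₂)) ^ 2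
        - 1 / ((q.1 : ℂ) * L.ω₁ + (q.2 : ℂ) * L.ω₂) ^ 2) := by
  have h := L.weierstrassPExcept_add 0 z
  have h1 : L.weierstrassPExcept (0 : L.lattice) z = ∑' q : ℤ × ℤ, if q = 0 then (0 : ℂ) else
      (fun l : ℂ => if l = 0 then (0 : ℂ) else (1 / (z - l) ^ 2 - 1 / l ^ 2))
      ((q.1 : ℂ) * L.ω₁ + (q.2 : ℂ) * L.ω₂) := by
    rw [← Bridge_tsum_ite L
      (fun l : ℂ => if l = 0 then (0 : ℂ) else (1 / (z - l) ^ 2 - 1 / l ^ 2)) (if_pos rfl)]
    rfl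
  rw [← h, h1, add_comm]
  congr 1
  · simp
  · refine tsum_congr fun q => ?_
    split_ifs with hq
    · rfl
    · have hq' : (q.1 : ℂ) * L.ω₁ + (q.2 : ℂ) * L.ω₂ ≠ 0 := fun h => hq ((Bridge_eq_zero L q).1 h)
      exact if_neg hq'

/-- `℘` is algebraic at all `w` with `n (w - u) ∈ Ω`, when `℘(u)` is algebraic -/
theorem P_translate_alg (L : PeriodPair) (h2 : IsAlgebraic ℚ L.g₂) (h3 : IsAlgebraic ℚ L.g₃)
    (u w : ℂ) (hw : w ∉ L.lattice) (hu : IsAlgebraic ℚ (L.weierstrassP u)) (n : ℕ)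
    (hn : 0 < n) (hnz : (n : ℂ) * (w - u) ∈ L.lattice) : IsAlgebraic ℚ (L.weierstrassP w) := by
  obtain ⟨a, ha⟩ : ∃ a, a = ((-1 / 4 : ℚ) : ℂ) * L.g₂ := ⟨_, rfl⟩
  obtain ⟨b, hb⟩ : ∃ b, b = ((-1 / 4 : ℚ) : ℂ) * L.g₃ := ⟨_, rfl⟩
  have ha' : IsAlgebraic ℚ a := by rw [ha]; exact ZFR.SchSc_rat _ h2
  have hb' : IsAlgebraic ℚ b := by rw [hb]; exact ZFR.SchSc_rat _ h3
  have e2 : L.g₂ = -4 * a := by rw [ha]; push_cast; ring
  have e3 : L.g₃ = -4 * b := by rw [hb]; push_cast; ring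
  by_cases hw2 : 2 * w ∈ L.lattice
  · exact ZFR.P_half_alg L a b ha' hb' e2 e3 w hw hw2
  by_cases hu2 : 2 * u ∈ L.lattice
  · refine P_torsion_alg L a b ha' hb' e2 e3 w hw (2 * n) (by omega) ?_
    have h5 : ((2 * n : ℕ) : ℂ) * w = (2 : ℤ) • ((n : ℂ) * (w - u)) + (n : ℤ) • (2 * u) := by
      rw [zsmul_eq_mul, zsmul_eq_mul]; push_cast; ring
    rw [h5]
    exact add_mem (L.lattice.smul_mem _ hnz) (L.lattice.smul_mem _ hu2)
  refine CM_alg_of_derivation _ fun D => ?_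
  obtain ⟨A, B, hAB⟩ := ZFR.exists_AB L a b e2 e3 D (CM_der_alg D ha') (CM_der_alg D hb')
    (fun z w => ZFR.zeta_add L a b e2 e3 z w) (fun z w => ZFR.derivP_add L a b e2 e3 z w)
  -- `A` vanishes on the lattice
  have hA0 : ∀ l : L.lattice, A l = 0 := by
    intro l
    have h4 : 2 * (w + l) ∉ L.lattice := by
      intro h
      apply hw2
      have h5 : 2 * w = 2 * (w + l) - ((2 : ℤ) • (l : ℂ)) := by
        rw [zsmul_eq_mul]; push_cast; ring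
      rw [h5]
      exact sub_mem h (L.lattice.smul_mem _ l.2)
    have h5 := (hAB (w + l) h4).1
    have h6 := (hAB w hw2).1
    rw [L.weierstrassP_add_coe, L.derivWeierstrassP_add_coe, h6, map_add] at h5
    have h7 := ZFR.derivP_ne_zero L a b e2 e3 hw2
    have h8 : A l * L.derivWeierstrassP w = 0 := by linear_combination (-1 : ℂ) * h5
    exact (mul_eq_zero.1 h8).resolve_right h7
  have hAu : A u = 0 := by
    have h6 := (hAB u hu2).1
    rw [CM_der_alg D hu] at h6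
    exact (mul_eq_zero.1 h6.symm).resolve_right (ZFR.derivP_ne_zero L a b e2 e3 hu2)
  have h4 : A ((n : ℂ) * (w - u)) = 0 := hA0 ⟨_, hnz⟩
  have h5 : A ((n : ℂ) * (w - u)) = (n : ℂ) * (A w - A u) := by
    rw [← nsmul_eq_mul, map_nsmul, nsmul_eq_mul, map_sub]
  rw [h5] at h4
  have h6 : A w - A u = 0 := (mul_eq_zero.1 h4).resolve_left (by exact_mod_cast hn.ne')
  rw [(hAB w hw2).1, show A w = 0 by linear_combination h6 + hAu, zero_mul]

/-- common denominators -/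
theorem den_mem (L : PeriodPair) (m n : ℚ) : ∃ N : ℕ, 0 < N ∧
    (N : ℂ) * ((m : ℂ) * L.ω₁ + n * L.ω₂) ∈ L.lattice := by
  refine ⟨m.den * n.den, Nat.mul_pos m.den_pos n.den_pos, ?_⟩
  rw [PeriodPair.mem_lattice]
  refine ⟨m.num * n.den, n.num * m.den, ?_⟩
  have h1 : ((m.den : ℚ) * m : ℚ) = m.num := Rat.den_mul_eq_num m
  have h2 : ((n.den : ℚ) * n : ℚ) = n.num := Rat.den_mul_eq_num n
  have h1' : ((m.den : ℂ) * m : ℂ) = m.num := by exact_mod_cast h1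
  have h2' : ((n.den : ℂ) * n : ℂ) = n.num := by exact_mod_cast h2
  push_cast
  linear_combination (-(n.den : ℂ) * L.ω₁) * h1' - ((m.den : ℂ) * L.ω₂) * h2'

/-- translates of an elliptic logarithm are zero or transcendental -/
theorem u_translate_transc (L : PeriodPair) (h2 : IsAlgebraic ℚ L.g₂) (h3 : IsAlgebraic ℚ L.g₃)
    (hτ : IsAlgebraic ℚ (L.ω₂ / L.ω₁)) (hW : Transcendental ℚ L.ω₁)
    (u : ℂ) (hu : IsAlgebraic ℚ (L.weierstrassP u)) (m n : ℚ)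
    (h0 : u + ((m : ℂ) * L.ω₁ + n * L.ω₂) ≠ 0) :
    Transcendental ℚ (u + ((m : ℂ) * L.ω₁ + n * L.ω₂)) := by
  have hW0 : L.ω₁ ≠ 0 := fun h => hW (by rw [h]; exact isAlgebraic_zero)
  by_cases hl : u + ((m : ℂ) * L.ω₁ + n * L.ω₂) ∈ L.lattice
  · obtain ⟨r, s, hrs⟩ := PeriodPair.mem_lattice.1 hl
    intro hA
    apply hW
    have e1 : u + ((m : ℂ) * L.ω₁ + n * L.ω₂) = ((r : ℂ) + s * (L.ω₂ / L.ω₁)) * L.ω₁ := by
      rw [← hrs]
      field_simp
    have hc : IsAlgebraic ℚ ((r : ℂ) + s * (L.ω₂ / L.ω₁)) :=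
      (isAlgebraic_intCast r).add ((isAlgebraic_intCast s).mul hτ)
    have hc0 : (r : ℂ) + s * (L.ω₂ / L.ω₁) ≠ 0 := by
      intro h
      rw [e1, h, zero_mul] at h0
      exact h0 rfl
    have e2 : L.ω₁ = ((r : ℂ) + s * (L.ω₂ / L.ω₁))⁻¹ * (u + ((m : ℂ) * L.ω₁ + n * L.ω₂)) := by
      rw [e1, ← mul_assoc, inv_mul_cancel₀ hc0, one_mul]
    rw [e2]
    exact hc.inv.mul hA
  · obtain ⟨N, hN, hNm⟩ := den_mem L m n
    refine u_transc L h2 h3 _ hl (P_translate_alg L h2 h3 u _ hl hu N hN ?_)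
    have e : (N : ℂ) * (u + ((m : ℂ) * L.ω₁ + n * L.ω₂) - u) =
        (N : ℂ) * ((m : ℂ) * L.ω₁ + n * L.ω₂) := by ring
    rw [e]
    exact hNm

/-- translates of a logarithm are zero or transcendental -/
theorem t_translate_transc (t : ℂ) (ht : IsAlgebraic ℚ (Complex.exp t)) (q : ℚ)
    (h0 : t + q * (2 * (Real.pi : ℂ) * Complex.I) ≠ 0) :
    Transcendental ℚ (t + q * (2 * (Real.pi : ℂ) * Complex.I)) := by
  intro hA
  refine HL.hermite_lindemann hA h0 ?_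
  rw [Complex.exp_add]
  refine ht.mul ?_
  have h1 : (Complex.exp (q * (2 * (Real.pi : ℂ) * Complex.I))) ^ q.den = 1 := by
    rw [← Complex.exp_nat_mul]
    have h2 : ((q.den : ℚ) * q : ℚ) = q.num := Rat.den_mul_eq_num q
    have h2' : ((q.den : ℂ) * q : ℂ) = q.num := by exact_mod_cast h2
    rw [← mul_assoc, h2']
    exact Complex.exp_int_mul_two_pi_mul_I q.num
  have h3 : IsIntegral ℚ (Complex.exp (q * (2 * (Real.pi : ℂ) * Complex.I))) := by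
    refine IsIntegral.of_pow q.den_pos ?_
    rw [h1]
    exact isIntegral_one
  exact h3.isAlgebraic

end Pool.Agent.CHU
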